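import Mathlib

/-!
# The lattice kernel of the Maxwell field and its continuum limit: definitions
-/

namespace Pool.Agent.T2h94

noncomputable section

/-- the law at time `k` of the lazy walk on `ℤ^d` started at `0` -/
def pk (d : ℕ) : ℕ → (Fin d → ℤ) → ℝ
  | 0, z => if z = 0 then 1 else 0
  | k + 1, z => 1 / 2 * pk d k z +
      (1 / (4 * d) : ℝ) * ∑ i, (pk d k (z + Pi.single i 1) + pk d k (z - Pi.single i 1))

/-- the second difference `Dp_l Dm_j` of the truncated Green function of minus the Laplacian -/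
def hk (d K : ℕ) (l j : Fin d) (z : Fin d → ℤ) : ℝ :=
  (1 / (4 * d) : ℝ) * ∑ k ∈ Finset.range K,
    (pk d k (z + Pi.single l 1 - Pi.single j 1) - pk d k (z + Pi.single l 1) -
      pk d k (z - Pi.single j 1) + pk d k z)

/-- `- ∂_l ∂_j G`, with `G(X) = Γ(d/2 - 1) / (4 π^(d/2)) |X|^(2-d)` the Green function of `-Δ` on
`ℝ^d` -/
def Dk (d : ℕ) (l j : Fin d) (X : Fin d → ℝ) : ℝ :=
  Real.Gamma (d / 2) / (2 * Real.pi ^ (d / 2 : ℝ)) *
    (((if l = j then ∑ i, X i ^ 2 else 0) - d * (X l * X j)) /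
      (∑ i, X i ^ 2) ^ (d / 2 + 1 : ℝ))

end

end Pool.Agent.T2h94
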