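import Mathlib
import Pool.Agent.T2h94.KDef

/-!
# The truncated Green function of the lattice and the Green function of the continuum: definitions
-/

namespace Pool.Agent.T2h94

noncomputable section

/-- the truncated Green function of minus the Laplacian on the lattice -/
def gk (d K : ℕ) (z : Fin d → ℤ) : ℝ := (1 / (4 * d) : ℝ) * ∑ k ∈ Finset.range K, pk d k z

/-- the Green function `Γ(d/2 - 1) / (4 π^(d/2)) |X|^(2-d)` of minus the Laplacian on `ℝ^d` -/
def Gr (d : ℕ) (X : Fin d → ℝ) : ℝ :=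
  Real.Gamma (d / 2 - 1) / (4 * Real.pi ^ (d / 2 : ℝ)) * (∑ i, X i ^ 2) ^ ((2 - d) / 2 : ℝ)

end

end Pool.Agent.T2h94
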