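import Mathlib
import Pool.Agent.W793.YM.Lat2

/-!
# A priori moments of all orders
-/

open MeasureTheory Matrix
open scoped Matrix.Norms.Frobenius ContDiff
open Pool.Agent.H906R3.YM Pool.Agent.W793.YM

namespace Pool.Agent.T2h94

set_option linter.unusedSectionVars false
set_option linter.unusedVariables false

noncomputable section

variable {G : Type*} [Group G] [TopologicalSpace G] [IsTopologicalGroup G] [CompactSpace G]
  [SecondCountableTopology G] [MeasurableSpace G] [BorelSpace G] (μ : Measure G)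
  [IsProbabilityMeasure μ] [μ.IsMulLeftInvariant] [μ.IsMulRightInvariant] [μ.IsInvInvariant]
  {N n : ℕ} {L : LD G N n}

/-- the exponential moment of one plaquette -/
theorem plaq_exp : ∃ C : ℝ, 0 < C ∧ ∀ b : ℝ, 1 ≤ b → ∀ (d m : ℕ) [NeZero m], 2 ≤ m →
    ∀ (x : Fin d → ZMod (2 * m)) (i j : Fin d), i ≠ j →
      EX μ L (b ^ 4) (fun U : Ed d (2 * m) → G => Real.exp (b ^ 4 * we L (plqT U x i j))) ≤
        C * b ^ (4 * N ^ 2) := by
  obtain ⟨c0, hc0, hcz⟩ := zz_lower μ (L := L)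
  refine ⟨1 / c0, by positivity, fun b hb d m _ hm x i j hij => ?_⟩
  have hb0 : 0 < b := by linarith
  have hZ := Zt_pos μ (L := L) (d := d) (l := 2 * m) (b ^ 4)
  have hcontx : ∀ x : Fin d → ZMod (2 * m), Continuous fun U : Ed d (2 * m) → G =>
      Real.exp (b ^ 4 * we L (plqT U x i j)) := fun x =>
    Real.continuous_exp.comp (continuous_const.mul (Sm_cont ⟨_, we_mem (L := L) x i j⟩))
  have h0 : Zt μ L (b ^ 4) (fun U : Ed d (2 * m) → G => Real.exp (b ^ 4 * we L (plqT U x i j))) =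
      Zt μ L (b ^ 4) (fun U : Ed d (2 * m) → G => Real.exp (b ^ 4 * we L (plqT U 0 i j))) := by
    rw [← Zt_tr μ _ x (fun U : Ed d (2 * m) → G => Real.exp (b ^ 4 * we L (plqT U 0 i j)))]
    simp only [plqT_tr, zero_add]
  unfold EX
  rw [div_le_iff₀ hZ, h0]
  obtain ⟨c, hc, hred⟩ := Zt_red μ (L := L) hm j (b ^ 4)
  have hcont := hcontx 0
  have hgi : GI fun U : Ed d (2 * m) → G => Real.exp (b ^ 4 * we L (plqT U 0 i j)) := fun γ U => by
    show Real.exp (b ^ 4 * we L (plqT (gt γ U) 0 i j)) = _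
    rw [plqT_gt, we_conj]
  have hgi1 : GI fun _ : Ed d (2 * m) → G => (1 : ℝ) := fun γ U => rfl
  rw [hred _ hcont hgi, hred _ continuous_const hgi1]
  have hJ : ((0 + eT j : Fin d → ZMod (2 * m)), i) ∈ (TR hm j).J := by
    show _ ∈ Finset.univ.filter _
    rw [Finset.mem_filter]
    refine ⟨Finset.mem_univ _, hij, Or.inl ?_⟩
    simp only [add_same, Pi.zero_apply, zero_add]
  have h2 : (fun U : Ed d (2 * m) → G => Real.exp (b ^ 4 * we L (plqT (fix j U) 0 i j))) = fun U =>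
      Real.exp (b ^ 4 * we L ((TR hm j).W U ((0 + eT j : Fin d → ZMod (2 * m)), i))) := by
    funext U
    congr 2
    have h3 : plqT (fix j U) 0 i j =
        ((TR hm j).W U ((0 + eT j : Fin d → ZMod (2 * m)), i))⁻¹ := by
      have h5 : rB j (0 : Fin d → ZMod (2 * m)) = 0 := by
        unfold rB
        simp
      have h4 : (TR hm j).W U ((0 + eT j : Fin d → ZMod (2 * m)), i) =
          U (0 + eT j, i) * (U (rA j (0 + eT j), i))⁻¹ := by
        unfold Refl.W TR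
        simp [hij]
      rw [h4, rA_eq', h5]
      unfold plqT
      rw [fix_i0' U 0 (Or.inl rfl), fix_i0' U _ (Or.inl (add_ne 0 hij)),
        fix_ne _ _ hij, fix_ne _ _ hij]
      group
    rw [h3, we_inv]
  rw [h2]
  have h3 := (TR hm j).expm μ (L := L) (by positivity : (0:ℝ) ≤ b ^ 4) (Sm_cont _)
    (wR_dep (L := L) hm (b ^ 4) j) (wR_nonneg _ _) hJ
  have h4 := hcz b hb
  obtain ⟨E1, hE1⟩ : ∃ E1, E1 = (TR hm j).Ew μ L (b ^ 4) (wR L (b ^ 4) m j).1
    (fun U => Real.exp (b ^ 4 * we L ((TR hm j).W U ((0 + eT j : Fin d → ZMod (2 * m)), i)))) :=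
    ⟨_, rfl⟩
  obtain ⟨E0, hE0⟩ : ∃ E0, E0 = (TR hm j).Ew μ L (b ^ 4) (wR L (b ^ 4) m j).1 (fun _ => 1) :=
    ⟨_, rfl⟩
  rw [← hE1, ← hE0] at h3 ⊢
  have hE1p : 0 ≤ E1 := by
    rw [hE1]
    unfold Refl.Ew
    refine integral_nonneg fun U => ?_
    exact mul_nonneg (Real.exp_pos _).le
      (mul_nonneg (mul_nonneg (wR_nonneg _ _ _) (wR_nonneg _ _ _)) (Real.exp_pos _).le)
  have h5 : c0 * E1 ≤ b ^ (4 * N ^ 2) * E0 := by
    calc c0 * E1 ≤ (zz μ L (b ^ 4) * b ^ (4 * N ^ 2)) * E1 := mul_le_mul_of_nonneg_right h4 hE1p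
      _ = b ^ (4 * N ^ 2) * (zz μ L (b ^ 4) * E1) := by ring
      _ ≤ _ := mul_le_mul_of_nonneg_left h3 (by positivity)
  have h6 : E1 ≤ 1 / c0 * b ^ (4 * N ^ 2) * E0 := by
    have : E1 = (c0 * E1) / c0 := by field_simp
    rw [this, div_le_iff₀ hc0]
    calc c0 * E1 ≤ _ := h5
      _ = _ := by field_simp
  calc c * E1 ≤ c * (1 / c0 * b ^ (4 * N ^ 2) * E0) := mul_le_mul_of_nonneg_left h6 hc.le
    _ = _ := by ring

/-- the elementary inequality behind the moment bound -/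
lemma pow_le_exp {c z : ℝ} (hc : 1 ≤ c) (hz : 0 ≤ z) (k j : ℕ) :
    z ^ k ≤ c * (1 + (k * (j + 1)).factorial * (c ^ (j + 1))⁻¹ * Real.exp z) := by
  have hc0 : 0 < c := by linarith
  have hpos : 0 ≤ (k * (j + 1)).factorial * (c ^ (j + 1))⁻¹ * Real.exp z := by positivity
  have h1 : z ^ k / c ≤ 1 + (k * (j + 1)).factorial * (c ^ (j + 1))⁻¹ * Real.exp z := by
    rcases le_total (z ^ k / c) 1 with h | h
    · linarith
    · have h2 : z ^ k / c ≤ (z ^ k / c) ^ (j + 1) := by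
        rw [pow_succ]
        have h3 : 1 ≤ (z ^ k / c) ^ j := one_le_pow₀ h
        have h4 : 0 ≤ z ^ k / c := by positivity
        nlinarith
      have h3 : (z ^ k / c) ^ (j + 1) = (c ^ (j + 1))⁻¹ * z ^ (k * (j + 1)) := by
        rw [div_pow, ← pow_mul]; field_simp
      have h4 : z ^ (k * (j + 1)) ≤ (k * (j + 1)).factorial * Real.exp z := by
        have := Real.pow_div_factorial_le_exp z hz (k * (j + 1))
        rw [div_le_iff₀ (by positivity)] at this
        linarith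
      have h5 : (c ^ (j + 1))⁻¹ * z ^ (k * (j + 1)) ≤
          (c ^ (j + 1))⁻¹ * ((k * (j + 1)).factorial * Real.exp z) :=
        mul_le_mul_of_nonneg_left h4 (by positivity)
      rw [h3] at h2
      linarith
  rw [div_le_iff₀ hc0] at h1
  linarith

/-- all moments of one plaquette -/
theorem we_moment (k q : ℕ) : ∃ C : ℝ, 0 < C ∧ ∀ c : ℝ, 1 ≤ c → ∀ (d m : ℕ) [NeZero m], 2 ≤ m →
    ∀ (x : Fin d → ZMod (2 * m)) (i j : Fin d), i ≠ j →
      EX μ L ((c ^ q) ^ 4) (fun U : Ed d (2 * m) → G => ((c ^ q) ^ 4 * we L (plqT U x i j)) ^ k) ≤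
        C * c := by
  obtain ⟨C, hC, h⟩ := plaq_exp μ (L := L)
  obtain ⟨J, hJ⟩ : ∃ J, J = q * (4 * N ^ 2) := ⟨_, rfl⟩
  refine ⟨1 + (k * (J + 1)).factorial * C, by positivity, fun c hc d m _ hm x i j hij => ?_⟩
  have hc0 : 0 < c := by linarith
  have hb : 1 ≤ c ^ q := one_le_pow₀ hc
  have h1 := h (c ^ q) hb d m hm x i j hij
  have hwc : Continuous fun U : Ed d (2 * m) → G => we L (plqT U x i j) :=
    Sm_cont ⟨_, we_mem (L := L) x i j⟩
  have c1 : Continuous fun U : Ed d (2 * m) → G => ((c ^ q) ^ 4 * we L (plqT U x i j)) ^ k :=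
    (continuous_const.mul hwc).pow k
  have c2 : Continuous fun U : Ed d (2 * m) → G =>
      Real.exp ((c ^ q) ^ 4 * we L (plqT U x i j)) :=
    Real.continuous_exp.comp (continuous_const.mul hwc)
  have c3 : Continuous fun U : Ed d (2 * m) → G => ((k * (J + 1)).factorial : ℝ) *
      (c ^ (J + 1))⁻¹ * Real.exp ((c ^ q) ^ 4 * we L (plqT U x i j)) := continuous_const.mul c2
  have h2 : EX μ L ((c ^ q) ^ 4) (fun U : Ed d (2 * m) → G =>
      ((c ^ q) ^ 4 * we L (plqT U x i j)) ^ k) ≤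
      EX μ L ((c ^ q) ^ 4) (fun U : Ed d (2 * m) → G => c * (1 + ((k * (J + 1)).factorial : ℝ) *
        (c ^ (J + 1))⁻¹ * Real.exp ((c ^ q) ^ 4 * we L (plqT U x i j)))) :=
    EX_mono μ c1 (continuous_const.mul (continuous_const.add c3)) fun U =>
      pow_le_exp hc (mul_nonneg (by positivity) (we_nonneg _)) k J
  rw [EX_smul, EX_add μ (F := fun _ : Ed d (2 * m) → G => 1) continuous_const c3, EX_const,
    EX_smul] at h2
  refine h2.trans ?_
  have h3 : (c ^ q) ^ (4 * N ^ 2) = c ^ J := by rw [← pow_mul, hJ]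
  rw [h3] at h1
  have h4 : (c ^ (J + 1))⁻¹ * (C * c ^ J) ≤ C := by
    rw [pow_succ, mul_inv]
    have : (c ^ J)⁻¹ * c⁻¹ * (C * c ^ J) = c⁻¹ * C := by field_simp
    rw [this]
    have : c⁻¹ ≤ 1 := inv_le_one_of_one_le₀ hc
    nlinarith
  have h5 : ((k * (J + 1)).factorial : ℝ) * (c ^ (J + 1))⁻¹ * EX μ L ((c ^ q) ^ 4)
      (fun U : Ed d (2 * m) → G => Real.exp ((c ^ q) ^ 4 * we L (plqT U x i j))) ≤
      (k * (J + 1)).factorial * C := by
    calc _ ≤ ((k * (J + 1)).factorial : ℝ) * (c ^ (J + 1))⁻¹ * (C * c ^ J) :=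
          mul_le_mul_of_nonneg_left h1 (by positivity)
      _ = (k * (J + 1)).factorial * ((c ^ (J + 1))⁻¹ * (C * c ^ J)) := by ring
      _ ≤ _ := mul_le_mul_of_nonneg_left h4 (by positivity)
  calc c * (1 + ((k * (J + 1)).factorial : ℝ) * (c ^ (J + 1))⁻¹ * EX μ L ((c ^ q) ^ 4)
      (fun U : Ed d (2 * m) → G => Real.exp ((c ^ q) ^ 4 * we L (plqT U x i j)))) ≤
      c * (1 + (k * (J + 1)).factorial * C) := mul_le_mul_of_nonneg_left (by linarith) hc0.le
    _ = _ := by ring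

/-- all moments of the deviation of one plaquette -/
theorem dv_moment (k q : ℕ) : ∃ C : ℝ, 0 < C ∧ ∀ c : ℝ, 1 ≤ c → ∀ (d m : ℕ) [NeZero m], 2 ≤ m →
    ∀ (x : Fin d → ZMod (2 * m)) (i j : Fin d),
      EX μ L ((c ^ q) ^ 4) (fun U : Ed d (2 * m) → G => ((c ^ q) ^ 2 * dv L (plqT U x i j)) ^ k) ≤
        C * c := by
  obtain ⟨C, hC, h⟩ := we_moment μ (L := L) k q
  refine ⟨2 + 2 ^ k * C, by positivity, fun c hc d m _ hm x i j => ?_⟩
  have hc0 : 0 < c := by linarith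
  obtain ⟨b, hb⟩ : ∃ b, b = c ^ q := ⟨_, rfl⟩
  have hb1 : 1 ≤ b := by rw [hb]; exact one_le_pow₀ hc
  have hdc : Continuous fun U : Ed d (2 * m) → G => dv L (plqT U x i j) :=
    dv_cont.comp (plqT_cont _ _ _)
  have hwc : Continuous fun U : Ed d (2 * m) → G => we L (plqT U x i j) :=
    Sm_cont ⟨_, we_mem (L := L) x i j⟩
  have key : ∀ U : Ed d (2 * m) → G, (b ^ 2 * dv L (plqT U x i j)) ^ k ≤
      1 + 2 ^ k * (b ^ 4 * we L (plqT U x i j)) ^ k := by
    intro U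
    obtain ⟨t, ht⟩ : ∃ t, t = (b ^ 2 * dv L (plqT U x i j)) ^ k := ⟨_, rfl⟩
    have h1 : t ^ 2 = 2 ^ k * (b ^ 4 * we L (plqT U x i j)) ^ k := by
      rw [ht, ← pow_mul, mul_comm k 2, pow_mul, mul_pow, dv_sq, ← mul_pow]
      congr 1; ring
    rw [← ht, ← h1]
    nlinarith [sq_nonneg (t - 1), sq_nonneg (t + 1)]
  rw [← hb]
  have h1 := h c hc d m hm x i j
  rw [← hb] at h1
  have c2 : Continuous fun U : Ed d (2 * m) → G => 2 ^ k * (b ^ 4 * we L (plqT U x i j)) ^ k :=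
    continuous_const.mul ((continuous_const.mul hwc).pow k)
  have h2 := EX_mono μ (L := L) (β := b ^ 4) (F := fun U : Ed d (2 * m) → G =>
    (b ^ 2 * dv L (plqT U x i j)) ^ k) (H := fun U => 1 + 2 ^ k * (b ^ 4 * we L (plqT U x i j)) ^ k)
    ((continuous_const.mul hdc).pow k) (continuous_const.add c2) key
  rw [EX_add μ (F := fun _ : Ed d (2 * m) → G => 1) continuous_const c2, EX_const, EX_smul] at h2
  refine h2.trans ?_
  by_cases hij : i = j
  · subst hij
    have h3 : (fun U : Ed d (2 * m) → G => (b ^ 4 * we L (plqT U x i i)) ^ k) =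
        fun _ => (b ^ 4 * 0) ^ k := by
      funext U
      have h2 : plqT U x i i = 1 := by unfold plqT; group
      have h4 := dv_sq (L := L) 1
      rw [dv_one] at h4
      have h5 : we L (1 : G) = 0 := by nlinarith
      rw [h2, h5]
    rw [h3, EX_const, mul_zero]
    rcases Nat.eq_zero_or_pos k with hk | hk
    · subst hk
      simp only [pow_zero, mul_one, one_mul]
      nlinarith
    · rw [zero_pow hk.ne', mul_zero, add_zero]
      have : 0 ≤ 2 ^ k * C := by positivity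
      nlinarith
  · have h3 := h1 hij
    have h4 : (2 : ℝ) ^ k * EX μ L (b ^ 4)
        (fun U : Ed d (2 * m) → G => (b ^ 4 * we L (plqT U x i j)) ^ k) ≤ 2 ^ k * (C * c) :=
      mul_le_mul_of_nonneg_left h3 (by positivity)
    nlinarith

/-- all moments of the total deviation of a box -/
theorem sB_all (k q : ℕ) : ∃ C : ℝ, 0 < C ∧ ∀ c : ℝ, 1 ≤ c → ∀ (d m : ℕ) [NeZero m], 2 ≤ m →
    ∀ M : ℕ,
      EX μ L ((c ^ q) ^ 4) (fun U : Ed d (2 * m) → G => ((c ^ q) ^ 2 * sB L M U) ^ (k + 1)) ≤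
        C * ((M : ℝ) ^ d * d ^ 2) ^ (k + 1) * c := by
  obtain ⟨C, hC, h⟩ := dv_moment μ (L := L) (k + 1) q
  refine ⟨C, by positivity, fun c hc d m _ hm M => ?_⟩
  have hc0 : 0 < c := by linarith
  obtain ⟨b, hb⟩ : ∃ b, b = c ^ q := ⟨_, rfl⟩
  have hb1 : 1 ≤ b := by rw [hb]; exact one_le_pow₀ hc
  have hb0 : 0 < b := by linarith
  have h' := fun x i j => h c hc d m hm x i j
  rw [← hb] at h' ⊢
  obtain ⟨I, hI⟩ : ∃ I : Finset (Pt d × Fin d × Fin d), I = box d M ×ˢ Finset.univ := ⟨_, rfl⟩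
  obtain ⟨f, hf⟩ : ∃ f : Pt d × Fin d × Fin d → (Ed d (2 * m) → G) → ℝ,
    f = fun q U => if q.2.1 < q.2.2 then b ^ 2 * dv L (plqT U (ct (2 * m) q.1) q.2.1 q.2.2) else 0 :=
    ⟨_, rfl⟩
  have hsum : ∀ U : Ed d (2 * m) → G, b ^ 2 * sB L M U = ∑ q ∈ I, f q U := by
    intro U
    rw [hI, Finset.sum_product, hf]
    unfold sB
    rw [Finset.mul_sum]
    refine Finset.sum_congr rfl fun v _ => ?_
    rw [Fintype.sum_prod_type, Finset.mul_sum]
    refine Finset.sum_congr rfl fun j _ => ?_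
    rw [Finset.mul_sum]
    refine Finset.sum_congr rfl fun k _ => ?_
    simp only
    split_ifs <;> ring
  have hf0 : ∀ q U, 0 ≤ f q U := fun q U => by
    rw [hf]
    simp only
    split_ifs
    · exact mul_nonneg (by positivity) (dv_nonneg _)
    · exact le_rfl
  have hcard : (I.card : ℝ) = (M : ℝ) ^ d * d ^ 2 := by
    rw [hI, Finset.card_product, card_box]
    simp only [Finset.card_univ, Fintype.card_prod, Fintype.card_fin]
    push_cast; ring
  have hfc : ∀ q, Continuous (f q) := fun q => by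
    rw [hf]
    by_cases hq : q.2.1 < q.2.2
    · simp only [hq, if_true]
      exact continuous_const.mul (dv_cont.comp (plqT_cont _ _ _))
    · simp only [hq, if_false]
      exact continuous_const
  have hq : ∀ q ∈ I, EX μ L (b ^ 4) (fun U => f q U ^ (k + 1)) ≤ C * c := by
    intro q _
    refine le_trans (EX_mono μ ((hfc q).pow _) ((continuous_const.mul
      (dv_cont.comp (plqT_cont (ct (2 * m) q.1) q.2.1 q.2.2))).pow (k + 1)) fun U => ?_)
      (h' (ct (2 * m) q.1) q.2.1 q.2.2)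
    refine pow_le_pow_left₀ (hf0 q U) ?_ _
    rw [hf]
    simp only
    split_ifs
    · exact le_rfl
    · exact mul_nonneg (by positivity) (dv_nonneg _)
  have hpow : ∀ U : Ed d (2 * m) → G, (b ^ 2 * sB L M U) ^ (k + 1) ≤
      (I.card : ℝ) ^ k * ∑ q ∈ I, f q U ^ (k + 1) := by
    intro U
    rw [hsum]
    exact pow_sum_le_card_mul_sum_pow (s := I) (f := fun q => f q U) (fun q _ => hf0 q U) k
  have h1 := EX_mono μ (L := L) (β := b ^ 4) (F := fun U : Ed d (2 * m) → G =>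
    (b ^ 2 * sB L M U) ^ (k + 1)) (H := fun U => (I.card : ℝ) ^ k * ∑ q ∈ I, f q U ^ (k + 1))
    ((continuous_const.mul (sB_cont (L := L) M)).pow _)
    (continuous_const.mul (continuous_finsetSum _ fun q _ => (hfc q).pow _)) hpow
  rw [EX_smul, EX_sum μ I (F := fun q U => f q U ^ (k + 1)) fun q _ => (hfc q).pow _] at h1
  refine h1.trans ?_
  have h2 : ∑ q ∈ I, EX μ L (b ^ 4) (fun U => f q U ^ (k + 1)) ≤ I.card * (C * c) := by
    rw [← nsmul_eq_mul, ← Finset.sum_const]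
    exact Finset.sum_le_sum hq
  calc (I.card : ℝ) ^ k * ∑ q ∈ I, EX μ L (b ^ 4) (fun U => f q U ^ (k + 1)) ≤
      (I.card : ℝ) ^ k * (I.card * (C * c)) := mul_le_mul_of_nonneg_left h2 (by positivity)
    _ = _ := by rw [hcard]; ring

end

end Pool.Agent.T2h94
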