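import Mathlib
import Pool.Agent.T2h94.Mom

/-!
# Legs: the components of the curvature in the comb gauge
-/

open MeasureTheory Matrix
open scoped Matrix.Norms.Frobenius ContDiff
open Pool.Agent.H906R3.YM Pool.Agent.W793.YM

namespace Pool.Agent.T2h94

set_option linter.unusedSectionVars false
set_option linter.unusedVariables false

noncomputable section

/-- a colour, a plaquette -/
structure Leg (n d l : ℕ) where
  a : Fin n
  j : Fin d
  k : Fin d
  x : Fin d → ZMod l

/-- a derivation of a product -/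
lemma deriv_prod {A ι : Type*} [CommRing A] [Algebra ℝ A] [DecidableEq ι] (D : Derivation ℝ A A)
    (S : Finset ι) (F : ι → A) :
    D (∏ s ∈ S, F s) = ∑ t ∈ S, (∏ s ∈ S.erase t, F s) * D (F t) := by
  induction S using Finset.induction_on with
  | empty => simp
  | insert i S hi ih =>
    rw [Finset.prod_insert hi, Derivation.leibniz, ih, Finset.sum_insert hi,
      Finset.erase_insert hi, smul_eq_mul, smul_eq_mul, Finset.mul_sum, add_comm]
    congr 1
    refine Finset.sum_congr rfl fun t ht => ?_
    have hne : i ≠ t := fun h => hi (h ▸ ht)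
    rw [Finset.erase_insert_of_ne hne, Finset.prod_insert (fun h => hi (Finset.mem_of_mem_erase h))]
    ring

lemma prod_sq_le {ι : Type*} [DecidableEq ι] (S : Finset ι) (x : ι → ℝ) :
    (∏ s ∈ S, x s) ^ 2 ≤ 1 + ∑ s ∈ S, x s ^ (2 * S.card) := by
  have h0 : 0 ≤ ∑ s ∈ S, x s ^ (2 * S.card) :=
    Finset.sum_nonneg fun s _ => by rw [pow_mul]; positivity
  rcases S.eq_empty_or_nonempty with h | h
  · subst h; simp
  · obtain ⟨t, ht, hmax⟩ := Finset.exists_max_image S (fun s => |x s|) h
    have h1 : |∏ s ∈ S, x s| ≤ |x t| ^ S.card := by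
      rw [Finset.abs_prod]
      calc ∏ s ∈ S, |x s| ≤ ∏ _s ∈ S, |x t| :=
            Finset.prod_le_prod (fun _ _ => abs_nonneg _) fun s hs => hmax s hs
        _ = _ := Finset.prod_const _
    have h2 : (∏ s ∈ S, x s) ^ 2 ≤ x t ^ (2 * S.card) := by
      rw [← sq_abs]
      calc |∏ s ∈ S, x s| ^ 2 ≤ (|x t| ^ S.card) ^ 2 := pow_le_pow_left₀ (abs_nonneg _) h1 2
        _ = x t ^ (2 * S.card) := by
            rw [← pow_mul, mul_comm S.card 2, pow_mul, sq_abs, ← pow_mul]
    have h3 := Finset.single_le_sum (f := fun s => x s ^ (2 * S.card))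
      (fun s _ => by show 0 ≤ x s ^ (2 * S.card); rw [pow_mul]; positivity) ht
    linarith

section forms

variable {n d l : ℕ} [NeZero l]

/-- the two form which evaluates the curvature at a leg -/
def ef (i : Leg n d l) : Fin n → Fm d l := fun a j k y =>
  if a = i.a ∧ y = i.x then
    (if j = i.j ∧ k = i.k then (1 : ℝ) else 0) - (if j = i.k ∧ k = i.j then 1 else 0) else 0

lemma ef_asy (i : Leg n d l) (a : Fin n) : Asy (ef i a) := by
  intro j k
  funext y
  rw [Pi.neg_apply]
  unfold ef
  by_cases h : a = i.a ∧ y = i.x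
  · rw [if_pos h, if_pos h]
    have e1 : (if k = i.j ∧ j = i.k then (1 : ℝ) else 0) = if j = i.k ∧ k = i.j then 1 else 0 := by
      simp only [and_comm]
    have e2 : (if k = i.k ∧ j = i.j then (1 : ℝ) else 0) = if j = i.j ∧ k = i.k then 1 else 0 := by
      simp only [and_comm]
    rw [e1, e2]; ring
  · rw [if_neg h, if_neg h, neg_zero]

lemma ef_abs (i : Leg n d l) (a : Fin n) (j k : Fin d) (y : St d l) : |ef i a j k y| ≤
    if a = i.a then (if y = i.x then ((if j = i.j then (if k = i.k then (1 : ℝ) else 0) else 0) +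
      (if j = i.k then (if k = i.j then 1 else 0) else 0)) else 0) else 0 := by
  unfold ef
  by_cases h1 : a = i.a
  · by_cases h2 : y = i.x
    · rw [if_pos ⟨h1, h2⟩, if_pos h1, if_pos h2]
      refine (abs_sub _ _).trans ?_
      have e : ∀ (p q : Prop) [Decidable p] [Decidable q],
          |(if p ∧ q then (1 : ℝ) else 0)| = if p then (if q then 1 else 0) else 0 := by
        intro p q _ _
        by_cases hp : p <;> by_cases hq : q <;> simp [hp, hq]
      rw [e, e]
    · rw [if_neg fun h => h2 h.2, if_pos h1, if_neg h2, abs_zero]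
  · rw [if_neg fun h => h1 h.1, if_neg h1, abs_zero]

lemma ef_N1 (i : Leg n d l) : N1 (ef i) ≤ 2 := by
  unfold N1
  calc ∑ a, ∑ j, ∑ k, ∑ y, |ef i a j k y| ≤ ∑ a, ∑ j, ∑ k, ∑ y : St d l,
      (if a = i.a then (if y = i.x then ((if j = i.j then (if k = i.k then (1 : ℝ) else 0) else 0) +
      (if j = i.k then (if k = i.j then 1 else 0) else 0)) else 0) else 0) :=
        Finset.sum_le_sum fun a _ => Finset.sum_le_sum fun j _ => Finset.sum_le_sum fun k _ =>
          Finset.sum_le_sum fun y _ => ef_abs i a j k y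
    _ = 2 := by
        have h1 : ∀ (a : Fin n) (j k : Fin d), ∑ y : St d l,
            (if a = i.a then (if y = i.x then ((if j = i.j then (if k = i.k then (1 : ℝ) else 0)
              else 0) + (if j = i.k then (if k = i.j then 1 else 0) else 0)) else 0) else 0) =
            if a = i.a then ((if j = i.j then (if k = i.k then (1 : ℝ) else 0) else 0) +
              (if j = i.k then (if k = i.j then 1 else 0) else 0)) else 0 := by
          intro a j k
          by_cases h : a = i.a
          · simp only [if_pos h, Finset.sum_ite_eq', Finset.mem_univ, if_true]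
          · simp only [if_neg h, Finset.sum_const_zero]
        simp only [h1]
        have h2 : ∀ (a : Fin n), ∑ j : Fin d, ∑ k : Fin d,
            (if a = i.a then ((if j = i.j then (if k = i.k then (1 : ℝ) else 0) else 0) +
              (if j = i.k then (if k = i.j then 1 else 0) else 0)) else 0) =
            if a = i.a then 2 else 0 := by
          intro a
          by_cases h : a = i.a
          · simp only [if_pos h, Finset.sum_add_distrib]
            have h3 : ∀ (u v : Fin d), ∑ j : Fin d, ∑ k : Fin d,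
                (if j = u then (if k = v then (1 : ℝ) else 0) else 0) = 1 := by
              intro u v
              rw [Finset.sum_eq_single u]
              · simp
              · intro j _ hj; simp [hj]
              · intro hu; exact absurd (Finset.mem_univ _) hu
            rw [h3, h3]; norm_num
          · simp only [if_neg h, Finset.sum_const_zero]
        simp only [h2, Finset.sum_ite_eq', Finset.mem_univ, if_true]

lemma ef_eval (i : Leg n d l) (g : Fin n → Fm d l) :
    ∑ a, ipF (ef i a) (g a) = 1 / 2 * (g i.a i.j i.k i.x - g i.a i.k i.j i.x) := by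
  rw [Finset.sum_eq_single i.a]
  · unfold ipF ip2
    congr 1
    have h1 : ∀ (j k : Fin d), ∑ x : St d l, ef i i.a j k x * g i.a j k x =
        (if j = i.j then (if k = i.k then g i.a j k i.x else 0) else 0) -
          (if j = i.k then (if k = i.j then g i.a j k i.x else 0) else 0) := by
      intro j k
      rw [Finset.sum_eq_single i.x]
      · unfold ef
        rw [if_pos ⟨rfl, rfl⟩]
        by_cases h1 : j = i.j <;> by_cases h2 : k = i.k <;> by_cases h3 : j = i.k <;>
          by_cases h4 : k = i.j <;> simp_all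
      · intro x _ hx
        unfold ef
        rw [if_neg fun h => hx h.2, zero_mul]
      · intro h; exact absurd (Finset.mem_univ _) h
    simp only [h1, Finset.sum_sub_distrib]
    have h3 : ∀ (u v : Fin d), ∑ j : Fin d, ∑ k : Fin d,
        (if j = u then (if k = v then g i.a j k i.x else 0) else 0) = g i.a u v i.x := by
      intro u v
      rw [Finset.sum_eq_single u]
      · simp
      · intro j _ hj; simp [hj]
      · intro hu; exact absurd (Finset.mem_univ _) hu
    rw [h3, h3]
  · intro a _ ha
    unfold ipF ip2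
    have h1 : ∀ j k x, ef i a j k x * g a j k x = 0 := by
      intro j k x
      unfold ef
      rw [if_neg fun h => ha h.1, zero_mul]
    simp only [h1, Finset.sum_const_zero, mul_zero]
  · intro h; exact absurd (Finset.mem_univ _) h

/-- the window in which the legs lie -/
def InW (K : ℕ) (i : Leg n d l) : Prop := ∀ s, K + 2 ≤ wv i.x s ∧ wv i.x s < 2 * K + 2

lemma ef_SW {K : ℕ} {i : Leg n d l} (hi : InW K i) (a : Fin n) (j k : Fin d) :
    SW (K + 2) (2 * K + 2) (ef i a j k) := by
  intro x hx s
  have h1 : x = i.x := by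
    by_contra h
    exact hx (by unfold ef; rw [if_neg fun h' => h h'.2])
  rw [h1]; exact hi s

/-- the covariance of two legs -/
def Cv (K : ℕ) (i t : Leg n d l) : ℝ := ∑ a, ipF (ef t a) (d1 (AK K (ef i) a))

end forms

variable {G : Type*} [Group G] [TopologicalSpace G] [IsTopologicalGroup G] [CompactSpace G]
  [SecondCountableTopology G] [MeasurableSpace G] [BorelSpace G] (μ : Measure G)
  [IsProbabilityMeasure μ] [μ.IsMulLeftInvariant] [μ.IsMulRightInvariant] [μ.IsInvInvariant]
  {N n : ℕ} {L : LD G N n}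

section val

variable {d l : ℕ} [NeZero l]

lemma Fs_ef (i : Leg n d l) (U : Ed d l → G) : Fs L (ef i) U = Fz L U i.a i.j i.k i.x := by
  unfold Fs
  rw [ef_eval i (Fz L U)]
  have h := congrFun (Fz_asy (L := L) U i.a i.k i.j) i.x
  rw [Pi.neg_apply] at h
  rw [h]; ring

lemma Fz_le (U : Ed d l → G) (i : Leg n d l) :
    |Fz L U i.a i.j i.k i.x| ≤ dv L (plqT U i.x i.j i.k) := by
  unfold Fz
  refine (fi_le _ _).trans (le_of_eq ?_)
  rw [dv_conj]

lemma dv_le_sB {M : ℕ} (U : Ed d l → G) {x : St d l} (hx : ∀ i, wv x i < M) (j k : Fin d) :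
    dv L (plqT U x j k) ≤ sB L M U := by
  by_cases h : j = k
  · subst h
    have h2 : plqT U x j j = 1 := by unfold plqT; group
    rw [h2, dv_one]; exact sB_nonneg _ _
  · exact le_sB'' U hx h

variable (L) in
/-- the component of the curvature at a leg, times `b ^ 2` -/
def Phi (b : ℝ) (i : Leg n d l) (U : Ed d l → G) : ℝ := b ^ 2 * Fz L U i.a i.j i.k i.x

variable (L) in
/-- the same as a smooth function -/
def PhiS (b : ℝ) (i : Leg n d l) : Sm L (Ed d l) := b ^ 2 • FsS L (ef i)

lemma PhiS_apply (b : ℝ) (i : Leg n d l) (U : Ed d l → G) : (PhiS L b i).1 U = Phi L b i U := by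
  show b ^ 2 * (FsS L (ef i)).1 U = _
  rw [FsS_apply, Fs_ef]; rfl

lemma prodS_apply {ι : Type*} (b : ℝ) (S : Finset ι) (p : ι → Leg n d l) (U : Ed d l → G) :
    (∏ s ∈ S, PhiS L b (p s)).1 U = ∏ s ∈ S, Phi L b (p s) U := by
  have h : (∏ s ∈ S, PhiS L b (p s)).1 U = L.ev U (∏ s ∈ S, PhiS L b (p s)) := rfl
  rw [h, map_prod]
  exact Finset.prod_congr rfl fun s _ => PhiS_apply b (p s) U

lemma Phi_cont (b : ℝ) (i : Leg n d l) : Continuous (Phi L b i : (Ed d l → G) → ℝ) := by
  have : (Phi L b i : (Ed d l → G) → ℝ) = (PhiS L b i).1 := by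
    funext U; exact (PhiS_apply b i U).symm
  rw [this]; exact Sm_cont _

lemma prod_cont {ι : Type*} (b : ℝ) (S : Finset ι) (p : ι → Leg n d l) :
    Continuous fun U : Ed d l → G => ∏ s ∈ S, Phi L b (p s) U :=
  continuous_finsetProd _ fun s _ => Phi_cont b (p s)

lemma Phi_abs_dv (b : ℝ) (i : Leg n d l) (U : Ed d l → G) :
    |Phi L b i U| ≤ b ^ 2 * dv L (plqT U i.x i.j i.k) := by
  unfold Phi
  rw [abs_mul, abs_of_nonneg (sq_nonneg b)]
  exact mul_le_mul_of_nonneg_left (Fz_le U i) (sq_nonneg b)

lemma Phi_abs_sB {M : ℕ} (b : ℝ) {i : Leg n d l} (hi : ∀ s, wv i.x s < M) (U : Ed d l → G) :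
    |Phi L b i U| ≤ b ^ 2 * sB L M U :=
  (Phi_abs_dv b i U).trans (mul_le_mul_of_nonneg_left (dv_le_sB U hi _ _) (sq_nonneg b))

lemma prod_abs_sB {ι : Type*} {M : ℕ} (b : ℝ) {S : Finset ι} {p : ι → Leg n d l}
    (hp : ∀ s ∈ S, ∀ i, wv (p s).x i < M) (U : Ed d l → G) :
    |∏ s ∈ S, Phi L b (p s) U| ≤ (b ^ 2 * sB L M U) ^ S.card := by
  rw [Finset.abs_prod]
  calc ∏ s ∈ S, |Phi L b (p s) U| ≤ ∏ _s ∈ S, (b ^ 2 * sB L M U) :=
        Finset.prod_le_prod (fun _ _ => abs_nonneg _) fun s hs => Phi_abs_sB b (hp s hs) U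
    _ = _ := Finset.prod_const _

end val

end

end Pool.Agent.T2h94
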