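import Mathlib
import Pool.Agent.T2h94.Legs

/-!
# Integration by parts for products of components of the curvature
-/

open MeasureTheory Matrix
open scoped Matrix.Norms.Frobenius ContDiff
open Pool.Agent.H906R3.YM Pool.Agent.W793.YM

namespace Pool.Agent.T2h94

set_option linter.unusedSectionVars false
set_option linter.unusedVariables false

noncomputable section

variable {G : Type*} [Group G] [TopologicalSpace G] [IsTopologicalGroup G] [CompactSpace G]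
  [SecondCountableTopology G] [MeasurableSpace G] [BorelSpace G] (μ : Measure G)
  [IsProbabilityMeasure μ] [μ.IsMulLeftInvariant] [μ.IsMulRightInvariant] [μ.IsInvInvariant]
  {N n : ℕ} {L : LD G N n}

/-- Cauchy-Schwarz -/
lemma EX_cs {d l : ℕ} [NeZero l] {β : ℝ} {F H : (Ed d l → G) → ℝ} (hF : Continuous F)
    (hH : Continuous H) : EX μ L β (fun U => F U * H U) ^ 2 ≤
      EX μ L β (fun U => F U ^ 2) * EX μ L β (fun U => H U ^ 2) := by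
  have h1 := Zt_cs μ (L := L) (β := β) hF hH
  have hZ := Zt_pos μ (L := L) (d := d) (l := l) β
  unfold EX
  rw [div_pow, div_mul_div_comm, ← pow_two]
  exact div_le_div_of_nonneg_right h1 (by positivity)

/-- the second moment of a product of legs -/
theorem prod_moment (k q : ℕ) : ∃ C : ℝ, 0 < C ∧ ∀ c : ℝ, 1 ≤ c → ∀ (d m : ℕ) [NeZero m], 2 ≤ m →
    ∀ (ι : Type) [DecidableEq ι] (S : Finset ι), S.card = k → ∀ p : ι → Leg n d (2 * m),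
      EX μ L ((c ^ q) ^ 4) (fun U : Ed d (2 * m) → G => (∏ s ∈ S, Phi L (c ^ q) (p s) U) ^ 2) ≤
        C * c := by
  obtain ⟨C, hC, h⟩ := dv_moment μ (L := L) (2 * k) q
  refine ⟨1 + k * C, by positivity, fun c hc d m _ hm ι _ S hS p => ?_⟩
  obtain ⟨b, hb⟩ : ∃ b, b = c ^ q := ⟨_, rfl⟩
  have h' := fun x i j => h c hc d m hm x i j
  rw [← hb] at h' ⊢
  have c1 : ∀ s, Continuous fun U : Ed d (2 * m) → G =>
      (b ^ 2 * dv L (plqT U (p s).x (p s).j (p s).k)) ^ (2 * k) := fun s =>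
    (continuous_const.mul (dv_cont.comp (plqT_cont _ _ _))).pow _
  have h1 : EX μ L (b ^ 4) (fun U : Ed d (2 * m) → G => (∏ s ∈ S, Phi L b (p s) U) ^ 2) ≤
      EX μ L (b ^ 4) (fun U : Ed d (2 * m) → G => 1 + ∑ s ∈ S,
        (b ^ 2 * dv L (plqT U (p s).x (p s).j (p s).k)) ^ (2 * k)) := by
    refine EX_mono μ ((prod_cont b S p).pow 2)
      (continuous_const.add (continuous_finsetSum _ fun s _ => c1 s)) fun U => ?_
    refine (prod_sq_le S _).trans ?_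
    rw [hS]
    refine add_le_add le_rfl (Finset.sum_le_sum fun s _ => ?_)
    rw [pow_mul, pow_mul (b ^ 2 * dv L (plqT U (p s).x (p s).j (p s).k)), ← sq_abs]
    exact pow_le_pow_left₀ (by positivity) (pow_le_pow_left₀ (abs_nonneg _) (Phi_abs_dv b _ U) 2) k
  rw [EX_add μ (F := fun _ : Ed d (2 * m) → G => 1) continuous_const
    (continuous_finsetSum _ fun s _ => c1 s), EX_const, EX_sum μ S (F := fun s U =>
      (b ^ 2 * dv L (plqT U (p s).x (p s).j (p s).k)) ^ (2 * k)) fun s _ => c1 s] at h1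
  have h2 : ∑ s ∈ S, EX μ L (b ^ 4) (fun U : Ed d (2 * m) → G =>
      (b ^ 2 * dv L (plqT U (p s).x (p s).j (p s).k)) ^ (2 * k)) ≤ k * (C * c) := by
    rw [← hS, ← nsmul_eq_mul, ← Finset.sum_const, hS]
    exact Finset.sum_le_sum fun s _ => h' _ _ _
  nlinarith

/-- the second moment of the curvature smeared with a smoothed form -/
theorem rest_moment {d : ℕ} (hd : 3 ≤ d) (q : ℕ) : ∃ C : ℝ, 0 < C ∧ ∀ c : ℝ, 1 ≤ c →
    ∀ (m K : ℕ) [NeZero m], 1 ≤ K → 3 * K + 5 < 2 * m → ∀ i : Leg n d (2 * m), InW K i →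
      EX μ L ((c ^ q) ^ 4) (fun U : Ed d (2 * m) → G =>
        ((c ^ q) ^ 2 * Fs L (Pks K (ef i)) U) ^ 2) ≤
        C * c * (1 / Real.sqrt (Real.sqrt K) + (K : ℝ) ^ (2 * d + 3) / (c ^ q) ^ 2) ^ 2 := by
  obtain ⟨C1, hC1, h1⟩ := sB_all μ (L := L) 3 q
  obtain ⟨D, hD⟩ : ∃ D : ℝ, D = n * d ^ 2 / 4 * (8 * n) * (4 * ((2 + 2 * Real.sqrt (2 * d)) ^ d * 4) +
    4 * (16 * (8 * d + 1) ^ 4) * (C1 * (8 ^ d * d ^ 2) ^ 4)) := ⟨_, rfl⟩
  have hD0 : 0 ≤ D := by rw [hD]; positivity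
  refine ⟨D + 1, by positivity, fun c hc m K _ hK hKm i hi => ?_⟩
  have hc0 : 0 < c := by linarith
  obtain ⟨b, hb⟩ : ∃ b, b = c ^ q := ⟨_, rfl⟩
  have hb1 : 1 ≤ b := by rw [hb]; exact one_le_pow₀ hc
  have hb0 : 0 < b := by linarith
  have hm : 2 ≤ m := by omega
  have hK1 : (1 : ℝ) ≤ K := by exact_mod_cast hK
  have hK0 : (0 : ℝ) < K := by linarith
  obtain ⟨M, hM⟩ : ∃ M, M = 3 * K + 5 := ⟨_, rfl⟩
  have hM8 : (M : ℝ) ≤ 8 * K := by rw [hM]; push_cast; linarith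
  have hM0 : (0 : ℝ) ≤ M := Nat.cast_nonneg _
  have h1' := h1 c hc d m hm M
  rw [← hb] at h1' ⊢
  obtain ⟨g, hg⟩ : ∃ g, g = Pks K (ef i) := ⟨_, rfl⟩
  have hgs : ∀ a j k x, g a j k x ≠ 0 → ∀ s, wv x s + 1 < M := by
    intro a j k x hx s
    rw [hg] at hx
    have := ((ef_SW hi a j k).Plk (k := K) (by omega) (by omega)) x hx s
    omega
  have hZ := Zt_pos μ (L := L) (d := d) (l := 2 * m) (b ^ 4)
  have h2 := Fs_var μ (L := L) hm (by omega : M < 2 * m) hgs (by omega) (show 0 < b ^ 4 by positivity)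
  have h3 : EX μ L (b ^ 4) (fun U : Ed d (2 * m) → G => Fs L g U ^ 2) ≤
      n * d ^ 2 / 4 * (M * n) * (4 / b ^ 4 * N2 g + N1 g ^ 2 * (16 * (d * M + 1) ^ 4) *
        EX μ L (b ^ 4) (fun U : Ed d (2 * m) → G => sB L M U ^ 4)) := by
    unfold EX
    rw [div_le_iff₀ hZ]
    refine h2.trans (le_of_eq ?_)
    field_simp
  have h4 : EX μ L (b ^ 4) (fun U : Ed d (2 * m) → G => (b ^ 2 * Fs L g U) ^ 2) =
      b ^ 4 * EX μ L (b ^ 4) (fun U : Ed d (2 * m) → G => Fs L g U ^ 2) := by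
    rw [← EX_smul]; congr 1; funext U; ring
  have h5 : b ^ 8 * EX μ L (b ^ 4) (fun U : Ed d (2 * m) → G => sB L M U ^ 4) ≤
      C1 * ((M : ℝ) ^ d * d ^ 2) ^ 4 * c := by
    refine le_trans (le_of_eq ?_) h1'
    rw [← EX_smul]; congr 1; funext U; ring
  obtain ⟨E4, hE4⟩ : ∃ E4, E4 = EX μ L (b ^ 4) (fun U : Ed d (2 * m) → G => sB L M U ^ 4) :=
    ⟨_, rfl⟩
  have hE40 : 0 ≤ E4 := by rw [hE4]; exact EX_nonneg μ fun U => by positivity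
  rw [← hE4] at h3 h5
  have hN1 : N1 g ≤ 2 := by rw [hg]; exact (N1_Pks (by omega) K _).trans (ef_N1 i)
  have hN10 := N1_nonneg g
  have hN2 : (K : ℝ) * N2 g ≤ (2 + 2 * Real.sqrt (2 * d)) ^ d * 4 / Real.sqrt K := by
    have e1 := N2_Pks hd hK (by omega) (ef i)
    rw [← hg] at e1
    refine e1.trans ?_
    have e2 : N1 (ef i) ^ 2 ≤ 4 := by
      have := pow_le_pow_left₀ (N1_nonneg (ef i)) (ef_N1 i) 2
      linarith
    have hs1 : 1 ≤ Real.sqrt K := by rw [Real.one_le_sqrt]; exact hK1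
    have e3 : Real.sqrt K ≤ Real.sqrt K ^ (d - 2) := by
      calc Real.sqrt K = Real.sqrt K ^ 1 := (pow_one _).symm
        _ ≤ _ := pow_le_pow_right₀ hs1 (by omega)
    have hs0 : 0 < Real.sqrt K := by linarith
    calc (2 + 2 * Real.sqrt (2 * d)) ^ d / Real.sqrt K ^ (d - 2) * N1 (ef i) ^ 2 ≤
        (2 + 2 * Real.sqrt (2 * d)) ^ d / Real.sqrt K * 4 := by gcongr
      _ = _ := by ring
  have hN20 := N2_nonneg g
  rw [← hg, h4]
  obtain ⟨S, hS⟩ : ∃ S : ℝ, S = Real.sqrt (Real.sqrt K) := ⟨_, rfl⟩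
  have hS0 : 0 < S := by rw [hS]; exact Real.sqrt_pos.2 (Real.sqrt_pos.2 hK0)
  have hS2 : S ^ 2 = Real.sqrt K := by rw [hS]; exact Real.sq_sqrt (Real.sqrt_nonneg _)
  rw [← hS2] at hN2
  rw [← hS]
  obtain ⟨c2, hc2⟩ : ∃ c2 : ℝ, c2 = (2 + 2 * Real.sqrt (2 * d)) ^ d * 4 := ⟨_, rfl⟩
  have hc20 : 0 ≤ c2 := by rw [hc2]; positivity
  rw [← hc2] at hN2 hD
  have hd0 : (0 : ℝ) ≤ d := Nat.cast_nonneg _
  have e1 : b ^ 4 * EX μ L (b ^ 4) (fun U : Ed d (2 * m) → G => Fs L g U ^ 2) ≤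
      n * d ^ 2 / 4 * (8 * n) * (4 * (K * N2 g) + 4 * (16 * (8 * d * K + 1) ^ 4) * K *
        (b ^ 8 * E4 / b ^ 4)) := by
    refine (mul_le_mul_of_nonneg_left h3 (by positivity)).trans ?_
    have e2 : b ^ 4 * (n * d ^ 2 / 4 * (M * n) * (4 / b ^ 4 * N2 g + N1 g ^ 2 *
        (16 * (d * M + 1) ^ 4) * E4)) = n * d ^ 2 / 4 * (M * n) * (4 * N2 g + N1 g ^ 2 *
        (16 * (d * M + 1) ^ 4) * (b ^ 8 * E4 / b ^ 4)) := by field_simp
    rw [e2]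
    have e3 : (d : ℝ) * M + 1 ≤ 8 * d * K + 1 := by
      have := mul_le_mul_of_nonneg_left hM8 hd0
      linarith
    have e4 : N1 g ^ 2 ≤ 4 := by
      have := pow_le_pow_left₀ hN10 hN1 2
      linarith
    have e5 : 0 ≤ b ^ 8 * E4 / b ^ 4 := by positivity
    calc n * d ^ 2 / 4 * (M * n) * (4 * N2 g + N1 g ^ 2 * (16 * (d * M + 1) ^ 4) *
          (b ^ 8 * E4 / b ^ 4)) ≤ n * d ^ 2 / 4 * (8 * K * n) * (4 * N2 g + 4 *
          (16 * (8 * d * K + 1) ^ 4) * (b ^ 8 * E4 / b ^ 4)) := by gcongr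
      _ = _ := by ring
  refine e1.trans ?_
  have e2 : b ^ 8 * E4 / b ^ 4 ≤ C1 * (8 ^ d * d ^ 2) ^ 4 * (K : ℝ) ^ (4 * d) * c / b ^ 4 := by
    refine div_le_div_of_nonneg_right (h5.trans ?_) (by positivity)
    have : (M : ℝ) ^ d * d ^ 2 ≤ (8 ^ d * d ^ 2) * K ^ d := by
      calc (M : ℝ) ^ d * d ^ 2 ≤ (8 * K) ^ d * d ^ 2 := by gcongr
        _ = _ := by rw [mul_pow]; ring
    calc C1 * ((M : ℝ) ^ d * d ^ 2) ^ 4 * c ≤ C1 * ((8 ^ d * d ^ 2) * K ^ d) ^ 4 * c := by gcongr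
      _ = _ := by rw [mul_pow, ← pow_mul, mul_comm d 4]; ring
  have e3 : (8 * (d : ℝ) * K + 1) ^ 4 ≤ (8 * d + 1) ^ 4 * K ^ 4 := by
    rw [← mul_pow]
    refine pow_le_pow_left₀ (by positivity) ?_ 4
    have : (8 * (d : ℝ) + 1) * K = 8 * d * K + K := by ring
    linarith
  have e4 : 4 * (16 * (8 * (d : ℝ) * K + 1) ^ 4) * K * (b ^ 8 * E4 / b ^ 4) ≤
      4 * (16 * (8 * d + 1) ^ 4) * (C1 * (8 ^ d * d ^ 2) ^ 4) *
        (c * ((K : ℝ) ^ (2 * d + 3) / b ^ 2) ^ 2) := by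
    calc 4 * (16 * (8 * (d : ℝ) * K + 1) ^ 4) * K * (b ^ 8 * E4 / b ^ 4) ≤
        4 * (16 * ((8 * d + 1) ^ 4 * K ^ 4)) * K *
          (C1 * (8 ^ d * d ^ 2) ^ 4 * (K : ℝ) ^ (4 * d) * c / b ^ 4) := by gcongr
      _ = 4 * (16 * (8 * d + 1) ^ 4) * (C1 * (8 ^ d * d ^ 2) ^ 4) *
          (c * ((K : ℝ) ^ (4 * d + 5) / b ^ 4)) := by rw [pow_add (K : ℝ) (4 * d) 5]; ring
      _ ≤ 4 * (16 * (8 * d + 1) ^ 4) * (C1 * (8 ^ d * d ^ 2) ^ 4) *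
          (c * ((K : ℝ) ^ (4 * d + 6) / b ^ 4)) := by
          have : (K : ℝ) ^ (4 * d + 5) ≤ (K : ℝ) ^ (4 * d + 6) :=
            pow_le_pow_right₀ hK1 (by omega)
          gcongr
      _ = _ := by
          have : ((K : ℝ) ^ (2 * d + 3) / b ^ 2) ^ 2 = (K : ℝ) ^ (4 * d + 6) / b ^ 4 := by
            rw [div_pow, ← pow_mul, ← pow_mul]; congr 2; ring
          rw [this]
  obtain ⟨X, hX⟩ : ∃ X : ℝ, X = 1 / S := ⟨_, rfl⟩
  obtain ⟨Y, hY⟩ : ∃ Y : ℝ, Y = (K : ℝ) ^ (2 * d + 3) / b ^ 2 := ⟨_, rfl⟩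
  have hX0 : 0 ≤ X := by rw [hX]; positivity
  have hY0 : 0 ≤ Y := by rw [hY]; positivity
  have e5 : 4 * ((K : ℝ) * N2 g) ≤ 4 * c2 * (c * X ^ 2) := by
    have f1 : c2 / S ^ 2 = c2 * X ^ 2 := by rw [hX]; field_simp
    rw [f1] at hN2
    have f2 : c2 * X ^ 2 ≤ c2 * (c * X ^ 2) := by
      exact mul_le_mul_of_nonneg_left (le_mul_of_one_le_left (sq_nonneg X) hc) hc20
    linarith
  rw [← hX, ← hY]
  rw [← hY] at e4
  obtain ⟨c3, hc3⟩ : ∃ c3 : ℝ, c3 = 4 * (16 * (8 * (d : ℝ) + 1) ^ 4) * (C1 * (8 ^ d * d ^ 2) ^ 4) :=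
    ⟨_, rfl⟩
  have hc30 : 0 ≤ c3 := by rw [hc3]; positivity
  rw [← hc3] at e4 hD
  obtain ⟨n2, hn2⟩ : ∃ n2 : ℝ, n2 = (n : ℝ) * d ^ 2 / 4 * (8 * n) := ⟨_, rfl⟩
  have hn20 : 0 ≤ n2 := by rw [hn2]; positivity
  rw [← hn2] at hD ⊢
  have e6 : n2 * (4 * ((K : ℝ) * N2 g) + 4 * (16 * (8 * d * K + 1) ^ 4) * K *
      (b ^ 8 * E4 / b ^ 4)) ≤ n2 * (4 * c2 * (c * X ^ 2) + c3 * (c * Y ^ 2)) :=
    mul_le_mul_of_nonneg_left (add_le_add e5 e4) hn20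
  refine e6.trans ?_
  have e7 : n2 * (4 * c2 * (c * X ^ 2) + c3 * (c * Y ^ 2)) ≤ D * (c * (X + Y) ^ 2) := by
    rw [hD]
    have f1 : c * X ^ 2 ≤ c * (X + Y) ^ 2 :=
      mul_le_mul_of_nonneg_left (pow_le_pow_left₀ hX0 (le_add_of_nonneg_right hY0) 2) hc0.le
    have f2 : c * Y ^ 2 ≤ c * (X + Y) ^ 2 :=
      mul_le_mul_of_nonneg_left (pow_le_pow_left₀ hY0 (le_add_of_nonneg_left hX0) 2) hc0.le
    calc n2 * (4 * c2 * (c * X ^ 2) + c3 * (c * Y ^ 2)) ≤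
        n2 * (4 * c2 * (c * (X + Y) ^ 2) + c3 * (c * (X + Y) ^ 2)) := by gcongr
      _ = _ := by ring
  have e8 : 0 ≤ c * (X + Y) ^ 2 := by positivity
  have e9 : (D + 1) * c * (X + Y) ^ 2 = D * (c * (X + Y) ^ 2) + c * (X + Y) ^ 2 := by ring
  rw [e9]
  exact e7.trans (le_add_of_nonneg_right e8)

end

end Pool.Agent.T2h94
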