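import Mathlib
import Pool.Agent.T2h94.Step

/-!
# One step of the recursion for the moments of the curvature
-/

open MeasureTheory Matrix
open scoped Matrix.Norms.Frobenius ContDiff
open Pool.Agent.H906R3.YM Pool.Agent.W793.YM

namespace Pool.Agent.T2h94

set_option linter.unusedSectionVars false
set_option linter.unusedVariables false

noncomputable section

variable {G : Type*} [Group G] [TopologicalSpace G] [IsTopologicalGroup G] [CompactSpace G]
  [SecondCountableTopology G] [MeasurableSpace G] [BorelSpace G] (μ : Measure G)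
  [IsProbabilityMeasure μ] [μ.IsMulLeftInvariant] [μ.IsMulRightInvariant] [μ.IsInvInvariant]
  {N n : ℕ} {L : LD G N n}

/-- the pointwise part of the step -/
lemma step_point {d m K : ℕ} [NeZero m] (hd : 0 < d) (hK : 1 ≤ K) (hKm : 3 * K + 5 < 2 * m)
    {b : ℝ} (hb : 0 < b) {ι : Type} [DecidableEq ι] (S : Finset ι) (i0 : Leg n d (2 * m))
    (p : ι → Leg n d (2 * m)) (h0 : InW K i0) (hp : ∀ s ∈ S, InW K (p s))
    (U : Ed d (2 * m) → G) :
    b ^ 2 * |(VA L (AK K (ef i0)) (aS0 L d (2 * m))).1 U +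
        Fs L (fun a => d1 (AK K (ef i0) a)) U| * |∏ s ∈ S, Phi L b (p s) U| +
      ∑ t ∈ S, |(VA L (AK K (ef i0)) (FsS L (ef (p t)))).1 U + Cv K i0 (p t)| *
        |∏ s ∈ S.erase t, Phi L b (p s) U| +
      b ^ 2 * |Fs L (fun a => cx (uKs K (ef i0) a)) U| * |∏ s ∈ S, Phi L b (p s) U| ≤
    (64 * d ^ 2 + S.card * (16 * n * d * (8 * d + 1)) + 6 * (2 + 8 * d) * (8 * d) ^ 2) *
      ((K : ℝ) ^ 3 / b ^ 2) * (1 + (b ^ 2 * sB L (3 * K + 5) U) ^ (S.card + 2)) := by
  obtain ⟨M, hM⟩ : ∃ M, M = 3 * K + 5 := ⟨_, rfl⟩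
  rw [← hM]
  have hMl : M < 2 * m := by omega
  have hK1 : (1 : ℝ) ≤ K := by exact_mod_cast hK
  have hK0 : (0 : ℝ) < K := by linarith
  have hM8 : (M : ℝ) ≤ 8 * K := by rw [hM]; push_cast; linarith
  have hM0 : (0 : ℝ) ≤ M := Nat.cast_nonneg _
  have hd0 : (0 : ℝ) ≤ d := Nat.cast_nonneg _
  have hn0 : (0 : ℝ) ≤ n := Nat.cast_nonneg _
  have hdM : (d : ℝ) * M ≤ 8 * d * K := by
    have := mul_le_mul_of_nonneg_left hM8 hd0
    linarith
  obtain ⟨k, hk⟩ : ∃ k, k = S.card := ⟨_, rfl⟩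
  obtain ⟨w, hw⟩ : ∃ w, w = b ^ 2 * sB L M U := ⟨_, rfl⟩
  have hs := sB_nonneg (L := L) M U
  have hw0 : 0 ≤ w := by rw [hw]; positivity
  have hww : sB L M U = w / b ^ 2 := by rw [hw]; field_simp
  -- supports
  have sP : ∀ a j k, SW 2 (3 * K + 2) (Pks K (ef i0) a j k) := fun a j k =>
    ((ef_SW h0 a j k).Plk (k := K) (by omega) (by omega)).mono (by omega) (by omega)
  have sU : ∀ a j k, SW 2 (3 * K + 2) (uKs K (ef i0) a j k) := fun a j k =>
    ((ef_SW h0 a j k).uK (k := K) (by omega) (by omega)).mono (by omega) (by omega)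
  have sA : ∀ a k, SW 2 (3 * K + 3) (AK K (ef i0) a k) := fun a k => SW.ds2 (sU a) (by omega) k
  have sC : ∀ a j k, SW 1 (3 * K + 3) (cx (uKs K (ef i0) a) j k) := fun a j k =>
    SW.cx (sU a) (by omega) (by omega) j k
  have hAB : ∀ α ι, AB M (AK K (ef i0) α ι) := fun α ι x hx i => by
    have := sA α ι x hx i; omega
  have hpM : ∀ s ∈ S, ∀ i, wv (p s).x i < M := fun s hs i => by
    have := hp s hs i; omega
  have hN := ef_N1 i0
  have hN0 := N1_nonneg (ef i0)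
  have hS1 : S1 (AK K (ef i0)) ≤ 4 * K := by
    refine (S1_AK hd K (ef i0)).trans ?_
    have := mul_le_mul_of_nonneg_left hN hK0.le
    linarith
  have hS10 := S1_nonneg (AK K (ef i0))
  have hprod := prod_abs_sB (L := L) b hpM U
  rw [← hw, ← hk] at hprod
  obtain ⟨P, hP⟩ : ∃ P, P = |∏ s ∈ S, Phi L b (p s) U| := ⟨_, rfl⟩
  rw [← hP] at hprod ⊢
  have hP0 : 0 ≤ P := by rw [hP]; exact abs_nonneg _
  obtain ⟨R, hR⟩ : ∃ R : ℝ, R = 1 + w ^ (k + 2) := ⟨_, rfl⟩
  have hPw : P * w ^ 2 ≤ R := by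
    calc P * w ^ 2 ≤ w ^ k * w ^ 2 := mul_le_mul_of_nonneg_right hprod (by positivity)
      _ = w ^ (k + 2) := by rw [pow_add]
      _ ≤ R := by rw [hR]; linarith
  have hR0 : 0 ≤ R := by rw [hR]; positivity
  have hKb : 0 ≤ (K : ℝ) ^ 3 / b ^ 2 := by positivity
  rw [← hw, ← hk, ← hR]
  -- first term
  have t1 : b ^ 2 * |(VA L (AK K (ef i0)) (aS0 L d (2 * m))).1 U +
        Fs L (fun a => d1 (AK K (ef i0) a)) U| * P ≤ 64 * d ^ 2 * ((K : ℝ) ^ 3 / b ^ 2) * R := by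
    have e1 := VA_act (L := L) hAB hMl U
    have e2 : (∑ α, ∑ ι, ∑ x, |AK K (ef i0) α ι x|) = S1 (AK K (ef i0)) := rfl
    rw [e2] at e1
    have e3 : |(VA L (AK K (ef i0)) (aS0 L d (2 * m))).1 U +
        Fs L (fun a => d1 (AK K (ef i0) a)) U| ≤ 64 * d ^ 2 * K ^ 2 * (w / b ^ 2) ^ 2 := by
      refine e1.trans ?_
      rw [hww]
      refine mul_le_mul_of_nonneg_right ?_ (sq_nonneg _)
      calc S1 (AK K (ef i0)) * (2 * d * (d * M)) ≤ 4 * K * (2 * d * (8 * d * K)) := by gcongr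
        _ = _ := by ring
    calc b ^ 2 * |(VA L (AK K (ef i0)) (aS0 L d (2 * m))).1 U +
        Fs L (fun a => d1 (AK K (ef i0) a)) U| * P ≤
        b ^ 2 * (64 * d ^ 2 * K ^ 2 * (w / b ^ 2) ^ 2) * P := by gcongr
      _ = 64 * d ^ 2 * (K ^ 2 / b ^ 2) * (P * w ^ 2) := by field_simp
      _ ≤ 64 * d ^ 2 * (K ^ 3 / b ^ 2) * R := by
          have : (K : ℝ) ^ 2 ≤ K ^ 3 := pow_le_pow_right₀ hK1 (by norm_num)
          gcongr
  -- second term
  have t2 : ∑ t ∈ S, |(VA L (AK K (ef i0)) (FsS L (ef (p t)))).1 U + Cv K i0 (p t)| *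
        |∏ s ∈ S.erase t, Phi L b (p s) U| ≤
      k * (16 * n * d * (8 * d + 1)) * ((K : ℝ) ^ 3 / b ^ 2) * R := by
    have e1 : ∀ t ∈ S, |(VA L (AK K (ef i0)) (FsS L (ef (p t)))).1 U + Cv K i0 (p t)| *
        |∏ s ∈ S.erase t, Phi L b (p s) U| ≤
        16 * n * d * (8 * d + 1) * ((K : ℝ) ^ 3 / b ^ 2) * R := by
      intro t ht
      have f1 := VA_Fs (L := L) hAB hMl hS10 (le_S1 (AK K (ef i0))) (fun a => ef_asy (p t) a)
        (fun a j k x hx i => by
          have := ef_SW (hp t ht) a j k x hx i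
          omega) U
      have f2 : |(VA L (AK K (ef i0)) (FsS L (ef (p t)))).1 U + Cv K i0 (p t)| ≤
          16 * n * d * (8 * d + 1) * K ^ 2 * (w / b ^ 2) := by
        refine f1.trans ?_
        rw [hww]
        refine mul_le_mul_of_nonneg_right ?_ (by positivity)
        have f3 := ef_N1 (p t)
        have f4 := N1_nonneg (ef (p t))
        have f5 : (d : ℝ) * M + 1 ≤ (8 * d + 1) * K := by
          have : (8 * (d : ℝ) + 1) * K = 8 * d * K + K := by ring
          linarith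
        calc N1 (ef (p t)) * (2 * n * d * (S1 (AK K (ef i0)) * (d * M + 1))) ≤
            2 * (2 * n * d * (4 * K * ((8 * d + 1) * K))) := by gcongr
          _ = _ := by ring
      have f3 := prod_abs_sB (L := L) b (S := S.erase t) (p := p) (M := M)
        (fun s hs i => hpM s (Finset.mem_of_mem_erase hs) i) U
      rw [← hw, Finset.card_erase_of_mem ht, ← hk] at f3
      have hk1 : 1 ≤ k := by rw [hk]; exact Finset.card_pos.2 ⟨t, ht⟩
      have f4 : |∏ s ∈ S.erase t, Phi L b (p s) U| * w ≤ R := by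
        calc |∏ s ∈ S.erase t, Phi L b (p s) U| * w ≤ w ^ (k - 1) * w :=
              mul_le_mul_of_nonneg_right f3 hw0
          _ = w ^ k := by rw [← pow_succ]; congr 1; omega
          _ ≤ R := by
              rw [hR]
              rcases le_total w 1 with h | h
              · have := pow_le_one₀ (n := k) hw0 h
                have : 0 ≤ w ^ (k + 2) := by positivity
                linarith
              · have := pow_le_pow_right₀ h (show k ≤ k + 2 by omega)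
                linarith
      have f5 := abs_nonneg (∏ s ∈ S.erase t, Phi L b (p s) U)
      calc |(VA L (AK K (ef i0)) (FsS L (ef (p t)))).1 U + Cv K i0 (p t)| *
          |∏ s ∈ S.erase t, Phi L b (p s) U| ≤
          16 * n * d * (8 * d + 1) * K ^ 2 * (w / b ^ 2) *
            |∏ s ∈ S.erase t, Phi L b (p s) U| := mul_le_mul_of_nonneg_right f2 f5
        _ = 16 * n * d * (8 * d + 1) * (K ^ 2 / b ^ 2) *
            (|∏ s ∈ S.erase t, Phi L b (p s) U| * w) := by ring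
        _ ≤ 16 * n * d * (8 * d + 1) * (K ^ 3 / b ^ 2) * R := by
            have : (K : ℝ) ^ 2 ≤ K ^ 3 := pow_le_pow_right₀ hK1 (by norm_num)
            gcongr
    refine (Finset.sum_le_sum e1).trans (le_of_eq ?_)
    rw [Finset.sum_const, nsmul_eq_mul, hk]; ring
  -- third term
  have t3 : b ^ 2 * |Fs L (fun a => cx (uKs K (ef i0) a)) U| * P ≤
      6 * (2 + 8 * d) * (8 * d) ^ 2 * ((K : ℝ) ^ 3 / b ^ 2) * R := by
    have e3 := Fs_cx (L := L) (M := M) (uKs_asy (K := K) (ef_asy i0)) (fun a j k x hx i => by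
        have := sC a j k x hx i; omega) hMl U
    have e4 : N1 (fun a => cx (uKs K (ef i0) a)) ≤ 2 * ((2 + 8 * d) * K) := by
      have e5 := N1_cx hd K (ef i0)
      have e6 : (2 + 8 * (d : ℝ) * K) ≤ (2 + 8 * d) * K := by
        have : (2 + 8 * (d : ℝ)) * K = 2 * K + 8 * d * K := by ring
        linarith
      calc _ ≤ _ := e5
        _ ≤ ((2 + 8 * d) * K) * 2 := mul_le_mul e6 hN hN0 (by positivity)
        _ = _ := by ring
    have e5 : |Fs L (fun a => cx (uKs K (ef i0) a)) U| ≤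
        6 * (2 + 8 * d) * (8 * d) ^ 2 * K ^ 3 * (w / b ^ 2) ^ 2 := by
      refine e3.trans ?_
      rw [hww]
      calc N1 (fun a => cx (uKs K (ef i0) a)) * (3 * (d * M * (w / b ^ 2)) ^ 2) ≤
          2 * ((2 + 8 * d) * K) * (3 * (8 * d * K * (w / b ^ 2)) ^ 2) := by
            have : 0 ≤ N1 (fun a => cx (uKs K (ef i0) a)) := N1_nonneg _
            gcongr
        _ = _ := by ring
    calc b ^ 2 * |Fs L (fun a => cx (uKs K (ef i0) a)) U| * P ≤
        b ^ 2 * (6 * (2 + 8 * d) * (8 * d) ^ 2 * K ^ 3 * (w / b ^ 2) ^ 2) * P := by gcongr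
      _ = 6 * (2 + 8 * d) * (8 * d) ^ 2 * (K ^ 3 / b ^ 2) * (P * w ^ 2) := by field_simp
      _ ≤ _ := by gcongr
  have e : (64 * (d : ℝ) ^ 2 + k * (16 * n * d * (8 * d + 1)) + 6 * (2 + 8 * d) * (8 * d) ^ 2) *
      ((K : ℝ) ^ 3 / b ^ 2) * R = 64 * d ^ 2 * ((K : ℝ) ^ 3 / b ^ 2) * R +
      k * (16 * n * d * (8 * d + 1)) * ((K : ℝ) ^ 3 / b ^ 2) * R +
      6 * (2 + 8 * d) * (8 * d) ^ 2 * ((K : ℝ) ^ 3 / b ^ 2) * R := by ring
  rw [e]
  exact add_le_add (add_le_add t1 t2) t3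

end

end Pool.Agent.T2h94
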