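import Mathlib

/-!
# Sums over pairings
-/

namespace Pool.Agent.T2h94

set_option linter.unusedSectionVars false

noncomputable section

/-- The sum over all pairings of the set `S` of the products of the covariances of the pairs
`i < j`: the least element is paired with each of the others (Isserlis' theorem). -/
def wick {ι : Type*} [LinearOrder ι] (C : ι → ι → ℝ) (S : Finset ι) : ℝ :=
  if h : S.Nonempty then
    ∑ t ∈ (S.erase (S.min' h)).attach,
      C (S.min' h) t * wick C ((S.erase (S.min' h)).erase t)
  else 1
termination_by S.card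
decreasing_by
  exact lt_of_le_of_lt (Finset.card_le_card (Finset.erase_subset _ _))
    (Finset.card_erase_lt_of_mem (Finset.min'_mem S h))

variable {ι : Type*} [LinearOrder ι] {C C' : ι → ι → ℝ}

lemma wick_empty (C : ι → ι → ℝ) : wick C ∅ = 1 := by
  rw [wick, dif_neg (by simp)]

lemma wick_rec (C : ι → ι → ℝ) {S : Finset ι} (h : S.Nonempty) :
    wick C S = ∑ t ∈ S.erase (S.min' h),
      C (S.min' h) t * wick C ((S.erase (S.min' h)).erase t) := by
  rw [wick, dif_pos h]
  exact Finset.sum_attach (S.erase (S.min' h))
    (fun t => C (S.min' h) t * wick C ((S.erase (S.min' h)).erase t))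

/-- the recursion, the least element being given -/
lemma wick_rec' (C : ι → ι → ℝ) {S : Finset ι} {m : ι} (hm : m ∈ S) (hmin : ∀ t ∈ S, m ≤ t) :
    wick C S = ∑ t ∈ S.erase m, C m t * wick C ((S.erase m).erase t) := by
  have h : S.Nonempty := ⟨m, hm⟩
  have e : S.min' h = m := le_antisymm (Finset.min'_le _ _ hm) (hmin _ (Finset.min'_mem _ _))
  rw [wick_rec C h, e]

/-- induction over the sets, two elements being removed -/
lemma wick_ind {P : Finset ι → Prop} (h0 : P ∅)
    (h1 : ∀ (S : Finset ι) (m : ι), m ∈ S → (∀ t ∈ S, m ≤ t) →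
      (∀ T, T ⊂ S → P T) → P S) (S : Finset ι) : P S := by
  induction S using Finset.strongInduction with
  | H S ih =>
    rcases S.eq_empty_or_nonempty with h | h
    · rw [h]; exact h0
    · exact h1 S (S.min' h) (Finset.min'_mem _ _) (fun t ht => Finset.min'_le _ _ ht) ih

lemma erase_ssub {S : Finset ι} {m : ι} (hm : m ∈ S) (t : ι) : (S.erase m).erase t ⊂ S :=
  (Finset.erase_subset _ _).trans_ssubset (Finset.erase_ssubset hm)

lemma wick_congr {S : Finset ι} (h : ∀ i ∈ S, ∀ j ∈ S, i < j → C i j = C' i j) :
    wick C S = wick C' S := by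
  induction S using wick_ind with
  | h0 => rw [wick_empty, wick_empty]
  | h1 S m hm hmin ih =>
    rw [wick_rec' C hm hmin, wick_rec' C' hm hmin]
    refine Finset.sum_congr rfl fun t ht => ?_
    have ht' := Finset.mem_erase.1 ht
    rw [h m hm t ht'.2 (lt_of_le_of_ne (hmin t ht'.2) (Ne.symm ht'.1))]
    congr 1
    refine ih _ (erase_ssub hm t) fun i hi j hj hij => h i ?_ j ?_ hij
    · exact Finset.mem_of_mem_erase (Finset.mem_of_mem_erase hi)
    · exact Finset.mem_of_mem_erase (Finset.mem_of_mem_erase hj)

/-- homogeneity -/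
lemma wick_smul (C : ι → ι → ℝ) (c : ℝ) (S : Finset ι) (k : ℕ) (hS : S.card = 2 * k) :
    wick (fun i j => c * C i j) S = c ^ k * wick C S := by
  induction k generalizing S with
  | zero =>
    have : S = ∅ := by rw [← Finset.card_eq_zero, hS]
    rw [this, wick_empty, wick_empty]; simp
  | succ k ih =>
    have hne : S.Nonempty := by rw [← Finset.card_pos, hS]; omega
    rw [wick_rec _ hne, wick_rec C hne, Finset.mul_sum]
    refine Finset.sum_congr rfl fun t ht => ?_
    rw [ih]
    · ring
    · rw [Finset.card_erase_of_mem ht, Finset.card_erase_of_mem (Finset.min'_mem _ _), hS]; omega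

/-- continuity in the covariance -/
lemma wick_tendsto {α : Type*} {l : Filter α} {Ck : α → ι → ι → ℝ} (S : Finset ι)
    (h : ∀ i ∈ S, ∀ j ∈ S, i < j → Filter.Tendsto (fun k => Ck k i j) l (nhds (C i j))) :
    Filter.Tendsto (fun k => wick (Ck k) S) l (nhds (wick C S)) := by
  induction S using wick_ind with
  | h0 => simp only [wick_empty]; exact tendsto_const_nhds
  | h1 S m hm hmin ih =>
    simp only [fun k => wick_rec' (Ck k) hm hmin]
    rw [wick_rec' C hm hmin]
    refine tendsto_finsetSum _ fun t ht => ?_
    have ht' := Finset.mem_erase.1 ht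
    refine (h m hm t ht'.2 (lt_of_le_of_ne (hmin t ht'.2) (Ne.symm ht'.1))).mul ?_
    refine ih _ (erase_ssub hm t) fun i hi j hj hij => h i ?_ j ?_ hij
    · exact Finset.mem_of_mem_erase (Finset.mem_of_mem_erase hi)
    · exact Finset.mem_of_mem_erase (Finset.mem_of_mem_erase hj)

/-- change of one entry of the covariance -/
lemma wick_change {u v : ι} (huv : u < v) (hC : ∀ i j, i < j → ¬(i = u ∧ j = v) → C i j = C' i j)
    (S : Finset ι) (hu : u ∈ S) (hv : v ∈ S) :
    wick C S = wick C' S + (C u v - C' u v) * wick C ((S.erase u).erase v) := by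
  induction S using wick_ind with
  | h0 => simp at hu
  | h1 S m hm hmin ih =>
    have hcong : ∀ T : Finset ι, (u ∉ T ∨ v ∉ T) → wick C T = wick C' T := by
      intro T hT
      refine wick_congr fun i hi j hj hij => hC i j hij ?_
      rintro ⟨rfl, rfl⟩
      rcases hT with h | h
      · exact h hi
      · exact h hj
    rw [wick_rec' C hm hmin, wick_rec' C' hm hmin]
    by_cases hmu : m = u
    · -- the least element is u
      subst hmu
      have hv' : v ∈ S.erase m := Finset.mem_erase.2 ⟨huv.ne', hv⟩
      rw [← Finset.add_sum_erase _ _ hv', ← Finset.add_sum_erase _ (fun t => C' m t *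
        wick C' ((S.erase m).erase t)) hv']
      have h1 : ∑ t ∈ (S.erase m).erase v, C m t * wick C ((S.erase m).erase t) =
          ∑ t ∈ (S.erase m).erase v, C' m t * wick C' ((S.erase m).erase t) := by
        refine Finset.sum_congr rfl fun t ht => ?_
        have ht1 := Finset.mem_erase.1 ht
        have ht2 := Finset.mem_erase.1 ht1.2
        rw [hC m t (lt_of_le_of_ne (hmin t ht2.2) (Ne.symm ht2.1)) (fun h => ht1.1 h.2),
          hcong _ (Or.inl ?_)]
        simp
      rw [h1, hcong ((S.erase m).erase v) (Or.inl (by simp))]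
      ring
    · have hmu' : m < u := lt_of_le_of_ne (hmin u hu) hmu
      have hmv : m ≠ v := fun h => by rw [h] at hmu'; exact absurd hmu' (not_lt.2 huv.le)
      have hu1 : u ∈ S.erase m := Finset.mem_erase.2 ⟨Ne.symm hmu, hu⟩
      have hv1 : v ∈ (S.erase m).erase u := Finset.mem_erase.2 ⟨huv.ne',
        Finset.mem_erase.2 ⟨Ne.symm hmv, hv⟩⟩
      have hCm : ∀ t ∈ S.erase m, C m t = C' m t := fun t ht => by
        have ht' := Finset.mem_erase.1 ht
        exact hC m t (lt_of_le_of_ne (hmin t ht'.2) (Ne.symm ht'.1)) fun h => hmu h.1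
      have key : ∀ t ∈ ((S.erase m).erase u).erase v, wick C ((S.erase m).erase t) =
          wick C' ((S.erase m).erase t) +
            (C u v - C' u v) * wick C ((((S.erase m).erase t).erase u).erase v) := by
        intro t ht
        have ht1 := Finset.mem_erase.1 ht
        have ht2 := Finset.mem_erase.1 ht1.2
        refine ih _ (erase_ssub hm t) ?_ ?_
        · exact Finset.mem_erase.2 ⟨Ne.symm ht2.1, hu1⟩
        · exact Finset.mem_erase.2 ⟨Ne.symm ht1.1, Finset.mem_of_mem_erase hv1⟩
      have hm2 : m ∈ (S.erase u).erase v := Finset.mem_erase.2 ⟨hmv,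
        Finset.mem_erase.2 ⟨hmu, hm⟩⟩
      rw [wick_rec' C (S := (S.erase u).erase v) hm2 fun t ht =>
        hmin t (Finset.mem_of_mem_erase (Finset.mem_of_mem_erase ht))]
      have e0 : ((S.erase u).erase v).erase m = ((S.erase m).erase u).erase v := by
        ext i; simp only [Finset.mem_erase]; tauto
      rw [e0, Finset.mul_sum, ← Finset.add_sum_erase _ _ hu1, ← Finset.add_sum_erase _ _ hv1,
        ← Finset.add_sum_erase _ (fun t => C' m t * wick C' ((S.erase m).erase t)) hu1,
        ← Finset.add_sum_erase _ (fun t => C' m t * wick C' ((S.erase m).erase t)) hv1]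
      rw [hcong ((S.erase m).erase u) (Or.inl (by simp)),
        hcong ((S.erase m).erase v) (Or.inr (by simp)), hCm u hu1,
        hCm v (Finset.mem_of_mem_erase hv1)]
      have h2 : ∑ t ∈ ((S.erase m).erase u).erase v, C m t * wick C ((S.erase m).erase t) =
          ∑ t ∈ ((S.erase m).erase u).erase v, C' m t * wick C' ((S.erase m).erase t) +
          ∑ t ∈ ((S.erase m).erase u).erase v, (C u v - C' u v) *
            (C m t * wick C ((((S.erase m).erase u).erase v).erase t)) := by
        rw [← Finset.sum_add_distrib]
        refine Finset.sum_congr rfl fun t ht => ?_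
        have ht1 := Finset.mem_erase.1 ht
        have ht2 := Finset.mem_erase.1 ht1.2
        have e1 : (((S.erase m).erase t).erase u).erase v =
            (((S.erase m).erase u).erase v).erase t := by
          ext i; simp only [Finset.mem_erase]; tauto
        rw [key t ht, e1, mul_add, hCm t ht2.2]
        ring
      rw [h2]; ring

/-! ### centering -/

section centering

variable {σ : Type*} [DecidableEq σ] (u v : σ → ι)

/-- the legs of a set of vertices -/
def legs (T : Finset σ) : Finset ι := T.image u ∪ T.image v

/-- the covariance without the pairs inside the vertices of `V` -/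
def cut (C : ι → ι → ℝ) (V : Finset σ) : ι → ι → ℝ := fun i j =>
  if ∃ s ∈ V, i = u s ∧ j = v s then 0 else C i j

variable {u v}

lemma cut_empty (C : ι → ι → ℝ) : cut u v C ∅ = C := by
  funext i j
  unfold cut
  rw [if_neg (by simp)]

lemma legs_insert (hu : Function.Injective u) (hv : Function.Injective v)
    (huv : ∀ s t, u s ≠ v t) {s : σ} {T : Finset σ} (hs : s ∉ T) :
    ((legs u v (insert s T)).erase (u s)).erase (v s) = legs u v T := by
  unfold legs
  ext i
  simp only [Finset.mem_erase, Finset.mem_union, Finset.mem_image, Finset.mem_insert]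
  constructor
  · rintro ⟨h1, h2, h3⟩
    rcases h3 with ⟨t, ht, rfl⟩ | ⟨t, ht, rfl⟩
    · rcases ht with rfl | ht
      · exact absurd rfl h2
      · exact Or.inl ⟨t, ht, rfl⟩
    · rcases ht with rfl | ht
      · exact absurd rfl h1
      · exact Or.inr ⟨t, ht, rfl⟩
  · rintro (⟨t, ht, rfl⟩ | ⟨t, ht, rfl⟩)
    · refine ⟨huv t s, fun h => ?_, Or.inl ⟨t, Or.inr ht, rfl⟩⟩
      rw [hu h] at ht; exact hs ht
    · refine ⟨fun h => ?_, fun h => huv s t h.symm, Or.inr ⟨t, Or.inr ht, rfl⟩⟩
      rw [hv h] at ht; exact hs ht

/-- the centering identity with some vertices centered -/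
lemma wick_center (hu : Function.Injective u) (hv : Function.Injective v)
    (huv : ∀ s t, u s ≠ v t) (hlt : ∀ s, u s < v s) (C : ι → ι → ℝ) (V : Finset σ) :
    ∀ W : Finset σ, Disjoint V W → wick (cut u v C V) (legs u v (V ∪ W)) =
      ∑ T ∈ V.powerset, (∏ s ∈ V \ T, -C (u s) (v s)) * wick C (legs u v (T ∪ W)) := by
  induction V using Finset.induction_on with
  | empty => intro W _; simp [cut_empty]
  | insert s V hs ih =>
    intro W hW
    have hsW : s ∉ W := fun h => Finset.disjoint_left.1 hW (Finset.mem_insert_self s V) h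
    have hVW : Disjoint V W := Finset.disjoint_of_subset_left (Finset.subset_insert s V) hW
    have hVsW : Disjoint V (insert s W) := by
      rw [Finset.disjoint_insert_right]; exact ⟨hs, hVW⟩
    have hsVW : s ∉ V ∪ W := by
      rw [Finset.mem_union]; rintro (h | h)
      · exact hs h
      · exact hsW h
    -- one entry
    have h1 : wick (cut u v C V) (legs u v (insert s (V ∪ W))) =
        wick (cut u v C (insert s V)) (legs u v (insert s (V ∪ W))) +
        (cut u v C V (u s) (v s) - cut u v C (insert s V) (u s) (v s)) *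
          wick (cut u v C V) (((legs u v (insert s (V ∪ W))).erase (u s)).erase (v s)) := by
      refine wick_change (hlt s) ?_ _ ?_ ?_
      · intro i j _ hne
        unfold cut
        have : (∃ t ∈ insert s V, i = u t ∧ j = v t) ↔ ∃ t ∈ V, i = u t ∧ j = v t := by
          constructor
          · rintro ⟨t, ht, h⟩
            rcases Finset.mem_insert.1 ht with rfl | ht
            · exact absurd h hne
            · exact ⟨t, ht, h⟩
          · rintro ⟨t, ht, h⟩
            exact ⟨t, Finset.mem_insert_of_mem ht, h⟩
        simp only [this]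
      · unfold legs; simp
      · unfold legs; simp
    have h2 : cut u v C V (u s) (v s) = C (u s) (v s) := by
      unfold cut
      rw [if_neg]
      rintro ⟨t, ht, h, _⟩
      rw [hu h] at hs; exact hs ht
    have h3 : cut u v C (insert s V) (u s) (v s) = 0 := by
      unfold cut
      rw [if_pos ⟨s, Finset.mem_insert_self _ _, rfl, rfl⟩]
    rw [legs_insert hu hv huv hsVW, h2, h3, sub_zero, ih W hVW] at h1
    have h4 : V ∪ insert s W = insert s (V ∪ W) := by
      ext i; simp only [Finset.mem_union, Finset.mem_insert]; tauto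
    have h5 := ih (insert s W) hVsW
    rw [h4] at h5
    have h6 : insert s V ∪ W = insert s (V ∪ W) := Finset.insert_union s V W
    rw [h6]
    have h7 : wick (cut u v C (insert s V)) (legs u v (insert s (V ∪ W))) =
        ∑ T ∈ V.powerset, (∏ t ∈ V \ T, -C (u t) (v t)) * wick C (legs u v (T ∪ insert s W)) -
        C (u s) (v s) * ∑ T ∈ V.powerset, (∏ t ∈ V \ T, -C (u t) (v t)) *
          wick C (legs u v (T ∪ W)) := by
      rw [← h5, h1]; ring
    rw [h7, Finset.sum_powerset_insert hs]
    have h8 : ∀ T ∈ V.powerset, (∏ t ∈ insert s V \ T, -C (u t) (v t)) *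
        wick C (legs u v (T ∪ W)) = -(C (u s) (v s) * ((∏ t ∈ V \ T, -C (u t) (v t)) *
          wick C (legs u v (T ∪ W)))) := by
      intro T hT
      have hsT : s ∉ T := fun h => hs (Finset.mem_powerset.1 hT h)
      rw [Finset.insert_sdiff_of_notMem _ hsT, Finset.prod_insert (by simp [hs])]
      ring
    have h9 : ∀ T ∈ V.powerset, (∏ t ∈ insert s V \ insert s T, -C (u t) (v t)) *
        wick C (legs u v (insert s T ∪ W)) = (∏ t ∈ V \ T, -C (u t) (v t)) *
          wick C (legs u v (T ∪ insert s W)) := by
      intro T hT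
      have hsT : s ∉ T := fun h => hs (Finset.mem_powerset.1 hT h)
      have e1 : insert s V \ insert s T = V \ T := by
        ext i; simp only [Finset.mem_sdiff, Finset.mem_insert]
        constructor
        · rintro ⟨h1, h2⟩
          push Not at h2
          rcases h1 with h1 | h1
          · exact absurd h1 h2.1
          · exact ⟨h1, h2.2⟩
        · rintro ⟨g1, g2⟩
          refine ⟨Or.inr g1, ?_⟩
          rintro (g | g)
          · rw [g] at g1; exact hs g1
          · exact g2 g
      have e2 : insert s T ∪ W = T ∪ insert s W := by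
        ext i; simp only [Finset.mem_union, Finset.mem_insert]; tauto
      rw [e1, e2]
    rw [Finset.sum_congr rfl h8, Finset.sum_congr rfl h9, Finset.sum_neg_distrib, ← Finset.mul_sum]
    ring

/-- the centering identity -/
lemma wick_center' [Fintype σ] (hu : Function.Injective u) (hv : Function.Injective v)
    (huv : ∀ s t, u s ≠ v t) (hlt : ∀ s, u s < v s) (C : ι → ι → ℝ) :
    wick (cut u v C Finset.univ) (legs u v Finset.univ) =
      ∑ T : Finset σ, (∏ s ∈ Tᶜ, -C (u s) (v s)) * wick C (legs u v T) := by
  have h := wick_center hu hv huv hlt C Finset.univ ∅ (by simp)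
  rw [Finset.union_empty] at h
  rw [h, Finset.powerset_univ]
  refine Finset.sum_congr rfl fun T _ => ?_
  rw [Finset.union_empty, Finset.compl_eq_univ_sdiff]

end centering

end

end Pool.Agent.T2h94
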