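import Mathlib
import Pool.Agent.T2h94.Step3
import Pool.Agent.T2h94.Wick

/-!
# The moments of the curvature are nearly Gaussian
-/

open MeasureTheory Matrix
open scoped Matrix.Norms.Frobenius ContDiff
open Pool.Agent.H906R3.YM Pool.Agent.W793.YM

namespace Pool.Agent.T2h94

set_option linter.unusedSectionVars false
set_option linter.unusedVariables false

noncomputable section

section forms

variable {n d l : ℕ} [NeZero l]

lemma ip2_young (f g : St d l → ℝ) : |ip2 f g| ≤ 1 / 2 * (ip2 f f + ip2 g g) := by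
  unfold ip2
  rw [← Finset.sum_add_distrib, Finset.mul_sum]
  refine (Finset.abs_sum_le_sum_abs _ _).trans (Finset.sum_le_sum fun x _ => ?_)
  rw [abs_le]
  constructor <;> nlinarith [sq_nonneg (f x + g x), sq_nonneg (f x - g x)]

lemma ipF_young (f g : Fm d l) : |ipF f g| ≤ 1 / 2 * (ipF f f + ipF g g) := by
  unfold ipF
  rw [abs_mul, abs_of_pos (by norm_num : (0 : ℝ) < 1 / 2), ← mul_add, ← mul_assoc, mul_comm (1 / 2 : ℝ)
    (1 / 2), mul_assoc]
  refine mul_le_mul_of_nonneg_left ?_ (by norm_num)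
  rw [← Finset.sum_add_distrib, Finset.mul_sum]
  refine (Finset.abs_sum_le_sum_abs _ _).trans (Finset.sum_le_sum fun j _ => ?_)
  rw [← Finset.sum_add_distrib, Finset.mul_sum]
  exact (Finset.abs_sum_le_sum_abs _ _).trans (Finset.sum_le_sum fun k _ => ip2_young _ _)

lemma ipF_N2 (f : Fin n → Fm d l) : ∑ a, ipF (f a) (f a) = 1 / 2 * N2 f := by
  unfold ipF N2 ip2
  rw [Finset.mul_sum]
  simp only [← pow_two]

lemma N2_le (f : Fin n → Fm d l) : N2 f ≤ N1 f ^ 2 := by
  have e1 : N2 f = ∑ p : Fin n × Fin d × Fin d × St d l, |f p.1 p.2.1 p.2.2.1 p.2.2.2| ^ 2 := by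
    unfold N2
    simp only [Fintype.sum_prod_type, sq_abs]
  have e2 : N1 f = ∑ p : Fin n × Fin d × Fin d × St d l, |f p.1 p.2.1 p.2.2.1 p.2.2.2| := by
    unfold N1
    simp only [Fintype.sum_prod_type]
  rw [e1, e2]
  exact Finset.sum_sq_le_sq_sum_of_nonneg fun p _ => abs_nonneg _

lemma Cv_le (hd : 0 < d) (K : ℕ) (i t : Leg n d l) : |Cv K i t| ≤ 5 := by
  obtain ⟨f, hf⟩ : ∃ f, f = ef i := ⟨_, rfl⟩
  obtain ⟨P, hP⟩ : ∃ P, P = Pks K f := ⟨_, rfl⟩
  obtain ⟨D, hD⟩ : ∃ D : Fin n → Fm d l, D = fun a => d1 (AK K f a) := ⟨_, rfl⟩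
  obtain ⟨E, hE⟩ : ∃ E : Fin n → Fm d l, E = fun a => cx (uKs K f a) := ⟨_, rfl⟩
  have hdec : f = P + D + E := by rw [hP, hD, hE]; exact dec K f
  have hfa : ∀ a, Asy (f a) := fun a => by rw [hf]; exact ef_asy i a
  have horth : ∀ a, ipF (E a) (D a) = 0 := fun a => by
    rw [hE, hD]; exact cx_orth (uKs_asy hfa a) _
  have h1 : ∀ a, ipF (D a) (D a) ≤ ipF ((f - P) a) ((f - P) a) := by
    intro a
    have e1 : D a = (f - P) a - E a := by
      rw [hdec]; simp only [Pi.add_apply, Pi.sub_apply]; abel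
    have e2 : ipF (D a) (D a) = ipF ((f - P) a) (D a) := by
      calc ipF (D a) (D a) = ipF ((f - P) a - E a) (D a) := by rw [← e1]
        _ = ipF ((f - P) a) (D a) - ipF (E a) (D a) := ipF_sub_left _ _ _
        _ = _ := by rw [horth, sub_zero]
    have e3 := (abs_le.1 (ipF_young ((f - P) a) (D a))).2
    linarith
  have hN : N1 f ≤ 2 := by rw [hf]; exact ef_N1 i
  have hN0 : ∀ g : Fin n → Fm d l, 0 ≤ N1 g := fun g =>
    Finset.sum_nonneg fun _ _ => Finset.sum_nonneg fun _ _ => Finset.sum_nonneg fun _ _ =>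
      Finset.sum_nonneg fun _ _ => abs_nonneg _
  have hNP : N1 P ≤ 2 := by rw [hP]; exact (N1_Pks hd K f).trans hN
  have h2 : ∑ a, ipF ((f - P) a) ((f - P) a) ≤ 8 := by
    rw [ipF_N2 (f - P)]
    have e1 := N2_le (f - P)
    have e2 := N1_sub f P
    have e3 : N1 (f - P) ^ 2 ≤ 4 ^ 2 := pow_le_pow_left₀ (hN0 _) (by linarith) 2
    linarith
  have h3 : ∑ a, ipF (D a) (D a) ≤ 8 := (Finset.sum_le_sum fun a _ => h1 a).trans h2
  have h4 : ∑ a, ipF (ef t a) (ef t a) ≤ 2 := by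
    rw [ipF_N2 (ef t)]
    have e1 := N2_le (ef t)
    have e3 : N1 (ef t) ^ 2 ≤ 2 ^ 2 := pow_le_pow_left₀ (hN0 _) (ef_N1 t) 2
    linarith
  have h5 : Cv K i t = ∑ a, ipF (ef t a) (D a) := by rw [hD, hf]; rfl
  rw [h5]
  refine (Finset.abs_sum_le_sum_abs _ _).trans
    ((Finset.sum_le_sum fun a _ => ipF_young (ef t a) (D a)).trans ?_)
  rw [← Finset.mul_sum, Finset.sum_add_distrib]
  linarith

end forms

variable {G : Type*} [Group G] [TopologicalSpace G] [IsTopologicalGroup G] [CompactSpace G]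
  [SecondCountableTopology G] [MeasurableSpace G] [BorelSpace G] (μ : Measure G)
  [IsProbabilityMeasure μ] [μ.IsMulLeftInvariant] [μ.IsMulRightInvariant] [μ.IsInvInvariant]
  {N n : ℕ} {L : LD G N n}

/-- the moments of the curvature are nearly those of a Gaussian field -/
theorem gauss_approx {d : ℕ} (hd : 3 ≤ d) (q : ℕ) (k : ℕ) : ∃ C : ℝ, 0 < C ∧ ∀ c : ℝ, 1 ≤ c →
    ∀ (m K : ℕ) [NeZero m], 1 ≤ K → 3 * K + 5 < 2 * m → ∀ (ι : Type) [LinearOrder ι]
      (S : Finset ι), S.card = k → ∀ p : ι → Leg n d (2 * m), (∀ s ∈ S, InW K (p s)) →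
      |EX μ L ((c ^ q) ^ 4) (fun U : Ed d (2 * m) → G => ∏ s ∈ S, Phi L (c ^ q) (p s) U) -
        wick (fun i j => Cv K (p i) (p j)) S| ≤
        C * c * (1 / Real.sqrt (Real.sqrt K) + (K : ℝ) ^ (d * (k + 1) + 3) / (c ^ q) ^ 2) := by
  induction k using Nat.strong_induction_on with
  | _ k ih =>
  rcases Nat.eq_zero_or_pos k with hk | hk
  · subst hk
    refine ⟨1, one_pos, fun c hc m K _ hK hKm ι _ S hS p hp => ?_⟩
    have hS' : S = ∅ := Finset.card_eq_zero.1 hS
    subst hS'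
    simp only [Finset.prod_empty]
    rw [wick_empty, EX_const, sub_self, abs_zero]
    positivity
  · obtain ⟨C1, hC1, hstep⟩ := step μ (L := L) hd (k - 1) q
    have ih2 : ∃ C : ℝ, 0 < C ∧ ∀ c : ℝ, 1 ≤ c →
    ∀ (m K : ℕ) [NeZero m], 1 ≤ K → 3 * K + 5 < 2 * m → ∀ (ι : Type) [LinearOrder ι]
      (S : Finset ι), S.card + 2 = k → ∀ p : ι → Leg n d (2 * m), (∀ s ∈ S, InW K (p s)) →
      |EX μ L ((c ^ q) ^ 4) (fun U : Ed d (2 * m) → G => ∏ s ∈ S, Phi L (c ^ q) (p s) U) -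
        wick (fun i j => Cv K (p i) (p j)) S| ≤
        C * c * (1 / Real.sqrt (Real.sqrt K) + (K : ℝ) ^ (d * (k + 1) + 3) / (c ^ q) ^ 2) := by
      rcases Nat.lt_or_ge k 2 with h2 | h2
      · refine ⟨1, one_pos, fun c hc m K _ hK hKm ι _ S hS p hp => ?_⟩
        omega
      · obtain ⟨C, hC, h⟩ := ih (k - 2) (by omega)
        refine ⟨C, hC, fun c hc m K _ hK hKm ι _ S hS p hp => ?_⟩
        refine (h c hc m K hK hKm ι S (by omega) p hp).trans ?_
        have hc0 : 0 < c := by linarith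
        have hK1 : (1 : ℝ) ≤ K := by exact_mod_cast hK
        have h3 : (K : ℝ) ^ (d * (k - 2 + 1) + 3) ≤ (K : ℝ) ^ (d * (k + 1) + 3) := by
          refine pow_le_pow_right₀ hK1 ?_
          have : d * (k - 2 + 1) ≤ d * (k + 1) := Nat.mul_le_mul_left d (by omega)
          omega
        gcongr
    obtain ⟨C2, hC2, hih⟩ := ih2
    refine ⟨C1 + k * (5 * C2), by positivity, fun c hc m K _ hK hKm ι _ S hS p hp => ?_⟩
    have hc0 : 0 < c := by linarith
    have hK1 : (1 : ℝ) ≤ K := by exact_mod_cast hK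
    have hne : S.Nonempty := by rw [← Finset.card_pos, hS]; exact hk
    obtain ⟨i0, hi0⟩ : ∃ i0, i0 = S.min' hne := ⟨_, rfl⟩
    have hmem : i0 ∈ S := by rw [hi0]; exact Finset.min'_mem _ _
    have hmin : ∀ t ∈ S, i0 ≤ t := fun t ht => by rw [hi0]; exact Finset.min'_le _ _ ht
    have hcard : (S.erase i0).card = k - 1 := by rw [Finset.card_erase_of_mem hmem, hS]
    have hst := hstep c hc m K hK hKm ι (S.erase i0) hcard (p i0) p (hp i0 hmem)
      (fun s hs => hp s (Finset.mem_of_mem_erase hs))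
    obtain ⟨b, hb⟩ : ∃ b, b = c ^ q := ⟨_, rfl⟩
    rw [← hb] at hst ⊢
    have hb0 : 0 < b := by rw [hb]; positivity
    obtain ⟨Y, hY⟩ : ∃ Y : ℝ, Y = 1 / Real.sqrt (Real.sqrt K) +
      (K : ℝ) ^ (d * (k + 1) + 3) / b ^ 2 := ⟨_, rfl⟩
    have hY0 : 0 ≤ Y := by rw [hY]; positivity
    have hkk : k - 1 + 2 = k + 1 := by omega
    rw [hkk, ← hY] at hst
    rw [← hY]
    have hprod : (fun U : Ed d (2 * m) → G => ∏ s ∈ S, Phi L b (p s) U) =
        fun U => Phi L b (p i0) U * ∏ s ∈ S.erase i0, Phi L b (p s) U := by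
      funext U
      exact (Finset.mul_prod_erase S (fun s => Phi L b (p s) U) hmem).symm
    rw [hprod, wick_rec' _ hmem hmin]
    have h1 : |∑ t ∈ S.erase i0, Cv K (p i0) (p t) * EX μ L (b ^ 4) (fun U : Ed d (2 * m) → G =>
          ∏ s ∈ (S.erase i0).erase t, Phi L b (p s) U) - ∑ t ∈ S.erase i0, Cv K (p i0) (p t) *
            wick (fun i j => Cv K (p i) (p j)) ((S.erase i0).erase t)| ≤
        k * (5 * (C2 * c * Y)) := by
      rw [← Finset.sum_sub_distrib]
      refine (Finset.abs_sum_le_sum_abs _ _).trans ?_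
      calc _ ≤ ∑ _t ∈ S.erase i0, 5 * (C2 * c * Y) := by
            refine Finset.sum_le_sum fun t ht => ?_
            rw [← mul_sub, abs_mul]
            have h2 := hih c hc m K hK hKm ι ((S.erase i0).erase t) (by
              have := Finset.card_erase_of_mem ht
              have h3 : 0 < (S.erase i0).card := Finset.card_pos.2 ⟨t, ht⟩
              omega) p (fun s hs => hp s (Finset.mem_of_mem_erase (Finset.mem_of_mem_erase hs)))
            rw [← hb, ← hY] at h2
            exact mul_le_mul (Cv_le (by omega) K _ _) h2 (abs_nonneg _) (by norm_num)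
        _ = ((k - 1 : ℕ) : ℝ) * (5 * (C2 * c * Y)) := by
            rw [Finset.sum_const, hcard, nsmul_eq_mul]
        _ ≤ k * (5 * (C2 * c * Y)) := by
            refine mul_le_mul_of_nonneg_right ?_ (by positivity)
            exact_mod_cast Nat.sub_le k 1
    have h3 := abs_le.1 hst
    have h4 := abs_le.1 h1
    have e : (C1 + k * (5 * C2)) * c * Y = C1 * c * Y + k * (5 * (C2 * c * Y)) := by ring
    rw [e, abs_le]
    constructor <;> linarith [h3.1, h3.2, h4.1, h4.2]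

end

end Pool.Agent.T2h94
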