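import Mathlib
import Pool.Agent.T2h94.Gau
import Pool.Agent.TH618.YM.Cartan

/-!
# The gauge invariant fields in terms of the curvature in the comb gauge
-/

open MeasureTheory Matrix
open scoped Matrix.Norms.Frobenius ContDiff
open Pool.Agent.H906R3.YM Pool.Agent.W793.YM Pool.Agent.TH618.YM

namespace Pool.Agent.T2h94

set_option linter.unusedSectionVars false
set_option linter.unusedVariables false

noncomputable section

variable {G : Type*} [Group G] [TopologicalSpace G] [IsTopologicalGroup G] [CompactSpace G]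
  [SecondCountableTopology G] [MeasurableSpace G] [BorelSpace G] (μ : Measure G)
  [IsProbabilityMeasure μ] [μ.IsMulLeftInvariant] [μ.IsMulRightInvariant] [μ.IsInvInvariant]
  {N n : ℕ} {L : LD G N n}

variable (L) in
/-- the antihermitian part -/
def asm (g : G) : Mat N := (1 / 2 : ℝ) • (L.rho g - (L.rho g)ᴴ)

lemma ip_ct (A B : Mat N) : ip Aᴴ Bᴴ = ip A B := by
  rw [ip_apply, ip_apply, conjTranspose_conjTranspose]
  have h1 : trace (A * Bᴴ) = star (trace (B * Aᴴ)) := by
    rw [← trace_conjTranspose, conjTranspose_mul, conjTranspose_conjTranspose]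
  rw [h1, trace_mul_comm]
  simp

lemma asm_norm (g : G) : ‖asm L g‖ ≤ dv L g := by
  unfold asm
  have e : L.rho g - (L.rho g)ᴴ = (L.rho g - 1) - (L.rho g - 1)ᴴ := by
    rw [conjTranspose_sub, conjTranspose_one]; abel
  rw [norm_smul, e]
  have h := norm_sub_le (L.rho g - 1) (L.rho g - 1)ᴴ
  rw [norm_ct] at h
  have h2 : ‖(1 / 2 : ℝ)‖ = 1 / 2 := by norm_num
  rw [h2]
  unfold dv
  linarith

lemma fi_eq_ip (a : Fin n) (g : G) : fi L a g = -ip (L.X a) (L.rho g) := by
  unfold fi
  rw [trX_apply, ip_apply, skew, neg_mul, trace_neg, Complex.neg_re, neg_neg]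

lemma ip_X_asm (a : Fin n) (g : G) : ip (L.X a) (asm L g) = -fi L a g := by
  unfold asm
  rw [map_smul, map_sub, smul_eq_mul, fi_eq_ip]
  have h : ip (L.X a) (L.rho g)ᴴ = -ip (L.X a) (L.rho g) := by
    have h1 := ip_ct (L.X a)ᴴ (L.rho g)
    rw [conjTranspose_conjTranspose] at h1
    rw [h1, skew, ip_apply, ip_apply, conjTranspose_neg, neg_mul, trace_neg, Complex.neg_re]
  rw [h]; ring

lemma asm_conj (u g h : G) : ip (asm L (u * g * u⁻¹)) (asm L (u * h * u⁻¹)) =
    ip (asm L g) (asm L h) := by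
  have h1 : ∀ g : G, asm L (u * g * u⁻¹) = L.rho u * asm L g * (L.rho u)ᴴ := by
    intro g
    unfold asm
    rw [map_mul, map_mul, L.rho_inv, conjTranspose_mul, conjTranspose_mul,
      conjTranspose_conjTranspose, mul_smul_comm, smul_mul_assoc, mul_sub, sub_mul, ← mul_assoc]
  rw [h1, h1, ip_apply, ip_apply]
  have h2 : (L.rho u * asm L g * (L.rho u)ᴴ)ᴴ * (L.rho u * asm L h * (L.rho u)ᴴ) =
      L.rho u * ((asm L g)ᴴ * asm L h) * (L.rho u)ᴴ := by
    rw [conjTranspose_mul, conjTranspose_mul, conjTranspose_conjTranspose]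
    calc L.rho u * ((asm L g)ᴴ * (L.rho u)ᴴ) * (L.rho u * asm L h * (L.rho u)ᴴ) =
        L.rho u * (asm L g)ᴴ * ((L.rho u)ᴴ * L.rho u) * asm L h * (L.rho u)ᴴ := by noncomm_ring
      _ = _ := by rw [L.unit']; noncomm_ring
  rw [h2, trace_mul_comm, ← mul_assoc, L.unit', one_mul]

/-- the scalar product of the antihermitian parts -/
lemma asm_ip {C : ℝ} (hC : 0 ≤ C)
    (hcar : ∀ g : G, dv L g ^ 2 ≤ ∑ a, fi L a g ^ 2 + C * dv L g ^ 4) (g h : G) :
    |ip (asm L g) (asm L h) - ∑ a, fi L a g * fi L a h| ≤ C * (dv L g ^ 2 * dv L h ^ 2) := by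
  obtain ⟨P, hP⟩ : ∃ P : G → Mat N, P = fun g => asm L g - ∑ a, ip (L.X a) (asm L g) • L.X a :=
    ⟨_, rfl⟩
  have hPn : ∀ g, ‖P g‖ ^ 2 ≤ C * dv L g ^ 4 := by
    intro g
    rw [hP]
    simp only
    rw [norm_perp (X := L.X) ip_X]
    have e1 : ∑ a, ip (L.X a) (asm L g) ^ 2 = ∑ a, fi L a g ^ 2 :=
      Finset.sum_congr rfl fun a _ => by rw [ip_X_asm]; ring
    rw [e1]
    have e2 := pow_le_pow_left₀ (norm_nonneg _) (asm_norm (L := L) g) 2
    have e3 := hcar g
    linarith
  have hPX : ∀ g a, ip (L.X a) (P g) = 0 := by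
    intro g a
    rw [hP]
    simp only
    rw [map_sub, map_sum]
    have h4 : ∀ b, ip (L.X a) (ip (L.X b) (asm L g) • L.X b) =
        if a = b then ip (L.X b) (asm L g) else 0 := fun b => by
      rw [map_smul, smul_eq_mul, ip_X]
      split_ifs <;> ring
    rw [Finset.sum_congr rfl fun b _ => h4 b, Finset.sum_ite_eq]
    simp
  have hdec : ∀ g, asm L g = P g - ∑ a, fi L a g • L.X a := by
    intro g
    rw [hP]
    simp only [ip_X_asm, neg_smul, Finset.sum_neg_distrib]
    abel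
  have e1 : ip (asm L g) (asm L h) = ip (P g) (P h) + ∑ a, fi L a g * fi L a h := by
    have e2 : ip (asm L g) (asm L h) = ip (P g) (asm L h) - ∑ a, fi L a g * ip (L.X a) (asm L h) := by
      rw [ip_comm (asm L g), hdec g, map_sub, map_sum, ip_comm (asm L h) (P g)]
      congr 1
      refine Finset.sum_congr rfl fun a _ => ?_
      rw [map_smul, smul_eq_mul, ip_comm]
    have e3 : ip (P g) (asm L h) = ip (P g) (P h) := by
      conv_lhs => rw [hdec h]
      rw [map_sub, map_sum]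
      have e4 : ∀ a, ip (P g) (fi L a h • L.X a) = 0 := fun a => by
        rw [map_smul, ip_comm, hPX, smul_zero]
      rw [Finset.sum_congr rfl fun a _ => e4 a, Finset.sum_const_zero, sub_zero]
    rw [e2, e3]
    have e5 : ∀ a, fi L a g * ip (L.X a) (asm L h) = -(fi L a g * fi L a h) := fun a => by
      rw [ip_X_asm]; ring
    rw [Finset.sum_congr rfl fun a _ => e5 a, Finset.sum_neg_distrib]
    ring
  rw [e1, add_sub_cancel_right]
  refine (abs_ip_le _ _).trans ?_
  refine abs_le_of_sq_le_sq (a := ‖P g‖ * ‖P h‖) ?_ (by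
    have := dv_nonneg (L := L) g
    have := dv_nonneg (L := L) h
    positivity) |> le_trans (le_abs_self _)
  calc (‖P g‖ * ‖P h‖) ^ 2 = ‖P g‖ ^ 2 * ‖P h‖ ^ 2 := by ring
    _ ≤ (C * dv L g ^ 4) * (C * dv L h ^ 4) :=
        mul_le_mul (hPn g) (hPn h) (sq_nonneg _) (by
          have := dv_nonneg (L := L) g
          positivity)
    _ = _ := by ring

/-! ### products -/

lemma prod_close {ι : Type*} [DecidableEq ι] (S : Finset ι) {x y : ι → ℝ} {M δ : ℝ} (hM : 1 ≤ M)
    (hδ : 0 ≤ δ) (hx : ∀ s ∈ S, |x s| ≤ M) (hy : ∀ s ∈ S, |y s| ≤ M)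
    (hxy : ∀ s ∈ S, |x s - y s| ≤ δ) :
    |∏ s ∈ S, x s - ∏ s ∈ S, y s| ≤ S.card * δ * M ^ S.card := by
  induction S using Finset.induction_on with
  | empty => simp
  | insert i S hi ih =>
    have ih' := ih (fun s hs => hx s (Finset.mem_insert_of_mem hs))
      (fun s hs => hy s (Finset.mem_insert_of_mem hs))
      (fun s hs => hxy s (Finset.mem_insert_of_mem hs))
    rw [Finset.prod_insert hi, Finset.prod_insert hi, Finset.card_insert_of_notMem hi]
    have e : x i * ∏ s ∈ S, x s - y i * ∏ s ∈ S, y s =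
        x i * (∏ s ∈ S, x s - ∏ s ∈ S, y s) + (x i - y i) * ∏ s ∈ S, y s := by ring
    have h1 : |∏ s ∈ S, y s| ≤ M ^ S.card := by
      rw [Finset.abs_prod]
      calc ∏ s ∈ S, |y s| ≤ ∏ _s ∈ S, M :=
            Finset.prod_le_prod (fun _ _ => abs_nonneg _) fun s hs =>
              hy s (Finset.mem_insert_of_mem hs)
        _ = _ := Finset.prod_const _
    have hxi := hx i (Finset.mem_insert_self _ _)
    have hxyi := hxy i (Finset.mem_insert_self _ _)
    have hM0 : 0 ≤ M := by linarith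
    have hMS : M ^ S.card ≤ M ^ (S.card + 1) := pow_le_pow_right₀ hM (Nat.le_succ _)
    rw [e]
    refine (abs_add_le _ _).trans ?_
    rw [abs_mul, abs_mul]
    calc |x i| * |∏ s ∈ S, x s - ∏ s ∈ S, y s| + |x i - y i| * |∏ s ∈ S, y s| ≤
        M * (S.card * δ * M ^ S.card) + δ * M ^ S.card :=
          add_le_add (mul_le_mul hxi ih' (abs_nonneg _) hM0)
            (mul_le_mul hxyi h1 (abs_nonneg _) hδ)
      _ ≤ M * (S.card * δ * M ^ S.card) + δ * M ^ (S.card + 1) := by gcongr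
      _ = _ := by push_cast; ring

end

end Pool.Agent.T2h94
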