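import Mathlib
import Pool.Agent.T2h94.Obs

/-!
# The truncated products of the gauge invariant fields on the periodic lattice
-/

open MeasureTheory Matrix
open scoped Matrix.Norms.Frobenius ContDiff
open Pool.Agent.H906R3.YM Pool.Agent.W793.YM Pool.Agent.TH618.YM

namespace Pool.Agent.T2h94

set_option linter.unusedSectionVars false
set_option linter.unusedVariables false

noncomputable section

/-- the directions of two plaquettes -/
abbrev Dir (d : ℕ) := (Fin d × Fin d) × Fin d × Fin d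

/-- the legs of `r` vertices -/
abbrev Lg (r : ℕ) := Fin r ×ₗ Bool

/-- the first leg of a vertex -/
def lu {r : ℕ} (s : Fin r) : Lg r := toLex (s, false)

/-- the second leg of a vertex -/
def lv {r : ℕ} (s : Fin r) : Lg r := toLex (s, true)

lemma lu_inj {r : ℕ} : Function.Injective (lu : Fin r → Lg r) := fun s t h => by
  have := toLex.injective h
  exact (Prod.mk.inj this).1

lemma lv_inj {r : ℕ} : Function.Injective (lv : Fin r → Lg r) := fun s t h => by
  have := toLex.injective h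
  exact (Prod.mk.inj this).1

lemma lu_ne_lv {r : ℕ} (s t : Fin r) : lu s ≠ lv t := fun h => by
  have := (Prod.mk.inj (toLex.injective h)).2
  exact absurd this (by simp)

lemma lu_lt_lv {r : ℕ} (s : Fin r) : lu s < lv s := by
  unfold lu lv
  rw [Prod.Lex.toLex_lt_toLex]
  exact Or.inr ⟨rfl, by simp⟩

lemma legs_univ {r : ℕ} : legs (lu : Fin r → Lg r) lv Finset.univ = Finset.univ := by
  ext i
  unfold legs
  simp only [Finset.mem_union, Finset.mem_image, Finset.mem_univ, true_and, iff_true]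
  obtain ⟨⟨s, t⟩, rfl⟩ := toLex.surjective i
  cases t
  · exact Or.inl ⟨s, rfl⟩
  · exact Or.inr ⟨s, rfl⟩

lemma legs_card {r : ℕ} (T : Finset (Fin r)) : (legs (lu : Fin r → Lg r) lv T).card = 2 * T.card := by
  unfold legs
  rw [Finset.card_union_of_disjoint, Finset.card_image_of_injective _ lu_inj,
    Finset.card_image_of_injective _ lv_inj]
  · ring
  · rw [Finset.disjoint_left]
    rintro i hi hj
    obtain ⟨s, _, rfl⟩ := Finset.mem_image.1 hi
    obtain ⟨t, _, h⟩ := Finset.mem_image.1 hj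
    exact lu_ne_lv s t h.symm

lemma legs_prod {r : ℕ} (T : Finset (Fin r)) (f : Lg r → ℝ) :
    ∏ i ∈ legs (lu : Fin r → Lg r) lv T, f i = ∏ s ∈ T, f (lu s) * f (lv s) := by
  unfold legs
  rw [Finset.prod_union, Finset.prod_image fun s _ t _ h => lu_inj h,
    Finset.prod_image fun s _ t _ h => lv_inj h, Finset.prod_mul_distrib]
  rw [Finset.disjoint_left]
  rintro i hi hj
  obtain ⟨s, _, rfl⟩ := Finset.mem_image.1 hi
  obtain ⟨t, _, h⟩ := Finset.mem_image.1 hj
  exact lu_ne_lv s t h.symm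

lemma wick_pair {ι : Type*} [LinearOrder ι] (C : ι → ι → ℝ) {u v : ι} (h : u < v) :
    wick C {u, v} = C u v := by
  have hm : u ∈ ({u, v} : Finset ι) := by simp
  rw [wick_rec' C hm (fun t ht => by
    rcases Finset.mem_insert.1 ht with h1 | h1
    · rw [h1]
    · rw [Finset.mem_singleton.1 h1]; exact h.le)]
  have e : ({u, v} : Finset ι).erase u = {v} := by
    ext i
    simp only [Finset.mem_erase, Finset.mem_insert, Finset.mem_singleton]
    constructor
    · rintro ⟨h1, h2 | h2⟩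
      · exact absurd h2 h1
      · exact h2
    · rintro rfl; exact ⟨h.ne', Or.inr rfl⟩
  rw [e, Finset.sum_singleton]
  have e2 : ({v} : Finset ι).erase v = ∅ := by simp
  rw [e2, wick_empty, mul_one]

variable {G : Type*} [Group G] [TopologicalSpace G] [IsTopologicalGroup G] [CompactSpace G]
  [SecondCountableTopology G] [MeasurableSpace G] [BorelSpace G] (μ : Measure G)
  [IsProbabilityMeasure μ] [μ.IsMulLeftInvariant] [μ.IsMulRightInvariant] [μ.IsInvInvariant]
  {N n : ℕ} {L : LD G N n}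

/-- the legs with given colours at given points -/
def lg {n d l r : ℕ} (x : Fin r → St d l) (D : Fin r → Dir d) (α : Fin r → Fin n) (i : Lg r) :
    Leg n d l :=
  ⟨α (ofLex i).1, if (ofLex i).2 then (D (ofLex i).1).2.1 else (D (ofLex i).1).1.1,
    if (ofLex i).2 then (D (ofLex i).1).2.2 else (D (ofLex i).1).1.2, x (ofLex i).1⟩

/-- the covariance of the legs, the two legs of one vertex being uncorrelated -/
def Cw {n d l r : ℕ} [NeZero l] (K : ℕ) (x : Fin r → St d l) (D : Fin r → Dir d)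
    (α : Fin r → Fin n) (i j : Lg r) : ℝ :=
  if (ofLex i).1 = (ofLex j).1 then 0 else Cv K (lg x D α i) (lg x D α j)

section

variable {d l : ℕ} [NeZero l]

variable (L) in
/-- the gauge invariant field -/
def Xo (b : ℝ) (x : St d l) (D : Dir d) (U : Ed d l → G) : ℝ :=
  b ^ 4 * ip (asm L (plqT U x D.1.1 D.1.2)) (asm L (plqT U x D.2.1 D.2.2))

variable (L) in
/-- the field in terms of the curvature in the comb gauge -/
def Yo (b : ℝ) (x : St d l) (D : Dir d) (U : Ed d l → G) : ℝ :=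
  ∑ a : Fin n, Phi L b ⟨a, D.1.1, D.1.2, x⟩ U * Phi L b ⟨a, D.2.1, D.2.2, x⟩ U

variable (L) in
/-- the size -/
def Zo (b : ℝ) (x : St d l) (D : Dir d) (U : Ed d l → G) : ℝ :=
  b ^ 2 * dv L (plqT U x D.1.1 D.1.2) + b ^ 2 * dv L (plqT U x D.2.1 D.2.2)

lemma Zo_nonneg (b : ℝ) (x : St d l) (D : Dir d) (U : Ed d l → G) : 0 ≤ Zo L b x D U :=
  add_nonneg (mul_nonneg (sq_nonneg _) (dv_nonneg _)) (mul_nonneg (sq_nonneg _) (dv_nonneg _))

lemma asm_cont : Continuous (asm L) := by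
  have h0 : Continuous fun g => L.rho g - (L.rho g)ᴴ := L.cont.sub (L.cont.matrix_conjTranspose)
  have h : Continuous fun g => (1 / 2 : ℝ) • (L.rho g - (L.rho g)ᴴ) := by
    have h1 := h0.const_smul (1 / 2 : ℝ)
    exact h1
  exact h

lemma Xo_cont (b : ℝ) (x : St d l) (D : Dir d) :
    Continuous (Xo L b x D : (Ed d l → G) → ℝ) := by
  have h1 : ∀ j k, Continuous fun U : Ed d l → G => asm L (plqT U x j k) := fun j k =>
    asm_cont.comp (plqT_cont _ _ _)
  have h2 : Continuous fun U : Ed d l → G => ip (asm L (plqT U x D.1.1 D.1.2))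
      (asm L (plqT U x D.2.1 D.2.2)) := by
    simp only [ip_apply]
    exact Complex.continuous_re.comp
      ((h1 _ _).matrix_conjTranspose.mul (h1 _ _)).matrix_trace
  exact continuous_const.mul h2

lemma Yo_cont (b : ℝ) (x : St d l) (D : Dir d) :
    Continuous (Yo L b x D : (Ed d l → G) → ℝ) :=
  continuous_finsetSum _ fun a _ => (Phi_cont _ _).mul (Phi_cont _ _)

lemma Zo_cont (b : ℝ) (x : St d l) (D : Dir d) :
    Continuous (Zo L b x D : (Ed d l → G) → ℝ) :=
  (continuous_const.mul (dv_cont.comp (plqT_cont _ _ _))).add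
    (continuous_const.mul (dv_cont.comp (plqT_cont _ _ _)))

lemma Xo_le (b : ℝ) (x : St d l) (D : Dir d) (U : Ed d l → G) :
    |Xo L b x D U| ≤ Zo L b x D U ^ 2 := by
  unfold Xo Zo
  obtain ⟨g, hg⟩ : ∃ g, g = plqT U x D.1.1 D.1.2 := ⟨_, rfl⟩
  obtain ⟨h, hh⟩ : ∃ h, h = plqT U x D.2.1 D.2.2 := ⟨_, rfl⟩
  rw [← hg, ← hh, abs_mul, abs_of_nonneg (by positivity : (0 : ℝ) ≤ b ^ 4)]
  have h1 := (abs_ip_le (asm L g) (asm L h)).trans
    (mul_le_mul (asm_norm g) (asm_norm h) (norm_nonneg _) (dv_nonneg _))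
  have h2 := dv_nonneg (L := L) g
  have h3 := dv_nonneg (L := L) h
  have h4 : 0 ≤ b ^ 2 * dv L g := by positivity
  have h5 : 0 ≤ b ^ 2 * dv L h := by positivity
  calc b ^ 4 * |ip (asm L g) (asm L h)| ≤ b ^ 4 * (dv L g * dv L h) :=
        mul_le_mul_of_nonneg_left h1 (by positivity)
    _ = (b ^ 2 * dv L g) * (b ^ 2 * dv L h) := by ring
    _ ≤ _ := by nlinarith

lemma Yo_le (b : ℝ) (x : St d l) (D : Dir d) (U : Ed d l → G) :
    |Yo L b x D U| ≤ n * Zo L b x D U ^ 2 := by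
  unfold Yo Zo
  refine (Finset.abs_sum_le_sum_abs _ _).trans ?_
  calc _ ≤ ∑ _a : Fin n, (b ^ 2 * dv L (plqT U x D.1.1 D.1.2) +
        b ^ 2 * dv L (plqT U x D.2.1 D.2.2)) ^ 2 := by
        refine Finset.sum_le_sum fun a _ => ?_
        rw [abs_mul]
        have h1 := Phi_abs_dv (L := L) b ⟨a, D.1.1, D.1.2, x⟩ U
        have h2 := Phi_abs_dv (L := L) b ⟨a, D.2.1, D.2.2, x⟩ U
        simp only at h1 h2
        have h3 := abs_nonneg (Phi L b ⟨a, D.1.1, D.1.2, x⟩ U)
        have h4 := abs_nonneg (Phi L b ⟨a, D.2.1, D.2.2, x⟩ U)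
        have h5 := mul_le_mul h1 h2 h4 (h3.trans h1)
        refine h5.trans ?_
        nlinarith
    _ = _ := by simp

lemma XY_le {C : ℝ} (hC : 0 ≤ C)
    (hcar : ∀ g : G, dv L g ^ 2 ≤ ∑ a, fi L a g ^ 2 + C * dv L g ^ 4) {b : ℝ} (hb : 0 < b)
    (x : St d l) (D : Dir d) (U : Ed d l → G) :
    |Xo L b x D U - Yo L b x D U| ≤ C * Zo L b x D U ^ 4 / b ^ 4 := by
  unfold Xo Yo Zo Phi Fz
  simp only
  obtain ⟨g, hg⟩ : ∃ g, g = plqT U x D.1.1 D.1.2 := ⟨_, rfl⟩
  obtain ⟨h, hh⟩ : ∃ h, h = plqT U x D.2.1 D.2.2 := ⟨_, rfl⟩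
  obtain ⟨u, hu⟩ : ∃ u, u = Pc U x := ⟨_, rfl⟩
  rw [← hg, ← hh, ← hu]
  have h1 := asm_ip hC hcar (u * g * u⁻¹) (u * h * u⁻¹)
  rw [asm_conj, dv_conj, dv_conj] at h1
  have e1 : b ^ 4 * ip (asm L g) (asm L h) - ∑ a, b ^ 2 * fi L a (u * g * u⁻¹) *
      (b ^ 2 * fi L a (u * h * u⁻¹)) = b ^ 4 * (ip (asm L g) (asm L h) -
        ∑ a, fi L a (u * g * u⁻¹) * fi L a (u * h * u⁻¹)) := by
    rw [mul_sub, Finset.mul_sum]
    congr 1
    exact Finset.sum_congr rfl fun a _ => by ring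
  rw [e1, abs_mul, abs_of_nonneg (by positivity : (0 : ℝ) ≤ b ^ 4)]
  have h2 := dv_nonneg (L := L) g
  have h3 := dv_nonneg (L := L) h
  have h4 : 0 ≤ b ^ 2 * dv L g := by positivity
  have h5 : 0 ≤ b ^ 2 * dv L h := by positivity
  have h6 : (b ^ 2 * dv L g) * (b ^ 2 * dv L h) ≤ (b ^ 2 * dv L g + b ^ 2 * dv L h) ^ 2 := by
    nlinarith
  have h7 := pow_le_pow_left₀ (mul_nonneg h4 h5) h6 2
  calc b ^ 4 * |ip (asm L g) (asm L h) - ∑ a, fi L a (u * g * u⁻¹) * fi L a (u * h * u⁻¹)| ≤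
      b ^ 4 * (C * (dv L g ^ 2 * dv L h ^ 2)) := mul_le_mul_of_nonneg_left h1 (by positivity)
    _ = C * (((b ^ 2 * dv L g) * (b ^ 2 * dv L h)) ^ 2) / b ^ 4 := by field_simp
    _ ≤ C * (((b ^ 2 * dv L g + b ^ 2 * dv L h) ^ 2) ^ 2) / b ^ 4 := by gcongr
    _ = _ := by rw [← pow_mul]

end

end

end Pool.Agent.T2h94
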