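import Mathlib
import Pool.Agent.T2h94.Tor

/-!
# The truncated products of the gauge invariant fields on the periodic lattice, II
-/

open MeasureTheory Matrix
open scoped Matrix.Norms.Frobenius ContDiff
open Pool.Agent.H906R3.YM Pool.Agent.W793.YM Pool.Agent.TH618.YM

namespace Pool.Agent.T2h94

set_option linter.unusedSectionVars false
set_option linter.unusedVariables false

noncomputable section

variable {G : Type*} [Group G] [TopologicalSpace G] [IsTopologicalGroup G] [CompactSpace G]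
  [SecondCountableTopology G] [MeasurableSpace G] [BorelSpace G] (μ : Measure G)
  [IsProbabilityMeasure μ] [μ.IsMulLeftInvariant] [μ.IsMulRightInvariant] [μ.IsInvInvariant]
  {N n : ℕ} {L : LD G N n}

variable (L) in
/-- the total size -/
def Zt' {d l r : ℕ} (b : ℝ) (x : Fin r → St d l) (D : Fin r → Dir d) (U : Ed d l → G) : ℝ :=
  1 + ∑ s, Zo L b (x s) (D s) U

lemma Zt'_one {d l r : ℕ} [NeZero l] (b : ℝ) (x : Fin r → St d l) (D : Fin r → Dir d)
    (U : Ed d l → G) : 1 ≤ Zt' L b x D U := by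
  unfold Zt'
  have := Finset.sum_nonneg fun s (_ : s ∈ Finset.univ) => Zo_nonneg (L := L) b (x s) (D s) U
  linarith

lemma Zo_le_Zt' {d l r : ℕ} [NeZero l] (b : ℝ) (x : Fin r → St d l) (D : Fin r → Dir d)
    (U : Ed d l → G) (s : Fin r) : Zo L b (x s) (D s) U ≤ Zt' L b x D U := by
  unfold Zt'
  have := Finset.single_le_sum (f := fun s => Zo L b (x s) (D s) U)
    (fun s _ => Zo_nonneg (L := L) b (x s) (D s) U) (Finset.mem_univ s)
  linarith

lemma Zt'_cont {d l r : ℕ} [NeZero l] (b : ℝ) (x : Fin r → St d l) (D : Fin r → Dir d) :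
    Continuous (Zt' L b x D : (Ed d l → G) → ℝ) :=
  continuous_const.add (continuous_finsetSum _ fun s _ => Zo_cont b (x s) (D s))

/-- moments of the total size -/
lemma Z_moment (k q r : ℕ) : ∃ C : ℝ, 0 < C ∧ ∀ c : ℝ, 1 ≤ c → ∀ (d m : ℕ) [NeZero m], 2 ≤ m →
    ∀ (x : Fin r → St d (2 * m)) (D : Fin r → Dir d),
      EX μ L ((c ^ q) ^ 4) (fun U : Ed d (2 * m) → G => Zt' L (c ^ q) x D U ^ (k + 1)) ≤ C * c := by
  obtain ⟨C, hC, h⟩ := dv_moment μ (L := L) (k + 1) q
  obtain ⟨cd, hcd⟩ : ∃ cd : ℝ, cd = (Finset.univ : Finset (Option (Fin r × Bool))).card := ⟨_, rfl⟩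
  have hcd0 : 0 < cd := by
    rw [hcd]; exact_mod_cast Finset.card_pos.2 ⟨none, Finset.mem_univ _⟩
  refine ⟨cd ^ k * (cd * (1 + C)), by positivity, fun c hc d m _ hm x D => ?_⟩
  have hc0 : 0 < c := by linarith
  obtain ⟨b, hb⟩ : ∃ b, b = c ^ q := ⟨_, rfl⟩
  have h' := fun x i j => h c hc d m hm x i j
  rw [← hb] at h' ⊢
  obtain ⟨f, hf⟩ : ∃ f : Option (Fin r × Bool) → (Ed d (2 * m) → G) → ℝ, f = fun o U =>
    match o with
    | none => 1
    | some (s, t) => if t then b ^ 2 * dv L (plqT U (x s) (D s).2.1 (D s).2.2) else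
        b ^ 2 * dv L (plqT U (x s) (D s).1.1 (D s).1.2) := ⟨_, rfl⟩
  have hsum : ∀ U : Ed d (2 * m) → G, Zt' L b x D U = ∑ o, f o U := by
    intro U
    rw [hf, Fintype.sum_option, Fintype.sum_prod_type]
    unfold Zt' Zo
    congr 1
    refine Finset.sum_congr rfl fun s _ => ?_
    rw [Fintype.sum_bool]
    simp only [if_true, Bool.false_eq_true, if_false]
    ring
  have hf0 : ∀ o U, 0 ≤ f o U := by
    intro o U
    rw [hf]
    rcases o with _ | ⟨s, t⟩
    · exact zero_le_one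
    · cases t
      · exact mul_nonneg (sq_nonneg _) (dv_nonneg _)
      · exact mul_nonneg (sq_nonneg _) (dv_nonneg _)
  have hfc : ∀ o, Continuous (f o) := by
    intro o
    rw [hf]
    rcases o with _ | ⟨s, t⟩
    · exact continuous_const
    · cases t
      · exact continuous_const.mul (dv_cont.comp (plqT_cont _ _ _))
      · exact continuous_const.mul (dv_cont.comp (plqT_cont _ _ _))
  have hfm : ∀ o, EX μ L (b ^ 4) (fun U => f o U ^ (k + 1)) ≤ (1 + C) * c := by
    intro o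
    have hCc : 0 < C * c := by positivity
    rw [hf]
    rcases o with _ | ⟨s, t⟩
    · simp only [one_pow]
      rw [EX_const]; linarith
    · cases t
      · have := h' (x s) (D s).1.1 (D s).1.2
        simp only [Bool.false_eq_true, if_false]
        linarith
      · have := h' (x s) (D s).2.1 (D s).2.2
        simp only [if_true]
        linarith
  have hpow : ∀ U : Ed d (2 * m) → G, Zt' L b x D U ^ (k + 1) ≤ cd ^ k * ∑ o, f o U ^ (k + 1) := by
    intro U
    rw [hsum, hcd]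
    exact pow_sum_le_card_mul_sum_pow (s := Finset.univ) (f := fun o => f o U)
      (fun o _ => hf0 o U) k
  have h1 := EX_mono μ (L := L) (β := b ^ 4) (F := fun U : Ed d (2 * m) → G =>
    Zt' L b x D U ^ (k + 1)) (H := fun U => cd ^ k * ∑ o, f o U ^ (k + 1))
    ((Zt'_cont b x D).pow _)
    (continuous_const.mul (continuous_finsetSum _ fun o _ => (hfc o).pow _)) hpow
  rw [EX_smul, EX_sum μ Finset.univ (F := fun o U => f o U ^ (k + 1)) fun o _ => (hfc o).pow _] at h1
  refine h1.trans ?_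
  have h2 : ∑ o, EX μ L (b ^ 4) (fun U => f o U ^ (k + 1)) ≤ cd * ((1 + C) * c) := by
    calc _ ≤ ∑ _o : Option (Fin r × Bool), (1 + C) * c := Finset.sum_le_sum fun o _ => hfm o
      _ = _ := by rw [Finset.sum_const, nsmul_eq_mul, hcd]
  calc cd ^ k * ∑ o, EX μ L (b ^ 4) (fun U => f o U ^ (k + 1)) ≤ cd ^ k * (cd * ((1 + C) * c)) :=
        mul_le_mul_of_nonneg_left h2 (by positivity)
    _ = _ := by ring

lemma Cw_wick {n d l r : ℕ} [NeZero l] (K : ℕ) (x : Fin r → St d l) (D : Fin r → Dir d)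
    (α : Fin r → Fin n) : wick (Cw K x D α) Finset.univ =
      wick (cut lu lv (fun i j => Cv K (lg x D α i) (lg x D α j)) Finset.univ)
        (legs (lu : Fin r → Lg r) lv Finset.univ) := by
  rw [legs_univ]
  refine wick_congr fun i _ j _ hij => ?_
  unfold Cw cut
  have e : (ofLex i).1 = (ofLex j).1 ↔ ∃ s ∈ Finset.univ, i = lu s ∧ j = lv s := by
    obtain ⟨⟨s, t⟩, rfl⟩ := toLex.surjective i
    obtain ⟨⟨s', t'⟩, rfl⟩ := toLex.surjective j
    simp only [ofLex_toLex]
    constructor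
    · rintro rfl
      rw [Prod.Lex.toLex_lt_toLex] at hij
      rcases hij with h | ⟨_, h⟩
      · exact absurd h (lt_irrefl _)
      · simp only at h
        rw [Bool.lt_iff] at h
        rw [h.1, h.2]
        exact ⟨s, Finset.mem_univ _, rfl, rfl⟩
    · rintro ⟨u, _, h1, h2⟩
      have h3 := (Prod.mk.inj (toLex.injective h1)).1
      have h4 := (Prod.mk.inj (toLex.injective h2)).1
      rw [h3, h4]
  simp only [e]

/-- the centered products of the quadratic fields -/
theorem Y_main {d : ℕ} (hd : 3 ≤ d) (q r : ℕ) : ∃ C : ℝ, 0 < C ∧ ∀ c : ℝ, 1 ≤ c →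
    ∀ (m K : ℕ) [NeZero m], 1 ≤ K → 3 * K + 5 < 2 * m →
    ∀ (x : Fin r → St d (2 * m)) (D : Fin r → Dir d),
      (∀ s i, K + 2 ≤ wv (x s) i ∧ wv (x s) i < 2 * K + 2) →
      (∀ s, |EX μ L ((c ^ q) ^ 4) (Yo L (c ^ q) (x s) (D s) : (Ed d (2 * m) → G) → ℝ) -
        ∑ a : Fin n, Cv K ⟨a, (D s).1.1, (D s).1.2, x s⟩ ⟨a, (D s).2.1, (D s).2.2, x s⟩| ≤
        C * c * (1 / Real.sqrt (Real.sqrt K) +
          (K : ℝ) ^ (d * (2 * r + 3) + 3) / (c ^ q) ^ 2)) ∧
      |EX μ L ((c ^ q) ^ 4) (fun U : Ed d (2 * m) → G => ∏ s, (Yo L (c ^ q) (x s) (D s) U -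
        ∑ a : Fin n, Cv K ⟨a, (D s).1.1, (D s).1.2, x s⟩ ⟨a, (D s).2.1, (D s).2.2, x s⟩)) -
        ∑ α : Fin r → Fin n, wick (Cw K x D α) Finset.univ| ≤
        C * c * (1 / Real.sqrt (Real.sqrt K) +
          (K : ℝ) ^ (d * (2 * r + 3) + 3) / (c ^ q) ^ 2) := by
  choose Cg hCg hg using fun k => gauss_approx μ (L := L) hd q k
  obtain ⟨A, hA⟩ : ∃ A : ℝ, A = ∑ k ∈ Finset.range (2 * r + 3), Cg k := ⟨_, rfl⟩
  have hAk : ∀ k < 2 * r + 3, Cg k ≤ A := fun k hk => by
    rw [hA]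
    exact Finset.single_le_sum (f := Cg) (fun k _ => (hCg k).le) (Finset.mem_range.2 hk)
  have hA0 : 0 < A := lt_of_lt_of_le (hCg 0) (hAk 0 (by omega))
  refine ⟨n * A + n ^ r * (2 ^ r * (5 ^ r * A)) + 1, by positivity, fun c hc m K _ hK hKm x D hx => ?_⟩
  have hc0 : 0 < c := by linarith
  have hK1 : (1 : ℝ) ≤ K := by exact_mod_cast hK
  have hd0 : 0 < d := by omega
  -- the Gaussian approximation
  have hgk : ∀ (S : Finset (Lg r)), S.card < 2 * r + 3 → ∀ α : Fin r → Fin n,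
      |EX μ L ((c ^ q) ^ 4) (fun U : Ed d (2 * m) → G =>
          ∏ i ∈ S, Phi L (c ^ q) (lg x D α i) U) -
        wick (fun i j => Cv K (lg x D α i) (lg x D α j)) S| ≤
        A * c * (1 / Real.sqrt (Real.sqrt K) +
          (K : ℝ) ^ (d * (2 * r + 3) + 3) / (c ^ q) ^ 2) := by
    intro S hS α
    refine (hg S.card c hc m K hK hKm (Lg r) S rfl (lg x D α) fun i _ => hx _).trans ?_
    have h1 : (K : ℝ) ^ (d * (S.card + 1) + 3) ≤ (K : ℝ) ^ (d * (2 * r + 3) + 3) := by
      refine pow_le_pow_right₀ hK1 ?_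
      have : d * (S.card + 1) ≤ d * (2 * r + 3) := Nat.mul_le_mul_left d (by omega)
      omega
    have h2 := hAk S.card hS
    have h3 : 0 < Cg S.card := hCg _
    gcongr
  obtain ⟨b, hb⟩ : ∃ b, b = c ^ q := ⟨_, rfl⟩
  have hb0 : 0 < b := by rw [hb]; positivity
  rw [← hb] at hgk ⊢
  obtain ⟨Y, hY⟩ : ∃ Y : ℝ, Y = 1 / Real.sqrt (Real.sqrt K) +
    (K : ℝ) ^ (d * (2 * r + 3) + 3) / b ^ 2 := ⟨_, rfl⟩
  have hY0 : 0 ≤ Y := by rw [hY]; positivity
  rw [← hY] at hgk ⊢
  obtain ⟨Cc, hCc⟩ : ∃ Cc : Fin n → Fin r → ℝ, Cc = fun a s =>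
    Cv K ⟨a, (D s).1.1, (D s).1.2, x s⟩ ⟨a, (D s).2.1, (D s).2.2, x s⟩ := ⟨_, rfl⟩
  have hCc5 : ∀ a s, |Cc a s| ≤ 5 := fun a s => by rw [hCc]; exact Cv_le hd0 K _ _
  have hpc : ∀ (a : Fin n) (s : Fin r), Continuous fun U : Ed d (2 * m) → G =>
      Phi L b ⟨a, (D s).1.1, (D s).1.2, x s⟩ U * Phi L b ⟨a, (D s).2.1, (D s).2.2, x s⟩ U :=
    fun a s => (Phi_cont _ _).mul (Phi_cont _ _)
  refine ⟨fun s => ?_, ?_⟩
  · -- the mean
    have e1 : EX μ L (b ^ 4) (Yo L b (x s) (D s) : (Ed d (2 * m) → G) → ℝ) =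
        ∑ a : Fin n, EX μ L (b ^ 4) (fun U : Ed d (2 * m) → G =>
          Phi L b ⟨a, (D s).1.1, (D s).1.2, x s⟩ U * Phi L b ⟨a, (D s).2.1, (D s).2.2, x s⟩ U) := by
      rw [← EX_sum μ Finset.univ (F := fun a U => Phi L b ⟨a, (D s).1.1, (D s).1.2, x s⟩ U *
        Phi L b ⟨a, (D s).2.1, (D s).2.2, x s⟩ U) fun a _ => hpc a s]
      rfl
    rw [e1, ← Finset.sum_sub_distrib]
    refine (Finset.abs_sum_le_sum_abs _ _).trans ?_
    calc _ ≤ ∑ _a : Fin n, A * c * Y := by
          refine Finset.sum_le_sum fun a _ => ?_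
          have h1 := hgk {lu s, lv s} (by
            have := Finset.card_le_two (a := (lu s : Lg r)) (b := lv s)
            omega) (fun _ => a)
          rw [wick_pair _ (lu_lt_lv s)] at h1
          refine le_trans (le_of_eq ?_) h1
          congr 2
          congr 1
          funext U
          rw [Finset.prod_pair (lu_lt_lv s).ne]
          rfl
      _ = n * A * c * Y := by simp; ring
      _ ≤ (n * A + n ^ r * (2 ^ r * (5 ^ r * A)) + 1) * c * Y := by
          have : 0 ≤ (n ^ r * (2 ^ r * (5 ^ r * A)) + 1) * c * Y := by positivity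
          nlinarith
  · -- the product
    have e1 : ∀ U : Ed d (2 * m) → G, ∏ s, (Yo L b (x s) (D s) U - ∑ a : Fin n, Cc a s) =
        ∑ α : Fin r → Fin n, ∏ s, (Phi L b (lg x D α (lu s)) U * Phi L b (lg x D α (lv s)) U +
          -Cc (α s) s) := by
      intro U
      have e2 : ∀ s, Yo L b (x s) (D s) U - ∑ a : Fin n, Cc a s =
          ∑ a : Fin n, (Phi L b ⟨a, (D s).1.1, (D s).1.2, x s⟩ U *
            Phi L b ⟨a, (D s).2.1, (D s).2.2, x s⟩ U + -Cc a s) := by
        intro s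
        unfold Yo
        rw [← Finset.sum_sub_distrib]
        exact Finset.sum_congr rfl fun a _ => sub_eq_add_neg _ _
      rw [Finset.prod_congr rfl fun s _ => e2 s, Finset.prod_univ_sum]
      rw [Fintype.piFinset_univ]
      rfl
    have e3 : (fun U : Ed d (2 * m) → G => ∏ s, (Yo L b (x s) (D s) U - ∑ a : Fin n, Cc a s)) =
        fun U => ∑ α : Fin r → Fin n, ∑ T : Finset (Fin r), (∏ s ∈ Tᶜ, -Cc (α s) s) *
          ∏ i ∈ legs (lu : Fin r → Lg r) lv T, Phi L b (lg x D α i) U := by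
      funext U
      rw [e1]
      refine Finset.sum_congr rfl fun α _ => ?_
      rw [Finset.prod_add, Finset.powerset_univ]
      refine Finset.sum_congr rfl fun T _ => ?_
      rw [legs_prod, mul_comm, Finset.compl_eq_univ_sdiff]
    have hCcs : ∀ s, ∑ a : Fin n, Cv K ⟨a, (D s).1.1, (D s).1.2, x s⟩
        ⟨a, (D s).2.1, (D s).2.2, x s⟩ = ∑ a : Fin n, Cc a s := fun s => by rw [hCc]
    simp only [hCcs]
    rw [e3]
    have hcT : ∀ (α : Fin r → Fin n) (T : Finset (Fin r)), Continuous fun U : Ed d (2 * m) → G =>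
        (∏ s ∈ Tᶜ, -Cc (α s) s) *
          ∏ i ∈ legs (lu : Fin r → Lg r) lv T, Phi L b (lg x D α i) U := fun α T =>
      continuous_const.mul (prod_cont b _ _)
    rw [EX_sum μ Finset.univ (F := fun (α : Fin r → Fin n) U => ∑ T : Finset (Fin r),
      (∏ s ∈ Tᶜ, -Cc (α s) s) * ∏ i ∈ legs (lu : Fin r → Lg r) lv T, Phi L b (lg x D α i) U)
      fun α _ => continuous_finsetSum _ fun T _ => hcT α T]
    have e4 : ∀ α : Fin r → Fin n, EX μ L (b ^ 4) (fun U : Ed d (2 * m) → G =>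
        ∑ T : Finset (Fin r), (∏ s ∈ Tᶜ, -Cc (α s) s) *
          ∏ i ∈ legs (lu : Fin r → Lg r) lv T, Phi L b (lg x D α i) U) =
        ∑ T : Finset (Fin r), (∏ s ∈ Tᶜ, -Cc (α s) s) * EX μ L (b ^ 4)
          (fun U : Ed d (2 * m) → G => ∏ i ∈ legs (lu : Fin r → Lg r) lv T,
            Phi L b (lg x D α i) U) := by
      intro α
      rw [EX_sum μ Finset.univ (F := fun (T : Finset (Fin r)) U => (∏ s ∈ Tᶜ, -Cc (α s) s) *
        ∏ i ∈ legs (lu : Fin r → Lg r) lv T, Phi L b (lg x D α i) U) fun T _ => hcT α T]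
      exact Finset.sum_congr rfl fun T _ => EX_smul μ _ _
    simp only [e4]
    have e5 : ∀ α : Fin r → Fin n, wick (Cw K x D α) Finset.univ =
        ∑ T : Finset (Fin r), (∏ s ∈ Tᶜ, -Cc (α s) s) *
          wick (fun i j => Cv K (lg x D α i) (lg x D α j)) (legs (lu : Fin r → Lg r) lv T) := by
      intro α
      rw [Cw_wick, wick_center' lu_inj lv_inj lu_ne_lv lu_lt_lv]
      refine Finset.sum_congr rfl fun T _ => ?_
      congr 1
      refine Finset.prod_congr rfl fun s _ => ?_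
      rw [hCc]; rfl
    simp only [e5]
    rw [← Finset.sum_sub_distrib]
    refine (Finset.abs_sum_le_sum_abs _ _).trans ?_
    have h6 : ∀ (α : Fin r → Fin n) (T : Finset (Fin r)), |(∏ s ∈ Tᶜ, -Cc (α s) s)| ≤ 5 ^ r := by
      intro α T
      rw [Finset.abs_prod]
      calc ∏ s ∈ Tᶜ, |-Cc (α s) s| ≤ ∏ _s ∈ Tᶜ, (5 : ℝ) :=
            Finset.prod_le_prod (fun _ _ => abs_nonneg _) fun s _ => by
              rw [abs_neg]; exact hCc5 _ _
        _ = 5 ^ (Tᶜ).card := Finset.prod_const _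
        _ ≤ 5 ^ r := by
            refine pow_le_pow_right₀ (by norm_num) ?_
            have := Finset.card_le_univ (Tᶜ)
            rwa [Fintype.card_fin] at this
    calc _ ≤ ∑ _α : Fin r → Fin n, ∑ _T : Finset (Fin r), 5 ^ r * (A * c * Y) := by
          refine Finset.sum_le_sum fun α _ => ?_
          rw [← Finset.sum_sub_distrib]
          refine (Finset.abs_sum_le_sum_abs _ _).trans (Finset.sum_le_sum fun T _ => ?_)
          rw [← mul_sub, abs_mul]
          refine mul_le_mul (h6 α T) (hgk _ ?_ α) (abs_nonneg _) (by positivity)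
          rw [legs_card]
          have := Finset.card_le_univ T
          rw [Fintype.card_fin] at this
          omega
      _ = n ^ r * (2 ^ r * (5 ^ r * A)) * c * Y := by
          simp only [Finset.sum_const, Finset.card_univ, Fintype.card_pi, Fintype.card_fin,
            Fintype.card_finset, nsmul_eq_mul, Finset.prod_const]
          push_cast
          ring
      _ ≤ (n * A + n ^ r * (2 ^ r * (5 ^ r * A)) + 1) * c * Y := by
          have : 0 ≤ (n * A + 1) * c * Y := by positivity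
          nlinarith

end

end Pool.Agent.T2h94
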