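import Mathlib
import Pool.Agent.T2h94.Tor2

/-!
# The truncated products of the gauge invariant fields on the periodic lattice, III
-/

open MeasureTheory Matrix
open scoped Matrix.Norms.Frobenius ContDiff
open Pool.Agent.H906R3.YM Pool.Agent.W793.YM Pool.Agent.TH618.YM

namespace Pool.Agent.T2h94

set_option linter.unusedSectionVars false
set_option linter.unusedVariables false

noncomputable section

variable {G : Type*} [Group G] [TopologicalSpace G] [IsTopologicalGroup G] [CompactSpace G]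
  [SecondCountableTopology G] [MeasurableSpace G] [BorelSpace G] (μ : Measure G)
  [IsProbabilityMeasure μ] [μ.IsMulLeftInvariant] [μ.IsMulRightInvariant] [μ.IsInvInvariant]
  {N n : ℕ} {L : LD G N n}

/-- the truncated products of the gauge invariant fields on the periodic lattice -/
theorem torus_main {d : ℕ} (hd : 3 ≤ d) (q r : ℕ) {C0 : ℝ} (hC0 : 0 ≤ C0)
    (hcar : ∀ g : G, dv L g ^ 2 ≤ ∑ a, fi L a g ^ 2 + C0 * dv L g ^ 4) :
    ∃ C : ℝ, 0 < C ∧ ∀ c : ℝ, 1 ≤ c →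
    ∀ (m K : ℕ) [NeZero m], 1 ≤ K → 3 * K + 5 < 2 * m →
    ∀ (x : Fin r → St d (2 * m)) (D : Fin r → Dir d),
      (∀ s i, K + 2 ≤ wv (x s) i ∧ wv (x s) i < 2 * K + 2) →
      |EX μ L ((c ^ q) ^ 4) (fun U : Ed d (2 * m) → G => ∏ s, (Xo L (c ^ q) (x s) (D s) U -
        EX μ L ((c ^ q) ^ 4) (Xo L (c ^ q) (x s) (D s) : (Ed d (2 * m) → G) → ℝ))) -
        ∑ α : Fin r → Fin n, wick (Cw K x D α) Finset.univ| ≤
        C * c ^ (r + 2) * (1 / Real.sqrt (Real.sqrt K) +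
          (K : ℝ) ^ (d * (2 * r + 3) + 3) / (c ^ q) ^ 2) := by
  obtain ⟨C1, hC1, hYm⟩ := Y_main μ (L := L) hd q r
  obtain ⟨C2, hC2, hZ2⟩ := Z_moment μ (L := L) 1 q r
  obtain ⟨C4, hC4, hZ4⟩ := Z_moment μ (L := L) 3 q r
  obtain ⟨C6, hC6, hZ6⟩ := Z_moment μ (L := L) (2 * r + 3) q r
  obtain ⟨B1, hB1⟩ : ∃ B1 : ℝ, B1 = C0 + C0 * C4 + C1 := ⟨_, rfl⟩
  obtain ⟨B2, hB2⟩ : ∃ B2 : ℝ, B2 = 1 + C2 + 6 * n := ⟨_, rfl⟩
  have hB10 : 0 < B1 := by rw [hB1]; positivity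
  have hB20 : 0 < B2 := by rw [hB2]; positivity
  refine ⟨r * B1 * B2 ^ r * C6 + C1, by positivity, fun c hc m K _ hK hKm x D hx => ?_⟩
  have hc0 : 0 < c := by linarith
  have hm : 2 ≤ m := by omega
  have hK1 : (1 : ℝ) ≤ K := by exact_mod_cast hK
  have hd0 : 0 < d := by omega
  obtain ⟨hY1, hY2⟩ := hYm c hc m K hK hKm x D hx
  have hZ2' := hZ2 c hc d m hm x D
  have hZ4' := hZ4 c hc d m hm x D
  have hZ6' := hZ6 c hc d m hm x D
  obtain ⟨b, hb⟩ : ∃ b, b = c ^ q := ⟨_, rfl⟩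
  have hb1 : 1 ≤ b := by rw [hb]; exact one_le_pow₀ hc
  have hb0 : 0 < b := by linarith
  rw [← hb] at hY1 hY2 hZ2' hZ4' hZ6' ⊢
  obtain ⟨Y, hY⟩ : ∃ Y : ℝ, Y = 1 / Real.sqrt (Real.sqrt K) +
    (K : ℝ) ^ (d * (2 * r + 3) + 3) / b ^ 2 := ⟨_, rfl⟩
  have hY0 : 0 ≤ Y := by rw [hY]; positivity
  have hYb : 1 / b ^ 4 ≤ Y := by
    have h1 : 1 / b ^ 4 ≤ (K : ℝ) ^ (d * (2 * r + 3) + 3) / b ^ 2 := by
      refine div_le_div₀ (by positivity) (one_le_pow₀ hK1) (by positivity) ?_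
      exact pow_le_pow_right₀ hb1 (by norm_num)
    have h2 : 0 ≤ 1 / Real.sqrt (Real.sqrt K) := by positivity
    rw [hY]; linarith
  rw [← hY] at hY1 hY2 ⊢
  obtain ⟨cs, hcs⟩ : ∃ cs : Fin r → ℝ, cs = fun s => ∑ a : Fin n,
    Cv K ⟨a, (D s).1.1, (D s).1.2, x s⟩ ⟨a, (D s).2.1, (D s).2.2, x s⟩ := ⟨_, rfl⟩
  have hcs' : ∀ s, ∑ a : Fin n, Cv K ⟨a, (D s).1.1, (D s).1.2, x s⟩
    ⟨a, (D s).2.1, (D s).2.2, x s⟩ = cs s := fun s => by rw [hcs]
  simp only [hcs'] at hY1 hY2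
  have hcs5 : ∀ s, |cs s| ≤ 5 * n := by
    intro s
    rw [hcs]
    refine (Finset.abs_sum_le_sum_abs _ _).trans ?_
    calc _ ≤ ∑ _a : Fin n, (5 : ℝ) := Finset.sum_le_sum fun a _ => Cv_le hd0 K _ _
      _ = _ := by simp; ring
  obtain ⟨X, hX⟩ : ∃ X : Fin r → (Ed d (2 * m) → G) → ℝ, X = fun s => Xo L b (x s) (D s) :=
    ⟨_, rfl⟩
  obtain ⟨W, hW⟩ : ∃ W : Fin r → (Ed d (2 * m) → G) → ℝ, W = fun s => Yo L b (x s) (D s) :=
    ⟨_, rfl⟩
  obtain ⟨Z, hZ⟩ : ∃ Z : (Ed d (2 * m) → G) → ℝ, Z = Zt' L b x D := ⟨_, rfl⟩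
  have hXc : ∀ s, Continuous (X s) := fun s => by rw [hX]; exact Xo_cont _ _ _
  have hWc : ∀ s, Continuous (W s) := fun s => by rw [hW]; exact Yo_cont _ _ _
  have hZc : Continuous Z := by rw [hZ]; exact Zt'_cont _ _ _
  have hZ1 : ∀ U, 1 ≤ Z U := fun U => by rw [hZ]; exact Zt'_one _ _ _ _
  have hXe : ∀ s, (Xo L b (x s) (D s) : (Ed d (2 * m) → G) → ℝ) = X s := fun s => by rw [hX]
  have hWe : ∀ s, (Yo L b (x s) (D s) : (Ed d (2 * m) → G) → ℝ) = W s := fun s => by rw [hW]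
  have hZe : (Zt' L b x D : (Ed d (2 * m) → G) → ℝ) = Z := by rw [hZ]
  simp only [hWe] at hY1 hY2
  simp only [hXe]
  rw [hZe] at hZ2' hZ4' hZ6'
  have hzZ : ∀ s U, Zo L b (x s) (D s) U ≤ Z U := fun s U => by rw [hZ]; exact Zo_le_Zt' _ _ _ _ _
  have hz0 : ∀ s (U : Ed d (2 * m) → G), 0 ≤ Zo L b (x s) (D s) U := fun s U => Zo_nonneg _ _ _ _
  have hXb : ∀ s U, |X s U| ≤ Z U ^ 2 := fun s U => by
    rw [hX]; exact (Xo_le _ _ _ _).trans (pow_le_pow_left₀ (hz0 s U) (hzZ s U) 2)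
  have hWb : ∀ s U, |W s U| ≤ n * Z U ^ 2 := fun s U => by
    rw [hW]; exact (Yo_le _ _ _ _).trans (mul_le_mul_of_nonneg_left
      (pow_le_pow_left₀ (hz0 s U) (hzZ s U) 2) (Nat.cast_nonneg _))
  have hXW : ∀ s U, |X s U - W s U| ≤ C0 * Z U ^ 4 / b ^ 4 := fun s U => by
    rw [hX, hW]
    refine (XY_le hC0 hcar hb0 _ _ _).trans ?_
    have := pow_le_pow_left₀ (hz0 s U) (hzZ s U) 4
    gcongr
  -- the expectations
  have hEX : ∀ s, |EX μ L (b ^ 4) (X s)| ≤ C2 * c := by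
    intro s
    refine (EX_abs μ (hXc s)).trans (le_trans ?_ hZ2')
    exact EX_mono μ (hXc s).abs (hZc.pow 2) fun U => hXb s U
  have hEXW : ∀ s, |EX μ L (b ^ 4) (X s) - EX μ L (b ^ 4) (W s)| ≤ C0 * C4 * c * Y := by
    intro s
    have e1 : EX μ L (b ^ 4) (X s) - EX μ L (b ^ 4) (W s) =
        EX μ L (b ^ 4) (fun U => X s U - W s U) := (EX_sub μ (hXc s) (hWc s)).symm
    rw [e1]
    refine (EX_abs μ ((hXc s).sub (hWc s))).trans ?_
    have e2 : EX μ L (b ^ 4) (fun U => |X s U - W s U|) ≤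
        EX μ L (b ^ 4) (fun U => (C0 / b ^ 4) * Z U ^ 4) := by
      refine EX_mono μ ((hXc s).sub (hWc s)).abs (continuous_const.mul (hZc.pow 4)) fun U => ?_
      refine (hXW s U).trans (le_of_eq (by ring))
    rw [EX_smul] at e2
    refine e2.trans ?_
    calc C0 / b ^ 4 * EX μ L (b ^ 4) (fun U => Z U ^ 4) ≤ C0 / b ^ 4 * (C4 * c) :=
          mul_le_mul_of_nonneg_left hZ4' (by positivity)
      _ = C0 * C4 * c * (1 / b ^ 4) := by ring
      _ ≤ _ := mul_le_mul_of_nonneg_left hYb (by positivity)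
  have hEXc : ∀ s, |EX μ L (b ^ 4) (X s) - cs s| ≤ (C0 * C4 + C1) * c * Y := by
    intro s
    have h1 := hEXW s
    have h2 := hY1 s
    have e : EX μ L (b ^ 4) (X s) - cs s = (EX μ L (b ^ 4) (X s) - EX μ L (b ^ 4) (W s)) +
        (EX μ L (b ^ 4) (W s) - cs s) := by ring
    rw [e]
    refine (abs_add_le _ _).trans ((add_le_add h1 h2).trans (le_of_eq (by ring)))
  -- the difference of the products
  have hpr : ∀ U, |∏ s, (X s U - EX μ L (b ^ 4) (X s)) - ∏ s, (W s U - cs s)| ≤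
      (r * B1 * B2 ^ r * c ^ (r + 1) * Y) * Z U ^ (2 * r + 3 + 1) := by
    intro U
    have hz := hZ1 U
    obtain ⟨z, hzz⟩ : ∃ z, z = Z U := ⟨_, rfl⟩
    have hXb' := fun s => hXb s U
    have hWb' := fun s => hWb s U
    have hXW' := fun s => hXW s U
    rw [← hzz] at hz ⊢
    simp only [← hzz] at hXb' hWb' hXW'
    have hz2 : 1 ≤ z ^ 2 := one_le_pow₀ hz
    have hz4 : 1 ≤ z ^ 4 := one_le_pow₀ hz
    have hcz : 1 ≤ c * z ^ 2 := by nlinarith
    have hn0 : (0 : ℝ) ≤ n := Nat.cast_nonneg _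
    have h1 := prod_close (Finset.univ : Finset (Fin r)) (x := fun s => X s U - EX μ L (b ^ 4) (X s))
      (y := fun s => W s U - cs s) (M := B2 * (c * z ^ 2)) (δ := B1 * c * Y * z ^ 4) ?_ ?_ ?_ ?_ ?_
    · rw [Finset.card_univ, Fintype.card_fin] at h1
      refine h1.trans (le_of_eq ?_)
      rw [mul_pow, mul_pow, ← pow_mul, pow_add z (2 * r + 3) 1, pow_add z (2 * r) 3, pow_add c r 1]
      ring
    · have h2 : 1 ≤ B2 := by
        rw [hB2]
        nlinarith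
      nlinarith
    · positivity
    · intro s _
      refine (abs_sub _ _).trans ?_
      have h2 := hXb' s
      have h3 := hEX s
      have h4 : C2 * c ≤ C2 * (c * z ^ 2) := by
        refine mul_le_mul_of_nonneg_left ?_ hC2.le
        nlinarith
      have h5 : z ^ 2 ≤ c * z ^ 2 := by nlinarith
      have h6 : 0 ≤ 6 * n * (c * z ^ 2) := by positivity
      have e : B2 * (c * z ^ 2) = c * z ^ 2 + C2 * (c * z ^ 2) + 6 * n * (c * z ^ 2) := by
        rw [hB2]; ring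
      rw [e]; linarith
    · intro s _
      refine (abs_sub _ _).trans ?_
      have h2 := hWb' s
      have h3 := hcs5 s
      have h5 : z ^ 2 ≤ c * z ^ 2 := by nlinarith
      have h6 : (n : ℝ) * z ^ 2 ≤ n * (c * z ^ 2) := mul_le_mul_of_nonneg_left h5 hn0
      have h7 : (n : ℝ) * 1 ≤ n * (c * z ^ 2) := mul_le_mul_of_nonneg_left hcz hn0
      have h8 : 0 ≤ (1 + C2) * (c * z ^ 2) := by positivity
      have e : B2 * (c * z ^ 2) = (1 + C2) * (c * z ^ 2) + 6 * (n * (c * z ^ 2)) := by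
        rw [hB2]; ring
      rw [e]; linarith
    · intro s _
      have e : X s U - EX μ L (b ^ 4) (X s) - (W s U - cs s) =
          (X s U - W s U) - (EX μ L (b ^ 4) (X s) - cs s) := by ring
      rw [e]
      refine (abs_sub _ _).trans ?_
      have h2 := hXW' s
      have h3 := hEXc s
      have h4 : C0 * z ^ 4 / b ^ 4 ≤ C0 * c * Y * z ^ 4 := by
        calc C0 * z ^ 4 / b ^ 4 = C0 * z ^ 4 * (1 / b ^ 4) := by ring
          _ ≤ C0 * z ^ 4 * Y := mul_le_mul_of_nonneg_left hYb (by positivity)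
          _ = C0 * Y * z ^ 4 * 1 := by ring
          _ ≤ C0 * Y * z ^ 4 * c := mul_le_mul_of_nonneg_left hc (by positivity)
          _ = _ := by ring
      have h5 : (C0 * C4 + C1) * c * Y ≤ (C0 * C4 + C1) * c * Y * z ^ 4 :=
        le_mul_of_one_le_right (by positivity) hz4
      have e2 : B1 * c * Y * z ^ 4 = C0 * c * Y * z ^ 4 + (C0 * C4 + C1) * c * Y * z ^ 4 := by
        rw [hB1]; ring
      rw [e2]; linarith
  have hcX : Continuous fun U => ∏ s, (X s U - EX μ L (b ^ 4) (X s)) :=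
    continuous_finsetProd _ fun s _ => (hXc s).sub continuous_const
  have hcW : Continuous fun U => ∏ s, (W s U - cs s) :=
    continuous_finsetProd _ fun s _ => (hWc s).sub continuous_const
  have hfin : |EX μ L (b ^ 4) (fun U => ∏ s, (X s U - EX μ L (b ^ 4) (X s))) -
      EX μ L (b ^ 4) (fun U => ∏ s, (W s U - cs s))| ≤ r * B1 * B2 ^ r * C6 * c ^ (r + 2) * Y := by
    rw [← EX_sub μ hcX hcW]
    refine (EX_abs μ (hcX.sub hcW)).trans ?_
    have e2 : EX μ L (b ^ 4) (fun U => |∏ s, (X s U - EX μ L (b ^ 4) (X s)) -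
        ∏ s, (W s U - cs s)|) ≤ EX μ L (b ^ 4) (fun U =>
          (r * B1 * B2 ^ r * c ^ (r + 1) * Y) * Z U ^ (2 * r + 3 + 1)) :=
      EX_mono μ (hcX.sub hcW).abs (continuous_const.mul (hZc.pow (2 * r + 3 + 1))) hpr
    rw [EX_smul] at e2
    refine e2.trans ?_
    calc r * B1 * B2 ^ r * c ^ (r + 1) * Y * EX μ L (b ^ 4) (fun U => Z U ^ (2 * r + 3 + 1)) ≤
        r * B1 * B2 ^ r * c ^ (r + 1) * Y * (C6 * c) :=
          mul_le_mul_of_nonneg_left hZ6' (by positivity)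
      _ = _ := by ring
  have hcc : c ≤ c ^ (r + 2) := by
    calc c = c ^ 1 := (pow_one c).symm
      _ ≤ c ^ (r + 2) := pow_le_pow_right₀ hc (by omega)
  have h7 : C1 * c * Y ≤ C1 * c ^ (r + 2) * Y := by gcongr
  have h8 := abs_le.1 hfin
  have h9 := abs_le.1 hY2
  have e : (r * B1 * B2 ^ r * C6 + C1) * c ^ (r + 2) * Y =
    r * B1 * B2 ^ r * C6 * c ^ (r + 2) * Y + C1 * c ^ (r + 2) * Y := by ring
  rw [e, abs_le]
  constructor <;> linarith [h8.1, h8.2, h9.1, h9.2]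

end

end Pool.Agent.T2h94
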