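import Mathlib
import Pool.Agent.T2h94.Tor3
import Pool.Agent.T2h94.KDef
import Pool.Agent.W793.YM.Rebase

/-!
# The covariance of the legs in terms of the lazy walk on the lattice
-/

open MeasureTheory Matrix
open scoped Matrix.Norms.Frobenius ContDiff
open Pool.Agent.H906R3.YM Pool.Agent.W793.YM Pool.Agent.TH618.YM

namespace Pool.Agent.T2h94

set_option linter.unusedSectionVars false
set_option linter.unusedVariables false

noncomputable section

section

variable {d l : ℕ} [NeZero l]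

lemma zt_zero_iff {z : Fin d → ℤ} (hz : ∀ i, |z i| < l) : zt l z = 0 ↔ z = 0 := by
  constructor
  · intro h
    funext i
    have h1 : (z i : ZMod l) = 0 := congrFun h i
    rw [ZMod.intCast_zmod_eq_zero_iff_dvd] at h1
    exact Int.eq_zero_of_abs_lt_dvd h1 (hz i)
  · rintro rfl
    funext i
    show ((0 : ℤ) : ZMod l) = 0
    simp

lemma zt_add' (z w : Fin d → ℤ) : zt l (z + w) = zt l z + zt l w := by
  funext i
  show ((z i + w i : ℤ) : ZMod l) = (z i : ZMod l) + (w i : ZMod l)
  push_cast; rfl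

lemma zt_sub' (z : Fin d → ℤ) (i : Fin d) : zt l (z - Pi.single i 1) = zt l z - eT i := by
  rw [eq_sub_iff_add_eq, zt_sub]

lemma abs_single (z : Fin d → ℤ) (i j : Fin d) :
    |(z + Pi.single i 1 : Fin d → ℤ) j| ≤ |z j| + 1 ∧
      |(z - Pi.single i 1 : Fin d → ℤ) j| ≤ |z j| + 1 := by
  have h : |(Pi.single i (1 : ℤ) : Fin d → ℤ) j| ≤ 1 := by
    by_cases h : j = i
    · subst h; simp
    · simp [h]
  constructor
  · rw [Pi.add_apply]; exact (abs_add_le _ _).trans (by linarith)
  · rw [Pi.sub_apply]; exact (abs_sub _ _).trans (by linarith)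

/-- the law of the walk on the periodic lattice -/
lemma pk_torus (hd : 0 < d) (x : St d l) (k : ℕ) (z : Fin d → ℤ) (hz : ∀ i, |z i| + k < l) :
    Plk k (fun y => if y = x then (1 : ℝ) else 0) (x + zt l z) = pk d k z := by
  induction k generalizing z with
  | zero =>
    rw [Plk_zero]
    have h : x + zt l z = x ↔ z = 0 := by
      rw [add_eq_left]
      exact zt_zero_iff fun i => by have := hz i; push_cast at this; linarith
    unfold pk
    simp only [h]
  | succ k ih =>
    rw [Plk_succ, Pl_apply hd]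
    unfold pk
    have h0 : ∀ i, |z i| + k < l := fun i => by have := hz i; push_cast at this; linarith
    rw [ih z h0]
    congr 2
    refine Finset.sum_congr rfl fun i _ => ?_
    rw [add_assoc, ← zt_add, add_sub_assoc, ← zt_sub']
    rw [ih _ fun j => ?_, ih _ fun j => ?_]
    · have := hz j
      have h1 := (abs_single z i j).2
      push_cast at this; linarith
    · have := hz j
      have h1 := (abs_single z i j).1
      push_cast at this; linarith

/-- the second difference of the potential -/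
lemma hk_torus (hd : 0 < d) (x : St d l) (K : ℕ) (p j : Fin d) (z : Fin d → ℤ)
    (hz : ∀ i, |z i| + K + 1 < l) :
    Dp p (Dm j (uK K (fun y => if y = x then (1 : ℝ) else 0))) (x + zt l z) = hk d K p j z := by
  obtain ⟨f, hf⟩ : ∃ f : St d l → ℝ, f = fun y => if y = x then (1 : ℝ) else 0 := ⟨_, rfl⟩
  rw [← hf]
  have e1 : Dp p (Dm j (uK K f)) (x + zt l z) = (1 / (4 * d) : ℝ) * ∑ k ∈ Finset.range K,
      (Plk k f (x + zt l z + eT p - eT j) - Plk k f (x + zt l z + eT p) -
        Plk k f (x + zt l z - eT j) + Plk k f (x + zt l z)) := by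
    unfold Dp Dm uK
    simp only [Pi.smul_apply, smul_eq_mul, Finset.sum_apply]
    simp only [Finset.sum_add_distrib, Finset.sum_sub_distrib]
    ring
  rw [e1]
  unfold hk
  congr 1
  refine Finset.sum_congr rfl fun k hk' => ?_
  have hk := Finset.mem_range.1 hk'
  have hkK : (k : ℤ) + 1 ≤ K := by exact_mod_cast hk
  have e2 : x + zt l z + eT p - eT j = x + zt l (z + Pi.single p 1 - Pi.single j 1) := by
    rw [zt_sub', zt_add]; abel
  have e3 : x + zt l z + eT p = x + zt l (z + Pi.single p 1) := by rw [zt_add]; abel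
  have e4 : x + zt l z - eT j = x + zt l (z - Pi.single j 1) := by rw [zt_sub']; abel
  rw [e2, e3, e4, hf, pk_torus hd x k _ fun i => ?_, pk_torus hd x k _ fun i => ?_,
    pk_torus hd x k _ fun i => ?_, pk_torus hd x k _ fun i => ?_]
  · have := hz i; linarith
  · have := hz i
    have h1 := (abs_single z j i).2
    linarith
  · have := hz i
    have h1 := (abs_single z p i).1
    linarith
  · have := hz i
    have h1 := (abs_single (z + Pi.single p 1) j i).2
    have h2 := (abs_single z p i).1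
    linarith

end

/-- the covariance of two components of the curvature of the lattice Maxwell field, with a kernel
`h` in place of the second difference of the Green function -/
def Kk {d : ℕ} (h : Fin d → Fin d → ℝ) (p q : Fin d × Fin d) : ℝ :=
  (if q.2 = p.2 then h q.1 p.1 else 0) - (if q.2 = p.1 then h q.1 p.2 else 0) -
    (if q.1 = p.2 then h q.2 p.1 else 0) + (if q.1 = p.1 then h q.2 p.2 else 0)

/-- the covariance of two legs -/
lemma Cv_eq {n d l : ℕ} [NeZero l] (hd : 0 < d) (K : ℕ) (i t : Leg n d l) (z : Fin d → ℤ)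
    (hz : t.x = i.x + zt l z) (hzK : ∀ s, |z s| + K + 1 < l) :
    Cv K i t = if i.a = t.a then Kk (fun p j => hk d K p j z) (i.j, i.k) (t.j, t.k) else 0 := by
  obtain ⟨f, hf⟩ : ∃ f : St d l → ℝ, f = fun y => if y = i.x then (1 : ℝ) else 0 := ⟨_, rfl⟩
  obtain ⟨u, hu⟩ : ∃ u, u = uK K f := ⟨_, rfl⟩
  unfold Cv
  rw [ef_eval t (fun a => d1 (AK K (ef i) a))]
  have hasy : d1 (AK K (ef i) t.a) t.k t.j t.x = -d1 (AK K (ef i) t.a) t.j t.k t.x := by
    have h := congrFun (d1_asy (AK K (ef i) t.a) t.k t.j) t.x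
    rw [Pi.neg_apply] at h
    exact h
  rw [hasy]
  have hsm : ∀ (c : ℝ), uK K (c • f) = c • u := by
    intro c
    rw [hu]
    unfold uK
    simp only [Plk_smul, ← Finset.smul_sum]
    rw [smul_comm]
  have huK : ∀ (p m : Fin d), uK K (ef i t.a p m) =
      (if i.a = t.a then (if p = i.j ∧ m = i.k then (1 : ℝ) else 0) -
        (if p = i.k ∧ m = i.j then 1 else 0) else 0) • u := by
    intro p m
    rw [← hsm]
    congr 1
    funext y
    rw [Pi.smul_apply, smul_eq_mul, hf]
    unfold ef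
    by_cases h1 : i.a = t.a
    · by_cases h2 : y = i.x
      · simp [h1, h2]
      · simp [h2]
    · have h1' : ¬ t.a = i.a := fun h => h1 h.symm
      simp [h1, h1']
  have hA : ∀ m, AK K (ef i) t.a m = (if i.a = t.a then (if m = i.k then (1 : ℝ) else 0) else 0) •
      Dm i.j u - (if i.a = t.a then (if m = i.j then (1 : ℝ) else 0) else 0) • Dm i.k u := by
    intro m
    unfold AK ds2 uKs
    simp only [huK, Dm_smul]
    by_cases h1 : i.a = t.a
    · simp only [if_pos h1]
      simp only [sub_smul, Finset.sum_sub_distrib]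
      congr 1
      · rw [Finset.sum_eq_single i.j]
        · by_cases h2 : m = i.k <;> simp [h2]
        · intro p _ hp; simp [hp]
        · intro h; exact absurd (Finset.mem_univ _) h
      · rw [Finset.sum_eq_single i.k]
        · by_cases h2 : m = i.j <;> simp [h2]
        · intro p _ hp; simp [hp]
        · intro h; exact absurd (Finset.mem_univ _) h
    · simp only [if_neg h1, zero_smul, Finset.sum_const_zero, sub_zero]
  have hd1 : d1 (AK K (ef i) t.a) t.j t.k t.x =
      (if i.a = t.a then Kk (fun p j => hk d K p j z) (i.j, i.k) (t.j, t.k) else 0) := by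
    unfold d1
    rw [hA, hA, Dp_sub, Dp_sub, Dp_smul, Dp_smul, Dp_smul, Dp_smul]
    simp only [Pi.sub_apply, Pi.smul_apply, smul_eq_mul]
    have hk' : ∀ p j, Dp p (Dm j u) t.x = hk d K p j z := by
      intro p j
      rw [hz, hu, hf]
      exact hk_torus hd i.x K p j z hzK
    simp only [hk']
    unfold Kk
    by_cases h1 : i.a = t.a
    · simp only [if_pos h1]
      split_ifs <;> ring
    · simp only [if_neg h1]; ring
  rw [hd1]; ring

/-- the covariances of the legs at points of the lattice -/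
def Cz {n d r : ℕ} (h : (Fin d → ℤ) → Fin d → Fin d → ℝ) (y : Fin r → Fin d → ℤ) (D : Fin r → Dir d)
    (α : Fin r → Fin n) (i j : Lg r) : ℝ :=
  if (ofLex i).1 = (ofLex j).1 then 0 else
    if α (ofLex i).1 = α (ofLex j).1 then
      Kk (h (y (ofLex j).1 - y (ofLex i).1))
        (if (ofLex i).2 then (D (ofLex i).1).2 else (D (ofLex i).1).1)
        (if (ofLex j).2 then (D (ofLex j).1).2 else (D (ofLex j).1).1)
    else 0

lemma Cw_eq {n d l r : ℕ} [NeZero l] (hd : 0 < d) (K : ℕ) (y : Fin r → Fin d → ℤ)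
    (D : Fin r → Dir d) (α : Fin r → Fin n) (w : St d l)
    (hy : ∀ s t i, |y t i - y s i| + K + 1 < l) (i j : Lg r) :
    Cw K (fun s => zt l (y s) + w) D α i j = Cz (fun z p q => hk d K p q z) y D α i j := by
  unfold Cw Cz
  by_cases h : (ofLex i).1 = (ofLex j).1
  · rw [if_pos h, if_pos h]
  · rw [if_neg h, if_neg h]
    rw [Cv_eq hd K _ _ (y (ofLex j).1 - y (ofLex i).1) ?_ ?_]
    · unfold lg
      simp only
      congr 1
      cases (ofLex i).2 <;> cases (ofLex j).2 <;> simp
    · unfold lg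
      simp only
      have e : zt l (y (ofLex j).1) = zt l (y (ofLex i).1 + (y (ofLex j).1 - y (ofLex i).1)) := by
        congr 1; abel
      rw [e, zt_add']; abel
    · intro s
      exact hy _ _ _

variable {G : Type*} [Group G] [TopologicalSpace G] [IsTopologicalGroup G] [CompactSpace G]
  [SecondCountableTopology G] [MeasurableSpace G] [BorelSpace G] (μ : Measure G)
  [IsProbabilityMeasure μ] [μ.IsMulLeftInvariant] [μ.IsMulRightInvariant] [μ.IsInvInvariant]
  {N n : ℕ} {L : LD G N n}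

lemma Xo_tr {d l : ℕ} [NeZero l] (b : ℝ) (x w : St d l) (D : Dir d) (U : Ed d l → G) :
    Xo L b (x + w) D U = Xo L b x D (tr w U) := by
  unfold Xo
  rw [plqT_tr, plqT_tr]

/-- the truncated products of the gauge invariant fields at points of the lattice -/
theorem lattice_main {d : ℕ} (hd : 3 ≤ d) (q r : ℕ) {C0 : ℝ} (hC0 : 0 ≤ C0)
    (hcar : ∀ g : G, dv L g ^ 2 ≤ ∑ a, fi L a g ^ 2 + C0 * dv L g ^ 4) :
    ∃ C : ℝ, 0 < C ∧ ∀ c : ℝ, 1 ≤ c →
    ∀ (m K : ℕ) [NeZero m], 1 ≤ K → 3 * K + 5 < 2 * m →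
    ∀ (y : Fin r → Fin d → ℤ) (D : Fin r → Dir d), (∀ s i, 2 * |y s i| + 2 ≤ K) →
      |EX μ L ((c ^ q) ^ 4) (fun U : Ed d (2 * m) → G =>
        ∏ s, (Xo L (c ^ q) (zt (2 * m) (y s)) (D s) U -
        EX μ L ((c ^ q) ^ 4) (Xo L (c ^ q) (zt (2 * m) (y s)) (D s) : (Ed d (2 * m) → G) → ℝ))) -
        ∑ α : Fin r → Fin n, wick (Cz (fun z p q => hk d K p q z) y D α) Finset.univ| ≤
        C * c ^ (r + 2) * (1 / Real.sqrt (Real.sqrt K) +
          (K : ℝ) ^ (d * (2 * r + 3) + 3) / (c ^ q) ^ 2) := by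
  obtain ⟨C, hC, h⟩ := torus_main μ (L := L) hd q r hC0 hcar
  refine ⟨C, hC, fun c hc m K _ hK hKm y D hy => ?_⟩
  obtain ⟨wi, hwi⟩ : ∃ wi : ℤ, wi = K + 2 + (K / 2 : ℕ) := ⟨_, rfl⟩
  obtain ⟨w, hw⟩ : ∃ w : St d (2 * m), w = zt (2 * m) (fun _ => wi) := ⟨_, rfl⟩
  have hKd : ((K / 2 : ℕ) : ℤ) * 2 ≤ K ∧ (K : ℤ) < ((K / 2 : ℕ) : ℤ) * 2 + 2 := by
    constructor <;> omega
  have hwin : ∀ s i, (K : ℤ) + 2 ≤ y s i + wi ∧ y s i + wi < 2 * K + 2 := by
    intro s i
    have h1 := hy s i
    have h2 := abs_le.1 (le_refl |y s i|)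
    constructor <;> omega
  have hmz : (3 * K + 5 : ℤ) < 2 * m := by exact_mod_cast hKm
  have h1 := h c hc m K hK hKm (fun s => zt (2 * m) (y s) + w) D ?_
  · have e1 : ∀ s, (Xo L (c ^ q) (zt (2 * m) (y s) + w) (D s) : (Ed d (2 * m) → G) → ℝ) =
        fun U => Xo L (c ^ q) (zt (2 * m) (y s)) (D s) (tr w U) := fun s => by
      funext U; exact Xo_tr _ _ _ _ _
    have e2 : ∀ s, EX μ L ((c ^ q) ^ 4) (Xo L (c ^ q) (zt (2 * m) (y s) + w) (D s) :
        (Ed d (2 * m) → G) → ℝ) = EX μ L ((c ^ q) ^ 4)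
          (Xo L (c ^ q) (zt (2 * m) (y s)) (D s) : (Ed d (2 * m) → G) → ℝ) := fun s => by
      rw [e1, EX_tr μ w (Xo L (c ^ q) (zt (2 * m) (y s)) (D s) : (Ed d (2 * m) → G) → ℝ)]
    have e3 : EX μ L ((c ^ q) ^ 4) (fun U : Ed d (2 * m) → G =>
        ∏ s, (Xo L (c ^ q) (zt (2 * m) (y s) + w) (D s) U -
        EX μ L ((c ^ q) ^ 4) (Xo L (c ^ q) (zt (2 * m) (y s) + w) (D s) :
          (Ed d (2 * m) → G) → ℝ))) = EX μ L ((c ^ q) ^ 4) (fun U : Ed d (2 * m) → G =>
        ∏ s, (Xo L (c ^ q) (zt (2 * m) (y s)) (D s) U -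
        EX μ L ((c ^ q) ^ 4) (Xo L (c ^ q) (zt (2 * m) (y s)) (D s) :
          (Ed d (2 * m) → G) → ℝ))) := by
      rw [← EX_tr μ w (fun U : Ed d (2 * m) → G =>
        ∏ s, (Xo L (c ^ q) (zt (2 * m) (y s)) (D s) U -
        EX μ L ((c ^ q) ^ 4) (Xo L (c ^ q) (zt (2 * m) (y s)) (D s) :
          (Ed d (2 * m) → G) → ℝ)))]
      congr 1
      funext U
      refine Finset.prod_congr rfl fun s _ => ?_
      rw [e2, Xo_tr]
    rw [e3] at h1
    have e4 : ∀ α : Fin r → Fin n, wick (Cw K (fun s => zt (2 * m) (y s) + w) D α) Finset.univ =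
        wick (Cz (fun z p q => hk d K p q z) y D α) Finset.univ := by
      intro α
      congr 1
      funext i j
      refine Cw_eq (by omega) K y D α w (fun s t k => ?_) i j
      have h1 := hy s k
      have h2 := hy t k
      have h3 := abs_sub (y t k) (y s k)
      push_cast
      omega
    simp only [e4] at h1
    exact h1
  · intro s i
    have h2 := hwin s i
    have h3 : wv (zt (2 * m) (y s) + w) i = (y s i + wi).toNat := by
      have e : (zt (2 * m) (y s) + w) i = (((y s i + wi).toNat : ℕ) : ZMod (2 * m)) := by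
        rw [hw]
        show ((y s i : ℤ) : ZMod (2 * m)) + ((wi : ℤ) : ZMod (2 * m)) = _
        have : (((y s i + wi).toNat : ℕ) : ZMod (2 * m)) = (((y s i + wi).toNat : ℤ) : ZMod (2 * m)) := by
          push_cast; rfl
        rw [this, Int.toNat_of_nonneg (by omega)]
        push_cast; rfl
      unfold wv
      rw [e, ZMod.val_natCast, Nat.mod_eq_of_lt]
      omega
    show K + 2 ≤ wv (zt (2 * m) (y s) + w) i ∧ wv (zt (2 * m) (y s) + w) i < 2 * K + 2
    rw [h3]
    constructor <;> omega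

end

end Pool.Agent.T2h94
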