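import Mathlib
import Pool.Agent.T2h94.Ker
import Pool.Agent.T2h94.KDef2
import Pool.Agent.W793.YM.Lat2

/-!
# The variance of the smeared curvature as a double sum with the Green function
-/

open MeasureTheory Matrix
open scoped Matrix.Norms.Frobenius ContDiff
open Pool.Agent.H906R3.YM Pool.Agent.W793.YM Pool.Agent.TH618.YM

namespace Pool.Agent.T2h94

set_option linter.unusedSectionVars false
set_option linter.unusedVariables false

noncomputable section

variable {n d l : ℕ} [NeZero l]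

/-! ### commutation -/

lemma Dm_lap (j : Fin d) (f : St d l → ℝ) : Dm j (lap f) = lap (Dm j f) := by
  unfold lap
  rw [Dm_sum]
  refine Finset.sum_congr rfl fun i _ => ?_
  rw [Dm_comm, Dp_Dm]

lemma Dm_Pl (j : Fin d) (f : St d l → ℝ) : Dm j (W793.YM.Pl f) = W793.YM.Pl (Dm j f) := by
  unfold W793.YM.Pl
  rw [Dm_sub, Dm_smul, Dm_lap]

lemma Dm_Plk (j : Fin d) (k : ℕ) (f : St d l → ℝ) : Dm j (Plk k f) = Plk k (Dm j f) := by
  induction k with
  | zero => rfl
  | succ k ih => rw [Plk_succ, Plk_succ, Dm_Pl, ih]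

lemma Dm_uK (j : Fin d) (K : ℕ) (f : St d l → ℝ) : Dm j (uK K f) = uK K (Dm j f) := by
  unfold uK
  rw [Dm_smul, Dm_sum]
  simp only [Dm_Plk]

lemma uK_zero' (K : ℕ) : uK K (0 : St d l → ℝ) = 0 := by
  have h := uK_smul K 0 (0 : St d l → ℝ)
  simpa using h

lemma uK_sum' {ι : Type*} (K : ℕ) (s : Finset ι) (f : ι → St d l → ℝ) :
    uK K (∑ i ∈ s, f i) = ∑ i ∈ s, uK K (f i) := by
  classical
  induction s using Finset.induction_on with
  | empty => simp [uK_zero']
  | insert i s hi ih => rw [Finset.sum_insert hi, Finset.sum_insert hi, uK_add, ih]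

lemma ds2_uKs (K : ℕ) (f : Fin n → Fm d l) (a : Fin n) (k : Fin d) :
    AK K f a k = uK K (ds2 (f a) k) := by
  unfold AK ds2 uKs
  rw [uK_sum']
  exact Finset.sum_congr rfl fun j _ => Dm_uK _ _ _

/-! ### the variance -/

/-- the main part of the variance -/
def mK (K : ℕ) (f : Fin n → Fm d l) : ℝ :=
  ∑ a, ∑ k, ip2 (ds2 (f a) k) (uK K (ds2 (f a) k))

lemma ipF_smul_both (c : ℝ) (f g : Fm d l) (hc : c ≠ 0) : ipF f g = ipF (c • f) (c⁻¹ • g) := by
  rw [ipF_smul_left, ipF_smul_right, ← mul_assoc, mul_inv_cancel₀ hc, one_mul]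

lemma ipF_young' (f g : Fm d l) {e : ℝ} (he : 0 < e) :
    |ipF f g| ≤ 1 / 2 * (ipF f f / e + e * ipF g g) := by
  obtain ⟨c, hc⟩ : ∃ c, c = (Real.sqrt e)⁻¹ := ⟨_, rfl⟩
  have hs : 0 < Real.sqrt e := Real.sqrt_pos.2 he
  have hc0 : c ≠ 0 := by rw [hc]; positivity
  have hss : Real.sqrt e * Real.sqrt e = e := Real.mul_self_sqrt he.le
  rw [ipF_smul_both c f g hc0]
  refine (ipF_young _ _).trans (le_of_eq ?_)
  rw [ipF_smul_left, ipF_smul_right, ipF_smul_left, ipF_smul_right]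
  have e1 : c * (c * ipF f f) = ipF f f / e := by
    rw [hc, ← mul_assoc, ← mul_inv, hss]; ring
  have e2 : c⁻¹ * (c⁻¹ * ipF g g) = e * ipF g g := by
    rw [hc, inv_inv, ← mul_assoc, hss]
  rw [e1, e2]

lemma vK_mK (K : ℕ) {f : Fin n → Fm d l} (hf : ∀ a, Asy (f a)) {e : ℝ} (he : 0 < e) :
    |vK K f - mK K f| ≤ 1 / 2 * (1 / 2 * N2 (Pks K f) / e + e * vK K f) := by
  obtain ⟨P, hP⟩ : ∃ P, P = Pks K f := ⟨_, rfl⟩
  obtain ⟨D, hD⟩ : ∃ D : Fin n → Fm d l, D = fun a => d1 (AK K f a) := ⟨_, rfl⟩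
  obtain ⟨E, hE⟩ : ∃ E : Fin n → Fm d l, E = fun a => cx (uKs K f a) := ⟨_, rfl⟩
  have hdec : f = P + D + E := by rw [hP, hD, hE]; exact dec K f
  have horth : ∀ a, ipF (E a) (D a) = 0 := fun a => by
    rw [hE, hD]; exact cx_orth (uKs_asy hf a) _
  have hV : vK K f = ∑ a, ipF (D a) (D a) := by rw [hD]; rfl
  have hM : mK K f = ∑ a, ipF (f a) (D a) := by
    unfold mK
    refine Finset.sum_congr rfl fun a _ => ?_
    rw [hD]
    simp only
    rw [ipF_ds (hf a)]
    refine Finset.sum_congr rfl fun k _ => ?_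
    rw [ds2_uKs]
  have h1 : ∀ a, ipF (D a) (D a) - ipF (f a) (D a) = -ipF (P a) (D a) := by
    intro a
    have e1 : f a = P a + D a + E a := by
      conv_lhs => rw [hdec]
      rfl
    have e2 : ipF (f a) (D a) = ipF (P a) (D a) + ipF (D a) (D a) + ipF (E a) (D a) := by
      calc ipF (f a) (D a) = ipF (P a + D a + E a) (D a) := by rw [← e1]
        _ = _ := by rw [ipF_add_left, ipF_add_left]
    rw [e2, horth]; ring
  rw [hM]
  have e3 : vK K f - ∑ a, ipF (f a) (D a) = ∑ a, -ipF (P a) (D a) := by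
    rw [hV, ← Finset.sum_sub_distrib]
    exact Finset.sum_congr rfl fun a _ => h1 a
  rw [e3]
  refine (Finset.abs_sum_le_sum_abs _ _).trans ?_
  calc ∑ a, |-ipF (P a) (D a)| ≤ ∑ a, 1 / 2 * (ipF (P a) (P a) / e + e * ipF (D a) (D a)) :=
        Finset.sum_le_sum fun a _ => by rw [abs_neg]; exact ipF_young' _ _ he
    _ = 1 / 2 * ((∑ a, ipF (P a) (P a)) / e + e * ∑ a, ipF (D a) (D a)) := by
        rw [← Finset.mul_sum, Finset.sum_add_distrib, Finset.sum_div, Finset.mul_sum]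
    _ = _ := by rw [ipF_N2 P, ← hV, hP]

/-! ### embedding of functions on the lattice -/

/-- the function on the periodic lattice -/
def em (w : Fin d → ℤ) (B : Finset (Fin d → ℤ)) (u : (Fin d → ℤ) → ℝ) : St d l → ℝ :=
  fun y => ∑ x ∈ B, if y = zt l (x + w) then u x else 0

lemma em_ext {w : Fin d → ℤ} {B B' : Finset (Fin d → ℤ)} {u : (Fin d → ℤ) → ℝ} (h : B ⊆ B')
    (hu : ∀ x, u x ≠ 0 → x ∈ B) : (em w B u : St d l → ℝ) = em w B' u := by
  funext y
  unfold em
  refine Finset.sum_subset h fun x _ hx => ?_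
  have : u x = 0 := by
    by_contra h'
    exact hx (hu x h')
  rw [this, ite_self]

lemma em_shift {w : Fin d → ℤ} {B B' : Finset (Fin d → ℤ)} {u : (Fin d → ℤ) → ℝ} (j : Fin d)
    (hu : ∀ x, u x ≠ 0 → x ∈ B) (hB : ∀ x ∈ B, x + Pi.single j 1 ∈ B') (y : St d l) :
    em w B u (y - eT j) = em w B' (fun x => u (x - Pi.single j 1)) y := by
  unfold em
  have h1 : ∑ x ∈ B, (if y - eT j = zt l (x + w) then u x else 0) =
      ∑ x ∈ B.map (Equiv.addRight (Pi.single j 1 : Fin d → ℤ)).toEmbedding,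
        (if y = zt l (x + w) then u (x - Pi.single j 1) else 0) := by
    rw [Finset.sum_map]
    refine Finset.sum_congr rfl fun x _ => ?_
    simp only [Equiv.coe_toEmbedding, Equiv.coe_addRight, add_sub_cancel_right]
    have e : (y - eT j = zt l (x + w)) ↔ y = zt l (x + Pi.single j 1 + w) := by
      rw [add_right_comm, zt_add, sub_eq_iff_eq_add]
    simp only [e]
  rw [h1]
  refine Finset.sum_subset ?_ fun x _ hx => ?_
  · intro x hx
    obtain ⟨z, hz, rfl⟩ := Finset.mem_map.1 hx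
    exact hB z hz
  · have : u (x - Pi.single j 1) = 0 := by
      by_contra h'
      exact hx (Finset.mem_map.2 ⟨x - Pi.single j 1, hu _ h', by simp⟩)
    rw [this, ite_self]

/-- the codifferential on the lattice -/
def cg (g : Fin d → Fin d → (Fin d → ℤ) → ℝ) (k : Fin d) (x : Fin d → ℤ) : ℝ :=
  ∑ j, (g j k (x - Pi.single j 1) - g j k x)

lemma ds2_em {w : Fin d → ℤ} {B B' : Finset (Fin d → ℤ)} {g : Fin d → Fin d → (Fin d → ℤ) → ℝ}
    (hg : ∀ j k x, g j k x ≠ 0 → x ∈ B) (hB : ∀ j, ∀ x ∈ B, x + Pi.single j 1 ∈ B') (hBB : B ⊆ B')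
    (k : Fin d) : ds2 (fun j k => (em w B (g j k) : St d l → ℝ)) k = em w B' (cg g k) := by
  funext y
  unfold ds2
  rw [Finset.sum_apply]
  have h1 : ∀ j, Dm j (em w B (g j k) : St d l → ℝ) y =
      em w B' (fun x => g j k (x - Pi.single j 1)) y - em w B' (g j k) y := by
    intro j
    unfold Dm
    rw [em_shift j (hg j k) (hB j), em_ext hBB (hg j k)]
  rw [Finset.sum_congr rfl fun j _ => h1 j]
  unfold em cg
  simp only [← Finset.sum_sub_distrib]
  rw [Finset.sum_comm]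
  refine Finset.sum_congr rfl fun x _ => ?_
  by_cases h : y = zt l (x + w)
  · simp only [if_pos h]
  · simp only [if_neg h, sub_zero, Finset.sum_const_zero]

lemma gk_torus (hd : 0 < d) (x : St d l) (K : ℕ) (z : Fin d → ℤ) (hz : ∀ i, |z i| + K < l) :
    uK K (fun y => if y = x then (1 : ℝ) else 0) (x + zt l z) = gk d K z := by
  unfold uK gk
  rw [Pi.smul_apply, smul_eq_mul, Finset.sum_apply]
  congr 1
  refine Finset.sum_congr rfl fun k hk => pk_torus hd x k z fun i => ?_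
  have h1 := hz i
  have h2 : (k : ℤ) < K := by exact_mod_cast Finset.mem_range.1 hk
  linarith

lemma uK_em (hd : 0 < d) (K : ℕ) (w : Fin d → ℤ) (B : Finset (Fin d → ℤ)) (u : (Fin d → ℤ) → ℝ)
    (hB : ∀ x ∈ B, ∀ y ∈ B, ∀ i, |y i - x i| + K < l) {y : Fin d → ℤ} (hy : y ∈ B) :
    uK K (em w B u : St d l → ℝ) (zt l (y + w)) = ∑ x ∈ B, u x * gk d K (y - x) := by
  have h1 : (em w B u : St d l → ℝ) = ∑ x ∈ B, u x • fun y => if y = zt l (x + w) then (1 : ℝ) else 0 := by
    funext y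
    unfold em
    rw [Finset.sum_apply]
    refine Finset.sum_congr rfl fun x _ => ?_
    rw [Pi.smul_apply, smul_eq_mul, mul_ite, mul_one, mul_zero]
  rw [h1, uK_sum', Finset.sum_apply]
  refine Finset.sum_congr rfl fun x hx => ?_
  rw [uK_smul, Pi.smul_apply, smul_eq_mul]
  congr 1
  have e : zt l (y + w) = zt l (x + w) + zt l (y - x) := by
    rw [← zt_add']
    congr 1; abel
  rw [e]
  exact gk_torus hd _ K (y - x) fun i => hB x hx y hy i

lemma ip2_em (w : Fin d → ℤ) (B : Finset (Fin d → ℤ)) (u : (Fin d → ℤ) → ℝ) (f : St d l → ℝ) :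
    ip2 (em w B u) f = ∑ x ∈ B, u x * f (zt l (x + w)) := by
  unfold ip2 em
  simp only [Finset.sum_mul]
  rw [Finset.sum_comm]
  refine Finset.sum_congr rfl fun x _ => ?_
  rw [Finset.sum_eq_single (zt l (x + w))]
  · rw [if_pos rfl]
  · intro y _ hy; rw [if_neg hy, zero_mul]
  · intro h; exact absurd (Finset.mem_univ _) h

/-- the main part of the variance as a double sum -/
lemma mK_em (hd : 0 < d) (K : ℕ) (w : Fin d → ℤ) {B B' : Finset (Fin d → ℤ)}
    {g : Fin n → Fin d → Fin d → (Fin d → ℤ) → ℝ}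
    (hg : ∀ a j k x, g a j k x ≠ 0 → x ∈ B) (hB : ∀ j, ∀ x ∈ B, x + Pi.single j 1 ∈ B')
    (hBB : B ⊆ B') (hB' : ∀ x ∈ B', ∀ y ∈ B', ∀ i, |y i - x i| + K < l) :
    mK K (fun a j k => (em w B (g a j k) : St d l → ℝ)) =
      ∑ a, ∑ k, ∑ x ∈ B', ∑ y ∈ B', cg (g a) k x * cg (g a) k y * gk d K (y - x) := by
  unfold mK
  refine Finset.sum_congr rfl fun a _ => Finset.sum_congr rfl fun k _ => ?_
  rw [ds2_em (hg a) hB hBB k, ip2_em, Finset.sum_comm]
  refine Finset.sum_congr rfl fun y hy => ?_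
  rw [uK_em hd K w B' _ hB' hy, Finset.mul_sum]
  refine Finset.sum_congr rfl fun x _ => ?_
  ring

lemma em_N1 (w : Fin d → ℤ) (B : Finset (Fin d → ℤ)) (g : Fin n → Fin d → Fin d → (Fin d → ℤ) → ℝ) :
    N1 (fun a j k => (em w B (g a j k) : St d l → ℝ)) ≤ ∑ a, ∑ j, ∑ k, ∑ x ∈ B, |g a j k x| := by
  unfold N1
  refine Finset.sum_le_sum fun a _ => Finset.sum_le_sum fun j _ => Finset.sum_le_sum fun k _ => ?_
  unfold em
  calc ∑ y : St d l, |∑ x ∈ B, if y = zt l (x + w) then g a j k x else 0| ≤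
      ∑ y : St d l, ∑ x ∈ B, if y = zt l (x + w) then |g a j k x| else 0 := by
        refine Finset.sum_le_sum fun y _ => (Finset.abs_sum_le_sum_abs _ _).trans (le_of_eq ?_)
        refine Finset.sum_congr rfl fun x _ => ?_
        split_ifs <;> simp
    _ = _ := by
        rw [Finset.sum_comm]
        refine Finset.sum_congr rfl fun x _ => ?_
        rw [Finset.sum_ite_eq' Finset.univ (zt l (x + w)), if_pos (Finset.mem_univ _)]

lemma em_asy {w : Fin d → ℤ} {B : Finset (Fin d → ℤ)} {g : Fin d → Fin d → (Fin d → ℤ) → ℝ}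
    (hg : ∀ j k x, g j k x = -g k j x) : Asy (fun j k => (em w B (g j k) : St d l → ℝ)) := by
  intro j k
  funext y
  rw [Pi.neg_apply]
  unfold em
  rw [← Finset.sum_neg_distrib]
  refine Finset.sum_congr rfl fun x _ => ?_
  rw [hg j k x]
  split_ifs <;> simp

end

end Pool.Agent.T2h94
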