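import Mathlib
import Pool.Agent.T2h94.Lw1
import Pool.Agent.W793.YM.Rebase

/-!
# The smeared curvature, transported to the origin, of configurations on the lattice
-/

open MeasureTheory Matrix
open scoped Matrix.Norms.Frobenius ContDiff
open Pool.Agent.H906R3.YM Pool.Agent.W793.YM Pool.Agent.TH618.YM

namespace Pool.Agent.T2h94

set_option linter.unusedSectionVars false
set_option linter.unusedVariables false

noncomputable section

variable {G : Type*} [Group G] [TopologicalSpace G] [IsTopologicalGroup G] [CompactSpace G]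
  [SecondCountableTopology G] [MeasurableSpace G] [BorelSpace G] (μ : Measure G)
  [IsProbabilityMeasure μ] [μ.IsMulLeftInvariant] [μ.IsMulRightInvariant] [μ.IsInvInvariant]
  {N n : ℕ} {L : LD G N n}

/-- the plaquette variables -/
def pz {d : ℕ} (V : Ez d → G) (x : Fin d → ℤ) (j k : Fin d) : G :=
  V (x, j) * V (x + Pi.single j 1, k) * (V (x + Pi.single k 1, j))⁻¹ * (V (x, k))⁻¹

variable (L) in
/-- the smeared curvature, transported to the origin -/
def Fc {d : ℕ} (B : Finset (Fin d → ℤ)) (g : Fin n → Fin d → Fin d → (Fin d → ℤ) → ℝ)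
    (P : (Fin d → ℤ) → List (Fin d × Bool)) (V : Ez d → G) : ℝ :=
  ∑ a, 1 / 2 * ∑ j, ∑ k, ∑ x ∈ B, g a j k x *
    fi L a (hol V 0 (P x) * pz V x j k * (hol V 0 (P x))⁻¹)

lemma pz_cont {d : ℕ} (x : Fin d → ℤ) (j k : Fin d) :
    Continuous fun V : Ez d → G => pz V x j k := by
  have hc : ∀ e : Ez d, Continuous fun V : Ez d → G => V e := fun e => continuous_apply e
  exact (((hc _).mul (hc _)).mul (hc _).inv).mul (hc _).inv

lemma Fc_cont {d : ℕ} (B : Finset (Fin d → ℤ)) (g : Fin n → Fin d → Fin d → (Fin d → ℤ) → ℝ)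
    (P : (Fin d → ℤ) → List (Fin d × Bool)) : Continuous (Fc L B g P : (Ez d → G) → ℝ) := by
  unfold Fc
  refine continuous_finsetSum _ fun a _ => continuous_const.mul ?_
  refine continuous_finsetSum _ fun j _ => continuous_finsetSum _ fun k _ =>
    continuous_finsetSum _ fun x _ => continuous_const.mul ?_
  exact (fi_cont a).comp (((hol_cont 0 (P x)).mul (pz_cont x j k)).mul (hol_cont 0 (P x)).inv)

section

variable {d l : ℕ} [NeZero l]

lemma lf_tr (w : Fin d → ℤ) (U : Ed d l → G) :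
    lf (tr (zt l w) U) = fun e : Ez d => lf U (e.1 + w, e.2) := by
  funext e
  show U (zt l e.1 + zt l w, e.2) = U (zt l (e.1 + w), e.2)
  rw [zt_add']

lemma pz_lf (U : Ed d l → G) (x : Fin d → ℤ) (j k : Fin d) :
    pz (lf U) x j k = plqT U (zt l x) j k := by
  unfold pz plqT
  rw [← zt_add, ← zt_add]
  rfl

lemma pz_shift (V : Ez d → G) (w x : Fin d → ℤ) (j k : Fin d) :
    pz (fun e : Ez d => V (e.1 + w, e.2)) x j k = pz V (x + w) j k := by
  unfold pz
  simp only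
  rw [add_right_comm x (Pi.single j 1) w, add_right_comm x (Pi.single k 1) w]

/-- the paths on the periodic lattice -/
def Pt' (w : Fin d → ℤ) (P : (Fin d → ℤ) → List (Fin d × Bool)) (y : St d l) :
    List (Fin d × Bool) := P (fun i => ((wv y i : ℕ) : ℤ) - w i)

lemma Pt'_zt {w : Fin d → ℤ} (P : (Fin d → ℤ) → List (Fin d × Bool)) {x : Fin d → ℤ}
    (hx : ∀ i, 0 ≤ x i + w i ∧ x i + w i < l) : Pt' w P (zt l (x + w)) = P x := by
  unfold Pt'
  congr 1
  funext i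
  rw [wv_zt (z := x + w) (fun i => hx i) i, Pi.add_apply]
  ring

lemma Fc_lf (w : Fin d → ℤ) {B : Finset (Fin d → ℤ)}
    (g : Fin n → Fin d → Fin d → (Fin d → ℤ) → ℝ) (P : (Fin d → ℤ) → List (Fin d × Bool))
    (hB : ∀ x ∈ B, ∀ i, 0 ≤ x i + w i ∧ x i + w i < l) (U : Ed d l → G) :
    Fc L B g P (lf (tr (zt l w) U)) =
      Fh L (fun a j k => (em w B (g a j k) : St d l → ℝ)) (fun y => hol (lf U) w (Pt' w P y)) U := by
  unfold Fc Fh ipF
  refine Finset.sum_congr rfl fun a _ => ?_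
  congr 1
  refine Finset.sum_congr rfl fun j _ => Finset.sum_congr rfl fun k _ => ?_
  rw [ip2_em]
  refine Finset.sum_congr rfl fun x hx => ?_
  congr 2
  show _ = hol (lf U) w (Pt' w P (zt l (x + w))) * plqT U (zt l (x + w)) j k *
      (hol (lf U) w (Pt' w P (zt l (x + w))))⁻¹
  rw [Pt'_zt P (hB x hx), lf_tr, hol_trans, zero_add, pz_shift, pz_lf]

/-- the characteristic function on the periodic lattice -/
theorem law_torus {d : ℕ} (hd : 3 ≤ d) : ∃ C : ℝ, 0 < C ∧ ∀ b : ℝ, 1 ≤ b → ∀ (m : ℕ) [NeZero m]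
    (K : ℕ), 1 ≤ K → 3 * K + 5 < 2 * m → ∀ (B : Finset (Fin d → ℤ))
      (g : Fin n → Fin d → Fin d → (Fin d → ℤ) → ℝ) (P : (Fin d → ℤ) → List (Fin d × Bool)),
      (∀ a j k x, g a j k x = -g a k j x) → (∀ x ∈ B, ∀ i, 2 * |x i| + 2 ≤ (K : ℤ)) →
      (∀ x ∈ B, (P x).length ≤ K ∧ dest 0 (P x) = x) → ∃ w : Fin d → ℤ,
      |EX μ L (b ^ 4) (fun U : Ed d (2 * m) → G => Real.cos (b ^ 2 * Fc L B g P (lf U))) -
        Real.exp (-(vK K (fun a j k => (em w B (g a j k) : St d (2 * m) → ℝ)) / 2))| ≤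
        C * (N1 (fun a j k => (em w B (g a j k) : St d (2 * m) → ℝ)) /
          Real.sqrt (Real.sqrt K ^ (d - 2)) + (K : ℝ) ^ (2 * d + 3) *
          (1 + N1 (fun a j k => (em w B (g a j k) : St d (2 * m) → ℝ))) ^ 2 / b) ∧
      |EX μ L (b ^ 4) (fun U : Ed d (2 * m) → G => Real.sin (b ^ 2 * Fc L B g P (lf U)))| ≤
        C * (N1 (fun a j k => (em w B (g a j k) : St d (2 * m) → ℝ)) /
          Real.sqrt (Real.sqrt K ^ (d - 2)) + (K : ℝ) ^ (2 * d + 3) *
          (1 + N1 (fun a j k => (em w B (g a j k) : St d (2 * m) → ℝ))) ^ 2 / b) := by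
  obtain ⟨C, hC, h⟩ := lattice_rb μ (L := L) hd
  refine ⟨C, hC, fun b hb m _ K hK hKm B g P hg hB hP => ?_⟩
  obtain ⟨wi, hwi⟩ : ∃ wi : ℤ, wi = K + 2 + (K / 2 : ℕ) := ⟨_, rfl⟩
  obtain ⟨w, hw⟩ : ∃ w : Fin d → ℤ, w = fun _ => wi := ⟨_, rfl⟩
  have hmz : (3 * K + 5 : ℤ) < 2 * m := by exact_mod_cast hKm
  have hwin : ∀ x ∈ B, ∀ i, (K : ℤ) + 2 ≤ x i + w i ∧ x i + w i < 2 * K + 2 := by
    intro x hx i
    have h1 := hB x hx i
    have h2 := abs_le.1 (le_refl |x i|)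
    rw [hw]
    simp only
    constructor <;> omega
  have hrng : ∀ x ∈ B, ∀ i, 0 ≤ x i + w i ∧ x i + w i < ((2 * m : ℕ) : ℤ) := by
    intro x hx i
    have h1 := hwin x hx i
    push_cast
    constructor <;> linarith [h1.1, h1.2]
  refine ⟨w, ?_⟩
  obtain ⟨f, hf⟩ : ∃ f : Fin n → Fm d (2 * m), f = fun a j k => em w B (g a j k) := ⟨_, rfl⟩
  have hfn : ∀ a j k y, f a j k y ≠ 0 → ∃ x ∈ B, y = zt (2 * m) (x + w) := by
    intro a j k y hy
    by_contra hcon
    push Not at hcon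
    refine hy ?_
    rw [hf]
    show ∑ x ∈ B, (if y = zt (2 * m) (x + w) then g a j k x else 0) = 0
    exact Finset.sum_eq_zero fun x hx => if_neg (hcon x hx)
  have hfA : ∀ a, Asy (f a) := fun a => by rw [hf]; exact em_asy (hg a)
  have hfS : ∀ a j k, SW (K + 2) (2 * K + 2) (f a j k) := by
    intro a j k y hy i
    obtain ⟨x, hx, rfl⟩ := hfn a j k y hy
    have h1 := wv_zt (l := 2 * m) (z := x + w) (fun i => hrng x hx i) i
    have h2 := hwin x hx i
    rw [Pi.add_apply] at h1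
    constructor <;> omega
  have hfP : ∀ a j k y, f a j k y ≠ 0 → (Pt' w P y).length ≤ K ∧
      zt (2 * m) (dest w (Pt' w P y)) = y := by
    intro a j k y hy
    obtain ⟨x, hx, rfl⟩ := hfn a j k y hy
    rw [Pt'_zt P (hrng x hx)]
    refine ⟨(hP x hx).1, ?_⟩
    have h1 := dest_trans w 0 (P x)
    rw [zero_add, (hP x hx).2] at h1
    rw [h1]
  have hwo : ∀ i, (K : ℤ) + 1 ≤ w i ∧ w i ≤ 2 * K + 3 := by
    intro i
    rw [hw]
    simp only
    constructor <;> omega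
  obtain ⟨e1, e2⟩ := h b hb m K hK hKm f hfA hfS w (Pt' w P) hwo hfP
  have e3 : ∀ t : ℝ → ℝ, EX μ L (b ^ 4) (fun U : Ed d (2 * m) → G =>
      t (b ^ 2 * Fc L B g P (lf U))) = EX μ L (b ^ 4) (fun U : Ed d (2 * m) → G =>
      t (b ^ 2 * Fh L f (fun y => hol (lf U) w (Pt' w P y)) U)) := by
    intro t
    rw [← EX_tr μ (zt (2 * m) w) (fun U : Ed d (2 * m) → G => t (b ^ 2 * Fc L B g P (lf U)))]
    congr 1
    funext U
    rw [Fc_lf w g P hrng, hf]
  rw [e3 Real.cos, e3 Real.sin, ← hf]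
  exact ⟨e1, e2⟩

end

end

end Pool.Agent.T2h94
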