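import Mathlib
import Pool.Agent.T2h94.Lw2

/-!
# The scaling of the smeared curvature
-/

open MeasureTheory Matrix Filter
open scoped Matrix.Norms.Frobenius ContDiff Topology
open Pool.Agent.H906R3.YM Pool.Agent.W793.YM Pool.Agent.TH618.YM

namespace Pool.Agent.T2h94

set_option linter.unusedSectionVars false
set_option linter.unusedVariables false

noncomputable section

lemma vK_nonneg' {n d l : ℕ} [NeZero l] (K : ℕ) (f : Fin n → Fm d l) : 0 ≤ vK K f :=
  Finset.sum_nonneg fun a _ => ipF_self_nonneg _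

lemma vK_close {n d l : ℕ} [NeZero l] (K : ℕ) {f : Fin n → Fm d l} (hf : ∀ a, Asy (f a)) {e : ℝ}
    (he : 0 < e) (he1 : e ≤ 1) (h : 1 / 2 * N2 (Pks K f) ≤ e ^ 2) :
    |vK K f - mK K f| ≤ e * (1 + |mK K f|) := by
  have h1 := vK_mK K hf he
  have h2 := vK_mK K hf one_pos
  obtain ⟨p, hp⟩ : ∃ p, p = 1 / 2 * N2 (Pks K f) := ⟨_, rfl⟩
  rw [← hp] at h h1 h2
  have h0 : 0 ≤ p := by rw [hp]; exact mul_nonneg (by norm_num) (N2_nonneg _)
  have h3 : vK K f ≤ 2 * |mK K f| + p := by
    have := (abs_le.1 h2).2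
    have := le_abs_self (mK K f)
    linarith
  have h4 : p / e ≤ e := by rw [div_le_iff₀ he]; linarith [pow_two e]
  have h5 : p ≤ 1 := by nlinarith
  have h6 : e * vK K f ≤ e * (2 * |mK K f| + p) := mul_le_mul_of_nonneg_left h3 he.le
  have h7 : e * p ≤ e := by nlinarith
  linarith

/-- the difference quotients converge uniformly -/
lemma diff_unif {d : ℕ} {φ : (Fin d → ℝ) → ℝ} (h1 : ContDiff ℝ 1 φ) (hs : HasCompactSupport φ)
    (j : Fin d) {ε : ℝ} (hε : 0 < ε) : ∃ δ : ℝ, 0 < δ ∧ ∀ t : ℝ, 0 < t → t < δ →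
      ∀ Y : Fin d → ℝ, |(φ (Y - Pi.single j t) - φ Y) / t + fderiv ℝ φ Y (Pi.single j 1)| ≤ ε := by
  obtain ⟨ψ, hψ⟩ : ∃ ψ : (Fin d → ℝ) → ℝ, ψ = fun Y => fderiv ℝ φ Y (Pi.single j 1) := ⟨_, rfl⟩
  have hψc : Continuous ψ := by
    rw [hψ]
    exact (h1.continuous_fderiv one_ne_zero).clm_apply continuous_const
  have hψs : HasCompactSupport ψ := by
    rw [hψ]
    refine (hs.fderiv ℝ).mono ?_
    intro Y hY
    rw [Function.mem_support] at hY ⊢
    intro h
    rw [h] at hY
    exact hY rfl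
  have huc := hψs.uniformContinuous_of_continuous hψc
  rw [Metric.uniformContinuous_iff] at huc
  obtain ⟨δ, hδ, hd⟩ := huc ε hε
  refine ⟨δ, hδ, fun t ht htδ Y => ?_⟩
  have hder : ∀ s : ℝ, HasDerivAt (fun s : ℝ => φ (Y - Pi.single j s) + s * ψ Y)
      (-ψ (Y - Pi.single j s) + ψ Y) s := by
    intro s
    have e1 : HasDerivAt (fun s : ℝ => Y - Pi.single j s) (-Pi.single j 1) s := by
      have e2 : HasDerivAt (fun s : ℝ => (Pi.single j s : Fin d → ℝ)) (Pi.single j 1) s := by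
        rw [hasDerivAt_pi]
        intro k
        by_cases hk : k = j
        · subst hk
          simp only [Pi.single_eq_same]
          exact hasDerivAt_id s
        · simp only [Pi.single_eq_of_ne hk]
          exact hasDerivAt_const s 0
      exact e2.const_sub Y
    have e3 := ((h1.differentiable one_ne_zero) (Y - Pi.single j s)).hasFDerivAt.comp_hasDerivAt s e1
    have e4 : HasDerivAt (fun s : ℝ => s * ψ Y) (ψ Y) s := by
      simpa using (hasDerivAt_id s).mul_const (ψ Y)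
    have e5 := e3.add e4
    rw [map_neg] at e5
    have e6 : ψ (Y - Pi.single j s) = fderiv ℝ φ (Y - Pi.single j s) (Pi.single j 1) := by rw [hψ]
    rw [e6]
    exact e5
  have hb := Convex.norm_image_sub_le_of_norm_hasDerivWithin_le (s := Set.Icc (0 : ℝ) t)
    (f := fun s : ℝ => φ (Y - Pi.single j s) + s * ψ Y)
    (f' := fun s => -ψ (Y - Pi.single j s) + ψ Y) (x := 0) (y := t) (C := ε)
    (fun s _ => (hder s).hasDerivWithinAt) (fun s hs' => by
      have h2 : dist Y (Y - Pi.single j s) < δ := by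
        rw [dist_eq_norm, sub_sub_cancel]
        have e7 : ‖(Pi.single j s : Fin d → ℝ)‖ = ‖s‖ := Pi.norm_single _
        rw [e7, Real.norm_eq_abs, abs_of_nonneg hs'.1]
        exact lt_of_le_of_lt hs'.2 htδ
      have h3 := hd h2
      rw [Real.dist_eq] at h3
      rw [Real.norm_eq_abs, neg_add_eq_sub]
      exact h3.le) (convex_Icc _ _) (Set.left_mem_Icc.2 ht.le) (Set.right_mem_Icc.2 ht.le)
  simp only [Pi.single_zero, sub_zero, zero_mul, add_zero, Real.norm_eq_abs, abs_of_pos ht] at hb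
  have e8 : (φ (Y - Pi.single j t) - φ Y) / t + fderiv ℝ φ Y (Pi.single j 1) =
      (φ (Y - Pi.single j t) + t * ψ Y - φ Y) / t := by
    rw [hψ]
    field_simp
    ring
  rw [e8, abs_div, abs_of_pos ht, div_le_iff₀ ht]
  exact hb

end

end Pool.Agent.T2h94
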