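import Mathlib
import Pool.Agent.T2h94.Lw3

/-!
# The scaling limit of the characteristic function of the smeared curvature
-/

open MeasureTheory Matrix Filter
open scoped Matrix.Norms.Frobenius ContDiff Topology
open Pool.Agent.H906R3.YM Pool.Agent.W793.YM Pool.Agent.TH618.YM

namespace Pool.Agent.T2h94

set_option linter.unusedSectionVars false
set_option linter.unusedVariables false

noncomputable section

/-- cube -/
def Bx (d r : ℕ) : Finset (Fin d → ℤ) := Fintype.piFinset fun _ => Finset.Icc (-(r : ℤ)) r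

lemma mem_Bx {d r : ℕ} {x : Fin d → ℤ} : x ∈ Bx d r ↔ ∀ s, |x s| ≤ r := by
  unfold Bx
  simp only [Fintype.mem_piFinset, Finset.mem_Icc, abs_le]

lemma card_Bx (d r : ℕ) : (Bx d r).card = (2 * r + 1) ^ d := by
  unfold Bx
  rw [Fintype.card_piFinset]
  simp only [Int.card_Icc, Finset.prod_const, Finset.card_univ, Fintype.card_fin]
  congr 1
  omega

/-- the scaled form -/
def gsc {n d : ℕ} (a : ℝ) (f : Fin n → Fin d → Fin d → (Fin d → ℝ) → ℝ) :
    Fin n → Fin d → Fin d → (Fin d → ℤ) → ℝ :=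
  fun c j k x => Real.sqrt (a ^ d) * f c j k (fun s => a * x s)

/-- the radius in lattice units -/
def rad (R a : ℝ) : ℕ := ⌈R / a⌉₊

lemma rad_le {R a : ℝ} (hR : 0 < R) (ha : 0 < a) (ha1 : a ≤ 1) : (rad R a : ℝ) ≤ (R + 1) / a := by
  unfold rad
  have h1 := Nat.ceil_lt_add_one (show 0 ≤ R / a by positivity)
  have h2 : 1 ≤ 1 / a := by rw [le_div_iff₀ ha]; linarith
  rw [add_div]; linarith

lemma scaled_sub {d : ℕ} (a : ℝ) (x : Fin d → ℤ) (j : Fin d) :
    (fun s => a * ((x - Pi.single j 1 : Fin d → ℤ) s : ℝ)) =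
      (fun s => a * (x s : ℝ)) - Pi.single j a := by
  funext s
  rw [Pi.sub_apply]
  by_cases h : s = j
  · subst h
    simp only [Pi.sub_apply, Pi.single_eq_same]
    push_cast; ring
  · simp only [Pi.sub_apply, Pi.single_eq_of_ne h]
    push_cast; ring

/-- the codifferential of a form on the continuum -/
def cod {d : ℕ} (f : Fin d → Fin d → (Fin d → ℝ) → ℝ) (k : Fin d) (X : Fin d → ℝ) : ℝ :=
  ∑ j, fderiv ℝ (f j k) X (Pi.single j 1)

/-- the lattice codifferential, scaled -/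
def uc {d : ℕ} (a : ℝ) (f : Fin d → Fin d → (Fin d → ℝ) → ℝ) (k : Fin d) (x : Fin d → ℤ) : ℝ :=
  ∑ j, (f j k ((fun s => a * (x s : ℝ)) - Pi.single j a) - f j k (fun s => a * (x s : ℝ))) / a

lemma cg_gsc {n d : ℕ} {a : ℝ} (ha : 0 < a) (f : Fin n → Fin d → Fin d → (Fin d → ℝ) → ℝ)
    (c : Fin n) (k : Fin d) (x : Fin d → ℤ) :
    cg (gsc a f c) k x = Real.sqrt (a ^ d) * a * uc a (f c) k x := by
  unfold cg gsc uc
  rw [Finset.mul_sum]
  refine Finset.sum_congr rfl fun j _ => ?_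
  rw [scaled_sub]
  field_simp

section abstract

variable {n d : ℕ} {f : Fin n → Fin d → Fin d → (Fin d → ℝ) → ℝ}

/-- a compactly supported form is supported in a cube and bounded -/
lemma supp_cube (hf1 : ∀ c j k, ContDiff ℝ 1 (f c j k)) (hfs : ∀ c j k, HasCompactSupport (f c j k)) :
    ∃ R M : ℝ, 0 < R ∧ 0 < M ∧ (∀ c j k X, (∃ s, R < |X s|) → f c j k X = 0) ∧
      ∀ c j k X, |f c j k X| ≤ M := by
  have h1 : ∀ c j k, ∃ R : ℝ, 0 < R ∧ ∀ X, (∃ s, R < |X s|) → f c j k X = 0 := by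
    intro c j k
    obtain ⟨R, hR⟩ := (hfs c j k).isCompact.isBounded.subset_closedBall (0 : Fin d → ℝ)
    refine ⟨max R 1, by positivity, fun X hX => ?_⟩
    obtain ⟨s, hs⟩ := hX
    by_contra h
    have h2 : X ∈ tsupport (f c j k) := subset_tsupport _ h
    have h3 := hR h2
    rw [mem_closedBall_zero_iff] at h3
    have h4 := norm_le_pi_norm X s
    rw [Real.norm_eq_abs] at h4
    have h5 := le_max_left R 1
    linarith
  have h2 : ∀ c j k, ∃ M : ℝ, 0 < M ∧ ∀ X, |f c j k X| ≤ M := by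
    intro c j k
    obtain ⟨M, hM⟩ := (hfs c j k).exists_bound_of_continuous (hf1 c j k).continuous
    exact ⟨max M 1, by positivity, fun X => (hM X).trans (le_max_left _ _)⟩
  choose R hR0 hR using h1
  choose M hM0 hM using h2
  have hRs : ∀ c j k, R c j k ≤ 1 + ∑ c, ∑ j, ∑ k, R c j k := by
    intro c j k
    have e1 := Finset.single_le_sum (f := fun c => ∑ j, ∑ k, R c j k)
      (fun c _ => Finset.sum_nonneg fun j _ => Finset.sum_nonneg fun k _ => (hR0 c j k).le)
      (Finset.mem_univ c)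
    have e2 := Finset.single_le_sum (f := fun j => ∑ k, R c j k)
      (fun j _ => Finset.sum_nonneg fun k _ => (hR0 c j k).le) (Finset.mem_univ j)
    have e3 := Finset.single_le_sum (f := fun k => R c j k)
      (fun k _ => (hR0 c j k).le) (Finset.mem_univ k)
    linarith
  have hMs : ∀ c j k, M c j k ≤ 1 + ∑ c, ∑ j, ∑ k, M c j k := by
    intro c j k
    have e1 := Finset.single_le_sum (f := fun c => ∑ j, ∑ k, M c j k)
      (fun c _ => Finset.sum_nonneg fun j _ => Finset.sum_nonneg fun k _ => (hM0 c j k).le)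
      (Finset.mem_univ c)
    have e2 := Finset.single_le_sum (f := fun j => ∑ k, M c j k)
      (fun j _ => Finset.sum_nonneg fun k _ => (hM0 c j k).le) (Finset.mem_univ j)
    have e3 := Finset.single_le_sum (f := fun k => M c j k)
      (fun k _ => (hM0 c j k).le) (Finset.mem_univ k)
    linarith
  have hRn : 0 ≤ ∑ c, ∑ j, ∑ k, R c j k := Finset.sum_nonneg fun c _ =>
    Finset.sum_nonneg fun j _ => Finset.sum_nonneg fun k _ => (hR0 c j k).le
  have hMn : 0 ≤ ∑ c, ∑ j, ∑ k, M c j k := Finset.sum_nonneg fun c _ =>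
    Finset.sum_nonneg fun j _ => Finset.sum_nonneg fun k _ => (hM0 c j k).le
  refine ⟨1 + ∑ c, ∑ j, ∑ k, R c j k, 1 + ∑ c, ∑ j, ∑ k, M c j k, by linarith, by linarith,
    fun c j k X hX => ?_, fun c j k X => (hM c j k X).trans (hMs c j k)⟩
  obtain ⟨s, hs⟩ := hX
  exact hR c j k X ⟨s, lt_of_le_of_lt (hRs c j k) hs⟩

lemma gsc_supp {R : ℝ} (hR : 0 < R) (hfR : ∀ c j k X, (∃ s, R < |X s|) → f c j k X = 0) {a : ℝ}
    (ha : 0 < a) (c : Fin n) (j k : Fin d) (x : Fin d → ℤ) (hx : gsc a f c j k x ≠ 0) :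
    x ∈ Bx d (rad R a) := by
  rw [mem_Bx]
  intro s
  by_contra h
  push Not at h
  refine hx ?_
  unfold gsc
  rw [hfR c j k _ ⟨s, ?_⟩, mul_zero]
  rw [abs_mul, abs_of_pos ha]
  have h1 : ((rad R a : ℕ) : ℝ) < |(x s : ℝ)| := by exact_mod_cast h
  have h2 : R / a ≤ (rad R a : ℝ) := Nat.le_ceil _
  rw [div_le_iff₀ ha] at h2
  nlinarith

/-- the limit of the main part of the variance -/
lemma mK_lim (hd : 3 ≤ d) (hcov : ∀ {a : ℕ → ℝ}, (∀ i, 0 < a i) → Tendsto a atTop (𝓝 0) →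
    ∀ {K : ℕ → ℕ}, Tendsto (fun i => (K i : ℝ) * a i ^ 2) atTop atTop →
    ∀ {h h' : (Fin d → ℝ) → ℝ}, Continuous h → Continuous h' → ∀ {R : ℝ},
    (∀ X, (∃ s, R < |X s|) → h X = 0) → (∀ X, (∃ s, R < |X s|) → h' X = 0) →
    ∀ {u u' : ℕ → (Fin d → ℤ) → ℝ},
    (∀ ε > 0, ∀ᶠ i in atTop, ∀ z, |u i z - h (fun s => a i * z s)| ≤ ε) →
    (∀ ε > 0, ∀ᶠ i in atTop, ∀ z, |u' i z - h' (fun s => a i * z s)| ≤ ε) →
    (∀ᶠ i in atTop, ∀ z, (∃ s, R < |a i * (z s : ℝ)|) → u i z = 0) →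
    (∀ᶠ i in atTop, ∀ z, (∃ s, R < |a i * (z s : ℝ)|) → u' i z = 0) →
    ∀ {B : ℕ → Finset (Fin d → ℤ)},
    (∀ᶠ i in atTop, ∀ z, (u i z ≠ 0 ∨ u' i z ≠ 0) → z ∈ B i) →
    Tendsto (fun i => a i ^ (d + 2) * ∑ x ∈ B i, ∑ y ∈ B i, u i x * u' i y * gk d (K i) (y - x))
      atTop (𝓝 (∫ X : Fin d → ℝ, ∫ Y : Fin d → ℝ, h X * h' Y * Gr d (Y - X))))
    (hf1 : ∀ c j k, ContDiff ℝ 1 (f c j k)) (hfs : ∀ c j k, HasCompactSupport (f c j k))
    {R : ℝ} (hR : 0 < R) (hfR : ∀ c j k X, (∃ s, R < |X s|) → f c j k X = 0)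
    {a : ℕ → ℝ} (ha : ∀ i, 0 < a i) (ha0 : Tendsto a atTop (𝓝 0))
    {K : ℕ → ℕ} (hK : Tendsto (fun i => (K i : ℝ) * a i ^ 2) atTop atTop) :
    Tendsto (fun i => ∑ c, ∑ k, ∑ x ∈ Bx d (rad R (a i) + 1), ∑ y ∈ Bx d (rad R (a i) + 1),
      cg (gsc (a i) f c) k x * cg (gsc (a i) f c) k y * gk d (K i) (y - x)) atTop
      (𝓝 (∑ c, ∑ k, ∫ X : Fin d → ℝ, ∫ Y : Fin d → ℝ, cod (f c) k X * cod (f c) k Y *
        Gr d (Y - X))) := by
  refine tendsto_finsetSum _ fun c _ => tendsto_finsetSum _ fun k _ => ?_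
  have hcodc : Continuous (cod (f c) k) := continuous_finsetSum _ fun j _ =>
    ((hf1 c j k).continuous_fderiv one_ne_zero).clm_apply continuous_const
  have hcods : ∀ X, (∃ s, R + 1 < |X s|) → cod (f c) k X = 0 := by
    intro X hX
    obtain ⟨s, hs⟩ := hX
    unfold cod
    refine Finset.sum_eq_zero fun j _ => ?_
    have h1 : f c j k =ᶠ[𝓝 X] fun _ => 0 := by
      have h2 : ∀ᶠ Y in 𝓝 X, R < |Y s| := by
        have h3 : Tendsto (fun Y : Fin d → ℝ => |Y s|) (𝓝 X) (𝓝 |X s|) :=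
          ((continuous_apply s).abs).tendsto X
        exact h3.eventually (lt_mem_nhds (by linarith))
      filter_upwards [h2] with Y hY
      exact hfR c j k Y ⟨s, hY⟩
    rw [h1.fderiv_eq]
    simp
  -- the supports
  have hus : ∀ᶠ i in atTop, ∀ z : Fin d → ℤ, (∃ s, R + 1 < |a i * (z s : ℝ)|) →
      uc (a i) (f c) k z = 0 := by
    filter_upwards [ha0.eventually (gt_mem_nhds one_pos)] with i hi z hz
    obtain ⟨s, hs⟩ := hz
    unfold uc
    refine Finset.sum_eq_zero fun j _ => ?_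
    have e1 : f c j k (fun s => a i * (z s : ℝ)) = 0 := hfR c j k _ ⟨s, by linarith⟩
    have e2 : f c j k ((fun s => a i * (z s : ℝ)) - Pi.single j (a i)) = 0 := by
      refine hfR c j k _ ⟨s, ?_⟩
      rw [Pi.sub_apply]
      have e3 : |(Pi.single j (a i) : Fin d → ℝ) s| ≤ 1 := by
        by_cases h : s = j
        · subst h
          rw [Pi.single_eq_same, abs_of_pos (ha i)]; exact hi.le
        · rw [Pi.single_eq_of_ne h, abs_zero]; exact zero_le_one
      have e4 := abs_sub_abs_le_abs_sub (a i * (z s : ℝ)) ((Pi.single j (a i) : Fin d → ℝ) s)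
      linarith
    rw [e1, e2, sub_zero, zero_div]
  have h1 := hcov ha ha0 hK (h := fun X => -cod (f c) k X) (h' := fun X => -cod (f c) k X)
    hcodc.neg hcodc.neg (R := R + 1) (fun X hX => by rw [hcods X hX, neg_zero])
    (fun X hX => by rw [hcods X hX, neg_zero]) (u := fun i x => uc (a i) (f c) k x)
    (u' := fun i x => uc (a i) (f c) k x) ?_ ?_ ?_ ?_ (B := fun i => Bx d (rad R (a i) + 1)) ?_
  · simp only [neg_mul_neg] at h1
    refine h1.congr fun i => ?_
    rw [Finset.mul_sum]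
    refine Finset.sum_congr rfl fun x _ => ?_
    rw [Finset.mul_sum]
    refine Finset.sum_congr rfl fun y _ => ?_
    rw [cg_gsc (ha i), cg_gsc (ha i)]
    have h2 : Real.sqrt (a i ^ d) * Real.sqrt (a i ^ d) = a i ^ d :=
      Real.mul_self_sqrt (pow_nonneg (ha i).le d)
    calc a i ^ (d + 2) * (uc (a i) (f c) k x * uc (a i) (f c) k y * gk d (K i) (y - x)) =
        (Real.sqrt (a i ^ d) * Real.sqrt (a i ^ d)) * a i ^ 2 *
          (uc (a i) (f c) k x * uc (a i) (f c) k y * gk d (K i) (y - x)) := by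
          rw [h2, pow_add]
      _ = _ := by ring
  all_goals try
    intro ε hε
    have h2 : ∀ j, ∃ δ : ℝ, 0 < δ ∧ ∀ t : ℝ, 0 < t → t < δ → ∀ Y : Fin d → ℝ,
        |(f c j k (Y - Pi.single j t) - f c j k Y) / t + fderiv ℝ (f c j k) Y (Pi.single j 1)| ≤
          ε / d := fun j => diff_unif (hf1 c j k) (hfs c j k) j (by
        have : (0 : ℝ) < d := by exact_mod_cast (by omega : 0 < d)
        positivity)
    choose δ hδ hdel using h2
    have h3 : ∀ᶠ i in atTop, ∀ j, a i < δ j := eventually_all.2 fun j =>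
      ha0.eventually (gt_mem_nhds (hδ j))
    filter_upwards [h3] with i hi z
    rw [sub_neg_eq_add]
    unfold uc cod
    rw [← Finset.sum_add_distrib]
    refine (Finset.abs_sum_le_sum_abs _ _).trans ?_
    have hd0 : (0 : ℝ) < d := by exact_mod_cast (by omega : 0 < d)
    calc _ ≤ ∑ _j : Fin d, ε / d := Finset.sum_le_sum fun j _ => hdel j (a i) (ha i) (hi j) _
      _ = ε := by
          rw [Finset.sum_const, Finset.card_univ, Fintype.card_fin, nsmul_eq_mul]
          field_simp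
  · exact hus
  · exact hus
  · filter_upwards [ha0.eventually (gt_mem_nhds one_pos)] with i hi z hz
    have hz' : uc (a i) (f c) k z ≠ 0 := by
      rcases hz with h | h
      · exact h
      · exact h
    rw [mem_Bx]
    intro s
    by_contra h
    push Not at h
    refine hz' ?_
    unfold uc
    have h2 : R / a i ≤ (rad R (a i) : ℝ) := Nat.le_ceil _
    have h3 : ((rad R (a i) + 1 : ℕ) : ℝ) < |(z s : ℝ)| := by exact_mod_cast h
    push_cast at h3
    rw [div_le_iff₀ (ha i)] at h2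
    have h4 : R + a i < |a i * (z s : ℝ)| := by
      rw [abs_mul, abs_of_pos (ha i)]
      have := ha i
      nlinarith
    refine Finset.sum_eq_zero fun j _ => ?_
    have e1 : f c j k (fun s => a i * (z s : ℝ)) = 0 := hfR c j k _ ⟨s, by
      have := ha i
      linarith⟩
    have e2 : f c j k ((fun s => a i * (z s : ℝ)) - Pi.single j (a i)) = 0 := by
      refine hfR c j k _ ⟨s, ?_⟩
      rw [Pi.sub_apply]
      have e3 : |(Pi.single j (a i) : Fin d → ℝ) s| ≤ a i := by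
        by_cases h : s = j
        · subst h
          rw [Pi.single_eq_same, abs_of_pos (ha i)]
        · rw [Pi.single_eq_of_ne h, abs_zero]; exact (ha i).le
      have e4 := abs_sub_abs_le_abs_sub (a i * (z s : ℝ)) ((Pi.single j (a i) : Fin d → ℝ) s)
      linarith
    rw [e1, e2, sub_zero, zero_div]

end abstract

end

end Pool.Agent.T2h94
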