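import Mathlib
import Pool.Agent.T2h94.Lw4

/-!
# The scaling limit of the characteristic function of the smeared curvature, II
-/

open MeasureTheory Matrix Filter
open scoped Matrix.Norms.Frobenius ContDiff Topology
open Pool.Agent.H906R3.YM Pool.Agent.W793.YM Pool.Agent.TH618.YM

namespace Pool.Agent.T2h94

set_option linter.unusedSectionVars false
set_option linter.unusedVariables false

noncomputable section

section real

variable {A : ℝ} {K : ℕ}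

lemma K_lo (hA : 0 < A) (hK : K = ⌈1 / A⌉₊ ^ 7) : (1 / A) ^ 7 ≤ (K : ℝ) := by
  rw [hK]; push_cast
  exact pow_le_pow_left₀ (by positivity) (Nat.le_ceil _) _

lemma K_hi (hA : 0 < A) (hA1 : A ≤ 1) (hK : K = ⌈1 / A⌉₊ ^ 7) : (K : ℝ) ≤ (2 / A) ^ 7 := by
  rw [hK]; push_cast
  refine pow_le_pow_left₀ (Nat.cast_nonneg _) ?_ _
  have h1 := Nat.ceil_lt_add_one (show 0 ≤ 1 / A by positivity)
  have h2 : 1 ≤ 1 / A := by rw [le_div_iff₀ hA]; linarith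
  have h3 : 2 / A = 1 / A + 1 / A := by ring
  linarith

/-- the first error -/
lemma err1 {d : ℕ} (hd : 3 ≤ d) (hA : 0 < A) (hA1 : A ≤ 1) (hK : K = ⌈1 / A⌉₊ ^ 7) {S Cs : ℝ}
    (hS : 0 ≤ S) (hCs : 0 ≤ Cs) (hSC : S ^ 2 ≤ Cs ^ 2 / A ^ d) :
    S / Real.sqrt (Real.sqrt K ^ (d - 2)) ≤ Cs * Real.sqrt (Real.sqrt A) := by
  have hKlo := K_lo hA hK
  have hK0 : (0 : ℝ) < K := lt_of_lt_of_le (by positivity) hKlo
  obtain ⟨t, ht⟩ : ∃ t, t = Real.sqrt (Real.sqrt K ^ (d - 2)) := ⟨_, rfl⟩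
  have ht0 : 0 < t := by rw [ht]; positivity
  have ht4 : t ^ 4 = (K : ℝ) ^ (d - 2) := by
    have e1 : t ^ 2 = Real.sqrt K ^ (d - 2) := by rw [ht]; exact Real.sq_sqrt (by positivity)
    have e2 : t ^ 4 = (t ^ 2) ^ 2 := by ring
    rw [e2, e1, ← pow_mul, mul_comm, pow_mul, Real.sq_sqrt hK0.le]
  obtain ⟨r, hr⟩ : ∃ r, r = Real.sqrt (Real.sqrt A) := ⟨_, rfl⟩
  have hr0 : 0 < r := by rw [hr]; positivity
  have hr4 : r ^ 4 = A := by
    have e2 : r ^ 4 = (r ^ 2) ^ 2 := by ring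
    rw [e2, hr, Real.sq_sqrt (Real.sqrt_nonneg _), Real.sq_sqrt hA.le]
  rw [← ht, ← hr, div_le_iff₀ ht0]
  refine le_of_sq_le_sq (a := S) (b := Cs * r * t) ?_ (by positivity)
  refine le_of_sq_le_sq (a := S ^ 2) (b := (Cs * r * t) ^ 2) ?_ (by positivity)
  have e1 : ((Cs * r * t) ^ 2) ^ 2 = Cs ^ 4 * (r ^ 4 * t ^ 4) := by ring
  rw [e1, hr4, ht4]
  have e2 : (S ^ 2) ^ 2 ≤ (Cs ^ 2 / A ^ d) ^ 2 := pow_le_pow_left₀ (sq_nonneg _) hSC 2
  refine e2.trans ?_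
  have e3 : (Cs ^ 2 / A ^ d) ^ 2 = Cs ^ 4 * (1 / A ^ (2 * d)) := by
    rw [div_pow, ← pow_mul, ← pow_mul, mul_comm d 2]; ring
  rw [e3]
  refine mul_le_mul_of_nonneg_left ?_ (by positivity)
  have e4 : ((1 / A) ^ 7) ^ (d - 2) ≤ (K : ℝ) ^ (d - 2) := pow_le_pow_left₀ (by positivity) hKlo _
  refine le_trans ?_ (mul_le_mul_of_nonneg_left e4 hA.le)
  rw [← pow_mul, _root_.one_div_pow, mul_one_div, div_le_div_iff₀ (by positivity) (by positivity), one_mul,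
    ← pow_succ']
  exact pow_le_pow_of_le_one hA.le hA1 (by omega)
where
  le_of_sq_le_sq {a b : ℝ} (h : a ^ 2 ≤ b ^ 2) (hb : 0 ≤ b) : a ≤ b :=
    le_of_abs_le (abs_le_of_sq_le_sq h hb)

/-- the second error -/
lemma err2 {d : ℕ} (hA : 0 < A) (hA1 : A ≤ 1) (hK : K = ⌈1 / A⌉₊ ^ 7) {S Cs b : ℝ}
    (hS : 0 ≤ S) (hSC : S ^ 2 ≤ Cs ^ 2 / A ^ d) (hb : 1 ≤ b) (hbA : 1 ≤ b * A ^ (15 * d + 22)) :
    (K : ℝ) ^ (2 * d + 3) * (1 + S) ^ 2 / b ≤ 2 ^ (7 * (2 * d + 3)) * (2 + 2 * Cs ^ 2) * A := by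
  have hKhi := K_hi hA hA1 hK
  have hb0 : 0 < b := by linarith
  have h1 : 1 ≤ 1 / A ^ d := by
    rw [le_div_iff₀ (by positivity), one_mul]; exact pow_le_one₀ hA.le hA1
  have h2 : (1 + S) ^ 2 ≤ (2 + 2 * Cs ^ 2) * (1 / A ^ d) := by
    have e1 : (1 + S) ^ 2 ≤ 2 + 2 * S ^ 2 := by nlinarith [sq_nonneg (1 - S)]
    have e2 : (2 + 2 * Cs ^ 2) * (1 / A ^ d) = 2 * (1 / A ^ d) + 2 * (Cs ^ 2 / A ^ d) := by ring
    rw [e2]; linarith
  have h3 : 1 / b ≤ A ^ (15 * d + 22) := by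
    rw [div_le_iff₀ hb0]; linarith
  have h4 : (K : ℝ) ^ (2 * d + 3) ≤ 2 ^ (7 * (2 * d + 3)) * (1 / A ^ (7 * (2 * d + 3))) := by
    calc (K : ℝ) ^ (2 * d + 3) ≤ ((2 / A) ^ 7) ^ (2 * d + 3) :=
          pow_le_pow_left₀ (Nat.cast_nonneg _) hKhi _
      _ = _ := by rw [← pow_mul, div_pow]; ring
  calc (K : ℝ) ^ (2 * d + 3) * (1 + S) ^ 2 / b = (K : ℝ) ^ (2 * d + 3) * (1 + S) ^ 2 * (1 / b) := by
        ring
    _ ≤ (2 ^ (7 * (2 * d + 3)) * (1 / A ^ (7 * (2 * d + 3)))) *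
        ((2 + 2 * Cs ^ 2) * (1 / A ^ d)) * A ^ (15 * d + 22) := by gcongr
    _ = 2 ^ (7 * (2 * d + 3)) * (2 + 2 * Cs ^ 2) *
        (A ^ (15 * d + 22) / (A ^ (7 * (2 * d + 3)) * A ^ d)) := by ring
    _ = _ := by
        congr 1
        rw [← pow_add, div_eq_iff (by positivity), ← pow_succ']
        congr 1; ring

/-- the rest of the variance -/
lemma err3 {d : ℕ} (hd : 3 ≤ d) (hA : 0 < A) (hA1 : A ≤ 1) (hK : K = ⌈1 / A⌉₊ ^ 7) {S Cs Cd N : ℝ}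
    (hCd : 0 ≤ Cd) (hSC : S ^ 2 ≤ Cs ^ 2 / A ^ d)
    (hN : (K : ℝ) * N ≤ Cd / Real.sqrt K ^ (d - 2) * S ^ 2) :
    N ≤ Cd * Cs ^ 2 * A ^ 4 := by
  have hKlo := K_lo hA hK
  have hK0 : (0 : ℝ) < K := lt_of_lt_of_le (by positivity) hKlo
  have hs0 : 0 < Real.sqrt K := Real.sqrt_pos.2 hK0
  have hs : (1 / A) ^ 3 ≤ Real.sqrt K := by
    refine Real.le_sqrt_of_sq_le ?_
    refine le_trans ?_ hKlo
    rw [← pow_mul]
    refine pow_le_pow_right₀ ?_ (by norm_num)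
    rw [le_div_iff₀ hA]; linarith
  have h1 : N ≤ Cd * S ^ 2 / Real.sqrt K ^ d := by
    rw [le_div_iff₀ (by positivity)]
    have e1 : Real.sqrt K ^ d = K * Real.sqrt K ^ (d - 2) := by
      calc Real.sqrt K ^ d = Real.sqrt K ^ (2 + (d - 2)) := by congr 1; omega
        _ = Real.sqrt K ^ 2 * Real.sqrt K ^ (d - 2) := pow_add _ _ _
        _ = _ := by rw [Real.sq_sqrt hK0.le]
    rw [e1]
    calc N * (K * Real.sqrt K ^ (d - 2)) = (K * N) * Real.sqrt K ^ (d - 2) := by ring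
      _ ≤ (Cd / Real.sqrt K ^ (d - 2) * S ^ 2) * Real.sqrt K ^ (d - 2) :=
          mul_le_mul_of_nonneg_right hN (by positivity)
      _ = _ := by field_simp
  have h2 : (1 / A) ^ (3 * d) ≤ Real.sqrt K ^ d := by
    rw [pow_mul]; exact pow_le_pow_left₀ (by positivity) hs _
  calc N ≤ Cd * S ^ 2 / Real.sqrt K ^ d := h1
    _ ≤ Cd * (Cs ^ 2 / A ^ d) / (1 / A) ^ (3 * d) := by gcongr
    _ = Cd * Cs ^ 2 * (A ^ (3 * d) / A ^ d) := by
        rw [_root_.one_div_pow]; field_simp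
    _ = Cd * Cs ^ 2 * A ^ (2 * d) := by
        congr 1
        rw [div_eq_iff (by positivity), ← pow_add]; congr 1; ring
    _ ≤ _ := by
        refine mul_le_mul_of_nonneg_left ?_ (by positivity)
        exact pow_le_pow_of_le_one hA.le hA1 (by omega)

end real

/-- the total mass of the scaled form -/
lemma S_bound {n d : ℕ} {f : Fin n → Fin d → Fin d → (Fin d → ℝ) → ℝ} {R M A : ℝ} (hR : 0 < R)
    (hM : 0 < M) (hfM : ∀ c j k X, |f c j k X| ≤ M) (hA : 0 < A) (hA1 : A ≤ 1) :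
    (∑ c, ∑ j, ∑ k, ∑ x ∈ Bx d (rad R A), |gsc A f c j k x|) ^ 2 ≤
      (n * d ^ 2 * (2 * R + 3) ^ d * M) ^ 2 / A ^ d := by
  have h1 : ∑ c, ∑ j, ∑ k, ∑ x ∈ Bx d (rad R A), |gsc A f c j k x| ≤
      (n * d ^ 2 * (2 * R + 3) ^ d * M) * (Real.sqrt (A ^ d) / A ^ d) := by
    have e1 : ∀ c j k x, |gsc A f c j k x| ≤ Real.sqrt (A ^ d) * M := by
      intro c j k x
      unfold gsc
      rw [abs_mul, abs_of_nonneg (Real.sqrt_nonneg _)]
      exact mul_le_mul_of_nonneg_left (hfM _ _ _ _) (Real.sqrt_nonneg _)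
    have e2 : ((Bx d (rad R A)).card : ℝ) ≤ (2 * R + 3) ^ d / A ^ d := by
      rw [card_Bx, ← div_pow]
      push_cast
      refine pow_le_pow_left₀ (by positivity) ?_ _
      have h2 := rad_le hR hA hA1
      have h3 : 1 ≤ 1 / A := by rw [le_div_iff₀ hA]; linarith
      have h4 : (2 * R + 3) / A = 2 * ((R + 1) / A) + 1 / A := by ring
      rw [h4]; linarith
    calc ∑ c, ∑ j, ∑ k, ∑ x ∈ Bx d (rad R A), |gsc A f c j k x| ≤
        ∑ _c : Fin n, ∑ _j : Fin d, ∑ _k : Fin d, ∑ _x ∈ Bx d (rad R A), Real.sqrt (A ^ d) * M :=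
          Finset.sum_le_sum fun c _ => Finset.sum_le_sum fun j _ => Finset.sum_le_sum fun k _ =>
            Finset.sum_le_sum fun x _ => e1 c j k x
      _ = n * d ^ 2 * (Real.sqrt (A ^ d) * M) * (Bx d (rad R A)).card := by
          simp only [Finset.sum_const, Finset.card_univ, Fintype.card_fin, nsmul_eq_mul]; ring
      _ ≤ n * d ^ 2 * (Real.sqrt (A ^ d) * M) * ((2 * R + 3) ^ d / A ^ d) := by gcongr
      _ = _ := by ring
  have h0 : 0 ≤ ∑ c, ∑ j, ∑ k, ∑ x ∈ Bx d (rad R A), |gsc A f c j k x| :=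
    Finset.sum_nonneg fun _ _ => Finset.sum_nonneg fun _ _ => Finset.sum_nonneg fun _ _ =>
      Finset.sum_nonneg fun _ _ => abs_nonneg _
  refine (pow_le_pow_left₀ h0 h1 2).trans (le_of_eq ?_)
  rw [mul_pow, div_pow, Real.sq_sqrt (by positivity)]
  field_simp

lemma exp_lip {x y : ℝ} (hx : 0 ≤ x) (hy : 0 ≤ y) :
    |Real.exp (-(x / 2)) - Real.exp (-(y / 2))| ≤ |x - y| := by
  have key : ∀ {u v : ℝ}, 0 ≤ u → u ≤ v → |Real.exp (-(u / 2)) - Real.exp (-(v / 2))| ≤ |u - v| := by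
    intro u v hu huv
    have h1 : Real.exp (-(v / 2)) ≤ Real.exp (-(u / 2)) := Real.exp_le_exp.2 (by linarith)
    rw [abs_of_nonneg (by linarith), abs_of_nonpos (by linarith)]
    have h2 : Real.exp (-(v / 2)) = Real.exp (-(u / 2)) * Real.exp (-((v - u) / 2)) := by
      rw [← Real.exp_add]; congr 1; ring
    have h3 : 1 - (v - u) / 2 ≤ Real.exp (-((v - u) / 2)) := by
      have := Real.add_one_le_exp (-((v - u) / 2))
      linarith
    have h4 : Real.exp (-(u / 2)) ≤ 1 := Real.exp_le_one_iff.2 (by linarith)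
    have h5 := Real.exp_pos (-(u / 2))
    rw [h2]
    nlinarith
  rcases le_total x y with h | h
  · exact key hx h
  · rw [abs_sub_comm, abs_sub_comm x y]; exact key hy h

end

end Pool.Agent.T2h94
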