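import Mathlib
import Pool.Agent.T2h94.Lw5

/-!
# The scaling limit of the characteristic function of the smeared curvature, III
-/

open MeasureTheory Matrix Filter
open scoped Matrix.Norms.Frobenius ContDiff Topology
open Pool.Agent.H906R3.YM Pool.Agent.W793.YM Pool.Agent.TH618.YM

namespace Pool.Agent.T2h94

set_option linter.unusedSectionVars false
set_option linter.unusedVariables false

noncomputable section

variable {G : Type*} [Group G] [TopologicalSpace G] [IsTopologicalGroup G] [CompactSpace G]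
  [SecondCountableTopology G] [MeasurableSpace G] [BorelSpace G] (μ : Measure G)
  [IsProbabilityMeasure μ] [μ.IsMulLeftInvariant] [μ.IsMulRightInvariant] [μ.IsInvInvariant]
  {N n : ℕ} {L : LD G N n}

/-- the characteristic function of the smeared curvature on large periodic lattices -/
theorem law_lim {d : ℕ} (hd : 3 ≤ d) {f : Fin n → Fin d → Fin d → (Fin d → ℝ) → ℝ}
    (hfa : ∀ c j k X, f c j k X = -f c k j X) {R M : ℝ} (hR : 0 < R) (hM : 0 < M)
    (hfR : ∀ c j k X, (∃ s, R < |X s|) → f c j k X = 0) (hfM : ∀ c j k X, |f c j k X| ≤ M)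
    {a : ℕ → ℝ} (ha : ∀ i, 0 < a i) (ha0 : Tendsto a atTop (𝓝 0)) {b : ℕ → ℝ}
    (hb : ∀ᶠ i in atTop, 1 ≤ b i ∧ 1 ≤ b i * a i ^ (15 * d + 22))
    {P : ℕ → (Fin d → ℤ) → List (Fin d × Bool)} (hP1 : ∀ i x, dest 0 (P i x) = x) {CP : ℝ}
    (hP2 : ∀ i x, ((P i x).length : ℝ) ≤ CP * (1 / a i + ∑ s, |(x s : ℝ)|)) {Q : ℝ}
    (hQ : Tendsto (fun i => ∑ c, ∑ k, ∑ x ∈ Bx d (rad R (a i) + 1),
      ∑ y ∈ Bx d (rad R (a i) + 1), cg (gsc (a i) f c) k x * cg (gsc (a i) f c) k y *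
        gk d (⌈1 / a i⌉₊ ^ 7) (y - x)) atTop (𝓝 Q)) :
    ∃ e : ℕ → ℝ, Tendsto e atTop (𝓝 0) ∧ ∀ᶠ i in atTop, ∀ (m : ℕ) [NeZero m],
      3 * (⌈1 / a i⌉₊ ^ 7) + 5 < 2 * m →
      |EX μ L (b i ^ 4) (fun U : Ed d (2 * m) → G => Real.cos (b i ^ 2 *
        Fc L (Bx d (rad R (a i))) (gsc (a i) f) (P i) (lf U))) - Real.exp (-(Q / 2))| ≤ e i ∧
      |EX μ L (b i ^ 4) (fun U : Ed d (2 * m) → G => Real.sin (b i ^ 2 *
        Fc L (Bx d (rad R (a i))) (gsc (a i) f) (P i) (lf U)))| ≤ e i := by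
  obtain ⟨C, hC, hlaw⟩ := law_torus μ (L := L) hd
  obtain ⟨Cs, hCs⟩ : ∃ Cs : ℝ, Cs = n * d ^ 2 * (2 * R + 3) ^ d * M := ⟨_, rfl⟩
  have hCs0 : 0 ≤ Cs := by rw [hCs]; positivity
  obtain ⟨Cd, hCd⟩ : ∃ Cd : ℝ, Cd = (2 + 2 * Real.sqrt (2 * d)) ^ d := ⟨_, rfl⟩
  have hCd0 : 0 ≤ Cd := by rw [hCd]; positivity
  obtain ⟨Mi, hMi⟩ : ∃ Mi : ℕ → ℝ, Mi = fun i => ∑ c, ∑ k, ∑ x ∈ Bx d (rad R (a i) + 1),
      ∑ y ∈ Bx d (rad R (a i) + 1), cg (gsc (a i) f c) k x * cg (gsc (a i) f c) k y *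
        gk d (⌈1 / a i⌉₊ ^ 7) (y - x) := ⟨_, rfl⟩
  rw [← hMi] at hQ
  have hd0 : (0 : ℝ) < d := by exact_mod_cast (by omega : 0 < d)
  -- smallness
  have hsm : ∀ c : ℝ, ∀ᶠ i in atTop, c * a i ≤ 1 := by
    intro c
    have h1 : Tendsto (fun i => c * a i) atTop (𝓝 0) := by simpa using ha0.const_mul c
    exact h1.eventually (ge_mem_nhds one_pos)
  -- the conditions
  have hev : ∀ᶠ i in atTop, a i ≤ 1 ∧ (1 ≤ b i ∧ 1 ≤ b i * a i ^ (15 * d + 22)) ∧
      (2 * R + 6) * a i ≤ 1 ∧ (|CP| * (1 + d * (R + 1))) * a i ≤ 1 ∧ (Cd * Cs ^ 2) * a i ≤ 1 := by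
    filter_upwards [hsm 1, hb, hsm (2 * R + 6), hsm (|CP| * (1 + d * (R + 1))),
      hsm (Cd * Cs ^ 2)] with i h1 h2 h3 h4 h5
    exact ⟨by linarith, h2, h3, h4, h5⟩
  -- the key estimate
  have key : ∀ᶠ i in atTop, ∀ (m : ℕ) [NeZero m], 3 * (⌈1 / a i⌉₊ ^ 7) + 5 < 2 * m →
      ∃ V : ℝ, 0 ≤ V ∧ |V - Mi i| ≤ a i * (1 + |Mi i|) ∧
      |EX μ L (b i ^ 4) (fun U : Ed d (2 * m) → G => Real.cos (b i ^ 2 *
        Fc L (Bx d (rad R (a i))) (gsc (a i) f) (P i) (lf U))) - Real.exp (-(V / 2))| ≤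
        C * (Cs * Real.sqrt (Real.sqrt (a i)) +
          2 ^ (7 * (2 * d + 3)) * (2 + 2 * Cs ^ 2) * a i) ∧
      |EX μ L (b i ^ 4) (fun U : Ed d (2 * m) → G => Real.sin (b i ^ 2 *
        Fc L (Bx d (rad R (a i))) (gsc (a i) f) (P i) (lf U)))| ≤
        C * (Cs * Real.sqrt (Real.sqrt (a i)) +
          2 ^ (7 * (2 * d + 3)) * (2 + 2 * Cs ^ 2) * a i) := by
    filter_upwards [hev] with i hi m _ hm
    obtain ⟨hA1, ⟨hb1, hbA⟩, hRA, hPA, hNA⟩ := hi
    have hA := ha i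
    obtain ⟨A, hAe⟩ : ∃ A, A = a i := ⟨_, rfl⟩
    obtain ⟨K, hK⟩ : ∃ K, K = ⌈1 / A⌉₊ ^ 7 := ⟨_, rfl⟩
    have hMi' : Mi i = ∑ c, ∑ k, ∑ x ∈ Bx d (rad R A + 1), ∑ y ∈ Bx d (rad R A + 1),
      cg (gsc A f c) k x * cg (gsc A f c) k y * gk d K (y - x) := by rw [hMi, hK, hAe]
    rw [← hAe] at hA1 hbA hRA hPA hNA hA hm ⊢
    rw [← hK] at hm
    have hKlo := K_lo hA hK
    have hone : 1 ≤ 1 / A := by rw [le_div_iff₀ hA]; linarith
    have hK1 : 1 ≤ K := by
      rw [hK]; exact Nat.one_le_pow _ _ (Nat.ceil_pos.2 (by positivity))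
    have hK2 : (1 / A) ^ 2 ≤ (K : ℝ) := (pow_le_pow_right₀ hone (by norm_num)).trans hKlo
    have hrad := rad_le hR hA hA1
    have hr4 : 2 * ((rad R A : ℕ) : ℝ) + 4 ≤ K := by
      refine le_trans ?_ hK2
      have e1 : (2 * R + 6) * (1 / A) ≤ (1 / A) ^ 2 := by
        have : 2 * R + 6 ≤ 1 / A := by rw [le_div_iff₀ hA]; linarith
        rw [pow_two]
        exact mul_le_mul_of_nonneg_right this (by positivity)
      have e2 : (2 * R + 6) * (1 / A) = 2 * ((R + 1) / A) + 4 * (1 / A) := by ring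
      linarith
    have hr4' : 2 * rad R A + 4 ≤ K := by exact_mod_cast hr4
    have hBK : ∀ x ∈ Bx d (rad R A), ∀ s, 2 * |x s| + 2 ≤ (K : ℤ) := by
      intro x hx s
      have h1 := mem_Bx.1 hx s
      have h2 : (2 * (rad R A : ℤ) + 4) ≤ (K : ℤ) := by exact_mod_cast hr4'
      linarith
    have hBP : ∀ x ∈ Bx d (rad R A), (P i x).length ≤ K ∧ dest 0 (P i x) = x := by
      intro x hx
      refine ⟨?_, hP1 i x⟩
      have h1 := hP2 i x
      rw [← hAe] at h1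
      have h2 : ∑ s, |(x s : ℝ)| ≤ d * ((R + 1) / A) := by
        calc ∑ s, |(x s : ℝ)| ≤ ∑ _s : Fin d, ((R + 1) / A) := by
              refine Finset.sum_le_sum fun s _ => le_trans ?_ hrad
              exact_mod_cast mem_Bx.1 hx s
          _ = _ := by simp
      have h0 : 0 ≤ ∑ s, |(x s : ℝ)| := Finset.sum_nonneg fun _ _ => abs_nonneg _
      have h3 : CP * (1 / A + ∑ s, |(x s : ℝ)|) ≤ |CP| * (1 / A + d * ((R + 1) / A)) := by
        calc CP * (1 / A + ∑ s, |(x s : ℝ)|) ≤ |CP| * (1 / A + ∑ s, |(x s : ℝ)|) :=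
              mul_le_mul_of_nonneg_right (le_abs_self _) (by positivity)
          _ ≤ _ := mul_le_mul_of_nonneg_left (by linarith) (abs_nonneg _)
      have h4 : |CP| * (1 / A + d * ((R + 1) / A)) = (|CP| * (1 + d * (R + 1))) * (1 / A) := by
        ring
      have h5 : (|CP| * (1 + d * (R + 1))) * (1 / A) ≤ (1 / A) ^ 2 := by
        have : |CP| * (1 + d * (R + 1)) ≤ 1 / A := by rw [le_div_iff₀ hA]; linarith
        rw [pow_two]
        exact mul_le_mul_of_nonneg_right this (by positivity)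
      have h6 : ((P i x).length : ℝ) ≤ K := by linarith
      exact_mod_cast h6
    have hga : ∀ c j k x, gsc A f c j k x = -gsc A f c k j x := by
      intro c j k x
      unfold gsc
      rw [hfa c j k]; ring
    obtain ⟨w, hcos, hsin⟩ := hlaw (b i) hb1 m K hK1 hm (Bx d (rad R A)) (gsc A f) (P i) hga
      hBK hBP
    obtain ⟨F, hF⟩ : ∃ F : Fin n → Fm d (2 * m), F = fun c j k =>
      em w (Bx d (rad R A)) (gsc A f c j k) := ⟨_, rfl⟩
    rw [← hF] at hcos hsin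
    have hFA : ∀ c, Asy (F c) := fun c => by rw [hF]; exact em_asy (hga c)
    obtain ⟨S, hS⟩ : ∃ S, S = ∑ c, ∑ j, ∑ k, ∑ x ∈ Bx d (rad R A), |gsc A f c j k x| := ⟨_, rfl⟩
    have hS0 : 0 ≤ S := by
      rw [hS]
      exact Finset.sum_nonneg fun _ _ => Finset.sum_nonneg fun _ _ => Finset.sum_nonneg fun _ _ =>
        Finset.sum_nonneg fun _ _ => abs_nonneg _
    have hSC : S ^ 2 ≤ Cs ^ 2 / A ^ d := by rw [hS, hCs]; exact S_bound hR hM hfM hA hA1
    have hN1 : N1 F ≤ S := by rw [hF, hS]; exact em_N1 w _ _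
    have hN10 : 0 ≤ N1 F := N1_nonneg F
    have e1 := err1 hd hA hA1 hK hS0 hCs0 hSC
    have e2 := err2 (d := d) hA hA1 hK hS0 hSC hb1 hbA
    have hbi0 : 0 < b i := by linarith
    have hE : N1 F / Real.sqrt (Real.sqrt K ^ (d - 2)) + (K : ℝ) ^ (2 * d + 3) *
        (1 + N1 F) ^ 2 / b i ≤ Cs * Real.sqrt (Real.sqrt A) +
          2 ^ (7 * (2 * d + 3)) * (2 + 2 * Cs ^ 2) * A := by
      refine add_le_add (le_trans ?_ e1) (le_trans ?_ e2)
      · exact div_le_div_of_nonneg_right hN1 (Real.sqrt_nonneg _)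
      · gcongr
    refine ⟨vK K F, vK_nonneg' K F, ?_, hcos.trans (mul_le_mul_of_nonneg_left hE hC.le),
      hsin.trans (mul_le_mul_of_nonneg_left hE hC.le)⟩
    have hmK : mK K F = Mi i := by
      rw [hMi', hF]
      refine mK_em (by omega) K w (B := Bx d (rad R A)) (B' := Bx d (rad R A + 1)) (g := gsc A f)
        (fun c j k x hx => gsc_supp hR hfR hA c j k x hx) (fun j x hx => ?_) (fun x hx => ?_)
        (fun x hx y hy s => ?_)
      · rw [mem_Bx] at hx ⊢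
        intro s
        have h1 := (abs_single x j s).1
        have h2 := hx s
        push_cast
        linarith
      · rw [mem_Bx] at hx ⊢
        intro s
        have h2 := hx s
        push_cast
        linarith
      · have h1 := mem_Bx.1 hx s
        have h2 := mem_Bx.1 hy s
        have h3 := abs_sub (y s) (x s)
        push_cast at h1 h2
        have h4 : (2 * (rad R A : ℤ) + 4) ≤ (K : ℤ) := by exact_mod_cast hr4'
        have h5 : (3 * K + 5 : ℤ) < 2 * m := by exact_mod_cast hm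
        push_cast
        linarith
    have hN2 := N2_Pks (l := 2 * m) hd hK1 (by omega) F
    rw [← hCd] at hN2
    have hS1 : N1 F ^ 2 ≤ S ^ 2 := pow_le_pow_left₀ hN10 hN1 2
    have h3 := err3 (S := S) hd hA hA1 hK hCd0 hSC (hN2.trans (mul_le_mul_of_nonneg_left hS1
      (by positivity)))
    have h4 : 1 / 2 * N2 (Pks K F) ≤ A ^ 2 := by
      have h5 : Cd * Cs ^ 2 * A ^ 4 ≤ A ^ 2 := by
        calc Cd * Cs ^ 2 * A ^ 4 = (Cd * Cs ^ 2 * A) * A ^ 3 := by ring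
          _ ≤ 1 * A ^ 3 := mul_le_mul_of_nonneg_right hNA (by positivity)
          _ = A ^ 3 := one_mul _
          _ ≤ A ^ 2 := pow_le_pow_of_le_one hA.le hA1 (by norm_num)
      have h6 := sq_nonneg A
      linarith
    have h5 := vK_close K hFA hA hA1 h4
    rw [hmK] at h5
    exact h5
  -- the variance of the limit is nonnegative
  have hQ0 : 0 ≤ Q := by
    have h1 : ∀ᶠ i in atTop, -(a i * (1 + |Mi i|)) ≤ Mi i := by
      filter_upwards [key] with i hi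
      obtain ⟨V, hV0, hV, _⟩ := hi (3 * (⌈1 / a i⌉₊ ^ 7) + 5 + 1) (by omega)
      have := (abs_le.1 hV).2
      linarith
    have h2 : Tendsto (fun i => -(a i * (1 + |Mi i|))) atTop (𝓝 0) := by
      have := (ha0.mul (hQ.abs.const_add 1)).neg
      simpa using this
    exact le_of_tendsto_of_tendsto h2 hQ h1
  refine ⟨fun i => C * (Cs * Real.sqrt (Real.sqrt (a i)) +
          2 ^ (7 * (2 * d + 3)) * (2 + 2 * Cs ^ 2) * a i) + (a i * (1 + |Mi i|) + |Mi i - Q|),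
    ?_, ?_⟩
  · have h1 : Tendsto (fun i => Real.sqrt (Real.sqrt (a i))) atTop (𝓝 0) := by
      simpa using ha0.sqrt.sqrt
    have h2 := ((h1.const_mul Cs).add (ha0.const_mul
      (2 ^ (7 * (2 * d + 3)) * (2 + 2 * Cs ^ 2)))).const_mul C
    have h3 := ha0.mul (hQ.abs.const_add 1)
    have h4 := (hQ.sub_const Q).abs
    have h5 := h2.add (h3.add h4)
    simpa using h5
  · filter_upwards [key] with i hi m _ hm
    obtain ⟨V, hV0, hV, hcos, hsin⟩ := hi m hm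
    have hsm0 : 0 ≤ a i * (1 + |Mi i|) + |Mi i - Q| := by
      have := (ha i).le
      positivity
    refine ⟨?_, hsin.trans (by linarith)⟩
    have h1 := exp_lip hV0 hQ0
    have h2 : |V - Q| ≤ a i * (1 + |Mi i|) + |Mi i - Q| := by
      have : V - Q = (V - Mi i) + (Mi i - Q) := by ring
      rw [this]
      exact (abs_add_le _ _).trans (add_le_add hV le_rfl)
    have e : EX μ L (b i ^ 4) (fun U : Ed d (2 * m) → G => Real.cos (b i ^ 2 *
        Fc L (Bx d (rad R (a i))) (gsc (a i) f) (P i) (lf U))) - Real.exp (-(Q / 2)) =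
        (EX μ L (b i ^ 4) (fun U : Ed d (2 * m) → G => Real.cos (b i ^ 2 *
        Fc L (Bx d (rad R (a i))) (gsc (a i) f) (P i) (lf U))) - Real.exp (-(V / 2))) +
        (Real.exp (-(V / 2)) - Real.exp (-(Q / 2))) := by ring
    rw [e]
    exact (abs_add_le _ _).trans (add_le_add hcos (h1.trans h2))

end

end Pool.Agent.T2h94
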