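import Mathlib
import Pool.Agent.T2h94.Lw6
import Pool.Agent.H906R3.YM.Conc

/-!
# Matrix valued test forms
-/

open MeasureTheory Matrix Filter
open scoped Matrix.Norms.Frobenius ContDiff Topology
open Pool.Agent.H906R3.YM Pool.Agent.W793.YM Pool.Agent.TH618.YM

namespace Pool.Agent.T2h94

set_option linter.unusedSectionVars false
set_option linter.unusedVariables false

noncomputable section

variable {N n d : ℕ} {G : Subgroup (UN N)} (B : Frame G n)

include B in
lemma frame_exp {Y : Mat N} (hY : Y ∈ Submodule.span ℝ (Set.range B.X)) :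
    Y = ∑ c, ip (B.X c) Y • B.X c := by
  obtain ⟨t, ht⟩ := (Submodule.mem_span_range_iff_exists_fun ℝ).1 hY
  have h : ∀ c, ip (B.X c) Y = t c := by
    intro c
    rw [← ht, map_sum]
    have h2 : ∀ b, ip (B.X c) (t b • B.X b) = if c = b then t b else 0 := by
      intro b
      rw [map_smul, smul_eq_mul, ip_apply, B.orth, mul_ite, mul_one, mul_zero]
    simp only [h2]
    rw [Finset.sum_ite_eq Finset.univ c, if_pos (Finset.mem_univ c)]
  rw [← ht]
  refine Finset.sum_congr rfl fun c _ => ?_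
  rw [ht, h c]

lemma ip_frame {Y : Mat N} (hY : Y ∈ Submodule.span ℝ (Set.range B.X)) (Z : Mat N) :
    ip Y Z = ∑ c, ip (B.X c) Y * ip (B.X c) Z := by
  rw [ip_comm]
  conv_lhs => rw [frame_exp B hY]
  rw [map_sum]
  refine Finset.sum_congr rfl fun c _ => ?_
  rw [map_smul, smul_eq_mul, ip_comm Z]

/-- the components of a matrix valued form -/
def comp (f : Fin d → Fin d → (Fin d → ℝ) → Mat N) : Fin n → Fin d → Fin d → (Fin d → ℝ) → ℝ :=
  fun c j k X => ip (B.X c) (f j k X)

variable {f : Fin d → Fin d → (Fin d → ℝ) → Mat N}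

lemma comp_smooth (hf : ∀ j k, ContDiff ℝ 1 (f j k)) (c : Fin n) (j k : Fin d) :
    ContDiff ℝ 1 (comp B f c j k) := (ip (B.X c)).contDiff.comp (hf j k)

lemma comp_supp (hf : ∀ j k, HasCompactSupport (f j k)) (c : Fin n) (j k : Fin d) :
    HasCompactSupport (comp B f c j k) := (hf j k).comp_left (map_zero _)

lemma comp_asy (hf : ∀ j k X, f k j X = -f j k X) (c : Fin n) (j k : Fin d) (X : Fin d → ℝ) :
    comp B f c j k X = -comp B f c k j X := by
  unfold comp
  rw [hf k j X, map_neg]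

/-- the codifferential of a matrix valued form -/
def codM (f : Fin d → Fin d → (Fin d → ℝ) → Mat N) (k : Fin d) (X : Fin d → ℝ) : Mat N :=
  ∑ j, fderiv ℝ (f j k) X (Pi.single j 1)

lemma ip_codM (hf : ∀ j k, ContDiff ℝ 1 (f j k)) (c : Fin n) (k : Fin d) (X : Fin d → ℝ) :
    ip (B.X c) (codM f k X) = cod (comp B f c) k X := by
  unfold codM cod
  rw [map_sum]
  refine Finset.sum_congr rfl fun j _ => ?_
  have h1 : HasFDerivAt (f j k) (fderiv ℝ (f j k) X) X :=
    ((hf j k).differentiable one_ne_zero X).hasFDerivAt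
  have h2 : HasFDerivAt (comp B f c j k) ((ip (B.X c)).comp (fderiv ℝ (f j k) X)) X :=
    (ip (B.X c)).hasFDerivAt.comp X h1
  rw [h2.fderiv]
  rfl

lemma codM_mem (hf : ∀ j k, ContDiff ℝ 1 (f j k))
    (hfL : ∀ j k X, f j k X ∈ Submodule.span ℝ (Set.range B.X)) (k : Fin d) (X : Fin d → ℝ) :
    codM f k X ∈ Submodule.span ℝ (Set.range B.X) := by
  unfold codM
  refine Submodule.sum_mem _ fun j _ => ?_
  have h1 : HasFDerivAt (f j k) (fderiv ℝ (f j k) X) X :=
    ((hf j k).differentiable one_ne_zero X).hasFDerivAt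
  exact deriv_mem (fun t => hfL j k (X + t • Pi.single j 1))
    (h1.hasLineDerivAt (Pi.single j 1))

/-- the variance of the limit, in components -/
lemma var_comp (hf : ∀ j k, ContDiff ℝ 1 (f j k))
    (hfL : ∀ j k X, f j k X ∈ Submodule.span ℝ (Set.range B.X))
    (hint : ∀ (c : Fin n) (k : Fin d), Integrable (fun p : (Fin d → ℝ) × (Fin d → ℝ) =>
      cod (comp B f c) k p.1 * cod (comp B f c) k p.2 * Gr d (p.2 - p.1))) :
    ∑ k, ∫ X : Fin d → ℝ, ∫ Y : Fin d → ℝ, (trace ((codM f k X)ᴴ * codM f k Y)).re * Gr d (Y - X) =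
      ∑ c, ∑ k, ∫ X : Fin d → ℝ, ∫ Y : Fin d → ℝ, cod (comp B f c) k X * cod (comp B f c) k Y *
        Gr d (Y - X) := by
  rw [Finset.sum_comm]
  refine Finset.sum_congr rfl fun k _ => ?_
  have e1 : ∀ X Y : Fin d → ℝ, (trace ((codM f k X)ᴴ * codM f k Y)).re * Gr d (Y - X) =
      ∑ c, cod (comp B f c) k X * cod (comp B f c) k Y * Gr d (Y - X) := by
    intro X Y
    rw [← ip_apply, ip_frame B (codM_mem B hf hfL k X), Finset.sum_mul]
    refine Finset.sum_congr rfl fun c _ => ?_
    rw [ip_codM B hf, ip_codM B hf]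
  simp only [e1]
  have e2 : Integrable (fun p : (Fin d → ℝ) × (Fin d → ℝ) =>
      ∑ c, cod (comp B f c) k p.1 * cod (comp B f c) k p.2 * Gr d (p.2 - p.1)) :=
    integrable_finsetSum _ fun c _ => hint c k
  have e3 := integral_prod _ e2
  simp only at e3
  rw [← e3]
  refine (integral_finsetSum _ fun c _ => hint c k).trans ?_
  refine Finset.sum_congr rfl fun c _ => ?_
  have e4 := integral_prod _ (hint c k)
  exact e4

end

end Pool.Agent.T2h94
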