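import Mathlib
import Pool.Agent.T2h94.Lw7
import Pool.Agent.Z72.KB.KB6

/-!
# The limit of the variance
-/

open MeasureTheory Matrix Filter
open scoped Matrix.Norms.Frobenius ContDiff Topology
open Pool.Agent.H906R3.YM Pool.Agent.W793.YM Pool.Agent.TH618.YM

namespace Pool.Agent.T2h94

set_option linter.unusedSectionVars false
set_option linter.unusedVariables false

noncomputable section

variable {n d : ℕ} {f : Fin n → Fin d → Fin d → (Fin d → ℝ) → ℝ}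

lemma cod_cont (hf1 : ∀ c j k, ContDiff ℝ 1 (f c j k)) (c : Fin n) (k : Fin d) :
    Continuous (cod (f c) k) := continuous_finsetSum _ fun j _ =>
  ((hf1 c j k).continuous_fderiv one_ne_zero).clm_apply continuous_const

lemma cod_supp {R : ℝ} (hfR : ∀ c j k X, (∃ s, R < |X s|) → f c j k X = 0) (c : Fin n) (k : Fin d)
    (X : Fin d → ℝ) (hX : ∃ s, R < |X s|) : cod (f c) k X = 0 := by
  obtain ⟨s, hs⟩ := hX
  unfold cod
  refine Finset.sum_eq_zero fun j _ => ?_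
  have h1 : f c j k =ᶠ[𝓝 X] fun _ => 0 := by
    have h2 : ∀ᶠ Y in 𝓝 X, R < |Y s| := by
      have h3 : Tendsto (fun Y : Fin d → ℝ => |Y s|) (𝓝 X) (𝓝 |X s|) :=
        ((continuous_apply s).abs).tendsto X
      exact h3.eventually (lt_mem_nhds hs)
    filter_upwards [h2] with Y hY
    exact hfR c j k Y ⟨s, hY⟩
  rw [h1.fderiv_eq]
  simp

/-- integrability -/
lemma cod_int (hd : 3 ≤ d) (hf1 : ∀ c j k, ContDiff ℝ 1 (f c j k)) {R : ℝ}
    (hfR : ∀ c j k X, (∃ s, R < |X s|) → f c j k X = 0) (c : Fin n) (k : Fin d) :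
    Integrable (fun p : (Fin d → ℝ) × (Fin d → ℝ) =>
      cod (f c) k p.1 * cod (f c) k p.2 * Gr d (p.2 - p.1)) :=
  Z72.KB.Gr_prod_integrable hd (cod_cont hf1 c k) (cod_cont hf1 c k) (cod_supp hfR c k)
    (cod_supp hfR c k)

/-- the limit of the main part of the variance -/
lemma var_lim (hd : 3 ≤ d) (hf1 : ∀ c j k, ContDiff ℝ 1 (f c j k))
    (hfs : ∀ c j k, HasCompactSupport (f c j k))
    {R : ℝ} (hR : 0 < R) (hfR : ∀ c j k X, (∃ s, R < |X s|) → f c j k X = 0)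
    {a : ℕ → ℝ} (ha : ∀ i, 0 < a i) (ha0 : Tendsto a atTop (𝓝 0))
    {K : ℕ → ℕ} (hK : Tendsto (fun i => (K i : ℝ) * a i ^ 2) atTop atTop) :
    Tendsto (fun i => ∑ c, ∑ k, ∑ x ∈ Bx d (rad R (a i) + 1), ∑ y ∈ Bx d (rad R (a i) + 1),
      cg (gsc (a i) f c) k x * cg (gsc (a i) f c) k y * gk d (K i) (y - x)) atTop
      (𝓝 (∑ c, ∑ k, ∫ X : Fin d → ℝ, ∫ Y : Fin d → ℝ, cod (f c) k X * cod (f c) k Y *
        Gr d (Y - X))) :=
  mK_lim hd (fun ha ha0 _ hK _ _ hh hh' _ hs hs' _ _ hu hu' hus hus' _ hB =>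
    Z72.KB.cov_limit hd ha ha0 hK hh hh' hs hs' hu hu' hus hus' hB) hf1 hfs hR hfR ha ha0 hK

end

end Pool.Agent.T2h94
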