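import Mathlib
import Pool.Agent.T2h94.Ker

/-!
# The scaling of the error terms and of the covariances
-/

open MeasureTheory Matrix Filter
open scoped Matrix.Norms.Frobenius ContDiff Topology

namespace Pool.Agent.T2h94

set_option linter.unusedSectionVars false
set_option linter.unusedVariables false

noncomputable section

/-- the error terms after the scaling -/
lemma err_bound {d r E P q : ℕ} (hE : E = 4 * (r + 3 + d * r)) (hq : q = E * P + (r + 3 + d * r))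
    {c a : ℝ} (hc : 1 ≤ c) (ha : 0 < a) (hac : 1 ≤ c * a) {K : ℕ} (hK : K = ⌈c⌉₊ ^ E) :
    (a ^ (d * r))⁻¹ * (c ^ (r + 2) * (1 / Real.sqrt (Real.sqrt K) +
      (K : ℝ) ^ P / (c ^ q) ^ 2)) ≤ (1 + 2 ^ (E * P)) / c := by
  have hc0 : 0 < c := by linarith
  obtain ⟨R, hR⟩ : ∃ R, R = r + 3 + d * r := ⟨_, rfl⟩
  rw [← hR] at hE hq
  have h1 : (a ^ (d * r))⁻¹ ≤ c ^ (d * r) := by
    rw [inv_le_comm₀ (by positivity) (by positivity), ← inv_pow]
    refine pow_le_pow_left₀ (by positivity) ?_ _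
    rw [inv_le_iff_one_le_mul₀ hc0]; linarith
  have hceil : c ≤ (⌈c⌉₊ : ℝ) := Nat.le_ceil c
  have hceil2 : (⌈c⌉₊ : ℝ) ≤ 2 * c := by
    have := Nat.ceil_lt_add_one hc0.le
    linarith
  have hKlo : c ^ E ≤ (K : ℝ) := by
    rw [hK]; push_cast
    exact pow_le_pow_left₀ hc0.le hceil _
  have hKhi : (K : ℝ) ≤ (2 * c) ^ E := by
    rw [hK]; push_cast
    exact pow_le_pow_left₀ (Nat.cast_nonneg _) hceil2 _
  have hsq : c ^ R ≤ Real.sqrt (Real.sqrt K) := by
    refine Real.le_sqrt_of_sq_le ?_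
    refine Real.le_sqrt_of_sq_le ?_
    refine le_trans (le_of_eq ?_) hKlo
    rw [hE, ← pow_mul, ← pow_mul]; congr 1; ring
  have e1 : 1 / Real.sqrt (Real.sqrt K) ≤ 1 / c ^ R :=
    one_div_le_one_div_of_le (by positivity) hsq
  have e2 : (K : ℝ) ^ P / (c ^ q) ^ 2 ≤ 2 ^ (E * P) / c ^ R := by
    have h2 : (K : ℝ) ^ P ≤ 2 ^ (E * P) * c ^ (E * P) := by
      calc (K : ℝ) ^ P ≤ ((2 * c) ^ E) ^ P := pow_le_pow_left₀ (Nat.cast_nonneg _) hKhi _
        _ = _ := by rw [← pow_mul, mul_pow]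
    have h3 : c ^ (E * P) * c ^ R ≤ (c ^ q) ^ 2 := by
      rw [← pow_add, ← pow_mul]
      exact pow_le_pow_right₀ hc (by rw [hq]; omega)
    rw [div_le_div_iff₀ (by positivity) (by positivity)]
    calc (K : ℝ) ^ P * c ^ R ≤ 2 ^ (E * P) * c ^ (E * P) * c ^ R := by gcongr
      _ = 2 ^ (E * P) * (c ^ (E * P) * c ^ R) := by ring
      _ ≤ _ := by gcongr
  calc (a ^ (d * r))⁻¹ * (c ^ (r + 2) * (1 / Real.sqrt (Real.sqrt K) +
      (K : ℝ) ^ P / (c ^ q) ^ 2)) ≤ c ^ (d * r) * (c ^ (r + 2) * (1 / c ^ R +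
      2 ^ (E * P) / c ^ R)) := by gcongr
    _ = (1 + 2 ^ (E * P)) * (c ^ (d * r) * c ^ (r + 2) / c ^ R) := by ring
    _ = (1 + 2 ^ (E * P)) * (1 / c) := by
        congr 1
        rw [hR, div_eq_div_iff (by positivity) (by positivity), ← pow_add, ← pow_succ, one_mul]
        congr 1; ring
    _ = _ := by ring

lemma Kk_smul {d : ℕ} (c : ℝ) (h : Fin d → Fin d → ℝ) (p q : Fin d × Fin d) :
    c * Kk h p q = Kk (fun i j => c * h i j) p q := by
  unfold Kk
  split_ifs <;> ring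

lemma Kk_tendsto {d : ℕ} {α : Type*} {f : Filter α} {h : α → Fin d → Fin d → ℝ}
    {h0 : Fin d → Fin d → ℝ} (hh : ∀ i j, Tendsto (fun k => h k i j) f (𝓝 (h0 i j)))
    (p q : Fin d × Fin d) : Tendsto (fun k => Kk (h k) p q) f (𝓝 (Kk h0 p q)) := by
  unfold Kk
  refine (Tendsto.sub (Tendsto.sub ?_ ?_) ?_).add ?_
  all_goals
    split_ifs
    · exact hh _ _
    · exact tendsto_const_nhds

/-- the covariance of the legs in the continuum -/
def Cr {n d r : ℕ} (h : (Fin d → ℝ) → Fin d → Fin d → ℝ) (x : Fin r → Fin d → ℝ) (D : Fin r → Dir d)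
    (α : Fin r → Fin n) (i j : Lg r) : ℝ :=
  if (ofLex i).1 = (ofLex j).1 then 0 else
    if α (ofLex i).1 = α (ofLex j).1 then
      Kk (h (x (ofLex j).1 - x (ofLex i).1))
        (if (ofLex i).2 then (D (ofLex i).1).2 else (D (ofLex i).1).1)
        (if (ofLex j).2 then (D (ofLex j).1).2 else (D (ofLex j).1).1)
    else 0

lemma card_Lg (r : ℕ) : (Finset.univ : Finset (Lg r)).card = 2 * r := by
  rw [← legs_univ, legs_card, Finset.card_univ, Fintype.card_fin]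

/-- the limit of the sums over the pairings -/
lemma wick_scal {n d r : ℕ} (hker : ∀ (l j : Fin d) {X : Fin d → ℝ}, X ≠ 0 →
    ∀ {a : ℕ → ℝ}, (∀ i, 0 < a i) → Tendsto a atTop (𝓝 0) →
    ∀ {K : ℕ → ℕ}, Tendsto (fun i => (K i : ℝ) * a i ^ 2) atTop atTop →
    ∀ {z : ℕ → Fin d → ℤ}, (∀ s, Tendsto (fun i => a i * (z i s : ℝ)) atTop (𝓝 (X s))) →
    Tendsto (fun i => (a i ^ d)⁻¹ * hk d (K i) l j (z i)) atTop (𝓝 (Dk d l j X)))
    {a : ℕ → ℝ} (ha : ∀ i, 0 < a i) (ha0 : Tendsto a atTop (𝓝 0))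
    {K : ℕ → ℕ} (hK : Tendsto (fun i => (K i : ℝ) * a i ^ 2) atTop atTop)
    {y : ℕ → Fin r → Fin d → ℤ} {x : Fin r → Fin d → ℝ} (hx : Function.Injective x)
    (hy : ∀ s k, Tendsto (fun i => a i * (y i s k : ℝ)) atTop (𝓝 (x s k)))
    (D : Fin r → Dir d) :
    Tendsto (fun i => (a i ^ (d * r))⁻¹ * ∑ α : Fin r → Fin n,
      wick (Cz (fun z p q => hk d (K i) p q z) (y i) D α) Finset.univ) atTop
      (𝓝 (∑ α : Fin r → Fin n, wick (Cr (fun X p q => Dk d p q X) x D α) Finset.univ)) := by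
  simp only [Finset.mul_sum]
  refine tendsto_finsetSum _ fun α _ => ?_
  have e1 : ∀ i, (a i ^ (d * r))⁻¹ *
      wick (Cz (fun z p q => hk d (K i) p q z) (y i) D α) Finset.univ =
      wick (Cz (fun z p q => (a i ^ d)⁻¹ * hk d (K i) p q z) (y i) D α) Finset.univ := by
    intro i
    rw [pow_mul, ← inv_pow, ← wick_smul _ _ _ r (card_Lg r)]
    congr 1
    funext u v
    unfold Cz
    split_ifs with h1 h2
    · rw [mul_zero]
    all_goals first | rw [Kk_smul] | rw [mul_zero]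
  simp only [e1]
  refine wick_tendsto _ fun u _ v _ _ => ?_
  unfold Cz Cr
  by_cases h1 : (ofLex u).1 = (ofLex v).1
  · simp only [if_pos h1]; exact tendsto_const_nhds
  · by_cases h2 : α (ofLex u).1 = α (ofLex v).1
    · simp only [if_neg h1, if_pos h2]
      refine Kk_tendsto (fun p q => ?_) _ _
      refine hker p q ?_ ha ha0 hK fun s => ?_
      · intro h
        rw [sub_eq_zero] at h
        exact h1 (hx h).symm
      · have h3 := (hy (ofLex v).1 s).sub (hy (ofLex u).1 s)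
        refine h3.congr fun i => ?_
        simp only [Pi.sub_apply]
        push_cast; ring
    · simp only [if_neg h1, if_neg h2]; exact tendsto_const_nhds

end

end Pool.Agent.T2h94
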