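import Mathlib
import Pool.Agent.T2h94.KDef2

/-!
# Iterated differences of the truncated Green function and derivatives of the Green function
-/

namespace Pool.Agent.T2h94

noncomputable section

/-- iterated partial derivatives -/
def pd {d : ℕ} (f : (Fin d → ℝ) → ℝ) : List (Fin d) → (Fin d → ℝ) → ℝ
  | [], X => f X
  | l :: m, X => fderiv ℝ (pd f m) X (Pi.single l 1)

/-- iterated differences: `(l, true)` is `h(z + e_l) - h(z)` and `(l, false)` is
`h(z - e_l) - h(z)` -/
def dw {d : ℕ} (h : (Fin d → ℤ) → ℝ) : List (Fin d × Bool) → (Fin d → ℤ) → ℝ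
  | [], z => h z
  | (l, true) :: w, z => dw h w (z + Pi.single l 1) - dw h w z
  | (l, false) :: w, z => dw h w (z - Pi.single l 1) - dw h w z

/-- the sign of a list of differences -/
def sgw {d : ℕ} : List (Fin d × Bool) → ℝ
  | [] => 1
  | (_, true) :: w => sgw w
  | (_, false) :: w => -sgw w

end

end Pool.Agent.T2h94
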