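import Mathlib
import Pool.Agent.T2h94.Gau

/-!
# Generic legs: the curvature smeared with two forms, all moments
-/

open MeasureTheory Matrix
open scoped Matrix.Norms.Frobenius ContDiff
open Pool.Agent.H906R3.YM Pool.Agent.W793.YM

namespace Pool.Agent.T2h94

set_option linter.unusedSectionVars false
set_option linter.unusedVariables false

noncomputable section

/-- a power of a weighted sum -/
lemma pow_wsum {ι : Type*} (S : Finset ι) {w z : ι → ℝ} (hw : ∀ i ∈ S, 0 ≤ w i)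
    (hz : ∀ i ∈ S, 0 ≤ z i) (k : ℕ) :
    (∑ i ∈ S, w i * z i) ^ (k + 1) ≤ (∑ i ∈ S, w i) ^ k * ∑ i ∈ S, w i * z i ^ (k + 1) := by
  obtain ⟨W, hW⟩ : ∃ W, W = ∑ i ∈ S, w i := ⟨_, rfl⟩
  have hW0 : 0 ≤ W := by rw [hW]; exact Finset.sum_nonneg hw
  rcases hW0.eq_or_lt with h | h
  · have h1 : ∀ i ∈ S, w i = 0 := by
      intro i hi
      have h2 := Finset.single_le_sum (f := w) hw hi
      rw [← hW, ← h] at h2
      exact le_antisymm h2 (hw i hi)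
    have h2 : ∑ i ∈ S, w i * z i = 0 := Finset.sum_eq_zero fun i hi => by rw [h1 i hi, zero_mul]
    have h3 : ∑ i ∈ S, w i * z i ^ (k + 1) = 0 :=
      Finset.sum_eq_zero fun i hi => by rw [h1 i hi, zero_mul]
    rw [h2, h3, mul_zero, zero_pow (Nat.succ_ne_zero k)]
  · have h1 := Real.pow_arith_mean_le_arith_mean_pow S (fun i => w i / W) z
      (fun i hi => div_nonneg (hw i hi) h.le) (by rw [← Finset.sum_div, ← hW, div_self h.ne']) hz
      (k + 1)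
    have e1 : ∑ i ∈ S, w i / W * z i = (∑ i ∈ S, w i * z i) / W := by
      rw [Finset.sum_div]; exact Finset.sum_congr rfl fun i _ => by ring
    have e2 : ∑ i ∈ S, w i / W * z i ^ (k + 1) = (∑ i ∈ S, w i * z i ^ (k + 1)) / W := by
      rw [Finset.sum_div]; exact Finset.sum_congr rfl fun i _ => by ring
    rw [e1, e2, div_pow, div_le_div_iff₀ (by positivity) h] at h1
    rw [← hW]
    have h2 : W ^ (k + 1) = W ^ k * W := pow_succ W k
    rw [h2] at h1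
    have h3 : (∑ i ∈ S, w i * z i) ^ (k + 1) * W ≤
        (W ^ k * ∑ i ∈ S, w i * z i ^ (k + 1)) * W := by
      calc _ ≤ _ := h1
        _ = _ := by ring
    exact le_of_mul_le_mul_right h3 h

section forms

variable {n d l : ℕ} [NeZero l]

/-- the forms of the legs: antisymmetric, supported in the window, of norm at most `Λ` -/
structure Ok (K : ℕ) (Λ : ℝ) (f : Fin n → Fm d l) : Prop where
  asy : ∀ a, Asy (f a)
  sup : ∀ a j k, SW (K + 2) (2 * K + 2) (f a j k)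
  nrm : N1 f ≤ Λ

/-- the covariance of two legs -/
def Cf (K : ℕ) (f g : Fin n → Fm d l) : ℝ := ∑ a, ipF (g a) (d1 (AK K f a))

lemma Cf_le (hd : 0 < d) (K : ℕ) {Λ : ℝ} (hΛ : 0 ≤ Λ) {f g : Fin n → Fm d l} (hf : ∀ a, Asy (f a))
    (hf1 : N1 f ≤ Λ) (hg1 : N1 g ≤ Λ) : |Cf K f g| ≤ 2 * Λ ^ 2 := by
  obtain ⟨P, hP⟩ : ∃ P, P = Pks K f := ⟨_, rfl⟩
  obtain ⟨D, hD⟩ : ∃ D : Fin n → Fm d l, D = fun a => d1 (AK K f a) := ⟨_, rfl⟩
  obtain ⟨E, hE⟩ : ∃ E : Fin n → Fm d l, E = fun a => cx (uKs K f a) := ⟨_, rfl⟩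
  have hdec : f = P + D + E := by rw [hP, hD, hE]; exact dec K f
  have horth : ∀ a, ipF (E a) (D a) = 0 := fun a => by
    rw [hE, hD]; exact cx_orth (uKs_asy hf a) _
  have h1 : ∀ a, ipF (D a) (D a) ≤ ipF ((f - P) a) ((f - P) a) := by
    intro a
    have e1 : D a = (f - P) a - E a := by
      rw [hdec]; simp only [Pi.add_apply, Pi.sub_apply]; abel
    have e2 : ipF (D a) (D a) = ipF ((f - P) a) (D a) := by
      calc ipF (D a) (D a) = ipF ((f - P) a - E a) (D a) := by rw [← e1]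
        _ = ipF ((f - P) a) (D a) - ipF (E a) (D a) := ipF_sub_left _ _ _
        _ = _ := by rw [horth, sub_zero]
    have e3 := (abs_le.1 (ipF_young ((f - P) a) (D a))).2
    linarith
  have hN0 : ∀ g : Fin n → Fm d l, 0 ≤ N1 g := fun g =>
    Finset.sum_nonneg fun _ _ => Finset.sum_nonneg fun _ _ => Finset.sum_nonneg fun _ _ =>
      Finset.sum_nonneg fun _ _ => abs_nonneg _
  have hNP : N1 P ≤ Λ := by rw [hP]; exact (N1_Pks hd K f).trans hf1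
  have h2 : ∑ a, ipF ((f - P) a) ((f - P) a) ≤ 2 * Λ ^ 2 := by
    rw [ipF_N2 (f - P)]
    have e1 := N2_le (f - P)
    have e2 := N1_sub f P
    have e3 : N1 (f - P) ^ 2 ≤ (2 * Λ) ^ 2 := pow_le_pow_left₀ (hN0 _) (by linarith) 2
    nlinarith
  have h3 : ∑ a, ipF (D a) (D a) ≤ 2 * Λ ^ 2 := (Finset.sum_le_sum fun a _ => h1 a).trans h2
  have h4 : ∑ a, ipF (g a) (g a) ≤ 2 * Λ ^ 2 := by
    rw [ipF_N2 g]
    have e1 := N2_le g
    have e3 : N1 g ^ 2 ≤ Λ ^ 2 := pow_le_pow_left₀ (hN0 _) hg1 2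
    nlinarith [sq_nonneg Λ]
  have h5 : Cf K f g = ∑ a, ipF (g a) (D a) := by rw [hD]; rfl
  rw [h5]
  refine (Finset.abs_sum_le_sum_abs _ _).trans
    ((Finset.sum_le_sum fun a _ => ipF_young (g a) (D a)).trans ?_)
  rw [← Finset.mul_sum, Finset.sum_add_distrib]
  linarith

end forms

variable {G : Type*} [Group G] [TopologicalSpace G] [IsTopologicalGroup G] [CompactSpace G]
  [SecondCountableTopology G] [MeasurableSpace G] [BorelSpace G] (μ : Measure G)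
  [IsProbabilityMeasure μ] [μ.IsMulLeftInvariant] [μ.IsMulRightInvariant] [μ.IsInvInvariant]
  {N n : ℕ} {L : LD G N n}

section val

variable {d l : ℕ} [NeZero l]

variable (L) in
/-- the smeared curvature, times `b ^ 2` -/
def Ph (b : ℝ) (f : Fin n → Fm d l) (U : Ed d l → G) : ℝ := b ^ 2 * Fs L f U

variable (L) in
/-- the same as a smooth function -/
def PhM (b : ℝ) (f : Fin n → Fm d l) : Sm L (Ed d l) := b ^ 2 • FsS L f

lemma PhM_apply (b : ℝ) (f : Fin n → Fm d l) (U : Ed d l → G) : (PhM L b f).1 U = Ph L b f U := by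
  show b ^ 2 * (FsS L f).1 U = _
  rw [FsS_apply]; rfl

lemma Ph_cont (b : ℝ) (f : Fin n → Fm d l) : Continuous (Ph L b f : (Ed d l → G) → ℝ) := by
  have : (Ph L b f : (Ed d l → G) → ℝ) = (PhM L b f).1 := by
    funext U; exact (PhM_apply b f U).symm
  rw [this]; exact Sm_cont _

lemma Php_cont {ι : Type*} (b : ℝ) (S : Finset ι) (p : ι → Fin n → Fm d l) :
    Continuous fun U : Ed d l → G => ∏ s ∈ S, Ph L b (p s) U :=
  continuous_finsetProd _ fun s _ => Ph_cont b (p s)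

lemma Php_apply {ι : Type*} (b : ℝ) (S : Finset ι) (p : ι → Fin n → Fm d l) (U : Ed d l → G) :
    (∏ s ∈ S, PhM L b (p s)).1 U = ∏ s ∈ S, Ph L b (p s) U := by
  have h : (∏ s ∈ S, PhM L b (p s)).1 U = L.ev U (∏ s ∈ S, PhM L b (p s)) := rfl
  rw [h, map_prod]
  exact Finset.prod_congr rfl fun s _ => PhM_apply b (p s) U

/-- the index set of the components of a form -/
abbrev Ix (n d l : ℕ) := Fin n × Fin d × Fin d × (Fin d → ZMod l)

lemma N1_ix (f : Fin n → Fm d l) : N1 f = ∑ p : Ix n d l, |f p.1 p.2.1 p.2.2.1 p.2.2.2| := by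
  unfold N1
  simp only [Fintype.sum_prod_type]

lemma Fs_ix (f : Fin n → Fm d l) (U : Ed d l → G) : |Fs L f U| ≤
    ∑ p : Ix n d l, |f p.1 p.2.1 p.2.2.1 p.2.2.2| * dv L (plqT U p.2.2.2 p.2.1 p.2.2.1) := by
  have h0 : Fs L f U = 1 / 2 * ∑ p : Ix n d l, f p.1 p.2.1 p.2.2.1 p.2.2.2 *
      Fz L U p.1 p.2.1 p.2.2.1 p.2.2.2 := by
    unfold Fs ipF ip2
    simp only [Fintype.sum_prod_type, Finset.mul_sum]
  have h1 : ∀ p : Ix n d l, |f p.1 p.2.1 p.2.2.1 p.2.2.2 * Fz L U p.1 p.2.1 p.2.2.1 p.2.2.2| ≤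
      |f p.1 p.2.1 p.2.2.1 p.2.2.2| * dv L (plqT U p.2.2.2 p.2.1 p.2.2.1) := by
    intro p
    rw [abs_mul]
    exact mul_le_mul_of_nonneg_left (Fz_le U ⟨p.1, p.2.1, p.2.2.1, p.2.2.2⟩) (abs_nonneg _)
  have h2 := Finset.abs_sum_le_sum_abs (fun p : Ix n d l => f p.1 p.2.1 p.2.2.1 p.2.2.2 *
      Fz L U p.1 p.2.1 p.2.2.1 p.2.2.2) Finset.univ
  have h3 := h2.trans (Finset.sum_le_sum fun p _ => h1 p)
  have h4 : 0 ≤ ∑ p : Ix n d l, |f p.1 p.2.1 p.2.2.1 p.2.2.2| *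
      dv L (plqT U p.2.2.2 p.2.1 p.2.2.1) :=
    Finset.sum_nonneg fun p _ => mul_nonneg (abs_nonneg _) (dv_nonneg _)
  rw [h0, abs_mul, abs_of_pos (by norm_num : (0 : ℝ) < 1 / 2)]
  linarith

lemma Ph_sB {M : ℕ} (b : ℝ) {f : Fin n → Fm d l} {Λ : ℝ} (hf1 : N1 f ≤ Λ)
    (hf : ∀ a j k x, f a j k x ≠ 0 → ∀ i, wv x i < M) (U : Ed d l → G) :
    |Ph L b f U| ≤ Λ * (b ^ 2 * sB L M U) := by
  unfold Ph
  rw [abs_mul, abs_of_nonneg (sq_nonneg b)]
  have h1 : |Fs L f U| ≤ Λ * sB L M U := by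
    refine (Fs_ix f U).trans ?_
    calc _ ≤ ∑ p : Ix n d l, |f p.1 p.2.1 p.2.2.1 p.2.2.2| * sB L M U := by
          refine Finset.sum_le_sum fun p _ => ?_
          by_cases h : f p.1 p.2.1 p.2.2.1 p.2.2.2 = 0
          · rw [h, abs_zero, zero_mul, zero_mul]
          · exact mul_le_mul_of_nonneg_left (dv_le_sB U (hf _ _ _ _ h) _ _) (abs_nonneg _)
      _ = N1 f * sB L M U := by rw [← Finset.sum_mul, N1_ix]
      _ ≤ _ := mul_le_mul_of_nonneg_right hf1 (sB_nonneg _ _)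
  calc b ^ 2 * |Fs L f U| ≤ b ^ 2 * (Λ * sB L M U) := mul_le_mul_of_nonneg_left h1 (sq_nonneg b)
    _ = _ := by ring

lemma Php_sB {ι : Type*} {M : ℕ} (b : ℝ) {S : Finset ι} {p : ι → Fin n → Fm d l} {Λ : ℝ}
    (hf1 : ∀ s ∈ S, N1 (p s) ≤ Λ) (hp : ∀ s ∈ S, ∀ a j k x, p s a j k x ≠ 0 → ∀ i, wv x i < M)
    (U : Ed d l → G) : |∏ s ∈ S, Ph L b (p s) U| ≤ (Λ * (b ^ 2 * sB L M U)) ^ S.card := by
  rw [Finset.abs_prod]
  calc ∏ s ∈ S, |Ph L b (p s) U| ≤ ∏ _s ∈ S, (Λ * (b ^ 2 * sB L M U)) :=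
        Finset.prod_le_prod (fun _ _ => abs_nonneg _) fun s hs => Ph_sB b (hf1 s hs) (hp s hs) U
    _ = _ := Finset.prod_const _

end val

/-- moments of one leg -/
theorem Ph_moment (k q : ℕ) : ∃ C : ℝ, 0 < C ∧ ∀ c : ℝ, 1 ≤ c → ∀ (d m : ℕ) [NeZero m], 2 ≤ m →
    ∀ (Λ : ℝ), 0 ≤ Λ → ∀ f : Fin n → Fm d (2 * m), N1 f ≤ Λ →
      EX μ L ((c ^ q) ^ 4) (fun U : Ed d (2 * m) → G => |Ph L (c ^ q) f U| ^ (k + 1)) ≤
        C * c * Λ ^ (k + 1) := by
  obtain ⟨C, hC, h⟩ := dv_moment μ (L := L) (k + 1) q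
  refine ⟨C, hC, fun c hc d m _ hm Λ hΛ f hf => ?_⟩
  have hc0 : 0 < c := by linarith
  obtain ⟨b, hb⟩ : ∃ b, b = c ^ q := ⟨_, rfl⟩
  have h' := fun x i j => h c hc d m hm x i j
  rw [← hb] at h' ⊢
  obtain ⟨w, hw⟩ : ∃ w : Ix n d (2 * m) → ℝ, w = fun p => |f p.1 p.2.1 p.2.2.1 p.2.2.2| := ⟨_, rfl⟩
  obtain ⟨z, hz⟩ : ∃ z : Ix n d (2 * m) → (Ed d (2 * m) → G) → ℝ, z = fun p U =>
    b ^ 2 * dv L (plqT U p.2.2.2 p.2.1 p.2.2.1) := ⟨_, rfl⟩
  have hw0 : ∀ p ∈ (Finset.univ : Finset (Ix n d (2 * m))), 0 ≤ w p := fun p _ => by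
    rw [hw]; exact abs_nonneg _
  have hwN : ∑ p, w p = N1 f := by rw [N1_ix, hw]
  have hzc : ∀ p, Continuous (z p) := fun p => by
    rw [hz]; exact continuous_const.mul (dv_cont.comp (plqT_cont _ _ _))
  have hz0 : ∀ U, ∀ p ∈ (Finset.univ : Finset (Ix n d (2 * m))), 0 ≤ z p U := fun U p _ => by
    rw [hz]; exact mul_nonneg (sq_nonneg _) (dv_nonneg _)
  have hpt : ∀ U : Ed d (2 * m) → G, |Ph L b f U| ^ (k + 1) ≤
      (∑ p, w p) ^ k * ∑ p, w p * z p U ^ (k + 1) := by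
    intro U
    refine le_trans (pow_le_pow_left₀ (abs_nonneg _) ?_ _) (pow_wsum Finset.univ hw0 (hz0 U) k)
    unfold Ph
    rw [abs_mul, abs_of_nonneg (sq_nonneg b)]
    refine (mul_le_mul_of_nonneg_left (Fs_ix f U) (sq_nonneg b)).trans (le_of_eq ?_)
    rw [Finset.mul_sum, hw, hz]
    exact Finset.sum_congr rfl fun p _ => by ring
  have h1 := EX_mono μ (L := L) (β := b ^ 4) (F := fun U : Ed d (2 * m) → G =>
    |Ph L b f U| ^ (k + 1)) (H := fun U => (∑ p, w p) ^ k * ∑ p, w p * z p U ^ (k + 1))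
    ((Ph_cont b f).abs.pow _)
    (continuous_const.mul (continuous_finsetSum _ fun p _ => continuous_const.mul ((hzc p).pow _)))
    hpt
  rw [EX_smul, EX_sum μ Finset.univ (F := fun p U => w p * z p U ^ (k + 1))
    fun p _ => continuous_const.mul ((hzc p).pow _)] at h1
  refine h1.trans ?_
  have h2 : ∑ p, EX μ L (b ^ 4) (fun U => w p * z p U ^ (k + 1)) ≤ (∑ p, w p) * (C * c) := by
    rw [Finset.sum_mul]
    refine Finset.sum_le_sum fun p _ => ?_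
    rw [EX_smul]
    refine mul_le_mul_of_nonneg_left ?_ (hw0 p (Finset.mem_univ _))
    rw [hz]
    exact h' _ _ _
  have hN0 : 0 ≤ N1 f := N1_nonneg f
  rw [hwN] at h2 ⊢
  calc N1 f ^ k * ∑ p, EX μ L (b ^ 4) (fun U => w p * z p U ^ (k + 1)) ≤
      N1 f ^ k * (N1 f * (C * c)) := mul_le_mul_of_nonneg_left h2 (by positivity)
    _ = C * c * N1 f ^ (k + 1) := by ring
    _ ≤ C * c * Λ ^ (k + 1) := by gcongr

/-- the second moment of a product of legs -/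
theorem Php_moment (k q : ℕ) : ∃ C : ℝ, 0 < C ∧ ∀ c : ℝ, 1 ≤ c → ∀ (d m : ℕ) [NeZero m], 2 ≤ m →
    ∀ (Λ : ℝ), 1 ≤ Λ → ∀ (ι : Type) [DecidableEq ι] (S : Finset ι), S.card = k →
      ∀ p : ι → Fin n → Fm d (2 * m), (∀ s ∈ S, N1 (p s) ≤ Λ) →
      EX μ L ((c ^ q) ^ 4) (fun U : Ed d (2 * m) → G => (∏ s ∈ S, Ph L (c ^ q) (p s) U) ^ 2) ≤
        C * c * Λ ^ (2 * k) := by
  rcases Nat.eq_zero_or_pos k with hk | hk
  · subst hk
    refine ⟨1, one_pos, fun c hc d m _ hm Λ hΛ ι _ S hS p hp => ?_⟩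
    have hS' : S = ∅ := Finset.card_eq_zero.1 hS
    subst hS'
    simp only [Finset.prod_empty, one_pow]
    rw [EX_const]
    simp
    exact hc
  obtain ⟨C, hC, h⟩ := Ph_moment μ (L := L) (2 * k - 1) q
  refine ⟨1 + k * C, by positivity, fun c hc d m _ hm Λ hΛ ι _ S hS p hp => ?_⟩
  have hc0 : 0 < c := by linarith
  have hk2 : 2 * k - 1 + 1 = 2 * k := by omega
  rw [hk2] at h
  obtain ⟨b, hb⟩ : ∃ b, b = c ^ q := ⟨_, rfl⟩
  have h' := fun f hf => h c hc d m hm Λ (by linarith) f hf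
  rw [← hb] at h' ⊢
  have c1 : ∀ s, Continuous fun U : Ed d (2 * m) → G => |Ph L b (p s) U| ^ (2 * k) := fun s =>
    (Ph_cont b (p s)).abs.pow _
  have h1 : EX μ L (b ^ 4) (fun U : Ed d (2 * m) → G => (∏ s ∈ S, Ph L b (p s) U) ^ 2) ≤
      EX μ L (b ^ 4) (fun U : Ed d (2 * m) → G => 1 + ∑ s ∈ S, |Ph L b (p s) U| ^ (2 * k)) := by
    refine EX_mono μ ((Php_cont b S p).pow 2)
      (continuous_const.add (continuous_finsetSum _ fun s _ => c1 s)) fun U => ?_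
    refine (prod_sq_le S _).trans ?_
    rw [hS]
    refine add_le_add le_rfl (Finset.sum_le_sum fun s _ => le_of_eq ?_)
    rw [pow_mul, pow_mul, sq_abs]
  rw [EX_add μ (F := fun _ : Ed d (2 * m) → G => 1) continuous_const
    (continuous_finsetSum _ fun s _ => c1 s), EX_const, EX_sum μ S (F := fun s U =>
      |Ph L b (p s) U| ^ (2 * k)) fun s _ => c1 s] at h1
  have h2 : ∑ s ∈ S, EX μ L (b ^ 4) (fun U : Ed d (2 * m) → G => |Ph L b (p s) U| ^ (2 * k)) ≤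
      k * (C * c * Λ ^ (2 * k)) := by
    rw [← hS, ← nsmul_eq_mul, ← Finset.sum_const, hS]
    exact Finset.sum_le_sum fun s hs => h' _ (hp s hs)
  have h3 : 1 ≤ c * Λ ^ (2 * k) := one_le_mul_of_one_le_of_one_le hc (one_le_pow₀ hΛ)
  calc _ ≤ 1 + k * (C * c * Λ ^ (2 * k)) := by linarith
    _ ≤ c * Λ ^ (2 * k) + k * (C * c * Λ ^ (2 * k)) := by linarith
    _ = _ := by ring

end

end Pool.Agent.T2h94
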