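import Mathlib
import Pool.Agent.T2h94.W1

/-!
# Generic legs: the smoothed part, the pointwise part of the recursion
-/

open MeasureTheory Matrix
open scoped Matrix.Norms.Frobenius ContDiff
open Pool.Agent.H906R3.YM Pool.Agent.W793.YM

namespace Pool.Agent.T2h94

set_option linter.unusedSectionVars false
set_option linter.unusedVariables false

noncomputable section

variable {G : Type*} [Group G] [TopologicalSpace G] [IsTopologicalGroup G] [CompactSpace G]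
  [SecondCountableTopology G] [MeasurableSpace G] [BorelSpace G] (μ : Measure G)
  [IsProbabilityMeasure μ] [μ.IsMulLeftInvariant] [μ.IsMulRightInvariant] [μ.IsInvInvariant]
  {N n : ℕ} {L : LD G N n}

/-- the second moment of the curvature smeared with a smoothed form -/
theorem rest_gen {d : ℕ} (hd : 3 ≤ d) (q : ℕ) : ∃ C : ℝ, 0 < C ∧ ∀ c : ℝ, 1 ≤ c →
    ∀ (m K : ℕ) [NeZero m], 1 ≤ K → 3 * K + 5 < 2 * m → ∀ Λ : ℝ, 1 ≤ Λ →
    ∀ f : Fin n → Fm d (2 * m), Ok K Λ f →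
      EX μ L ((c ^ q) ^ 4) (fun U : Ed d (2 * m) → G =>
        ((c ^ q) ^ 2 * Fs L (Pks K f) U) ^ 2) ≤
        C * c * Λ ^ 2 * (1 / Real.sqrt (Real.sqrt K) + (K : ℝ) ^ (2 * d + 3) / (c ^ q) ^ 2) ^ 2 := by
  obtain ⟨C1, hC1, h1⟩ := sB_all μ (L := L) 3 q
  obtain ⟨D, hD⟩ : ∃ D : ℝ, D = n * d ^ 2 / 4 * (8 * n) * (4 * ((2 + 2 * Real.sqrt (2 * d)) ^ d) +
    16 * (8 * d + 1) ^ 4 * (C1 * (8 ^ d * d ^ 2) ^ 4)) := ⟨_, rfl⟩
  have hD0 : 0 ≤ D := by rw [hD]; positivity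
  refine ⟨D + 1, by positivity, fun c hc m K _ hK hKm Λ hΛ f hf => ?_⟩
  have hc0 : 0 < c := by linarith
  have hΛ0 : 0 < Λ := by linarith
  obtain ⟨b, hb⟩ : ∃ b, b = c ^ q := ⟨_, rfl⟩
  have hb1 : 1 ≤ b := by rw [hb]; exact one_le_pow₀ hc
  have hb0 : 0 < b := by linarith
  have hm : 2 ≤ m := by omega
  have hK1 : (1 : ℝ) ≤ K := by exact_mod_cast hK
  have hK0 : (0 : ℝ) < K := by linarith
  obtain ⟨M, hM⟩ : ∃ M, M = 3 * K + 5 := ⟨_, rfl⟩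
  have hM8 : (M : ℝ) ≤ 8 * K := by rw [hM]; push_cast; linarith
  have hM0 : (0 : ℝ) ≤ M := Nat.cast_nonneg _
  have h1' := h1 c hc d m hm M
  rw [← hb] at h1' ⊢
  obtain ⟨g, hg⟩ : ∃ g, g = Pks K f := ⟨_, rfl⟩
  have hgs : ∀ a j k x, g a j k x ≠ 0 → ∀ s, wv x s + 1 < M := by
    intro a j k x hx s
    rw [hg] at hx
    have := ((hf.sup a j k).Plk (k := K) (by omega) (by omega)) x hx s
    omega
  have hZ := Zt_pos μ (L := L) (d := d) (l := 2 * m) (b ^ 4)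
  have h2 := Fs_var μ (L := L) hm (by omega : M < 2 * m) hgs (by omega) (show 0 < b ^ 4 by positivity)
  have h3 : EX μ L (b ^ 4) (fun U : Ed d (2 * m) → G => Fs L g U ^ 2) ≤
      n * d ^ 2 / 4 * (M * n) * (4 / b ^ 4 * N2 g + N1 g ^ 2 * (16 * (d * M + 1) ^ 4) *
        EX μ L (b ^ 4) (fun U : Ed d (2 * m) → G => sB L M U ^ 4)) := by
    unfold EX
    rw [div_le_iff₀ hZ]
    refine h2.trans (le_of_eq ?_)
    field_simp
  have h4 : EX μ L (b ^ 4) (fun U : Ed d (2 * m) → G => (b ^ 2 * Fs L g U) ^ 2) =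
      b ^ 4 * EX μ L (b ^ 4) (fun U : Ed d (2 * m) → G => Fs L g U ^ 2) := by
    rw [← EX_smul]; congr 1; funext U; ring
  have h5 : b ^ 8 * EX μ L (b ^ 4) (fun U : Ed d (2 * m) → G => sB L M U ^ 4) ≤
      C1 * ((M : ℝ) ^ d * d ^ 2) ^ 4 * c := by
    refine le_trans (le_of_eq ?_) h1'
    rw [← EX_smul]; congr 1; funext U; ring
  obtain ⟨E4, hE4⟩ : ∃ E4, E4 = EX μ L (b ^ 4) (fun U : Ed d (2 * m) → G => sB L M U ^ 4) :=
    ⟨_, rfl⟩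
  have hE40 : 0 ≤ E4 := by rw [hE4]; exact EX_nonneg μ fun U => by positivity
  rw [← hE4] at h3 h5
  have hN1 : N1 g ≤ Λ := by rw [hg]; exact (N1_Pks (by omega) K _).trans hf.nrm
  have hN10 := N1_nonneg g
  have hN2 : (K : ℝ) * N2 g ≤ (2 + 2 * Real.sqrt (2 * d)) ^ d * Λ ^ 2 / Real.sqrt K := by
    have e1 := N2_Pks hd hK (by omega) f
    rw [← hg] at e1
    refine e1.trans ?_
    have e2 : N1 f ^ 2 ≤ Λ ^ 2 := pow_le_pow_left₀ (N1_nonneg f) hf.nrm 2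
    have hs1 : 1 ≤ Real.sqrt K := by rw [Real.one_le_sqrt]; exact hK1
    have e3 : Real.sqrt K ≤ Real.sqrt K ^ (d - 2) := by
      calc Real.sqrt K = Real.sqrt K ^ 1 := (pow_one _).symm
        _ ≤ _ := pow_le_pow_right₀ hs1 (by omega)
    have hs0 : 0 < Real.sqrt K := by linarith
    calc (2 + 2 * Real.sqrt (2 * d)) ^ d / Real.sqrt K ^ (d - 2) * N1 f ^ 2 ≤
        (2 + 2 * Real.sqrt (2 * d)) ^ d / Real.sqrt K * Λ ^ 2 := by gcongr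
      _ = _ := by ring
  have hN20 := N2_nonneg g
  rw [← hg, h4]
  obtain ⟨S, hS⟩ : ∃ S : ℝ, S = Real.sqrt (Real.sqrt K) := ⟨_, rfl⟩
  have hS0 : 0 < S := by rw [hS]; exact Real.sqrt_pos.2 (Real.sqrt_pos.2 hK0)
  have hS2 : S ^ 2 = Real.sqrt K := by rw [hS]; exact Real.sq_sqrt (Real.sqrt_nonneg _)
  rw [← hS2] at hN2
  rw [← hS]
  obtain ⟨c2, hc2⟩ : ∃ c2 : ℝ, c2 = (2 + 2 * Real.sqrt (2 * d)) ^ d := ⟨_, rfl⟩
  have hc20 : 0 ≤ c2 := by rw [hc2]; positivity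
  rw [← hc2] at hN2 hD
  have hd0 : (0 : ℝ) ≤ d := Nat.cast_nonneg _
  have e1 : b ^ 4 * EX μ L (b ^ 4) (fun U : Ed d (2 * m) → G => Fs L g U ^ 2) ≤
      n * d ^ 2 / 4 * (8 * n) * (4 * (K * N2 g) + Λ ^ 2 * (16 * (8 * d * K + 1) ^ 4) * K *
        (b ^ 8 * E4 / b ^ 4)) := by
    refine (mul_le_mul_of_nonneg_left h3 (by positivity)).trans ?_
    have e2 : b ^ 4 * (n * d ^ 2 / 4 * (M * n) * (4 / b ^ 4 * N2 g + N1 g ^ 2 *
        (16 * (d * M + 1) ^ 4) * E4)) = n * d ^ 2 / 4 * (M * n) * (4 * N2 g + N1 g ^ 2 *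
        (16 * (d * M + 1) ^ 4) * (b ^ 8 * E4 / b ^ 4)) := by field_simp
    rw [e2]
    have e3 : (d : ℝ) * M + 1 ≤ 8 * d * K + 1 := by
      have := mul_le_mul_of_nonneg_left hM8 hd0
      linarith
    have e4 : N1 g ^ 2 ≤ Λ ^ 2 := pow_le_pow_left₀ hN10 hN1 2
    have e5 : 0 ≤ b ^ 8 * E4 / b ^ 4 := by positivity
    calc n * d ^ 2 / 4 * (M * n) * (4 * N2 g + N1 g ^ 2 * (16 * (d * M + 1) ^ 4) *
          (b ^ 8 * E4 / b ^ 4)) ≤ n * d ^ 2 / 4 * (8 * K * n) * (4 * N2 g + Λ ^ 2 *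
          (16 * (8 * d * K + 1) ^ 4) * (b ^ 8 * E4 / b ^ 4)) := by gcongr
      _ = _ := by ring
  refine e1.trans ?_
  have e2 : b ^ 8 * E4 / b ^ 4 ≤ C1 * (8 ^ d * d ^ 2) ^ 4 * (K : ℝ) ^ (4 * d) * c / b ^ 4 := by
    refine div_le_div_of_nonneg_right (h5.trans ?_) (by positivity)
    have : (M : ℝ) ^ d * d ^ 2 ≤ (8 ^ d * d ^ 2) * K ^ d := by
      calc (M : ℝ) ^ d * d ^ 2 ≤ (8 * K) ^ d * d ^ 2 := by gcongr
        _ = _ := by rw [mul_pow]; ring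
    calc C1 * ((M : ℝ) ^ d * d ^ 2) ^ 4 * c ≤ C1 * ((8 ^ d * d ^ 2) * K ^ d) ^ 4 * c := by gcongr
      _ = _ := by rw [mul_pow, ← pow_mul, mul_comm d 4]; ring
  have e3 : (8 * (d : ℝ) * K + 1) ^ 4 ≤ (8 * d + 1) ^ 4 * K ^ 4 := by
    rw [← mul_pow]
    refine pow_le_pow_left₀ (by positivity) ?_ 4
    have : (8 * (d : ℝ) + 1) * K = 8 * d * K + K := by ring
    linarith
  have e4 : Λ ^ 2 * (16 * (8 * (d : ℝ) * K + 1) ^ 4) * K * (b ^ 8 * E4 / b ^ 4) ≤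
      16 * (8 * d + 1) ^ 4 * (C1 * (8 ^ d * d ^ 2) ^ 4) *
        (c * Λ ^ 2 * ((K : ℝ) ^ (2 * d + 3) / b ^ 2) ^ 2) := by
    calc Λ ^ 2 * (16 * (8 * (d : ℝ) * K + 1) ^ 4) * K * (b ^ 8 * E4 / b ^ 4) ≤
        Λ ^ 2 * (16 * ((8 * d + 1) ^ 4 * K ^ 4)) * K *
          (C1 * (8 ^ d * d ^ 2) ^ 4 * (K : ℝ) ^ (4 * d) * c / b ^ 4) := by gcongr
      _ = 16 * (8 * d + 1) ^ 4 * (C1 * (8 ^ d * d ^ 2) ^ 4) *
          (c * Λ ^ 2 * ((K : ℝ) ^ (4 * d + 5) / b ^ 4)) := by rw [pow_add (K : ℝ) (4 * d) 5]; ring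
      _ ≤ 16 * (8 * d + 1) ^ 4 * (C1 * (8 ^ d * d ^ 2) ^ 4) *
          (c * Λ ^ 2 * ((K : ℝ) ^ (4 * d + 6) / b ^ 4)) := by
          have : (K : ℝ) ^ (4 * d + 5) ≤ (K : ℝ) ^ (4 * d + 6) :=
            pow_le_pow_right₀ hK1 (by omega)
          gcongr
      _ = _ := by
          have : ((K : ℝ) ^ (2 * d + 3) / b ^ 2) ^ 2 = (K : ℝ) ^ (4 * d + 6) / b ^ 4 := by
            rw [div_pow, ← pow_mul, ← pow_mul]; congr 2; ring
          rw [this]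
  obtain ⟨X, hX⟩ : ∃ X : ℝ, X = 1 / S := ⟨_, rfl⟩
  obtain ⟨Y, hY⟩ : ∃ Y : ℝ, Y = (K : ℝ) ^ (2 * d + 3) / b ^ 2 := ⟨_, rfl⟩
  have hX0 : 0 ≤ X := by rw [hX]; positivity
  have hY0 : 0 ≤ Y := by rw [hY]; positivity
  have e5 : 4 * ((K : ℝ) * N2 g) ≤ 4 * c2 * (c * Λ ^ 2 * X ^ 2) := by
    have f1 : c2 * Λ ^ 2 / S ^ 2 = c2 * (Λ ^ 2 * X ^ 2) := by rw [hX]; field_simp
    rw [f1] at hN2
    have f2 : c2 * (Λ ^ 2 * X ^ 2) ≤ c2 * (c * (Λ ^ 2 * X ^ 2)) := by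
      exact mul_le_mul_of_nonneg_left (le_mul_of_one_le_left (by positivity) hc) hc20
    calc 4 * ((K : ℝ) * N2 g) ≤ 4 * (c2 * (c * (Λ ^ 2 * X ^ 2))) := by linarith
      _ = _ := by ring
  rw [← hX, ← hY]
  rw [← hY] at e4
  obtain ⟨c3, hc3⟩ : ∃ c3 : ℝ, c3 = 16 * (8 * (d : ℝ) + 1) ^ 4 * (C1 * (8 ^ d * d ^ 2) ^ 4) :=
    ⟨_, rfl⟩
  have hc30 : 0 ≤ c3 := by rw [hc3]; positivity
  rw [← hc3] at e4 hD
  obtain ⟨n2, hn2⟩ : ∃ n2 : ℝ, n2 = (n : ℝ) * d ^ 2 / 4 * (8 * n) := ⟨_, rfl⟩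
  have hn20 : 0 ≤ n2 := by rw [hn2]; positivity
  rw [← hn2] at hD ⊢
  obtain ⟨c', hc'⟩ : ∃ c' : ℝ, c' = c * Λ ^ 2 := ⟨_, rfl⟩
  have hc'0 : 0 ≤ c' := by rw [hc']; positivity
  rw [← hc'] at e4 e5
  have e6 : n2 * (4 * ((K : ℝ) * N2 g) + Λ ^ 2 * (16 * (8 * d * K + 1) ^ 4) * K *
      (b ^ 8 * E4 / b ^ 4)) ≤ n2 * (4 * c2 * (c' * X ^ 2) + c3 * (c' * Y ^ 2)) :=
    mul_le_mul_of_nonneg_left (add_le_add e5 e4) hn20
  refine e6.trans ?_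
  have e7 : n2 * (4 * c2 * (c' * X ^ 2) + c3 * (c' * Y ^ 2)) ≤ D * (c' * (X + Y) ^ 2) := by
    rw [hD]
    have f1 : c' * X ^ 2 ≤ c' * (X + Y) ^ 2 :=
      mul_le_mul_of_nonneg_left (pow_le_pow_left₀ hX0 (le_add_of_nonneg_right hY0) 2) hc'0
    have f2 : c' * Y ^ 2 ≤ c' * (X + Y) ^ 2 :=
      mul_le_mul_of_nonneg_left (pow_le_pow_left₀ hY0 (le_add_of_nonneg_left hX0) 2) hc'0
    calc n2 * (4 * c2 * (c' * X ^ 2) + c3 * (c' * Y ^ 2)) ≤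
        n2 * (4 * c2 * (c' * (X + Y) ^ 2) + c3 * (c' * (X + Y) ^ 2)) := by gcongr
      _ = _ := by ring
  have e8 : 0 ≤ c' * (X + Y) ^ 2 := by positivity
  have e9 : (D + 1) * c * Λ ^ 2 * (X + Y) ^ 2 = D * (c' * (X + Y) ^ 2) + c' * (X + Y) ^ 2 := by
    rw [hc']; ring
  rw [e9]
  exact e7.trans (le_add_of_nonneg_right e8)

/-- the pointwise part of the step -/
lemma point_gen {d m K : ℕ} [NeZero m] (hd : 0 < d) (hK : 1 ≤ K) (hKm : 3 * K + 5 < 2 * m)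
    {b : ℝ} (hb : 0 < b) {Λ : ℝ} (hΛ : 1 ≤ Λ) {ι : Type} [DecidableEq ι] (S : Finset ι)
    (f : Fin n → Fm d (2 * m)) (p : ι → Fin n → Fm d (2 * m)) (h0 : Ok K Λ f)
    (hp : ∀ s ∈ S, Ok K Λ (p s)) (U : Ed d (2 * m) → G) :
    b ^ 2 * |(VA L (AK K f) (aS0 L d (2 * m))).1 U +
        Fs L (fun a => d1 (AK K f a)) U| * |∏ s ∈ S, Ph L b (p s) U| +
      ∑ t ∈ S, |(VA L (AK K f) (FsS L (p t))).1 U + Cf K f (p t)| *
        |∏ s ∈ S.erase t, Ph L b (p s) U| +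
      b ^ 2 * |Fs L (fun a => cx (uKs K f a)) U| * |∏ s ∈ S, Ph L b (p s) U| ≤
    (32 * d ^ 2 + S.card * (4 * n * d * (8 * d + 1)) + 3 * (2 + 8 * d) * (8 * d) ^ 2) *
      Λ ^ (S.card + 1) * ((K : ℝ) ^ 3 / b ^ 2) *
      (1 + (b ^ 2 * sB L (3 * K + 5) U) ^ (S.card + 2)) := by
  obtain ⟨M, hM⟩ : ∃ M, M = 3 * K + 5 := ⟨_, rfl⟩
  rw [← hM]
  have hΛ0 : 0 < Λ := by linarith
  have hMl : M < 2 * m := by omega
  have hK1 : (1 : ℝ) ≤ K := by exact_mod_cast hK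
  have hK0 : (0 : ℝ) < K := by linarith
  have hM8 : (M : ℝ) ≤ 8 * K := by rw [hM]; push_cast; linarith
  have hM0 : (0 : ℝ) ≤ M := Nat.cast_nonneg _
  have hd0 : (0 : ℝ) ≤ d := Nat.cast_nonneg _
  have hn0 : (0 : ℝ) ≤ n := Nat.cast_nonneg _
  have hdM : (d : ℝ) * M ≤ 8 * d * K := by
    have := mul_le_mul_of_nonneg_left hM8 hd0
    linarith
  obtain ⟨k, hk⟩ : ∃ k, k = S.card := ⟨_, rfl⟩
  obtain ⟨w, hw⟩ : ∃ w, w = b ^ 2 * sB L M U := ⟨_, rfl⟩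
  have hs := sB_nonneg (L := L) M U
  have hw0 : 0 ≤ w := by rw [hw]; positivity
  have hww : sB L M U = w / b ^ 2 := by rw [hw]; field_simp
  -- supports
  have sU : ∀ a j k, SW 2 (3 * K + 2) (uKs K f a j k) := fun a j k =>
    ((h0.sup a j k).uK (k := K) (by omega) (by omega)).mono (by omega) (by omega)
  have sA : ∀ a k, SW 2 (3 * K + 3) (AK K f a k) := fun a k => SW.ds2 (sU a) (by omega) k
  have sC : ∀ a j k, SW 1 (3 * K + 3) (cx (uKs K f a) j k) := fun a j k =>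
    SW.cx (sU a) (by omega) (by omega) j k
  have hAB : ∀ α ι, AB M (AK K f α ι) := fun α ι x hx i => by
    have := sA α ι x hx i; omega
  have hpM : ∀ s ∈ S, ∀ a j k x, p s a j k x ≠ 0 → ∀ i, wv x i < M := fun s hs a j k x hx i => by
    have := (hp s hs).sup a j k x hx i; omega
  have hpN : ∀ s ∈ S, N1 (p s) ≤ Λ := fun s hs => (hp s hs).nrm
  have hN := h0.nrm
  have hN0 := N1_nonneg f
  have hS1 : S1 (AK K f) ≤ 2 * K * Λ := by
    refine (S1_AK hd K f).trans ?_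
    have := mul_le_mul_of_nonneg_left hN hK0.le
    linarith
  have hS10 := S1_nonneg (AK K f)
  have hprod := Php_sB (L := L) b hpN hpM U
  rw [← hw, ← hk, mul_pow] at hprod
  obtain ⟨P, hP⟩ : ∃ P, P = |∏ s ∈ S, Ph L b (p s) U| := ⟨_, rfl⟩
  rw [← hP] at hprod ⊢
  have hP0 : 0 ≤ P := by rw [hP]; exact abs_nonneg _
  obtain ⟨R, hR⟩ : ∃ R : ℝ, R = 1 + w ^ (k + 2) := ⟨_, rfl⟩
  have hPw : P * w ^ 2 ≤ Λ ^ k * R := by
    calc P * w ^ 2 ≤ Λ ^ k * w ^ k * w ^ 2 := mul_le_mul_of_nonneg_right hprod (by positivity)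
      _ = Λ ^ k * w ^ (k + 2) := by rw [pow_add]; ring
      _ ≤ _ := by
          refine mul_le_mul_of_nonneg_left ?_ (by positivity)
          rw [hR]; linarith
  have hR0 : 0 ≤ R := by rw [hR]; positivity
  have hKb : 0 ≤ (K : ℝ) ^ 3 / b ^ 2 := by positivity
  rw [← hw, ← hk, ← hR]
  have hΛk : Λ * Λ ^ k = Λ ^ (k + 1) := by rw [pow_succ]; ring
  -- first term
  have t1 : b ^ 2 * |(VA L (AK K f) (aS0 L d (2 * m))).1 U +
        Fs L (fun a => d1 (AK K f a)) U| * P ≤ 32 * d ^ 2 * Λ ^ (k + 1) * ((K : ℝ) ^ 3 / b ^ 2) *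
          R := by
    have e1 := VA_act (L := L) hAB hMl U
    have e2 : (∑ α, ∑ ι, ∑ x, |AK K f α ι x|) = S1 (AK K f) := rfl
    rw [e2] at e1
    have e3 : |(VA L (AK K f) (aS0 L d (2 * m))).1 U +
        Fs L (fun a => d1 (AK K f a)) U| ≤ 32 * d ^ 2 * K ^ 2 * Λ * (w / b ^ 2) ^ 2 := by
      refine e1.trans ?_
      rw [hww]
      refine mul_le_mul_of_nonneg_right ?_ (sq_nonneg _)
      calc S1 (AK K f) * (2 * d * (d * M)) ≤ 2 * K * Λ * (2 * d * (8 * d * K)) := by gcongr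
        _ = _ := by ring
    calc b ^ 2 * |(VA L (AK K f) (aS0 L d (2 * m))).1 U +
        Fs L (fun a => d1 (AK K f a)) U| * P ≤
        b ^ 2 * (32 * d ^ 2 * K ^ 2 * Λ * (w / b ^ 2) ^ 2) * P := by gcongr
      _ = 32 * d ^ 2 * Λ * (K ^ 2 / b ^ 2) * (P * w ^ 2) := by field_simp
      _ ≤ 32 * d ^ 2 * Λ * (K ^ 3 / b ^ 2) * (Λ ^ k * R) := by
          have : (K : ℝ) ^ 2 ≤ K ^ 3 := pow_le_pow_right₀ hK1 (by norm_num)
          gcongr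
      _ = _ := by rw [← hΛk]; ring
  -- second term
  have t2 : ∑ t ∈ S, |(VA L (AK K f) (FsS L (p t))).1 U + Cf K f (p t)| *
        |∏ s ∈ S.erase t, Ph L b (p s) U| ≤
      k * (4 * n * d * (8 * d + 1)) * Λ ^ (k + 1) * ((K : ℝ) ^ 3 / b ^ 2) * R := by
    have e1 : ∀ t ∈ S, |(VA L (AK K f) (FsS L (p t))).1 U + Cf K f (p t)| *
        |∏ s ∈ S.erase t, Ph L b (p s) U| ≤
        4 * n * d * (8 * d + 1) * Λ ^ (k + 1) * ((K : ℝ) ^ 3 / b ^ 2) * R := by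
      intro t ht
      have f1 := VA_Fs (L := L) hAB hMl hS10 (le_S1 (AK K f)) (fun a => (hp t ht).asy a)
        (fun a j k x hx i => by
          have := (hp t ht).sup a j k x hx i
          omega) U
      have f2 : |(VA L (AK K f) (FsS L (p t))).1 U + Cf K f (p t)| ≤
          4 * n * d * (8 * d + 1) * Λ ^ 2 * K ^ 2 * (w / b ^ 2) := by
        refine f1.trans ?_
        rw [hww]
        refine mul_le_mul_of_nonneg_right ?_ (by positivity)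
        have f3 := (hp t ht).nrm
        have f4 := N1_nonneg (p t)
        have f5 : (d : ℝ) * M + 1 ≤ (8 * d + 1) * K := by
          have : (8 * (d : ℝ) + 1) * K = 8 * d * K + K := by ring
          linarith
        calc N1 (p t) * (2 * n * d * (S1 (AK K f) * (d * M + 1))) ≤
            Λ * (2 * n * d * (2 * K * Λ * ((8 * d + 1) * K))) := by gcongr
          _ = _ := by ring
      have f3 := Php_sB (L := L) b (S := S.erase t) (p := p) (M := M) (Λ := Λ)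
        (fun s hs => hpN s (Finset.mem_of_mem_erase hs))
        (fun s hs => hpM s (Finset.mem_of_mem_erase hs)) U
      rw [← hw, Finset.card_erase_of_mem ht, ← hk, mul_pow] at f3
      have hk1 : 1 ≤ k := by rw [hk]; exact Finset.card_pos.2 ⟨t, ht⟩
      have f4 : |∏ s ∈ S.erase t, Ph L b (p s) U| * w ≤ Λ ^ (k - 1) * R := by
        calc |∏ s ∈ S.erase t, Ph L b (p s) U| * w ≤ Λ ^ (k - 1) * w ^ (k - 1) * w :=
              mul_le_mul_of_nonneg_right f3 hw0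
          _ = Λ ^ (k - 1) * w ^ k := by rw [mul_assoc, ← pow_succ]; congr 2; omega
          _ ≤ Λ ^ (k - 1) * R := by
              refine mul_le_mul_of_nonneg_left ?_ (by positivity)
              rw [hR]
              rcases le_total w 1 with h | h
              · have := pow_le_one₀ (n := k) hw0 h
                have : 0 ≤ w ^ (k + 2) := by positivity
                linarith
              · have := pow_le_pow_right₀ h (show k ≤ k + 2 by omega)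
                linarith
      have f5 := abs_nonneg (∏ s ∈ S.erase t, Ph L b (p s) U)
      have hΛ2 : Λ ^ 2 * Λ ^ (k - 1) = Λ ^ (k + 1) := by rw [← pow_add]; congr 1; omega
      calc |(VA L (AK K f) (FsS L (p t))).1 U + Cf K f (p t)| *
          |∏ s ∈ S.erase t, Ph L b (p s) U| ≤
          4 * n * d * (8 * d + 1) * Λ ^ 2 * K ^ 2 * (w / b ^ 2) *
            |∏ s ∈ S.erase t, Ph L b (p s) U| := mul_le_mul_of_nonneg_right f2 f5
        _ = 4 * n * d * (8 * d + 1) * Λ ^ 2 * (K ^ 2 / b ^ 2) *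
            (|∏ s ∈ S.erase t, Ph L b (p s) U| * w) := by ring
        _ ≤ 4 * n * d * (8 * d + 1) * Λ ^ 2 * (K ^ 3 / b ^ 2) * (Λ ^ (k - 1) * R) := by
            have : (K : ℝ) ^ 2 ≤ K ^ 3 := pow_le_pow_right₀ hK1 (by norm_num)
            gcongr
        _ = _ := by rw [← hΛ2]; ring
    refine (Finset.sum_le_sum e1).trans (le_of_eq ?_)
    rw [Finset.sum_const, nsmul_eq_mul, hk]; ring
  -- third term
  have t3 : b ^ 2 * |Fs L (fun a => cx (uKs K f a)) U| * P ≤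
      3 * (2 + 8 * d) * (8 * d) ^ 2 * Λ ^ (k + 1) * ((K : ℝ) ^ 3 / b ^ 2) * R := by
    have e3 := Fs_cx (L := L) (M := M) (uKs_asy (K := K) h0.asy) (fun a j k x hx i => by
        have := sC a j k x hx i; omega) hMl U
    have e4 : N1 (fun a => cx (uKs K f a)) ≤ (2 + 8 * d) * K * Λ := by
      have e5 := N1_cx hd K f
      have e6 : (2 + 8 * (d : ℝ) * K) ≤ (2 + 8 * d) * K := by
        have : (2 + 8 * (d : ℝ)) * K = 2 * K + 8 * d * K := by ring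
        linarith
      calc _ ≤ _ := e5
        _ ≤ ((2 + 8 * d) * K) * Λ := mul_le_mul e6 hN hN0 (by positivity)
    have e5 : |Fs L (fun a => cx (uKs K f a)) U| ≤
        3 * (2 + 8 * d) * (8 * d) ^ 2 * Λ * K ^ 3 * (w / b ^ 2) ^ 2 := by
      refine e3.trans ?_
      rw [hww]
      calc N1 (fun a => cx (uKs K f a)) * (3 * (d * M * (w / b ^ 2)) ^ 2) ≤
          (2 + 8 * d) * K * Λ * (3 * (8 * d * K * (w / b ^ 2)) ^ 2) := by
            have : 0 ≤ N1 (fun a => cx (uKs K f a)) := N1_nonneg _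
            gcongr
        _ = _ := by ring
    calc b ^ 2 * |Fs L (fun a => cx (uKs K f a)) U| * P ≤
        b ^ 2 * (3 * (2 + 8 * d) * (8 * d) ^ 2 * Λ * K ^ 3 * (w / b ^ 2) ^ 2) * P := by gcongr
      _ = 3 * (2 + 8 * d) * (8 * d) ^ 2 * Λ * (K ^ 3 / b ^ 2) * (P * w ^ 2) := by field_simp
      _ ≤ 3 * (2 + 8 * d) * (8 * d) ^ 2 * Λ * (K ^ 3 / b ^ 2) * (Λ ^ k * R) := by gcongr
      _ = _ := by rw [← hΛk]; ring
  have e : (32 * (d : ℝ) ^ 2 + k * (4 * n * d * (8 * d + 1)) + 3 * (2 + 8 * d) * (8 * d) ^ 2) *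
      Λ ^ (k + 1) * ((K : ℝ) ^ 3 / b ^ 2) * R = 32 * d ^ 2 * Λ ^ (k + 1) * ((K : ℝ) ^ 3 / b ^ 2) * R +
      k * (4 * n * d * (8 * d + 1)) * Λ ^ (k + 1) * ((K : ℝ) ^ 3 / b ^ 2) * R +
      3 * (2 + 8 * d) * (8 * d) ^ 2 * Λ ^ (k + 1) * ((K : ℝ) ^ 3 / b ^ 2) * R := by ring
  rw [e]
  exact add_le_add (add_le_add t1 t2) t3

end

end Pool.Agent.T2h94
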