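import Mathlib
import Pool.Agent.T2h94.W2

/-!
# Generic legs: one step of the recursion, and the moments are nearly Gaussian
-/

open MeasureTheory Matrix
open scoped Matrix.Norms.Frobenius ContDiff
open Pool.Agent.H906R3.YM Pool.Agent.W793.YM

namespace Pool.Agent.T2h94

set_option linter.unusedSectionVars false
set_option linter.unusedVariables false

noncomputable section

variable {G : Type*} [Group G] [TopologicalSpace G] [IsTopologicalGroup G] [CompactSpace G]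
  [SecondCountableTopology G] [MeasurableSpace G] [BorelSpace G] (μ : Measure G)
  [IsProbabilityMeasure μ] [μ.IsMulLeftInvariant] [μ.IsMulRightInvariant] [μ.IsInvInvariant]
  {N n : ℕ} {L : LD G N n}

/-- integration by parts for a product -/
lemma ibp_gen {d l : ℕ} [NeZero l] {b : ℝ} (hb : 0 < b) {ι : Type} [DecidableEq ι] (S : Finset ι)
    (p : ι → Fin n → Fm d l) (A : Fin n → Fin d → St d l → ℝ) :
    b ^ 2 * EX μ L (b ^ 4) (fun U : Ed d l → G =>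
      (∏ s ∈ S, Ph L b (p s) U) * (VA L A (aS0 L d l)).1 U) =
    ∑ t ∈ S, EX μ L (b ^ 4) (fun U : Ed d l → G =>
      (∏ s ∈ S.erase t, Ph L b (p s) U) * (VA L A (FsS L (p t))).1 U) := by
  have h1 := EX_SD μ (A := A) (b ^ 4) (∏ s ∈ S, PhM L b (p s))
  have h2 : (VA L A (∏ s ∈ S, PhM L b (p s))).1 = fun U : Ed d l → G =>
      ∑ t ∈ S, b ^ 2 * ((∏ s ∈ S.erase t, Ph L b (p s) U) *
        (VA L A (FsS L (p t))).1 U) := by
    funext U
    rw [deriv_prod]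
    have h3 : (∑ t ∈ S, (∏ s ∈ S.erase t, PhM L b (p s)) * VA L A (PhM L b (p t))).1 U =
        L.ev U (∑ t ∈ S, (∏ s ∈ S.erase t, PhM L b (p s)) * VA L A (PhM L b (p t))) := rfl
    rw [h3, map_sum]
    refine Finset.sum_congr rfl fun t _ => ?_
    rw [map_mul]
    have h4 : L.ev U (∏ s ∈ S.erase t, PhM L b (p s)) = ∏ s ∈ S.erase t, Ph L b (p s) U :=
      Php_apply b _ p U
    have h5 : L.ev U (VA L A (PhM L b (p t))) = b ^ 2 * (VA L A (FsS L (p t))).1 U := by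
      unfold PhM
      rw [Derivation.map_smul, map_smul]; rfl
    rw [h4, h5]; ring
  rw [h2] at h1
  have hc : ∀ t, Continuous fun U : Ed d l → G => b ^ 2 * ((∏ s ∈ S.erase t, Ph L b (p s) U) *
        (VA L A (FsS L (p t))).1 U) := fun t =>
    continuous_const.mul ((Php_cont b _ p).mul (Sm_cont _))
  rw [EX_sum μ S (F := fun t U => b ^ 2 * ((∏ s ∈ S.erase t, Ph L b (p s) U) *
        (VA L A (FsS L (p t))).1 U)) fun t _ => hc t] at h1
  simp only [EX_smul, ← Finset.mul_sum, Php_apply] at h1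
  have hb2 : (0 : ℝ) < b ^ 2 := by positivity
  refine mul_left_cancel₀ hb2.ne' ?_
  rw [h1]; ring

/-- one step of the recursion -/
theorem step_gen {d : ℕ} (hd : 3 ≤ d) (k q : ℕ) : ∃ C : ℝ, 0 < C ∧ ∀ c : ℝ, 1 ≤ c →
    ∀ (m K : ℕ) [NeZero m], 1 ≤ K → 3 * K + 5 < 2 * m → ∀ Λ : ℝ, 1 ≤ Λ →
    ∀ (ι : Type) [DecidableEq ι] (S : Finset ι), S.card = k →
      ∀ (f : Fin n → Fm d (2 * m)) (p : ι → Fin n → Fm d (2 * m)),
      Ok K Λ f → (∀ s ∈ S, Ok K Λ (p s)) →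
      |EX μ L ((c ^ q) ^ 4) (fun U : Ed d (2 * m) → G =>
          Ph L (c ^ q) f U * ∏ s ∈ S, Ph L (c ^ q) (p s) U) -
        ∑ t ∈ S, Cf K f (p t) * EX μ L ((c ^ q) ^ 4) (fun U : Ed d (2 * m) → G =>
          ∏ s ∈ S.erase t, Ph L (c ^ q) (p s) U)| ≤
        C * c * Λ ^ (k + 1) *
          (1 / Real.sqrt (Real.sqrt K) + (K : ℝ) ^ (d * (k + 2) + 3) / (c ^ q) ^ 2) := by
  obtain ⟨C1, hC1, hsB⟩ := sB_all μ (L := L) (k + 1) q
  obtain ⟨C2, hC2, hpr⟩ := Php_moment μ (L := L) k q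
  obtain ⟨C3, hC3, hre⟩ := rest_gen μ (L := L) hd q
  obtain ⟨D, hD⟩ : ∃ D : ℝ, D = 32 * (d : ℝ) ^ 2 + k * (4 * n * d * (8 * d + 1)) +
    3 * (2 + 8 * d) * (8 * d) ^ 2 := ⟨_, rfl⟩
  have hD0 : 0 ≤ D := by rw [hD]; positivity
  refine ⟨D * (1 + C1 * (8 ^ d * d ^ 2) ^ (k + 2)) + (C2 + C3), by positivity,
    fun c hc m K _ hK hKm Λ hΛ ι _ S hS f p h0 hp => ?_⟩
  have hc0 : 0 < c := by linarith
  have hΛ0 : 0 < Λ := by linarith
  obtain ⟨b, hb⟩ : ∃ b, b = c ^ q := ⟨_, rfl⟩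
  have hb1 : 1 ≤ b := by rw [hb]; exact one_le_pow₀ hc
  have hb0 : 0 < b := by linarith
  have hm : 2 ≤ m := by omega
  have hK1 : (1 : ℝ) ≤ K := by exact_mod_cast hK
  have hK0 : (0 : ℝ) < K := by linarith
  have hsB' := hsB c hc d m hm (3 * K + 5)
  have hpr' := hpr c hc d m hm Λ hΛ ι S hS p fun s hs => (hp s hs).nrm
  have hre' := hre c hc m K hK hKm Λ hΛ f h0
  rw [← hb] at hsB' hpr' hre' ⊢
  obtain ⟨A, hA⟩ : ∃ A, A = AK K f := ⟨_, rfl⟩
  obtain ⟨V, hV⟩ : ∃ V, V = VA L A (aS0 L d (2 * m)) := ⟨_, rfl⟩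
  obtain ⟨W, hW⟩ : ∃ W : ι → Sm L (Ed d (2 * m)), W = fun t => VA L A (FsS L (p t)) :=
    ⟨_, rfl⟩
  have hVc : Continuous V.1 := Sm_cont V
  have hWc : ∀ t, Continuous (W t).1 := fun t => Sm_cont _
  have cP : ∀ S : Finset ι, Continuous fun U : Ed d (2 * m) → G =>
      ∏ s ∈ S, Ph L b (p s) U := fun S => Php_cont b S p
  have cF : ∀ f : Fin n → Fm d (2 * m), Continuous fun U : Ed d (2 * m) → G => Fs L f U :=
    fun f => Fs_cont f
  -- the integration by parts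
  have hib := ibp_gen μ (L := L) hb0 S p A
  rw [← hV] at hib
  have hib' : b ^ 2 * EX μ L (b ^ 4) (fun U : Ed d (2 * m) → G =>
      (∏ s ∈ S, Ph L b (p s) U) * V.1 U) = ∑ t ∈ S, EX μ L (b ^ 4) (fun U : Ed d (2 * m) → G =>
      (∏ s ∈ S.erase t, Ph L b (p s) U) * (W t).1 U) := by rw [hib, hW]
  -- the decomposition
  obtain ⟨R, hR⟩ : ∃ R : (Ed d (2 * m) → G) → ℝ, R = fun U =>
    b ^ 2 * ((V.1 U + Fs L (fun a => d1 (A a)) U) * ∏ s ∈ S, Ph L b (p s) U) -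
      ∑ t ∈ S, (((W t).1 U + Cf K f (p t)) * ∏ s ∈ S.erase t, Ph L b (p s) U) +
      b ^ 2 * (Fs L (fun a => cx (uKs K f a)) U * ∏ s ∈ S, Ph L b (p s) U) := ⟨_, rfl⟩
  have cT : ∀ t, Continuous fun U : Ed d (2 * m) → G =>
      ((W t).1 U + Cf K f (p t)) * ∏ s ∈ S.erase t, Ph L b (p s) U := fun t =>
    ((hWc t).add continuous_const).mul (cP _)
  have cR : Continuous R := by
    rw [hR]
    exact ((continuous_const.mul ((hVc.add (cF _)).mul (cP _))).sub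
      (continuous_finsetSum _ fun t _ => cT t)).add (continuous_const.mul ((cF _).mul (cP _)))
  have hdec : ∀ U : Ed d (2 * m) → G, Ph L b f U = b ^ 2 * Fs L (Pks K f) U +
      b ^ 2 * Fs L (fun a => d1 (A a)) U + b ^ 2 * Fs L (fun a => cx (uKs K f a)) U := by
    intro U
    have e1 : Fs L f U = Fs L (Pks K f) U + Fs L (fun a => d1 (A a)) U +
        Fs L (fun a => cx (uKs K f a)) U := by
      conv_lhs => rw [dec K f]
      rw [Fs_add, Fs_add, hA]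
    unfold Ph
    rw [e1]; ring
  have hmain : EX μ L (b ^ 4) (fun U : Ed d (2 * m) → G =>
          Ph L b f U * ∏ s ∈ S, Ph L b (p s) U) -
        ∑ t ∈ S, Cf K f (p t) * EX μ L (b ^ 4) (fun U : Ed d (2 * m) → G =>
          ∏ s ∈ S.erase t, Ph L b (p s) U) = EX μ L (b ^ 4) R +
        EX μ L (b ^ 4) (fun U : Ed d (2 * m) → G => (b ^ 2 * Fs L (Pks K f) U) *
          ∏ s ∈ S, Ph L b (p s) U) := by
    have e1 : (fun U : Ed d (2 * m) → G => Ph L b f U * ∏ s ∈ S, Ph L b (p s) U) =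
        fun U => (R U + ((b ^ 2 * Fs L (Pks K f) U) * ∏ s ∈ S, Ph L b (p s) U)) +
          (∑ t ∈ S, ((∏ s ∈ S.erase t, Ph L b (p s) U) * (W t).1 U +
            Cf K f (p t) * ∏ s ∈ S.erase t, Ph L b (p s) U) -
            b ^ 2 * ((∏ s ∈ S, Ph L b (p s) U) * V.1 U)) := by
      funext U
      rw [hdec, hR]
      have e2 : ∑ t ∈ S, ((∏ s ∈ S.erase t, Ph L b (p s) U) * (W t).1 U +
            Cf K f (p t) * ∏ s ∈ S.erase t, Ph L b (p s) U) =
          ∑ t ∈ S, (((W t).1 U + Cf K f (p t)) * ∏ s ∈ S.erase t, Ph L b (p s) U) :=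
        Finset.sum_congr rfl fun t _ => by ring
      rw [e2]; ring
    have c1 : Continuous fun U : Ed d (2 * m) → G =>
        (b ^ 2 * Fs L (Pks K f) U) * ∏ s ∈ S, Ph L b (p s) U :=
      (continuous_const.mul (cF _)).mul (cP _)
    have c2 : ∀ t, Continuous fun U : Ed d (2 * m) → G =>
        (∏ s ∈ S.erase t, Ph L b (p s) U) * (W t).1 U := fun t => (cP _).mul (hWc t)
    have c3 : ∀ t, Continuous fun U : Ed d (2 * m) → G =>
        Cf K f (p t) * ∏ s ∈ S.erase t, Ph L b (p s) U := fun t => continuous_const.mul (cP _)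
    have c4 : Continuous fun U : Ed d (2 * m) → G =>
        b ^ 2 * ((∏ s ∈ S, Ph L b (p s) U) * V.1 U) := continuous_const.mul ((cP _).mul hVc)
    have c5 : Continuous fun U : Ed d (2 * m) → G =>
        ∑ t ∈ S, ((∏ s ∈ S.erase t, Ph L b (p s) U) * (W t).1 U +
            Cf K f (p t) * ∏ s ∈ S.erase t, Ph L b (p s) U) :=
      continuous_finsetSum _ fun t _ => (c2 t).add (c3 t)
    have c6 : Continuous fun U : Ed d (2 * m) → G =>
        ∑ t ∈ S, ((∏ s ∈ S.erase t, Ph L b (p s) U) * (W t).1 U +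
            Cf K f (p t) * ∏ s ∈ S.erase t, Ph L b (p s) U) -
            b ^ 2 * ((∏ s ∈ S, Ph L b (p s) U) * V.1 U) := c5.sub c4
    have c7 : Continuous fun U : Ed d (2 * m) → G => R U + (b ^ 2 * Fs L (Pks K f) U) *
      ∏ s ∈ S, Ph L b (p s) U := cR.add c1
    rw [e1, EX_add μ c7 c6, EX_add μ cR c1, EX_sub μ c5 c4,
      EX_sum μ S (F := fun t U => (∏ s ∈ S.erase t, Ph L b (p s) U) * (W t).1 U +
            Cf K f (p t) * ∏ s ∈ S.erase t, Ph L b (p s) U) (fun t _ => (c2 t).add (c3 t)),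
      EX_smul, hib']
    have e3 : ∀ t, EX μ L (b ^ 4) (fun U : Ed d (2 * m) → G =>
        (∏ s ∈ S.erase t, Ph L b (p s) U) * (W t).1 U +
            Cf K f (p t) * ∏ s ∈ S.erase t, Ph L b (p s) U) =
        EX μ L (b ^ 4) (fun U : Ed d (2 * m) → G =>
          (∏ s ∈ S.erase t, Ph L b (p s) U) * (W t).1 U) + Cf K f (p t) *
          EX μ L (b ^ 4) (fun U : Ed d (2 * m) → G => ∏ s ∈ S.erase t, Ph L b (p s) U) := by
      intro t
      rw [EX_add μ (c2 t) (c3 t), EX_smul]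
    simp only [e3, Finset.sum_add_distrib]
    ring
  rw [hmain]
  -- the first error
  have hRb : |EX μ L (b ^ 4) R| ≤ D * (1 + C1 * (8 ^ d * d ^ 2) ^ (k + 2)) * c * Λ ^ (k + 1) *
      ((K : ℝ) ^ (d * (k + 2) + 3) / b ^ 2) := by
    have cs : Continuous fun U : Ed d (2 * m) → G => (b ^ 2 * sB L (3 * K + 5) U) ^ (k + 2) :=
      (continuous_const.mul (sB_cont _)).pow _
    have e1 : EX μ L (b ^ 4) (fun U => |R U|) ≤ EX μ L (b ^ 4) (fun U : Ed d (2 * m) → G =>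
        D * Λ ^ (k + 1) * ((K : ℝ) ^ 3 / b ^ 2) * (1 + (b ^ 2 * sB L (3 * K + 5) U) ^ (k + 2))) := by
      refine EX_mono μ cR.abs (continuous_const.mul (continuous_const.add cs)) fun U => ?_
      have h1 := point_gen (L := L) (by omega : 0 < d) hK hKm hb0 hΛ S f p h0 hp U
      rw [hS, ← hD, ← hA, ← hV] at h1
      refine le_trans ?_ h1
      rw [hR]
      simp only
      refine (abs_add_le _ _).trans (add_le_add ?_ (le_of_eq ?_))
      · refine (abs_sub _ _).trans (add_le_add (le_of_eq ?_) ?_)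
        · rw [abs_mul, abs_mul, abs_of_pos (show (0 : ℝ) < b ^ 2 by positivity), mul_assoc]
        · refine (Finset.abs_sum_le_sum_abs _ _).trans (le_of_eq ?_)
          refine Finset.sum_congr rfl fun t _ => ?_
          rw [abs_mul, hW]
      · rw [abs_mul, abs_mul, abs_of_pos (show (0 : ℝ) < b ^ 2 by positivity), mul_assoc]
    rw [EX_smul, EX_add μ (F := fun _ : Ed d (2 * m) → G => 1) continuous_const cs, EX_const] at e1
    refine (EX_abs μ cR).trans (e1.trans ?_)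
    have e2 : EX μ L (b ^ 4) (fun U : Ed d (2 * m) → G => (b ^ 2 * sB L (3 * K + 5) U) ^ (k + 2)) ≤
        C1 * (8 ^ d * d ^ 2) ^ (k + 2) * (K : ℝ) ^ (d * (k + 2)) * c := by
      refine hsB'.trans ?_
      have e3 : (((3 * K + 5 : ℕ) : ℝ) ^ d * d ^ 2) ≤ (8 ^ d * d ^ 2) * K ^ d := by
        have e4 : ((3 * K + 5 : ℕ) : ℝ) ≤ 8 * K := by push_cast; linarith
        calc ((3 * K + 5 : ℕ) : ℝ) ^ d * d ^ 2 ≤ (8 * K) ^ d * d ^ 2 := by gcongr
          _ = _ := by rw [mul_pow]; ring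
      calc C1 * (((3 * K + 5 : ℕ) : ℝ) ^ d * d ^ 2) ^ (k + 1 + 1) * c ≤
          C1 * ((8 ^ d * d ^ 2) * K ^ d) ^ (k + 1 + 1) * c := by gcongr
        _ = _ := by rw [mul_pow, ← pow_mul]; ring
    have e4 : (1 : ℝ) ≤ (K : ℝ) ^ (d * (k + 2)) * c := by
      have : (1 : ℝ) ≤ (K : ℝ) ^ (d * (k + 2)) := one_le_pow₀ hK1
      nlinarith
    have e5 : 1 + EX μ L (b ^ 4) (fun U : Ed d (2 * m) → G =>
        (b ^ 2 * sB L (3 * K + 5) U) ^ (k + 2)) ≤
        (1 + C1 * (8 ^ d * d ^ 2) ^ (k + 2)) * ((K : ℝ) ^ (d * (k + 2)) * c) := by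
      have e6 : (1 + C1 * (8 ^ d * d ^ 2) ^ (k + 2)) * ((K : ℝ) ^ (d * (k + 2)) * c) =
        (K : ℝ) ^ (d * (k + 2)) * c + C1 * (8 ^ d * d ^ 2) ^ (k + 2) * (K : ℝ) ^ (d * (k + 2)) * c :=
        by ring
      rw [e6]; linarith
    calc D * Λ ^ (k + 1) * ((K : ℝ) ^ 3 / b ^ 2) * (1 + EX μ L (b ^ 4)
        (fun U : Ed d (2 * m) → G => (b ^ 2 * sB L (3 * K + 5) U) ^ (k + 2))) ≤
        D * Λ ^ (k + 1) * ((K : ℝ) ^ 3 / b ^ 2) *
        ((1 + C1 * (8 ^ d * d ^ 2) ^ (k + 2)) * ((K : ℝ) ^ (d * (k + 2)) * c)) := by gcongr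
      _ = _ := by rw [pow_add (K : ℝ) (d * (k + 2)) 3]; ring
  -- the second error
  obtain ⟨Y, hY⟩ : ∃ Y : ℝ, Y = 1 / Real.sqrt (Real.sqrt K) + (K : ℝ) ^ (2 * d + 3) / b ^ 2 :=
    ⟨_, rfl⟩
  have hY0 : 0 ≤ Y := by rw [hY]; positivity
  have hPb : |EX μ L (b ^ 4) (fun U : Ed d (2 * m) → G => (b ^ 2 * Fs L (Pks K f) U) *
          ∏ s ∈ S, Ph L b (p s) U)| ≤ (C2 + C3) * c * Λ ^ (k + 1) * Y := by
    have e1 := EX_cs μ (L := L) (β := b ^ 4) (F := fun U : Ed d (2 * m) → G =>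
      b ^ 2 * Fs L (Pks K f) U) (H := fun U => ∏ s ∈ S, Ph L b (p s) U)
      (continuous_const.mul (cF _)) (cP S)
    rw [← hY] at hre'
    have e2 : EX μ L (b ^ 4) (fun U : Ed d (2 * m) → G => (b ^ 2 * Fs L (Pks K f) U) ^ 2) *
        EX μ L (b ^ 4) (fun U : Ed d (2 * m) → G => (∏ s ∈ S, Ph L b (p s) U) ^ 2) ≤
        (C3 * c * Λ ^ 2 * Y ^ 2) * (C2 * c * Λ ^ (2 * k)) :=
      mul_le_mul hre' hpr' (EX_nonneg μ fun U => sq_nonneg _) (by positivity)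
    refine abs_le_of_sq_le_sq ?_ (by positivity)
    refine e1.trans (e2.trans ?_)
    have e3 : C3 * C2 ≤ (C2 + C3) ^ 2 := by nlinarith
    calc C3 * c * Λ ^ 2 * Y ^ 2 * (C2 * c * Λ ^ (2 * k)) =
        C3 * C2 * (c * Λ ^ (k + 1) * Y) ^ 2 := by
          rw [mul_pow (c * Λ ^ (k + 1)) Y 2, mul_pow c, ← pow_mul Λ (k + 1) 2,
            show (k + 1) * 2 = 2 + 2 * k by ring, pow_add]
          ring
      _ ≤ (C2 + C3) ^ 2 * (c * Λ ^ (k + 1) * Y) ^ 2 := mul_le_mul_of_nonneg_right e3 (sq_nonneg _)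
      _ = _ := by ring
  have hYb : Y ≤ 1 / Real.sqrt (Real.sqrt K) + (K : ℝ) ^ (d * (k + 2) + 3) / b ^ 2 := by
    rw [hY]
    have : (K : ℝ) ^ (2 * d + 3) ≤ (K : ℝ) ^ (d * (k + 2) + 3) := by
      refine pow_le_pow_right₀ hK1 ?_
      nlinarith
    gcongr
  have hT0 : 0 ≤ 1 / Real.sqrt (Real.sqrt K) := by positivity
  refine (abs_add_le _ _).trans ((add_le_add hRb hPb).trans ?_)
  obtain ⟨T, hT⟩ : ∃ T : ℝ, T = (K : ℝ) ^ (d * (k + 2) + 3) / b ^ 2 := ⟨_, rfl⟩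
  rw [← hT] at hYb ⊢
  obtain ⟨Q, hQ⟩ : ∃ Q : ℝ, Q = D * (1 + C1 * (8 ^ d * d ^ 2) ^ (k + 2)) := ⟨_, rfl⟩
  have hQ0 : 0 ≤ Q := by rw [hQ]; positivity
  rw [← hQ]
  obtain ⟨Z, hZ⟩ : ∃ Z : ℝ, Z = 1 / Real.sqrt (Real.sqrt K) + T := ⟨_, rfl⟩
  rw [← hZ] at hYb ⊢
  have hTZ : T ≤ Z := by rw [hZ]; linarith
  have f1 : Q * c * Λ ^ (k + 1) * T ≤ Q * c * Λ ^ (k + 1) * Z :=
    mul_le_mul_of_nonneg_left hTZ (by positivity)
  have f2 : (C2 + C3) * c * Λ ^ (k + 1) * Y ≤ (C2 + C3) * c * Λ ^ (k + 1) * Z :=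
    mul_le_mul_of_nonneg_left hYb (by positivity)
  calc Q * c * Λ ^ (k + 1) * T + (C2 + C3) * c * Λ ^ (k + 1) * Y ≤
      Q * c * Λ ^ (k + 1) * Z + (C2 + C3) * c * Λ ^ (k + 1) * Z := add_le_add f1 f2
    _ = _ := by ring

/-- the moments of the curvature are nearly those of a Gaussian field -/
theorem gauss_gen {d : ℕ} (hd : 3 ≤ d) (q : ℕ) (k : ℕ) : ∃ C : ℝ, 0 < C ∧ ∀ c : ℝ, 1 ≤ c →
    ∀ (m K : ℕ) [NeZero m], 1 ≤ K → 3 * K + 5 < 2 * m → ∀ Λ : ℝ, 1 ≤ Λ →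
    ∀ (ι : Type) [LinearOrder ι]
      (S : Finset ι), S.card = k → ∀ p : ι → Fin n → Fm d (2 * m), (∀ s ∈ S, Ok K Λ (p s)) →
      |EX μ L ((c ^ q) ^ 4) (fun U : Ed d (2 * m) → G => ∏ s ∈ S, Ph L (c ^ q) (p s) U) -
        wick (fun i j => Cf K (p i) (p j)) S| ≤
        C * c * Λ ^ k *
          (1 / Real.sqrt (Real.sqrt K) + (K : ℝ) ^ (d * (k + 1) + 3) / (c ^ q) ^ 2) := by
  induction k using Nat.strong_induction_on with
  | _ k ih =>
  rcases Nat.eq_zero_or_pos k with hk | hk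
  · subst hk
    refine ⟨1, one_pos, fun c hc m K _ hK hKm Λ hΛ ι _ S hS p hp => ?_⟩
    have hS' : S = ∅ := Finset.card_eq_zero.1 hS
    subst hS'
    simp only [Finset.prod_empty]
    rw [wick_empty, EX_const, sub_self, abs_zero]
    positivity
  · obtain ⟨C1, hC1, hstep⟩ := step_gen μ (L := L) hd (k - 1) q
    have ih2 : ∃ C : ℝ, 0 < C ∧ ∀ c : ℝ, 1 ≤ c →
    ∀ (m K : ℕ) [NeZero m], 1 ≤ K → 3 * K + 5 < 2 * m → ∀ Λ : ℝ, 1 ≤ Λ →
    ∀ (ι : Type) [LinearOrder ι]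
      (S : Finset ι), S.card + 2 = k → ∀ p : ι → Fin n → Fm d (2 * m), (∀ s ∈ S, Ok K Λ (p s)) →
      |EX μ L ((c ^ q) ^ 4) (fun U : Ed d (2 * m) → G => ∏ s ∈ S, Ph L (c ^ q) (p s) U) -
        wick (fun i j => Cf K (p i) (p j)) S| ≤
        C * c * Λ ^ (k - 2) *
          (1 / Real.sqrt (Real.sqrt K) + (K : ℝ) ^ (d * (k + 1) + 3) / (c ^ q) ^ 2) := by
      rcases Nat.lt_or_ge k 2 with h2 | h2
      · refine ⟨1, one_pos, fun c hc m K _ hK hKm Λ hΛ ι _ S hS p hp => ?_⟩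
        omega
      · obtain ⟨C, hC, h⟩ := ih (k - 2) (by omega)
        refine ⟨C, hC, fun c hc m K _ hK hKm Λ hΛ ι _ S hS p hp => ?_⟩
        refine (h c hc m K hK hKm Λ hΛ ι S (by omega) p hp).trans ?_
        have hc0 : 0 < c := by linarith
        have hK1 : (1 : ℝ) ≤ K := by exact_mod_cast hK
        have h3 : (K : ℝ) ^ (d * (k - 2 + 1) + 3) ≤ (K : ℝ) ^ (d * (k + 1) + 3) := by
          refine pow_le_pow_right₀ hK1 ?_
          have : d * (k - 2 + 1) ≤ d * (k + 1) := Nat.mul_le_mul_left d (by omega)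
          omega
        gcongr
    obtain ⟨C2, hC2, hih⟩ := ih2
    refine ⟨C1 + k * (2 * C2), by positivity, fun c hc m K _ hK hKm Λ hΛ ι _ S hS p hp => ?_⟩
    have hc0 : 0 < c := by linarith
    have hΛ0 : 0 < Λ := by linarith
    have hK1 : (1 : ℝ) ≤ K := by exact_mod_cast hK
    have hne : S.Nonempty := by rw [← Finset.card_pos, hS]; exact hk
    obtain ⟨i0, hi0⟩ : ∃ i0, i0 = S.min' hne := ⟨_, rfl⟩
    have hmem : i0 ∈ S := by rw [hi0]; exact Finset.min'_mem _ _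
    have hmin : ∀ t ∈ S, i0 ≤ t := fun t ht => by rw [hi0]; exact Finset.min'_le _ _ ht
    have hcard : (S.erase i0).card = k - 1 := by rw [Finset.card_erase_of_mem hmem, hS]
    have hst := hstep c hc m K hK hKm Λ hΛ ι (S.erase i0) hcard (p i0) p (hp i0 hmem)
      (fun s hs => hp s (Finset.mem_of_mem_erase hs))
    obtain ⟨b, hb⟩ : ∃ b, b = c ^ q := ⟨_, rfl⟩
    rw [← hb] at hst ⊢
    have hb0 : 0 < b := by rw [hb]; positivity
    obtain ⟨Y, hY⟩ : ∃ Y : ℝ, Y = 1 / Real.sqrt (Real.sqrt K) +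
      (K : ℝ) ^ (d * (k + 1) + 3) / b ^ 2 := ⟨_, rfl⟩
    have hY0 : 0 ≤ Y := by rw [hY]; positivity
    have hkk : k - 1 + 2 = k + 1 := by omega
    have hkk' : k - 1 + 1 = k := by omega
    rw [hkk, hkk', ← hY] at hst
    rw [← hY]
    have hprod : (fun U : Ed d (2 * m) → G => ∏ s ∈ S, Ph L b (p s) U) =
        fun U => Ph L b (p i0) U * ∏ s ∈ S.erase i0, Ph L b (p s) U := by
      funext U
      exact (Finset.mul_prod_erase S (fun s => Ph L b (p s) U) hmem).symm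
    rw [hprod, wick_rec' _ hmem hmin]
    have h1 : |∑ t ∈ S.erase i0, Cf K (p i0) (p t) * EX μ L (b ^ 4) (fun U : Ed d (2 * m) → G =>
          ∏ s ∈ (S.erase i0).erase t, Ph L b (p s) U) - ∑ t ∈ S.erase i0, Cf K (p i0) (p t) *
            wick (fun i j => Cf K (p i) (p j)) ((S.erase i0).erase t)| ≤
        k * (2 * (C2 * c * Λ ^ k * Y)) := by
      rw [← Finset.sum_sub_distrib]
      refine (Finset.abs_sum_le_sum_abs _ _).trans ?_
      calc _ ≤ ∑ _t ∈ S.erase i0, 2 * (C2 * c * Λ ^ k * Y) := by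
            refine Finset.sum_le_sum fun t ht => ?_
            rw [← mul_sub, abs_mul]
            have hk2 : 2 ≤ k := by
              have h3 : 0 < (S.erase i0).card := Finset.card_pos.2 ⟨t, ht⟩
              omega
            have h2 := hih c hc m K hK hKm Λ hΛ ι ((S.erase i0).erase t) (by
              have := Finset.card_erase_of_mem ht
              have h3 : 0 < (S.erase i0).card := Finset.card_pos.2 ⟨t, ht⟩
              omega) p (fun s hs => hp s (Finset.mem_of_mem_erase (Finset.mem_of_mem_erase hs)))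
            rw [← hb, ← hY] at h2
            have h3 := Cf_le (by omega : 0 < d) K hΛ0.le (hp i0 hmem).asy (hp i0 hmem).nrm
              (hp t (Finset.mem_of_mem_erase ht)).nrm
            refine (mul_le_mul h3 h2 (abs_nonneg _) (by positivity)).trans (le_of_eq ?_)
            have h4 : Λ ^ k = Λ ^ 2 * Λ ^ (k - 2) := by rw [← pow_add]; congr 1; omega
            rw [h4]; ring
        _ = ((k - 1 : ℕ) : ℝ) * (2 * (C2 * c * Λ ^ k * Y)) := by
            rw [Finset.sum_const, hcard, nsmul_eq_mul]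
        _ ≤ k * (2 * (C2 * c * Λ ^ k * Y)) := by
            refine mul_le_mul_of_nonneg_right ?_ (by positivity)
            exact_mod_cast Nat.sub_le k 1
    have h3 := abs_le.1 hst
    have h4 := abs_le.1 h1
    have e : (C1 + k * (2 * C2)) * c * Λ ^ k * Y =
      C1 * c * Λ ^ k * Y + k * (2 * (C2 * c * Λ ^ k * Y)) := by ring
    rw [e, abs_le]
    constructor <;> linarith [h3.1, h3.2, h4.1, h4.2]

end

end Pool.Agent.T2h94
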