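import Mathlib
import Pool.Agent.T2h94.W3
import Pool.Agent.T2h94.Obs

/-!
# Covariant derivatives of the curvature in the comb gauge
-/

open MeasureTheory Matrix
open scoped Matrix.Norms.Frobenius ContDiff
open Pool.Agent.H906R3.YM Pool.Agent.W793.YM

namespace Pool.Agent.T2h94

set_option linter.unusedSectionVars false
set_option linter.unusedVariables false

noncomputable section

/-- the directions of a plaquette and of the derivatives -/
abbrev Slot (d : ℕ) := (Fin d × Fin d) × List (Fin d)

section forms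

variable {n d l : ℕ} [NeZero l]

/-- the two form which evaluates a derivative of the curvature -/
def ew (a : Fin n) (p : Fin d × Fin d) : List (Fin d) → St d l → Fin n → Fm d l
  | [], x => -ef ⟨a, p.1, p.2, x⟩
  | k :: m, x => ew a p m (x + eT k) - ew a p m x

lemma asy_neg {f : Fm d l} (h : Asy f) : Asy (-f) := fun j k => by
  rw [Pi.neg_apply, Pi.neg_apply, Pi.neg_apply, Pi.neg_apply, h j k]

lemma asy_sub {f g : Fm d l} (h : Asy f) (h' : Asy g) : Asy (f - g) := fun j k => by
  rw [Pi.sub_apply, Pi.sub_apply, Pi.sub_apply, Pi.sub_apply, h j k, h' j k]; abel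

lemma ew_asy (a : Fin n) (p : Fin d × Fin d) (m : List (Fin d)) (x : St d l) (a' : Fin n) :
    Asy (ew a p m x a') := by
  induction m generalizing x with
  | nil => exact asy_neg (ef_asy _ _)
  | cons k m ih => exact asy_sub (ih _) (ih _)

lemma ew_N1 (a : Fin n) (p : Fin d × Fin d) (m : List (Fin d)) (x : St d l) :
    N1 (ew a p m x) ≤ 2 * 2 ^ m.length := by
  induction m generalizing x with
  | nil =>
    have e : N1 (ew a p [] x) = N1 (ef (⟨a, p.1, p.2, x⟩ : Leg n d l)) := by
      unfold N1
      show ∑ a', ∑ j, ∑ k, ∑ y, |(-ef (⟨a, p.1, p.2, x⟩ : Leg n d l)) a' j k y| = _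
      simp only [Pi.neg_apply, abs_neg]
    rw [e]
    have := ef_N1 (⟨a, p.1, p.2, x⟩ : Leg n d l)
    simpa using this
  | cons k m ih =>
    have h1 := N1_sub (ew a p m (x + eT k)) (ew a p m x)
    have h2 := ih (x + eT k)
    have h3 := ih x
    have e : (2 : ℝ) * 2 ^ (k :: m).length = 2 * 2 ^ m.length + 2 * 2 ^ m.length := by
      rw [List.length_cons, pow_succ]; ring
    rw [e]
    exact h1.trans (add_le_add h2 h3)

lemma ew_SW {K M : ℕ} (a : Fin n) (p : Fin d × Fin d) (m : List (Fin d)) {x : St d l}
    (hx : ∀ i, K ≤ wv x i ∧ wv x i + m.length < M) (hM : M < l) (a' : Fin n) (j k : Fin d) :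
    SW K M (ew a p m x a' j k) := by
  induction m generalizing x with
  | nil =>
    intro y hy s
    have h1 : y = x := by
      by_contra h
      refine hy ?_
      show (-ef (⟨a, p.1, p.2, x⟩ : Leg n d l)) a' j k y = 0
      simp only [Pi.neg_apply]
      unfold ef
      rw [if_neg fun h' => h h'.2, neg_zero]
    rw [h1]
    have := hx s
    simpa using this
  | cons i m ih =>
    have hi : wv x i + 1 < l := by
      have := (hx i).2
      rw [List.length_cons] at this
      omega
    have hw := wv_add hi
    refine SW.sub (ih fun s => ?_) (ih fun s => ?_)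
    · have h1 := hx s
      rw [List.length_cons] at h1
      rw [hw, Pi.add_apply]
      by_cases h : s = i
      · subst h
        rw [es_same]; constructor <;> omega
      · rw [es_ne h]; constructor <;> omega
    · have h1 := hx s
      rw [List.length_cons] at h1
      constructor <;> omega

end forms

variable {G : Type*} [Group G] [TopologicalSpace G] [IsTopologicalGroup G] [CompactSpace G]
  [SecondCountableTopology G] [MeasurableSpace G] [BorelSpace G] (μ : Measure G)
  [IsProbabilityMeasure μ] [μ.IsMulLeftInvariant] [μ.IsMulRightInvariant] [μ.IsInvInvariant]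
  {N n : ℕ} {L : LD G N n}

section

variable {d l : ℕ} [NeZero l]

lemma Fs_sub' (f g : Fin n → Fm d l) (U : Ed d l → G) :
    Fs L (f - g) U = Fs L f U - Fs L g U := by
  have h := Fs_add (L := L) (f - g) g U
  rw [sub_add_cancel] at h
  linarith

lemma Fs_neg' (f : Fin n → Fm d l) (U : Ed d l → G) : Fs L (-f) U = -Fs L f U := by
  have h := Fs_add (L := L) (-f) f U
  rw [neg_add_cancel] at h
  have h0 : Fs L (0 : Fin n → Fm d l) U = 0 := by
    have := Fs_add (L := L) (0 : Fin n → Fm d l) 0 U
    rw [add_zero] at this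
    linarith
  rw [h0] at h
  linarith

variable (L) in
/-- the covariant derivatives of the curvature -/
def cvT (U : Ed d l → G) (p : Fin d × Fin d) : List (Fin d) → St d l → Mat N
  | [], x => L.rho (plqT U x p.1 p.2)
  | k :: m, x => L.rho (U (x, k)) * cvT U p m (x + eT k) * (L.rho (U (x, k)))ᴴ - cvT U p m x

variable (L) in
/-- the covariant derivatives of the curvature in the comb gauge -/
def cbT (U : Ed d l → G) (p : Fin d × Fin d) (m : List (Fin d)) (x : St d l) : Mat N :=
  L.rho (Pc U x) * cvT L U p m x * (L.rho (Pc U x))ᴴ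

variable (L) in
/-- the derivatives of the curvature in the comb gauge -/
def lnT (U : Ed d l → G) (p : Fin d × Fin d) : List (Fin d) → St d l → Mat N
  | [], x => L.rho (Pc U x * plqT U x p.1 p.2 * (Pc U x)⁻¹)
  | k :: m, x => lnT U p m (x + eT k) - lnT U p m x

lemma cbT_nil (U : Ed d l → G) (p : Fin d × Fin d) (x : St d l) :
    cbT L U p [] x = L.rho (Pc U x * plqT U x p.1 p.2 * (Pc U x)⁻¹) := by
  unfold cbT cvT
  rw [map_mul, map_mul, L.rho_inv]

lemma cbT_cons (U : Ed d l → G) (p : Fin d × Fin d) (k : Fin d) (m : List (Fin d)) (x : St d l) :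
    cbT L U p (k :: m) x = L.rho (tlT U x k) * cbT L U p m (x + eT k) * (L.rho (tlT U x k))ᴴ -
      cbT L U p m x := by
  unfold cbT tlT
  show L.rho (Pc U x) * (L.rho (U (x, k)) * cvT L U p m (x + eT k) * (L.rho (U (x, k)))ᴴ -
    cvT L U p m x) * (L.rho (Pc U x))ᴴ = _
  rw [map_mul, map_mul, L.rho_inv, conjTranspose_mul, conjTranspose_mul,
    conjTranspose_conjTranspose, mul_sub, sub_mul]
  congr 1
  have h := L.unit' (Pc U (x + eT k))
  calc _ = L.rho (Pc U x) * L.rho (U (x, k)) * 1 * cvT L U p m (x + eT k) * 1 *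
        (L.rho (U (x, k)))ᴴ * (L.rho (Pc U x))ᴴ := by noncomm_ring
    _ = _ := by rw [← h]; noncomm_ring

lemma conj_norm (g : G) (M : Mat N) : ‖L.rho g * M * (L.rho g)ᴴ‖ = ‖M‖ := by
  have h : (L.rho g)ᴴ = L.rho g⁻¹ := (L.rho_inv g).symm
  rw [h, norm_rmul, norm_lmul]

lemma conj_one (g : G) : L.rho g * 1 * (L.rho g)ᴴ = 1 := by
  rw [mul_one, L.unit]

lemma conj_near (g : G) (M : Mat N) : ‖L.rho g * M * (L.rho g)ᴴ - M‖ ≤ 2 * (dv L g * ‖M‖) := by
  have e : L.rho g * M * (L.rho g)ᴴ - M = (L.rho g - 1) * M * (L.rho g)ᴴ +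
      M * ((L.rho g)ᴴ - 1) := by noncomm_ring
  have h0 : (L.rho g)ᴴ = L.rho g⁻¹ := (L.rho_inv g).symm
  have h1 : ‖(L.rho g - 1) * M * (L.rho g)ᴴ‖ ≤ dv L g * ‖M‖ := by
    rw [h0, norm_rmul]
    exact norm_mul_le _ _
  have h2 : ‖M * ((L.rho g)ᴴ - 1)‖ ≤ dv L g * ‖M‖ := by
    refine (norm_mul_le _ _).trans ?_
    rw [mul_comm]
    have : ‖(L.rho g)ᴴ - 1‖ = dv L g := by
      rw [h0]
      show dv L g⁻¹ = dv L g
      exact dv_inv g
    rw [this]
  rw [e]
  refine (norm_add_le _ _).trans ?_
  linarith

/-- the constant part -/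
def c0 (N : ℕ) {d : ℕ} (m : List (Fin d)) : Mat N := if m = [] then 1 else 0

lemma cb_small {M : ℕ} (hM : M < l) (U : Ed d l → G) (p : Fin d × Fin d) (m : List (Fin d))
    {x : St d l} (hx : ∀ i, wv x i + m.length < M) :
    ‖cbT L U p m x - c0 N m‖ ≤ 2 ^ m.length * sB L M U := by
  induction m generalizing x with
  | nil =>
    rw [cbT_nil]
    unfold c0
    rw [if_pos rfl, List.length_nil, pow_zero, one_mul]
    show dv L _ ≤ _
    rw [dv_conj]
    exact dv_le_sB U (fun i => by simpa using hx i) _ _
  | cons k m ih =>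
    have hk : wv x k + 1 < l := by
      have := hx k
      rw [List.length_cons] at this
      omega
    have h1 := ih (x := x + eT k) (fun i => by
      have := hx i
      rw [List.length_cons] at this
      rw [wv_add hk, Pi.add_apply]
      by_cases h : i = k
      · subst h; rw [es_same]; omega
      · rw [es_ne h]; omega)
    have h2 := ih (x := x) (fun i => by
      have := hx i
      rw [List.length_cons] at this
      omega)
    have e : cbT L U p (k :: m) x - c0 N (k :: m) = L.rho (tlT U x k) *
        (cbT L U p m (x + eT k) - c0 N m) * (L.rho (tlT U x k))ᴴ - (cbT L U p m x - c0 N m) := by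
      rw [cbT_cons]
      have h3 : L.rho (tlT U x k) * c0 N m * (L.rho (tlT U x k))ᴴ = c0 N m := by
        unfold c0
        split_ifs
        · exact conj_one _
        · rw [mul_zero, zero_mul]
      have h4 : c0 N (k :: m) = 0 := by unfold c0; simp
      rw [h4, mul_sub, sub_mul, h3]
      abel
    rw [e, List.length_cons, pow_succ]
    refine (norm_sub_le _ _).trans ?_
    rw [conj_norm]
    linarith

lemma cb_ln {M : ℕ} (hM : M < l) (U : Ed d l → G) (p : Fin d × Fin d) (m : List (Fin d))
    {x : St d l} (hx : ∀ i, wv x i + m.length < M) :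
    ‖cbT L U p m x - lnT L U p m x‖ ≤ m.length * 2 ^ m.length * (d * M) * sB L M U ^ 2 := by
  induction m generalizing x with
  | nil =>
    rw [cbT_nil]
    unfold lnT
    rw [sub_self, norm_zero]
    simp
  | cons k m ih =>
    have hk : wv x k + 1 < l := by
      have := hx k
      rw [List.length_cons] at this
      omega
    have hx' : ∀ i, wv (x + eT k) i + m.length < M := fun i => by
      have := hx i
      rw [List.length_cons] at this
      rw [wv_add hk, Pi.add_apply]
      by_cases h : i = k
      · subst h; rw [es_same]; omega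
      · rw [es_ne h]; omega
    have h1 := ih (x := x + eT k) hx'
    have h2 := ih (x := x) (fun i => by
      have := hx i
      rw [List.length_cons] at this
      omega)
    have h3 := cb_small (L := L) hM U p m hx'
    have h4 := dv_tlT (L := L) (M := M) U (x := x) (k := k) (fun i => by
      have := hx i
      omega) hk
    obtain ⟨g, hg⟩ : ∃ g, g = tlT U x k := ⟨_, rfl⟩
    rw [← hg] at h4
    have e : cbT L U p (k :: m) x - lnT L U p (k :: m) x =
        (L.rho g * (cbT L U p m (x + eT k) - c0 N m) * (L.rho g)ᴴ -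
          (cbT L U p m (x + eT k) - c0 N m)) +
        (cbT L U p m (x + eT k) - lnT L U p m (x + eT k)) -
        (cbT L U p m x - lnT L U p m x) := by
      rw [cbT_cons, ← hg]
      have h5 : L.rho g * c0 N m * (L.rho g)ᴴ = c0 N m := by
        unfold c0
        split_ifs
        · exact conj_one _
        · rw [mul_zero, zero_mul]
      show L.rho g * cbT L U p m (x + eT k) * (L.rho g)ᴴ - cbT L U p m x -
        (lnT L U p m (x + eT k) - lnT L U p m x) = _
      rw [mul_sub, sub_mul, h5]
      abel
    rw [e]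
    have h6 := conj_near (L := L) g (cbT L U p m (x + eT k) - c0 N m)
    have hs := sB_nonneg (L := L) M U
    have hd0 := dv_nonneg (L := L) g
    have h7 : dv L g * ‖cbT L U p m (x + eT k) - c0 N m‖ ≤
        (d * M * sB L M U) * (2 ^ m.length * sB L M U) :=
      mul_le_mul h4 h3 (norm_nonneg _) (by positivity)
    refine (norm_sub_le _ _).trans ?_
    refine (add_le_add (norm_add_le _ _) le_rfl).trans ?_
    have e2 : (((k :: m).length : ℕ) : ℝ) * 2 ^ (k :: m).length * (d * M) * sB L M U ^ 2 =
        2 * ((d * M * sB L M U) * (2 ^ m.length * sB L M U)) +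
        m.length * 2 ^ m.length * (d * M) * sB L M U ^ 2 +
        m.length * 2 ^ m.length * (d * M) * sB L M U ^ 2 := by
      rw [List.length_cons, pow_succ]; push_cast; ring
    rw [e2]
    linarith

lemma ip_X_one (a : Fin n) : ip (L.X a) 1 = 0 := by
  have h1 := fi_eq_ip (L := L) a 1
  rw [fi_one, map_one] at h1
  linarith

lemma ip_X_c0 {d : ℕ} (a : Fin n) (m : List (Fin d)) : ip (L.X a) (c0 N m) = 0 := by
  unfold c0
  split_ifs
  · exact ip_X_one a
  · exact map_zero _

lemma ip_X_le (a : Fin n) (M : Mat N) : |ip (L.X a) M| ≤ ‖M‖ := by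
  refine (abs_ip_le _ _).trans ?_
  rw [norm_X, one_mul]

/-- the components of the linear part -/
lemma ip_lnT (a : Fin n) (U : Ed d l → G) (p : Fin d × Fin d) (m : List (Fin d)) (x : St d l) :
    ip (L.X a) (lnT L U p m x) = Fs L (ew a p m x) U := by
  induction m generalizing x with
  | nil =>
    show ip (L.X a) (L.rho (Pc U x * plqT U x p.1 p.2 * (Pc U x)⁻¹)) = Fs L (-ef ⟨a, p.1, p.2, x⟩) U
    rw [Fs_neg', Fs_ef]
    unfold Fz
    rw [fi_eq_ip, neg_neg]
  | cons k m ih =>
    show ip (L.X a) (lnT L U p m (x + eT k) - lnT L U p m x) =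
      Fs L (ew a p m (x + eT k) - ew a p m x) U
    rw [map_sub, ih, ih, Fs_sub']

lemma cvT_cont (p : Fin d × Fin d) (m : List (Fin d)) (x : St d l) :
    Continuous fun U : Ed d l → G => cvT L U p m x := by
  induction m generalizing x with
  | nil => exact L.cont.comp (plqT_cont _ _ _)
  | cons k m ih =>
    have h1 : Continuous fun U : Ed d l → G => L.rho (U (x, k)) := L.cont.comp (continuous_apply _)
    exact ((h1.matrix_mul (ih _)).matrix_mul h1.matrix_conjTranspose).sub (ih _)

end

end

end Pool.Agent.T2h94
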