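import Mathlib
import Pool.Agent.T2h94.Wick

/-!
# Sums over pairings: bounds, scaling
-/

namespace Pool.Agent.T2h94

set_option linter.unusedSectionVars false

noncomputable section

variable {ι : Type*} [LinearOrder ι]

/-- weights at the legs -/
lemma wick_scale (lam : ι → ℝ) (C : ι → ι → ℝ) (S : Finset ι) :
    wick (fun i j => lam i * lam j * C i j) S = (∏ i ∈ S, lam i) * wick C S := by
  induction S using wick_ind with
  | h0 => rw [wick_empty, wick_empty]; simp
  | h1 S m hm hmin ih =>
    rw [wick_rec' _ hm hmin, wick_rec' C hm hmin, Finset.mul_sum]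
    refine Finset.sum_congr rfl fun t ht => ?_
    rw [ih _ (erase_ssub hm t), ← Finset.mul_prod_erase S lam hm,
      ← Finset.mul_prod_erase (S.erase m) lam ht]
    ring

/-- the constant in the bounds -/
def wc (k : ℕ) : ℝ := (k.factorial : ℝ)

lemma wc_pos (k : ℕ) : 0 < wc k := by unfold wc; positivity

lemma wc_ge (k : ℕ) : 1 ≤ wc k := by
  unfold wc
  exact_mod_cast Nat.succ_le_of_lt (Nat.factorial_pos k)

lemma wick_abs {C : ι → ι → ℝ} {M : ℝ} (hM : 1 ≤ M) (S : Finset ι)
    (hC : ∀ i ∈ S, ∀ j ∈ S, |C i j| ≤ M) : |wick C S| ≤ wc S.card * M ^ S.card := by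
  induction S using wick_ind with
  | h0 => rw [wick_empty]; simp [wc]
  | h1 S m hm hmin ih =>
    rw [wick_rec' _ hm hmin]
    have hcard : 0 < S.card := Finset.card_pos.2 ⟨m, hm⟩
    have h1 : ∀ t ∈ S.erase m, |C m t * wick C ((S.erase m).erase t)| ≤
        wc (S.card - 2) * M ^ S.card := by
      intro t ht
      have ht' := Finset.mem_of_mem_erase ht
      have hc1 : (S.erase m).card = S.card - 1 := Finset.card_erase_of_mem hm
      have hc2 : ((S.erase m).erase t).card = S.card - 2 := by
        rw [Finset.card_erase_of_mem ht, hc1]; omega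
      have hpos : 0 < (S.erase m).card := Finset.card_pos.2 ⟨t, ht⟩
      have h2 := ih _ (erase_ssub hm t) fun i hi j hj =>
        hC i (Finset.mem_of_mem_erase (Finset.mem_of_mem_erase hi)) j
          (Finset.mem_of_mem_erase (Finset.mem_of_mem_erase hj))
      rw [hc2] at h2
      rw [abs_mul]
      have hM0 : 0 ≤ M := by linarith
      calc |C m t| * |wick C ((S.erase m).erase t)| ≤ M * (wc (S.card - 2) * M ^ (S.card - 2)) :=
            mul_le_mul (hC m hm t ht') h2 (abs_nonneg _) hM0
        _ = wc (S.card - 2) * M ^ (S.card - 2 + 1) := by rw [pow_succ]; ring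
        _ ≤ wc (S.card - 2) * M ^ S.card :=
            mul_le_mul_of_nonneg_left (pow_le_pow_right₀ hM (by omega)) (wc_pos _).le
    refine (Finset.abs_sum_le_sum_abs _ _).trans ((Finset.sum_le_sum h1).trans ?_)
    rw [Finset.sum_const, Finset.card_erase_of_mem hm, nsmul_eq_mul, ← mul_assoc]
    refine mul_le_mul_of_nonneg_right ?_ (by positivity)
    unfold wc
    have h3 : (S.card - 1) * (S.card - 2).factorial ≤ S.card.factorial := by
      rcases Nat.lt_or_ge S.card 2 with h | h
      · have : S.card = 1 := by omega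
        rw [this]; simp
      · have h4 : S.card.factorial = S.card * ((S.card - 1) * (S.card - 2).factorial) := by
          obtain ⟨k, hk⟩ : ∃ k, S.card = k + 2 := ⟨S.card - 2, by omega⟩
          rw [hk]
          simp only [Nat.factorial_succ, show k + 2 - 1 = k + 1 by omega, show k + 2 - 2 = k by omega]
        rw [h4]
        exact Nat.le_mul_of_pos_left _ (by omega)
    exact_mod_cast h3

/-- close covariances -/
lemma wick_lip {A B : ι → ι → ℝ} {M e : ℝ} (hM : 1 ≤ M) (he : 0 ≤ e) (S : Finset ι)
    (hA : ∀ i ∈ S, ∀ j ∈ S, |A i j| ≤ M) (hB : ∀ i ∈ S, ∀ j ∈ S, |B i j| ≤ M)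
    (hAB : ∀ i ∈ S, ∀ j ∈ S, |A i j - B i j| ≤ e) :
    |wick A S - wick B S| ≤ S.card * wc S.card * M ^ S.card * e := by
  induction S using wick_ind with
  | h0 => rw [wick_empty, wick_empty]; simp
  | h1 S m hm hmin ih =>
    rw [wick_rec' A hm hmin, wick_rec' B hm hmin, ← Finset.sum_sub_distrib]
    have hM0 : 0 ≤ M := by linarith
    have hcard : 0 < S.card := Finset.card_pos.2 ⟨m, hm⟩
    have h1 : ∀ t ∈ S.erase m, |A m t * wick A ((S.erase m).erase t) -
        B m t * wick B ((S.erase m).erase t)| ≤
        S.card * wc (S.card - 2) * M ^ S.card * e := by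
      intro t ht
      have ht' := Finset.mem_of_mem_erase ht
      have hc1 : (S.erase m).card = S.card - 1 := Finset.card_erase_of_mem hm
      have hpos : 0 < (S.erase m).card := Finset.card_pos.2 ⟨t, ht⟩
      have hc2 : ((S.erase m).erase t).card = S.card - 2 := by
        rw [Finset.card_erase_of_mem ht, hc1]; omega
      have hs2 : 2 ≤ S.card := by omega
      obtain ⟨T, hT⟩ : ∃ T, T = (S.erase m).erase t := ⟨_, rfl⟩
      have hTS : ∀ i ∈ T, i ∈ S := fun i hi => by
        rw [hT] at hi
        exact Finset.mem_of_mem_erase (Finset.mem_of_mem_erase hi)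
      have h2 := ih T (by rw [hT]; exact erase_ssub hm t) (fun i hi j hj => hA i (hTS i hi) j (hTS j hj))
        (fun i hi j hj => hB i (hTS i hi) j (hTS j hj)) (fun i hi j hj => hAB i (hTS i hi) j (hTS j hj))
      have h3 := wick_abs hM T (C := B) fun i hi j hj => hB i (hTS i hi) j (hTS j hj)
      rw [← hT] at hc2 ⊢
      rw [hc2] at h2 h3
      have e1 : A m t * wick A T - B m t * wick B T =
          A m t * (wick A T - wick B T) + (A m t - B m t) * wick B T := by ring
      rw [e1]
      refine (abs_add_le _ _).trans ?_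
      rw [abs_mul, abs_mul]
      have h4 : |A m t| * |wick A T - wick B T| ≤
          M * (((S.card - 2 : ℕ) : ℝ) * wc (S.card - 2) * M ^ (S.card - 2) * e) :=
        mul_le_mul (hA m hm t ht') h2 (abs_nonneg _) hM0
      have h5 : |A m t - B m t| * |wick B T| ≤ e * (wc (S.card - 2) * M ^ (S.card - 2)) :=
        mul_le_mul (hAB m hm t ht') h3 (abs_nonneg _) he
      refine (add_le_add h4 h5).trans ?_
      have h6 : M ^ (S.card - 2) ≤ M ^ S.card := pow_le_pow_right₀ hM (by omega)
      have h7 : M * M ^ (S.card - 2) ≤ M ^ S.card := by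
        rw [← pow_succ']
        exact pow_le_pow_right₀ hM (by omega)
      have hw := wc_pos (S.card - 2)
      have h8 : (((S.card - 2 : ℕ) : ℝ)) + 1 ≤ S.card := by
        have : S.card - 2 + 1 ≤ S.card := by omega
        exact_mod_cast this
      calc M * (((S.card - 2 : ℕ) : ℝ) * wc (S.card - 2) * M ^ (S.card - 2) * e) +
          e * (wc (S.card - 2) * M ^ (S.card - 2)) =
          ((S.card - 2 : ℕ) : ℝ) * wc (S.card - 2) * e * (M * M ^ (S.card - 2)) +
          e * wc (S.card - 2) * M ^ (S.card - 2) := by ring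
        _ ≤ ((S.card - 2 : ℕ) : ℝ) * wc (S.card - 2) * e * M ^ S.card +
          e * wc (S.card - 2) * M ^ S.card := by gcongr
        _ = (((S.card - 2 : ℕ) : ℝ) + 1) * (wc (S.card - 2) * e * M ^ S.card) := by ring
        _ ≤ S.card * (wc (S.card - 2) * e * M ^ S.card) := by gcongr
        _ = _ := by ring
    refine (Finset.abs_sum_le_sum_abs _ _).trans ((Finset.sum_le_sum h1).trans ?_)
    rw [Finset.sum_const, Finset.card_erase_of_mem hm, nsmul_eq_mul]
    have h3 : (((S.card - 1 : ℕ) : ℝ)) * wc (S.card - 2) ≤ wc S.card := by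
      unfold wc
      have h3 : (S.card - 1) * (S.card - 2).factorial ≤ S.card.factorial := by
        rcases Nat.lt_or_ge S.card 2 with h | h
        · have : S.card = 1 := by omega
          rw [this]; simp
        · have h4 : S.card.factorial = S.card * ((S.card - 1) * (S.card - 2).factorial) := by
            obtain ⟨k, hk⟩ : ∃ k, S.card = k + 2 := ⟨S.card - 2, by omega⟩
            rw [hk]
            simp only [Nat.factorial_succ, show k + 2 - 1 = k + 1 by omega,
              show k + 2 - 2 = k by omega]
          rw [h4]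
          exact Nat.le_mul_of_pos_left _ (by omega)
      exact_mod_cast h3
    calc ((S.card - 1 : ℕ) : ℝ) * (S.card * wc (S.card - 2) * M ^ S.card * e) =
        (((S.card - 1 : ℕ) : ℝ) * wc (S.card - 2)) * (S.card * M ^ S.card * e) := by ring
      _ ≤ wc S.card * (S.card * M ^ S.card * e) :=
          mul_le_mul_of_nonneg_right h3 (by positivity)
      _ = _ := by ring

end

end Pool.Agent.T2h94
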