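import Mathlib
import Pool.Agent.T2h94.W4
import Pool.Agent.T2h94.W5
import Pool.Agent.T2h94.Ker
import Pool.Agent.T2h94.KDef3
import Pool.Agent.W793.YM.Rebase

/-!
# The covariances of the derivatives of the curvature
-/

open MeasureTheory Matrix
open scoped Matrix.Norms.Frobenius ContDiff
open Pool.Agent.H906R3.YM Pool.Agent.W793.YM

namespace Pool.Agent.T2h94

set_option linter.unusedSectionVars false
set_option linter.unusedVariables false

noncomputable section

section

variable {n d l : ℕ} [NeZero l]

lemma ipF_sub_right' (f g h : Fm d l) : ipF f (g - h) = ipF f g - ipF f h := by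
  rw [ipF_comm, ipF_sub_left, ipF_comm, ipF_comm h]

lemma ipF_neg_left' (f g : Fm d l) : ipF (-f) g = -ipF f g := by
  have h := ipF_smul_left (-1) f g
  simpa using h

lemma Cf_TL (K : ℕ) (f g : Fin n → Fm d l) : Cf K f g = ∑ a, ipF (g a) (TL K (f a)) := rfl

lemma Cf_sub_right (K : ℕ) (f g g' : Fin n → Fm d l) :
    Cf K f (g - g') = Cf K f g - Cf K f g' := by
  rw [Cf_TL, Cf_TL, Cf_TL, ← Finset.sum_sub_distrib]
  exact Finset.sum_congr rfl fun a _ => by rw [Pi.sub_apply, ipF_sub_left]

lemma Cf_sub_left (K : ℕ) (f f' g : Fin n → Fm d l) :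
    Cf K (f - f') g = Cf K f g - Cf K f' g := by
  rw [Cf_TL, Cf_TL, Cf_TL, ← Finset.sum_sub_distrib]
  exact Finset.sum_congr rfl fun a _ => by rw [Pi.sub_apply, map_sub, ipF_sub_right']

lemma Cf_neg_neg (K : ℕ) (f g : Fin n → Fm d l) : Cf K (-f) (-g) = Cf K f g := by
  rw [Cf_TL, Cf_TL]
  refine Finset.sum_congr rfl fun a _ => ?_
  rw [Pi.neg_apply, Pi.neg_apply, map_neg, ipF_neg_left', ipF_comm, ipF_neg_left', ipF_comm, neg_neg]

lemma Kk_sub {d : ℕ} (h h' : Fin d → Fin d → ℝ) (p q : Fin d × Fin d) :
    Kk (fun i j => h i j - h' i j) p q = Kk h p q - Kk h' p q := by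
  unfold Kk
  split_ifs <;> ring

/-- the list of differences of a covariance -/
def wl {d : ℕ} (m m' : List (Fin d)) : List (Fin d × Bool) :=
  m'.map (fun k => (k, true)) ++ m.map fun k => (k, false)

/-- the covariance of two derivatives of the curvature -/
def Kc {d : ℕ} (K : ℕ) (p : Fin d × Fin d) (m : List (Fin d)) (p' : Fin d × Fin d)
    (m' : List (Fin d)) (z : Fin d → ℤ) : ℝ :=
  Kk (fun i j => dw (hk d K i j) (wl m m') z) p p'

lemma wl_cons_right {d : ℕ} (m m' : List (Fin d)) (k : Fin d) :
    wl m (k :: m') = (k, true) :: wl m m' := rfl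

lemma wl_cons_left {d : ℕ} (m : List (Fin d)) (k : Fin d) :
    wl (k :: m) [] = (k, false) :: wl m [] := rfl

/-- the covariances of the derivatives of the curvature -/
lemma Cf_ew (hd : 0 < d) (K : ℕ) (a a' : Fin n) (p p' : Fin d × Fin d) (m m' : List (Fin d))
    (x : St d l) (z : Fin d → ℤ) (hz : ∀ s, |z s| + m.length + m'.length + K + 1 < l) :
    Cf K (ew a p m x) (ew a' p' m' (x + zt l z)) = if a = a' then Kc K p m p' m' z else 0 := by
  induction m' generalizing z with
  | nil =>
    induction m generalizing x z with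
    | nil =>
      show Cf K (-ef ⟨a, p.1, p.2, x⟩) (-ef ⟨a', p'.1, p'.2, x + zt l z⟩) = _
      rw [Cf_neg_neg]
      have h := Cv_eq hd K (⟨a, p.1, p.2, x⟩ : Leg n d l) ⟨a', p'.1, p'.2, x + zt l z⟩ z rfl
        (fun s => by
          have := hz s
          simp only [List.length_nil] at this
          push_cast at this
          linarith)
      exact h
    | cons k m ih =>
      have e1 : ew a p (k :: m) x = ew a p m (x + eT k) - ew a p m x := rfl
      rw [e1, Cf_sub_left]
      have e2 : x + zt l z = (x + eT k) + zt l (z - Pi.single k 1) := by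
        rw [zt_sub']; abel
      have h1 := ih (x + eT k) (z - Pi.single k 1) fun s => by
        have h2 := hz s
        have h3 := (abs_single z k s).2
        rw [List.length_cons] at h2
        push_cast at h2 ⊢
        linarith
      have h2 := ih x z fun s => by
        have h2 := hz s
        rw [List.length_cons] at h2
        push_cast at h2 ⊢
        linarith
      rw [← e2] at h1
      rw [h1, h2]
      split_ifs
      · unfold Kc
        rw [wl_cons_left, ← Kk_sub]
        rfl
      · ring
  | cons k m' ih =>
    have e1 : ew a' p' (k :: m') (x + zt l z) =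
        ew a' p' m' (x + zt l (z + Pi.single k 1)) - ew a' p' m' (x + zt l z) := by
      have e2 : x + zt l (z + Pi.single k 1) = x + zt l z + eT k := by
        rw [zt_add]; abel
      rw [e2]
      rfl
    rw [e1, Cf_sub_right]
    have h1 := ih (z + Pi.single k 1) fun s => by
      have h2 := hz s
      have h3 := (abs_single z k s).1
      rw [List.length_cons] at h2
      push_cast at h2 ⊢
      linarith
    have h2 := ih z fun s => by
      have h2 := hz s
      rw [List.length_cons] at h2
      push_cast at h2 ⊢
      linarith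
    rw [h1, h2]
    split_ifs
    · unfold Kc
      rw [wl_cons_right, ← Kk_sub]
      rfl
    · ring

end

/-- the differences of the second difference of the truncated Green function -/
lemma dw_hk {d : ℕ} (K : ℕ) (i j : Fin d) (w : List (Fin d × Bool)) (z : Fin d → ℤ) :
    dw (hk d K i j) w z = dw (gk d K) (w ++ [(i, true), (j, false)]) z := by
  induction w generalizing z with
  | nil =>
    show hk d K i j z = (gk d K (z + Pi.single i 1 - Pi.single j 1) - gk d K (z + Pi.single i 1)) -
      (gk d K (z - Pi.single j 1) - gk d K z)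
    unfold hk gk
    simp only [Finset.sum_add_distrib, Finset.sum_sub_distrib]
    ring
  | cons u w ih =>
    obtain ⟨k, t⟩ := u
    cases t
    · show dw (hk d K i j) w (z - Pi.single k 1) - dw (hk d K i j) w z =
        dw (gk d K) (w ++ [(i, true), (j, false)]) (z - Pi.single k 1) -
        dw (gk d K) (w ++ [(i, true), (j, false)]) z
      rw [ih, ih]
    · show dw (hk d K i j) w (z + Pi.single k 1) - dw (hk d K i j) w z =
        dw (gk d K) (w ++ [(i, true), (j, false)]) (z + Pi.single k 1) -
        dw (gk d K) (w ++ [(i, true), (j, false)]) z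
      rw [ih, ih]

lemma sgw_wl {d : ℕ} (m m' : List (Fin d)) (i j : Fin d) :
    sgw (wl m m' ++ [(i, true), (j, false)]) = (-1) ^ (m.length + 1) := by
  unfold wl
  induction m' with
  | nil =>
    simp only [List.map_nil, List.nil_append]
    induction m with
    | nil => simp [sgw]
    | cons k m ih =>
      show -sgw (m.map (fun k => (k, false)) ++ [(i, true), (j, false)]) = _
      rw [ih, List.length_cons, pow_succ]
      ring
  | cons k m' ih => exact ih

lemma wl_map {d : ℕ} (m m' : List (Fin d)) (i j : Fin d) :
    (wl m m' ++ [(i, true), (j, false)]).map Prod.fst = m' ++ m ++ [i, j] := by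
  unfold wl
  simp [Function.comp_def]

lemma wl_length {d : ℕ} (m m' : List (Fin d)) (i j : Fin d) :
    (wl m m' ++ [(i, true), (j, false)]).length = m.length + m'.length + 2 := by
  unfold wl
  simp only [List.length_append, List.length_map, List.length_cons, List.length_nil]
  ring

variable {G : Type*} [Group G] [TopologicalSpace G] [IsTopologicalGroup G] [CompactSpace G]
  [SecondCountableTopology G] [MeasurableSpace G] [BorelSpace G] (μ : Measure G)
  [IsProbabilityMeasure μ] [μ.IsMulLeftInvariant] [μ.IsMulRightInvariant] [μ.IsInvInvariant]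
  {N n : ℕ} {L : LD G N n}

/-! ### the change of gauge -/

lemma ip_X_conj (g : G) (M : Mat N) (a : Fin n) :
    ip (L.X a) (L.rho g * M * (L.rho g)ᴴ) = ∑ b, L.adm g a b * ip (L.X b) M := by
  rw [ip_conj]
  have h2 := conj_eq (L := L) g⁻¹ a
  rw [L.rho_inv, conjTranspose_conjTranspose] at h2
  rw [h2, ip_comm, map_sum]
  refine Finset.sum_congr rfl fun b _ => ?_
  rw [map_smul, smul_eq_mul, ip_comm, adm_inv]

lemma adm_col (g : G) (b b' : Fin n) :
    ∑ a, L.adm g a b * L.adm g a b' = if b = b' then 1 else 0 := by
  have h := sum_adm_adm (L := L) g⁻¹ b b'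
  simp only [adm_inv] at h
  exact h

/-- an invariant form in terms of the coefficients of the adjoint action -/
lemma inv_form {k : ℕ} (P : MultilinearMap ℝ (fun _ : Fin k => Mat N) ℝ)
    (hP : ∀ (g : G) (c : Fin k → Fin n),
      P (fun i => L.rho g * L.X (c i) * (L.rho g)ᴴ) = P fun i => L.X (c i)) (g : G)
    (γ : Fin k → Fin n) : P (fun i => L.X (γ i)) =
      ∑ α : Fin k → Fin n, (∏ i, L.adm g (α i) (γ i)) * P fun i => L.X (α i) := by
  rw [← hP g γ]
  have h1 : (fun i => L.rho g * L.X (γ i) * (L.rho g)ᴴ) =
      fun i => ∑ b, L.adm g b (γ i) • L.X b := by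
    funext i; exact conj_eq g (γ i)
  rw [h1, MultilinearMap.map_sum]
  refine Finset.sum_congr rfl fun α _ => ?_
  rw [MultilinearMap.map_smul_univ, smul_eq_mul]

end

end Pool.Agent.T2h94
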