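import Mathlib
import Pool.Agent.T2h94.W6

/-!
# Products of components of the covariant derivatives of the curvature
-/

open MeasureTheory Matrix
open scoped Matrix.Norms.Frobenius ContDiff
open Pool.Agent.H906R3.YM Pool.Agent.W793.YM

namespace Pool.Agent.T2h94

set_option linter.unusedSectionVars false
set_option linter.unusedVariables false

noncomputable section

variable {G : Type*} [Group G] [TopologicalSpace G] [IsTopologicalGroup G] [CompactSpace G]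
  [SecondCountableTopology G] [MeasurableSpace G] [BorelSpace G] (μ : Measure G)
  [IsProbabilityMeasure μ] [μ.IsMulLeftInvariant] [μ.IsMulRightInvariant] [μ.IsInvInvariant]
  {N n : ℕ} {L : LD G N n}

section

variable {d l : ℕ} [NeZero l]

variable (L) in
/-- the components of the covariant derivatives of the curvature -/
def Cc (b : ℝ) (a : Fin n) (D : Slot d) (x : St d l) (U : Ed d l → G) : ℝ :=
  b ^ 2 * ip (L.X a) (cvT L U D.1 D.2 x)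

variable (L) in
/-- the components of the covariant derivatives of the curvature in the comb gauge -/
def Cg (b : ℝ) (a : Fin n) (D : Slot d) (x : St d l) (U : Ed d l → G) : ℝ :=
  b ^ 2 * ip (L.X a) (cbT L U D.1 D.2 x)

lemma Cg_Cc (b : ℝ) (a : Fin n) (D : Slot d) (x : St d l) (U : Ed d l → G) :
    Cg L b a D x U = ∑ a', L.adm (Pc U x) a a' * Cc L b a' D x U := by
  unfold Cg Cc cbT
  rw [ip_X_conj, Finset.mul_sum]
  exact Finset.sum_congr rfl fun a' _ => by ring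

lemma ip_cont (a : Fin n) {T : Type*} [TopologicalSpace T] {F : T → Mat N} (hF : Continuous F) :
    Continuous fun t => ip (L.X a) (F t) := by
  simp only [ip_apply]
  exact Complex.continuous_re.comp ((continuous_const.matrix_mul hF).matrix_trace)

lemma Cc_cont (b : ℝ) (a : Fin n) (D : Slot d) (x : St d l) :
    Continuous (Cc L b a D x : (Ed d l → G) → ℝ) :=
  continuous_const.mul (ip_cont a (cvT_cont _ _ _))

lemma cbT_cont (p : Fin d × Fin d) (m : List (Fin d)) (x : St d l) :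
    Continuous fun U : Ed d l → G => cbT L U p m x := by
  have h1 : Continuous fun U : Ed d l → G => L.rho (Pc U x) := L.cont.comp (Pc_cont x)
  exact (h1.matrix_mul (cvT_cont _ _ _)).matrix_mul h1.matrix_conjTranspose

lemma Cg_cont (b : ℝ) (a : Fin n) (D : Slot d) (x : St d l) :
    Continuous (Cg L b a D x : (Ed d l → G) → ℝ) :=
  continuous_const.mul (ip_cont a (cbT_cont _ _ _))

/-- the sum over the colours is gauge invariant -/
lemma sum_Cc (b : ℝ) (D D' : Slot d) (x : St d l) (U : Ed d l → G) :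
    ∑ a, Cc L b a D x U * Cc L b a D' x U = ∑ a, Cg L b a D x U * Cg L b a D' x U := by
  simp only [Cg_Cc]
  have h1 : ∀ a, (∑ a', L.adm (Pc U x) a a' * Cc L b a' D x U) *
      (∑ a', L.adm (Pc U x) a a' * Cc L b a' D' x U) = ∑ e, ∑ e',
      (Cc L b e D x U * Cc L b e' D' x U) * (L.adm (Pc U x) a e * L.adm (Pc U x) a e') := by
    intro a
    rw [Finset.sum_mul_sum]
    exact Finset.sum_congr rfl fun e _ => Finset.sum_congr rfl fun e' _ => by ring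
  rw [Finset.sum_congr rfl fun a _ => h1 a, Finset.sum_comm]
  refine Finset.sum_congr rfl fun e _ => ?_
  rw [Finset.sum_comm]
  have h4 : ∀ e', ∑ a, (Cc L b e D x U * Cc L b e' D' x U) *
      (L.adm (Pc U x) a e * L.adm (Pc U x) a e') =
      (Cc L b e D x U * Cc L b e' D' x U) * if e = e' then 1 else 0 := by
    intro e'
    rw [← Finset.mul_sum, adm_col]
  rw [Finset.sum_congr rfl fun e' _ => h4 e']
  simp

/-- the size of a component -/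
lemma Cg_le {M ℓ : ℕ} (hM : M < l) (b : ℝ) (a : Fin n) {D : Slot d} (hD : D.2.length ≤ ℓ)
    {x : St d l} (hx : ∀ i, wv x i + ℓ < M) (U : Ed d l → G) :
    |Cg L b a D x U| ≤ 2 ^ ℓ * (b ^ 2 * sB L M U) := by
  unfold Cg
  rw [abs_mul, abs_of_nonneg (sq_nonneg b)]
  have h0 : ip (L.X a) (cbT L U D.1 D.2 x) = ip (L.X a) (cbT L U D.1 D.2 x - c0 N D.2) := by
    rw [map_sub, ip_X_c0, sub_zero]
  have h1 : |ip (L.X a) (cbT L U D.1 D.2 x)| ≤ 2 ^ ℓ * sB L M U := by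
    rw [h0]
    refine (ip_X_le _ _).trans ((cb_small hM U D.1 D.2 fun i => by have := hx i; omega).trans ?_)
    refine mul_le_mul_of_nonneg_right ?_ (sB_nonneg _ _)
    exact pow_le_pow_right₀ (by norm_num) hD
  calc b ^ 2 * |ip (L.X a) (cbT L U D.1 D.2 x)| ≤ b ^ 2 * (2 ^ ℓ * sB L M U) :=
        mul_le_mul_of_nonneg_left h1 (sq_nonneg b)
    _ = _ := by ring

lemma Cg_near {M ℓ : ℕ} (hM : M < l) {b : ℝ} (hb : 0 < b) (a : Fin n) {D : Slot d}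
    (hD : D.2.length ≤ ℓ) {x : St d l} (hx : ∀ i, wv x i + ℓ < M) (U : Ed d l → G) :
    |Cg L b a D x U - Ph L b (ew a D.1 D.2 x) U| ≤
      ℓ * 2 ^ ℓ * (d * M) / b ^ 2 * (b ^ 2 * sB L M U) ^ 2 := by
  unfold Cg Ph
  rw [← ip_lnT, ← mul_sub, ← map_sub, abs_mul, abs_of_nonneg (sq_nonneg b)]
  have h1 := (ip_X_le (L := L) a (cbT L U D.1 D.2 x - lnT L U D.1 D.2 x)).trans
    (cb_ln hM U D.1 D.2 fun i => by have := hx i; omega)
  have h2 : (D.2.length : ℝ) * 2 ^ D.2.length * (d * M) * sB L M U ^ 2 ≤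
      ℓ * 2 ^ ℓ * (d * M) * sB L M U ^ 2 := by
    have e1 : (D.2.length : ℝ) ≤ ℓ := by exact_mod_cast hD
    have e2 : (2 : ℝ) ^ D.2.length ≤ 2 ^ ℓ := pow_le_pow_right₀ (by norm_num) hD
    gcongr
  calc b ^ 2 * |ip (L.X a) (cbT L U D.1 D.2 x - lnT L U D.1 D.2 x)| ≤
      b ^ 2 * (ℓ * 2 ^ ℓ * (d * M) * sB L M U ^ 2) :=
        mul_le_mul_of_nonneg_left (h1.trans h2) (sq_nonneg b)
    _ = _ := by field_simp

lemma ew_Ok {K ℓ : ℕ} {a : Fin n} {D : Slot d} (hD : D.2.length ≤ ℓ) {x : St d l}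
    (hx : ∀ i, K + 2 ≤ wv x i ∧ wv x i + ℓ < 2 * K + 2) (hK : 2 * K + 2 < l) :
    Ok K (2 * 2 ^ ℓ) (ew a D.1 D.2 x) where
  asy := ew_asy _ _ _ _
  sup := fun a' j k => ew_SW a D.1 D.2 (fun i => by have := hx i; omega) hK a' j k
  nrm := (ew_N1 _ _ _ _).trans (by
    have : (2 : ℝ) ^ D.2.length ≤ 2 ^ ℓ := pow_le_pow_right₀ (by norm_num) hD
    linarith)

lemma ew_supp {K ℓ : ℕ} {a : Fin n} {D : Slot d} (hD : D.2.length ≤ ℓ) {x : St d l}
    (hx : ∀ i, K + 2 ≤ wv x i ∧ wv x i + ℓ < 2 * K + 2) (hK : 2 * K + 2 < l) (a' : Fin n)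
    (j k : Fin d) (y : St d l) (hy : ew a D.1 D.2 x a' j k y ≠ 0) (i : Fin d) :
    wv y i < 2 * K + 2 :=
  ((ew_Ok (a := a) hD hx hK).sup a' j k y hy i).2

end

lemma one_add_pow_le {y : ℝ} (hy : 0 ≤ y) (j : ℕ) : (1 + y) ^ j ≤ 2 ^ j * (1 + y ^ j) := by
  rcases le_total y 1 with h | h
  · calc (1 + y) ^ j ≤ 2 ^ j := pow_le_pow_left₀ (by linarith) (by linarith) j
      _ ≤ 2 ^ j * (1 + y ^ j) := by
        have : 0 ≤ y ^ j := by positivity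
        nlinarith [pow_pos (show (0 : ℝ) < 2 by norm_num) j]
  · calc (1 + y) ^ j ≤ (2 * y) ^ j := pow_le_pow_left₀ (by linarith) (by linarith) j
      _ = 2 ^ j * y ^ j := mul_pow _ _ _
      _ ≤ 2 ^ j * (1 + y ^ j) := by
        have : (0 : ℝ) < 2 ^ j := by positivity
        nlinarith

/-- the products in the comb gauge are close to the linear ones -/
theorem near_gen (d k q ℓ : ℕ) : ∃ C : ℝ, 0 < C ∧ ∀ c : ℝ, 1 ≤ c →
    ∀ (m K : ℕ) [NeZero m], 1 ≤ K → 3 * K + 5 < 2 * m →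
    ∀ (ι : Type) [DecidableEq ι] (S : Finset ι), S.card = k →
      ∀ (a : ι → Fin n) (D : ι → Slot d) (x : ι → St d (2 * m)), (∀ s ∈ S, (D s).2.length ≤ ℓ) →
      (∀ s ∈ S, ∀ i, K + 2 ≤ wv (x s) i ∧ wv (x s) i + ℓ < 2 * K + 2) →
      |EX μ L ((c ^ q) ^ 4) (fun U : Ed d (2 * m) → G =>
          ∏ s ∈ S, Cg L (c ^ q) (a s) (D s) (x s) U) -
        EX μ L ((c ^ q) ^ 4) (fun U : Ed d (2 * m) → G =>
          ∏ s ∈ S, Ph L (c ^ q) (ew (a s) (D s).1 (D s).2 (x s)) U)| ≤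
        C * c * ((K : ℝ) ^ (d * (k + 2) + 3) / (c ^ q) ^ 2) := by
  obtain ⟨C1, hC1, hsB⟩ := sB_all μ (L := L) (k + 1) q
  obtain ⟨Λ, hΛ⟩ : ∃ Λ : ℝ, Λ = 2 * 2 ^ ℓ := ⟨_, rfl⟩
  have hΛ1 : 1 ≤ Λ := by
    have : (1 : ℝ) ≤ 2 ^ ℓ := one_le_pow₀ (by norm_num)
    rw [hΛ]; linarith
  refine ⟨k * (ℓ * 2 ^ ℓ * (d * 4)) * (2 ^ (k + 2) * (1 + Λ ^ (k + 2) *
    (C1 * (4 ^ d * d ^ 2) ^ (k + 2)))) + 1, by positivity, fun c hc m K _ hK hKm ι _ S hS a D x hD hx => ?_⟩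
  have hc0 : 0 < c := by linarith
  obtain ⟨b, hb⟩ : ∃ b, b = c ^ q := ⟨_, rfl⟩
  have hb1 : 1 ≤ b := by rw [hb]; exact one_le_pow₀ hc
  have hb0 : 0 < b := by linarith
  have hm : 2 ≤ m := by omega
  have hK1 : (1 : ℝ) ≤ K := by exact_mod_cast hK
  have hK0 : (0 : ℝ) < K := by linarith
  obtain ⟨M, hM⟩ : ∃ M, M = 2 * K + 2 := ⟨_, rfl⟩
  have hM4 : (M : ℝ) ≤ 4 * K := by rw [hM]; push_cast; linarith
  have hM0 : (0 : ℝ) ≤ M := Nat.cast_nonneg _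
  have hMl : M < 2 * m := by omega
  have hsB' := hsB c hc d m hm M
  rw [← hb] at hsB' ⊢
  obtain ⟨y, hy⟩ : ∃ y : (Ed d (2 * m) → G) → ℝ, y = fun U => b ^ 2 * sB L M U := ⟨_, rfl⟩
  have hyc : Continuous y := by rw [hy]; exact continuous_const.mul (sB_cont M)
  have hy0 : ∀ U, 0 ≤ y U := fun U => by
    rw [hy]; exact mul_nonneg (sq_nonneg _) (sB_nonneg _ _)
  obtain ⟨F, hF⟩ : ∃ F : ℝ, F = ℓ * 2 ^ ℓ * (d * M) / b ^ 2 := ⟨_, rfl⟩
  have hF0 : 0 ≤ F := by rw [hF]; positivity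
  -- the pointwise bound
  have hpt : ∀ U : Ed d (2 * m) → G, |∏ s ∈ S, Cg L b (a s) (D s) (x s) U -
      ∏ s ∈ S, Ph L b (ew (a s) (D s).1 (D s).2 (x s)) U| ≤
      (k * F * 2 ^ (k + 2)) * (1 + Λ ^ (k + 2) * y U ^ (k + 2)) := by
    intro U
    have hyU := hy0 U
    have hxM : ∀ s ∈ S, ∀ i, wv (x s) i + ℓ < M := fun s hs i => by
      have := (hx s hs i).2; omega
    have e1 : ∀ s ∈ S, |Cg L b (a s) (D s) (x s) U| ≤ 1 + Λ * y U := by
      intro s hs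
      have h1 := Cg_le (L := L) hMl b (a s) (hD s hs) (hxM s hs) U
      have h2 : (2 : ℝ) ^ ℓ * (b ^ 2 * sB L M U) ≤ Λ * y U := by
        rw [hΛ, hy]
        have := hy0 U
        rw [hy] at this
        have h3 : (0 : ℝ) < 2 ^ ℓ := by positivity
        nlinarith
      linarith
    have e2 : ∀ s ∈ S, |Ph L b (ew (a s) (D s).1 (D s).2 (x s)) U| ≤ 1 + Λ * y U := by
      intro s hs
      have h1 := Ph_sB (L := L) (M := M) b (Λ := Λ) (f := ew (a s) (D s).1 (D s).2 (x s))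
        (by rw [hΛ]; exact (ew_Ok (hD s hs) (hx s hs) (by omega)).nrm)
        (fun a' j k y hy i => by
          rw [hM]; exact ew_supp (hD s hs) (hx s hs) (by omega) a' j k y hy i) U
      have h2 : Λ * (b ^ 2 * sB L M U) = Λ * y U := by rw [hy]
      linarith
    have e3 : ∀ s ∈ S, |Cg L b (a s) (D s) (x s) U - Ph L b (ew (a s) (D s).1 (D s).2 (x s)) U| ≤
        F * y U ^ 2 := by
      intro s hs
      have h1 := Cg_near (L := L) hMl hb0 (a s) (hD s hs) (hxM s hs) U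
      rw [hF, hy]
      exact h1
    have hZ1 : 1 ≤ 1 + Λ * y U := by
      have : 0 ≤ Λ * y U := by positivity
      linarith
    refine (prod_close S hZ1 (by positivity) e1 e2 e3).trans ?_
    rw [hS]
    have h4 : y U ^ 2 ≤ (1 + Λ * y U) ^ 2 := by
      refine pow_le_pow_left₀ hyU ?_ 2
      have : y U ≤ Λ * y U := le_mul_of_one_le_left hyU hΛ1
      linarith
    have h5 := one_add_pow_le (y := Λ * y U) (by positivity) (k + 2)
    calc (k : ℝ) * (F * y U ^ 2) * (1 + Λ * y U) ^ k ≤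
        k * (F * (1 + Λ * y U) ^ 2) * (1 + Λ * y U) ^ k := by gcongr
      _ = k * F * (1 + Λ * y U) ^ (k + 2) := by rw [pow_add]; ring
      _ ≤ k * F * (2 ^ (k + 2) * (1 + (Λ * y U) ^ (k + 2))) := by gcongr
      _ = _ := by rw [mul_pow]; ring
  -- the expectation
  have c1 : Continuous fun U : Ed d (2 * m) → G => ∏ s ∈ S, Cg L b (a s) (D s) (x s) U :=
    continuous_finsetProd _ fun s _ => Cg_cont _ _ _ _
  have c2 : Continuous fun U : Ed d (2 * m) → G =>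
      ∏ s ∈ S, Ph L b (ew (a s) (D s).1 (D s).2 (x s)) U := Php_cont _ _ _
  have h1 := EX_sub μ (L := L) (β := b ^ 4) c1 c2
  rw [← h1]
  refine (EX_abs μ (c1.sub c2)).trans ?_
  refine (EX_mono μ (c1.sub c2).abs (H := fun U => (k * F * 2 ^ (k + 2)) *
    (1 + Λ ^ (k + 2) * y U ^ (k + 2)))
    (continuous_const.mul (continuous_const.add (continuous_const.mul (hyc.pow _)))) hpt).trans ?_
  rw [EX_smul, EX_add μ (F := fun _ : Ed d (2 * m) → G => 1) (H := fun U =>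
    Λ ^ (k + 2) * y U ^ (k + 2)) continuous_const
    (continuous_const.mul (hyc.pow _)), EX_const, EX_smul]
  have h2 : EX μ L (b ^ 4) (fun U : Ed d (2 * m) → G => y U ^ (k + 2)) ≤
      C1 * ((M : ℝ) ^ d * d ^ 2) ^ (k + 2) * c := by rw [hy]; exact hsB'
  have h3 : ((M : ℝ) ^ d * d ^ 2) ^ (k + 2) ≤ (4 ^ d * d ^ 2) ^ (k + 2) * (K : ℝ) ^ (d * (k + 2)) := by
    have : (M : ℝ) ^ d * d ^ 2 ≤ (4 ^ d * d ^ 2) * (K : ℝ) ^ d := by
      calc (M : ℝ) ^ d * d ^ 2 ≤ (4 * K) ^ d * d ^ 2 := by gcongr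
        _ = _ := by rw [mul_pow]; ring
    calc _ ≤ ((4 ^ d * d ^ 2) * (K : ℝ) ^ d) ^ (k + 2) := pow_le_pow_left₀ (by positivity) this _
      _ = _ := by rw [mul_pow, ← pow_mul]
  have hKp : 1 ≤ (K : ℝ) ^ (d * (k + 2)) := one_le_pow₀ hK1
  have h4 : 1 + Λ ^ (k + 2) * EX μ L (b ^ 4) (fun U : Ed d (2 * m) → G => y U ^ (k + 2)) ≤
      (1 + Λ ^ (k + 2) * (C1 * (4 ^ d * d ^ 2) ^ (k + 2))) * ((K : ℝ) ^ (d * (k + 2)) * c) := by
    have e1 : 1 ≤ (K : ℝ) ^ (d * (k + 2)) * c := one_le_mul_of_one_le_of_one_le hKp hc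
    have e2 : EX μ L (b ^ 4) (fun U : Ed d (2 * m) → G => y U ^ (k + 2)) ≤
        C1 * (4 ^ d * d ^ 2) ^ (k + 2) * ((K : ℝ) ^ (d * (k + 2)) * c) := by
      refine h2.trans ?_
      calc C1 * ((M : ℝ) ^ d * d ^ 2) ^ (k + 2) * c ≤
          C1 * ((4 ^ d * d ^ 2) ^ (k + 2) * (K : ℝ) ^ (d * (k + 2))) * c := by gcongr
        _ = _ := by ring
    calc _ ≤ (K : ℝ) ^ (d * (k + 2)) * c + Λ ^ (k + 2) * (C1 * (4 ^ d * d ^ 2) ^ (k + 2) *
          ((K : ℝ) ^ (d * (k + 2)) * c)) := add_le_add e1 (by gcongr)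
      _ = _ := by ring
  have h5 : F ≤ ℓ * 2 ^ ℓ * (d * 4) * (K / b ^ 2) := by
    rw [hF]
    calc ℓ * 2 ^ ℓ * (d * (M : ℝ)) / b ^ 2 ≤ ℓ * 2 ^ ℓ * (d * (4 * K)) / b ^ 2 := by gcongr
      _ = _ := by ring
  have hexp : (K : ℝ) * (K : ℝ) ^ (d * (k + 2)) ≤ (K : ℝ) ^ (d * (k + 2) + 3) := by
    rw [← pow_succ']
    exact pow_le_pow_right₀ hK1 (by omega)
  obtain ⟨Q, hQ⟩ : ∃ Q : ℝ, Q = 1 + Λ ^ (k + 2) * (C1 * (4 ^ d * d ^ 2) ^ (k + 2)) := ⟨_, rfl⟩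
  have hQ0 : 0 ≤ Q := by rw [hQ]; positivity
  rw [← hQ] at h4 ⊢
  calc k * F * 2 ^ (k + 2) * (1 + Λ ^ (k + 2) * EX μ L (b ^ 4)
      (fun U : Ed d (2 * m) → G => y U ^ (k + 2))) ≤
      k * (ℓ * 2 ^ ℓ * (d * 4) * (K / b ^ 2)) * 2 ^ (k + 2) * (Q * ((K : ℝ) ^ (d * (k + 2)) * c)) := by
        refine (mul_le_mul_of_nonneg_left h4 (by positivity)).trans ?_
        refine mul_le_mul_of_nonneg_right ?_ (by positivity)
        gcongr
    _ = k * (ℓ * 2 ^ ℓ * (d * 4)) * (2 ^ (k + 2) * Q) * c *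
        ((K * (K : ℝ) ^ (d * (k + 2))) / b ^ 2) := by ring
    _ ≤ k * (ℓ * 2 ^ ℓ * (d * 4)) * (2 ^ (k + 2) * Q) * c *
        ((K : ℝ) ^ (d * (k + 2) + 3) / b ^ 2) := by gcongr
    _ ≤ _ := by
        have : 0 ≤ c * ((K : ℝ) ^ (d * (k + 2) + 3) / b ^ 2) := by positivity
        linarith

/-- the products in the comb gauge are nearly Gaussian -/
theorem comb_gauss {d : ℕ} (hd : 3 ≤ d) (q ℓ : ℕ) (k : ℕ) : ∃ C : ℝ, 0 < C ∧ ∀ c : ℝ, 1 ≤ c →
    ∀ (m K : ℕ) [NeZero m], 1 ≤ K → 3 * K + 5 < 2 * m →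
    ∀ (ι : Type) [LinearOrder ι] (S : Finset ι), S.card = k →
      ∀ (a : ι → Fin n) (D : ι → Slot d) (x : ι → St d (2 * m)), (∀ s ∈ S, (D s).2.length ≤ ℓ) →
      (∀ s ∈ S, ∀ i, K + 2 ≤ wv (x s) i ∧ wv (x s) i + ℓ < 2 * K + 2) →
      |EX μ L ((c ^ q) ^ 4) (fun U : Ed d (2 * m) → G =>
          ∏ s ∈ S, Cg L (c ^ q) (a s) (D s) (x s) U) -
        wick (fun i j => Cf K (ew (a i) (D i).1 (D i).2 (x i)) (ew (a j) (D j).1 (D j).2 (x j))) S| ≤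
        C * (c * (1 / Real.sqrt (Real.sqrt K) + (K : ℝ) ^ (d * (k + 2) + 3) / (c ^ q) ^ 2)) := by
  obtain ⟨C1, hC1, h1⟩ := near_gen μ (L := L) d k q ℓ
  obtain ⟨C2, hC2, h2⟩ := gauss_gen μ (L := L) hd q k
  refine ⟨C1 + C2 * (2 * 2 ^ ℓ) ^ k, by positivity,
    fun c hc m K _ hK hKm ι _ S hS a D x hD hx => ?_⟩
  have e1 := h1 c hc m K hK hKm ι S hS a D x hD hx
  have hΛ1 : (1 : ℝ) ≤ 2 * 2 ^ ℓ := by
    have : (1 : ℝ) ≤ 2 ^ ℓ := one_le_pow₀ (by norm_num)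
    linarith
  have e2 := h2 c hc m K hK hKm (2 * 2 ^ ℓ) hΛ1 ι S hS
    (fun s => ew (a s) (D s).1 (D s).2 (x s)) fun s hs => ew_Ok (hD s hs) (hx s hs) (by omega)
  have hc0 : 0 < c := by linarith
  have hK1 : (1 : ℝ) ≤ K := by exact_mod_cast hK
  have hK0 : (0 : ℝ) < K := by linarith
  have hcq : 0 < (c ^ q) ^ 2 := by positivity
  have e3 : (K : ℝ) ^ (d * (k + 1) + 3) ≤ (K : ℝ) ^ (d * (k + 2) + 3) := by
    refine pow_le_pow_right₀ hK1 ?_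
    have : d * (k + 1) ≤ d * (k + 2) := Nat.mul_le_mul_left d (by omega)
    omega
  refine (abs_sub_le _ _ _).trans ((add_le_add e1 e2).trans ?_)
  have hs : 0 ≤ 1 / Real.sqrt (Real.sqrt K) := by positivity
  calc C1 * c * ((K : ℝ) ^ (d * (k + 2) + 3) / (c ^ q) ^ 2) + C2 * c * (2 * 2 ^ ℓ) ^ k *
      (1 / Real.sqrt (Real.sqrt K) + (K : ℝ) ^ (d * (k + 1) + 3) / (c ^ q) ^ 2) ≤
      C1 * c * (1 / Real.sqrt (Real.sqrt K) + (K : ℝ) ^ (d * (k + 2) + 3) / (c ^ q) ^ 2) +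
      C2 * c * (2 * 2 ^ ℓ) ^ k *
      (1 / Real.sqrt (Real.sqrt K) + (K : ℝ) ^ (d * (k + 2) + 3) / (c ^ q) ^ 2) := by
        have : C1 * c * ((K : ℝ) ^ (d * (k + 2) + 3) / (c ^ q) ^ 2) ≤ C1 * c *
          (1 / Real.sqrt (Real.sqrt K) + (K : ℝ) ^ (d * (k + 2) + 3) / (c ^ q) ^ 2) :=
          mul_le_mul_of_nonneg_left (le_add_of_nonneg_left hs) (by positivity)
        refine add_le_add this ?_
        gcongr
    _ = _ := by ring

/-- the same with uniform constants -/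
theorem comb_unif {d : ℕ} (hd : 3 ≤ d) (q ℓ : ℕ) (κ : ℕ) : ∃ C : ℝ, 0 < C ∧ ∀ c : ℝ, 1 ≤ c →
    ∀ (m K : ℕ) [NeZero m], 1 ≤ K → 3 * K + 5 < 2 * m →
    ∀ (ι : Type) [LinearOrder ι] (S : Finset ι), S.card ≤ κ →
      ∀ (a : ι → Fin n) (D : ι → Slot d) (x : ι → St d (2 * m)), (∀ s ∈ S, (D s).2.length ≤ ℓ) →
      (∀ s ∈ S, ∀ i, K + 2 ≤ wv (x s) i ∧ wv (x s) i + ℓ < 2 * K + 2) →
      |EX μ L ((c ^ q) ^ 4) (fun U : Ed d (2 * m) → G =>
          ∏ s ∈ S, Cg L (c ^ q) (a s) (D s) (x s) U) -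
        wick (fun i j => Cf K (ew (a i) (D i).1 (D i).2 (x i)) (ew (a j) (D j).1 (D j).2 (x j))) S| ≤
        C * (c * (1 / Real.sqrt (Real.sqrt K) + (K : ℝ) ^ (d * (κ + 2) + 3) / (c ^ q) ^ 2)) := by
  have h := fun k => comb_gauss μ (L := L) hd q ℓ k
  choose C hC h using h
  refine ⟨∑ k ∈ Finset.range (κ + 1), C k, Finset.sum_pos (fun k _ => hC k) ⟨0, by simp⟩,
    fun c hc m K _ hK hKm ι _ S hS a D x hD hx => ?_⟩
  refine (h S.card c hc m K hK hKm ι S rfl a D x hD hx).trans ?_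
  have hc0 : 0 < c := by linarith
  have hK1 : (1 : ℝ) ≤ K := by exact_mod_cast hK
  have e1 : C S.card ≤ ∑ k ∈ Finset.range (κ + 1), C k :=
    Finset.single_le_sum (f := C) (fun k _ => (hC k).le) (Finset.mem_range.2 (by omega))
  have e3 : (K : ℝ) ^ (d * (S.card + 2) + 3) ≤ (K : ℝ) ^ (d * (κ + 2) + 3) := by
    refine pow_le_pow_right₀ hK1 ?_
    have : d * (S.card + 2) ≤ d * (κ + 2) := Nat.mul_le_mul_left d (by omega)
    omega
  have h0 : 0 ≤ ∑ k ∈ Finset.range (κ + 1), C k := (hC _).le.trans e1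
  gcongr

end

end Pool.Agent.T2h94
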