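import Mathlib
import Pool.Agent.T2h94.W7
import Pool.Agent.T2h94.Tor
import Pool.Agent.T2h69.WA1
import Pool.Agent.T2h69.WA2
import Pool.Agent.T2h69.WA3

/-!
# The local fields on the periodic lattice
-/

open MeasureTheory Matrix
open scoped Matrix.Norms.Frobenius ContDiff
open Pool.Agent.H906R3.YM Pool.Agent.W793.YM

namespace Pool.Agent.T2h94

set_option linter.unusedSectionVars false
set_option linter.unusedVariables false

noncomputable section

/-- the legs of `r` vertices -/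
abbrev Lw {r : ℕ} (k : Fin r → ℕ) := Σₗ s : Fin r, Fin (k s)

/-- the Wick product -/
def Wp {k : ℕ} (C : Fin k → Fin k → ℝ) (φ : Fin k → ℝ) : ℝ :=
  ∑ T : Finset (Fin k), wick (fun i j => -C i j) Tᶜ * ∏ i ∈ T, φ i

variable {G : Type*} [Group G] [TopologicalSpace G] [IsTopologicalGroup G] [CompactSpace G]
  [SecondCountableTopology G] [MeasurableSpace G] [BorelSpace G] (μ : Measure G)
  [IsProbabilityMeasure μ] [μ.IsMulLeftInvariant] [μ.IsMulRightInvariant] [μ.IsInvInvariant]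
  {N n : ℕ} {L : LD G N n}

section

variable {d l : ℕ} [NeZero l]

variable (L) in
/-- the measured covariance of two components at one point -/
def sg (b : ℝ) (x : St d l) (D D' : Slot d) : ℝ :=
  1 / n * ∑ a, EX μ L (b ^ 4) (fun U : Ed d l → G => Cc L b a D x U * Cc L b a D' x U)

variable (L) in
/-- the local field -/
def Op (b : ℝ) {k : ℕ} (P : (Fin k → Fin n) → ℝ) (σ : Slot d → Slot d → ℝ) (D : Fin k → Slot d)
    (x : St d l) (U : Ed d l → G) : ℝ :=
  ∑ γ : Fin k → Fin n, P γ * Wp (fun i j => if γ i = γ j then σ (D i) (D j) else 0)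
    fun i => Cc L b (γ i) (D i) x U

/-- the local field in the comb gauge -/
lemma Op_gauge (b : ℝ) {k : ℕ} {P : (Fin k → Fin n) → ℝ}
    (hP : ∀ (g : G) γ, P γ = ∑ α : Fin k → Fin n, (∏ i, L.adm g (α i) (γ i)) * P α)
    (σ : Slot d → Slot d → ℝ) (D : Fin k → Slot d) (x : St d l) (U : Ed d l → G) :
    Op L b P σ D x U = ∑ γ : Fin k → Fin n, P γ *
      Wp (fun i j => if γ i = γ j then σ (D i) (D j) else 0) fun i => Cg L b (γ i) (D i) x U := by
  have h := T2h69.WA3.main (L.adm (Pc U x)) (adm_col (Pc U x)) (sum_adm_adm (Pc U x))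
    (fun i j => -σ (D i) (D j)) P (hP (Pc U x)) fun i b' => Cc L b b' (D i) x U
  have e : ∀ γ : Fin k → Fin n, (fun i j => -(if γ i = γ j then σ (D i) (D j) else 0)) =
      fun i j => if γ i = γ j then -σ (D i) (D j) else 0 := fun γ => by
    funext i j
    split_ifs
    · rfl
    · exact neg_zero
  unfold Op Wp
  simp only [e, Cg_Cc]
  exact h.symm

/-- the covariance of the legs -/
def Cy (K : ℕ) {r : ℕ} {k : Fin r → ℕ} (D : (s : Fin r) → Fin (k s) → Slot d) (x : Fin r → St d l)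
    (γ : (s : Fin r) → Fin (k s) → Fin n) (i j : Lw k) : ℝ :=
  Cf K (ew (γ (ofLex i).1 (ofLex i).2) (D (ofLex i).1 (ofLex i).2).1 (D (ofLex i).1 (ofLex i).2).2
      (x (ofLex i).1))
    (ew (γ (ofLex j).1 (ofLex j).2) (D (ofLex j).1 (ofLex j).2).1 (D (ofLex j).1 (ofLex j).2).2
      (x (ofLex j).1))

/-- the covariance of the legs of different vertices -/
def Ct (K : ℕ) {r : ℕ} {k : Fin r → ℕ} (D : (s : Fin r) → Fin (k s) → Slot d) (x : Fin r → St d l)
    (γ : (s : Fin r) → Fin (k s) → Fin n) (i j : Lw k) : ℝ :=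
  if (ofLex i).1 = (ofLex j).1 then 0 else Cy K D x γ i j

/-- the subtractions at the vertices -/
def Bs {r : ℕ} {k : Fin r → ℕ} (σ : Fin r → Slot d → Slot d → ℝ)
    (D : (s : Fin r) → Fin (k s) → Slot d) (γ : (s : Fin r) → Fin (k s) → Fin n) (i j : Lw k) : ℝ :=
  if (ofLex i).1 = (ofLex j).1 then
    if γ (ofLex i).1 (ofLex i).2 = γ (ofLex j).1 (ofLex j).2 then
      -σ (ofLex i).1 (D (ofLex i).1 (ofLex i).2) (D (ofLex j).1 (ofLex j).2) else 0 else 0

/-- the product of the local fields -/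
lemma prod_Op (b : ℝ) {r : ℕ} {k : Fin r → ℕ} {P : (s : Fin r) → (Fin (k s) → Fin n) → ℝ}
    (hP : ∀ s (g : G) γ, P s γ = ∑ α : Fin (k s) → Fin n, (∏ i, L.adm g (α i) (γ i)) * P s α)
    (σ : Fin r → Slot d → Slot d → ℝ) (D : (s : Fin r) → Fin (k s) → Slot d) (x : Fin r → St d l)
    (U : Ed d l → G) : ∏ s, Op L b (P s) (σ s) (D s) (x s) U =
      ∑ γ : (s : Fin r) → Fin (k s) → Fin n, (∏ s, P s (γ s)) * ∑ T : Finset (Lw k),
        wick (Bs σ D γ) Tᶜ * ∏ i ∈ T, Cg L b (γ (ofLex i).1 (ofLex i).2)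
          (D (ofLex i).1 (ofLex i).2) (x (ofLex i).1) U := by
  simp only [Op_gauge b (hP _)]
  rw [Finset.prod_univ_sum, Fintype.piFinset_univ]
  refine Finset.sum_congr rfl fun γ _ => ?_
  rw [Finset.prod_mul_distrib]
  congr 1
  have h := T2h69.WA2.main (Bs σ D γ) (fun i j hij => by unfold Bs; rw [if_neg hij])
    fun i : Lw k => Cg L b (γ (ofLex i).1 (ofLex i).2)
          (D (ofLex i).1 (ofLex i).2) (x (ofLex i).1) U
  rw [← h]
  refine Finset.prod_congr rfl fun s _ => ?_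
  unfold Wp
  refine Finset.sum_congr rfl fun T _ => ?_
  congr 1
  congr 1
  funext i j
  have hb : Bs σ D γ (toLex ⟨s, i⟩) (toLex ⟨s, j⟩) =
      if γ s i = γ s j then -σ s (D s i) (D s j) else 0 := by
    unfold Bs
    exact if_pos (show (ofLex (toLex (⟨s, i⟩ : (s : Fin r) × Fin (k s)))).1 =
      (ofLex (toLex (⟨s, j⟩ : (s : Fin r) × Fin (k s)))).1 from rfl)
  rw [hb]
  show -(if γ s i = γ s j then σ s (D s i) (D s j) else 0) = _
  by_cases h : γ s i = γ s j
  · rw [if_pos h, if_pos h]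
  · rw [if_neg h, if_neg h, neg_zero]

end

/-- the measured covariances -/
theorem self_cov {d : ℕ} (hd : 3 ≤ d) (q ℓ κ : ℕ) (hκ : 2 ≤ κ) : ∃ C : ℝ, 0 < C ∧ ∀ c : ℝ, 1 ≤ c →
    ∀ (m K : ℕ) [NeZero m], 1 ≤ K → 3 * K + 5 < 2 * m → 0 < n →
    ∀ (D D' : Slot d) (x : St d (2 * m)), D.2.length ≤ ℓ → D'.2.length ≤ ℓ → 2 * ℓ ≤ K →
      (∀ i, K + 2 ≤ wv x i ∧ wv x i + ℓ < 2 * K + 2) →
      |sg μ L (c ^ q) x D D' - Kc K D.1 D.2 D'.1 D'.2 0| ≤
        C * (c * (1 / Real.sqrt (Real.sqrt K) + (K : ℝ) ^ (d * (κ + 2) + 3) / (c ^ q) ^ 2)) := by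
  obtain ⟨C, hC, h⟩ := comb_unif μ (L := L) hd q ℓ κ
  refine ⟨C, hC, fun c hc m K _ hK hKm hn D D' x hD hD' hℓ hx => ?_⟩
  have h1 : ∀ a : Fin n, |EX μ L ((c ^ q) ^ 4) (fun U : Ed d (2 * m) → G =>
      Cg L (c ^ q) a D x U * Cg L (c ^ q) a D' x U) - Kc K D.1 D.2 D'.1 D'.2 0| ≤
        C * (c * (1 / Real.sqrt (Real.sqrt K) + (K : ℝ) ^ (d * (κ + 2) + 3) / (c ^ q) ^ 2)) := by
    intro a
    have h2 := h c hc m K hK hKm Bool Finset.univ (by simpa using hκ) (fun _ => a)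
      (fun t => if t then D' else D) (fun _ => x)
      (fun t _ => by cases t <;> simp [hD, hD']) (fun t _ => hx)
    have e1 : ∀ U : Ed d (2 * m) → G, ∏ s : Bool, Cg L (c ^ q) a (if s = true then D' else D) x U =
        Cg L (c ^ q) a D x U * Cg L (c ^ q) a D' x U := fun U => by
      rw [Fintype.prod_bool]
      simp [mul_comm]
    have e2 : (Finset.univ : Finset Bool) = {false, true} := by ext t; cases t <;> simp
    simp only [e1] at h2
    rw [e2, wick_pair _ (by decide : (false : Bool) < true)] at h2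
    simp only [if_true, Bool.false_eq_true, if_false] at h2
    have e3 := Cf_ew (n := n) (d := d) (l := 2 * m) (by omega) K a a D.1 D'.1 D.2 D'.2 x 0
      (fun s => by
        simp only [Pi.zero_apply, abs_zero]
        have e4 : D.2.length + D'.2.length + K + 1 < 2 * m := by omega
        push_cast
        exact_mod_cast (by omega : 0 + D.2.length + D'.2.length + K + 1 < 2 * m))
    rw [if_pos rfl] at e3
    have e5 : x + zt (2 * m) 0 = x := by
      have : zt (2 * m) (0 : Fin d → ℤ) = 0 := by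
        funext i; show (((0 : Fin d → ℤ) i : ℤ) : ZMod (2 * m)) = 0; simp
      rw [this, add_zero]
    rw [e5] at e3
    rw [e3] at h2
    exact h2
  have h3 : sg μ L (c ^ q) x D D' = 1 / n * ∑ a : Fin n, EX μ L ((c ^ q) ^ 4)
      (fun U : Ed d (2 * m) → G => Cg L (c ^ q) a D x U * Cg L (c ^ q) a D' x U) := by
    unfold sg
    congr 1
    rw [← EX_sum μ Finset.univ (F := fun (a : Fin n) (U : Ed d (2 * m) → G) =>
        Cc L (c ^ q) a D x U * Cc L (c ^ q) a D' x U) fun a _ => (Cc_cont _ _ _ _).mul (Cc_cont _ _ _ _),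
      ← EX_sum μ Finset.univ (F := fun (a : Fin n) (U : Ed d (2 * m) → G) =>
        Cg L (c ^ q) a D x U * Cg L (c ^ q) a D' x U) fun a _ => (Cg_cont _ _ _ _).mul (Cg_cont _ _ _ _)]
    congr 1
    funext U
    exact sum_Cc _ _ _ _ _
  have hn' : (0 : ℝ) < n := by exact_mod_cast hn
  have h4 : sg μ L (c ^ q) x D D' - Kc K D.1 D.2 D'.1 D'.2 0 = 1 / n * ∑ a : Fin n,
      (EX μ L ((c ^ q) ^ 4) (fun U : Ed d (2 * m) → G =>
        Cg L (c ^ q) a D x U * Cg L (c ^ q) a D' x U) - Kc K D.1 D.2 D'.1 D'.2 0) := by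
    rw [h3, Finset.sum_sub_distrib, Finset.sum_const, Finset.card_univ, Fintype.card_fin,
      nsmul_eq_mul]
    field_simp
  rw [h4, abs_mul, abs_of_pos (by positivity)]
  have h5 := (Finset.abs_sum_le_sum_abs (fun a : Fin n =>
    EX μ L ((c ^ q) ^ 4) (fun U : Ed d (2 * m) → G =>
        Cg L (c ^ q) a D x U * Cg L (c ^ q) a D' x U) - Kc K D.1 D.2 D'.1 D'.2 0) Finset.univ).trans
    (Finset.sum_le_sum fun a _ => h1 a)
  rw [Finset.sum_const, Finset.card_univ, Fintype.card_fin, nsmul_eq_mul] at h5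
  refine (mul_le_mul_of_nonneg_left h5 (by positivity)).trans (le_of_eq ?_)
  field_simp

lemma wc_mono {j k : ℕ} (h : j ≤ k) : wc j ≤ wc k := by
  unfold wc
  exact_mod_cast Nat.factorial_le h

/-- the sum over the contractions within the vertices -/
lemma cut_eq {d l : ℕ} [NeZero l] (K : ℕ) {r : ℕ} {k : Fin r → ℕ}
    (D : (s : Fin r) → Fin (k s) → Slot d) (x : Fin r → St d l)
    (γ : (s : Fin r) → Fin (k s) → Fin n) (B : Lw k → Lw k → ℝ)
    (hB : ∀ i j, B i j = if (ofLex i).1 = (ofLex j).1 then -Cy K D x γ i j else 0) :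
    ∑ T : Finset (Lw k), wick B Tᶜ * wick (Cy K D x γ) T = wick (Ct K D x γ) Finset.univ := by
  have h := T2h69.WA1.main (Cy K D x γ) B Finset.univ
  rw [Finset.powerset_univ] at h
  have e : (fun i j => Cy K D x γ i j + B i j) = Ct K D x γ := by
    funext i j
    rw [hB]
    unfold Ct
    split_ifs <;> ring
  rw [e] at h
  rw [h]
  refine Finset.sum_congr rfl fun T _ => ?_
  rw [mul_comm]
  congr 2

/-- the products of the local fields on the periodic lattice -/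
theorem torus_w {d : ℕ} (hd : 3 ≤ d) (q r : ℕ) (k : Fin r → ℕ)
    (D : (s : Fin r) → Fin (k s) → Slot d) (P : (s : Fin r) → (Fin (k s) → Fin n) → ℝ)
    (hP : ∀ s (g : G) γ, P s γ = ∑ α : Fin (k s) → Fin n, (∏ i, L.adm g (α i) (γ i)) * P s α)
    (κ ℓ : ℕ) (hκ : Fintype.card (Lw k) ≤ κ) (hκ2 : 2 ≤ κ) (hℓ : ∀ s i, (D s i).2.length ≤ ℓ) :
    ∃ C : ℝ, 0 < C ∧ ∀ c : ℝ, 1 ≤ c →
    ∀ (m K : ℕ) [NeZero m], 1 ≤ K → 3 * K + 5 < 2 * m → 2 * ℓ ≤ K →
    ∀ (x : Fin r → St d (2 * m)), (∀ s i, K + 2 ≤ wv (x s) i ∧ wv (x s) i + ℓ < 2 * K + 2) →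
    ∀ e : ℝ, e = c * (1 / Real.sqrt (Real.sqrt K) + (K : ℝ) ^ (d * (κ + 2) + 3) / (c ^ q) ^ 2) →
      |EX μ L ((c ^ q) ^ 4) (fun U : Ed d (2 * m) → G =>
          ∏ s, Op L (c ^ q) (P s) (sg μ L (c ^ q) (x s)) (D s) (x s) U) -
        ∑ γ : (s : Fin r) → Fin (k s) → Fin n, (∏ s, P s (γ s)) *
          wick (Ct K D x γ) Finset.univ| ≤ C * (e * (1 + e) ^ (κ + 1)) := by
  obtain ⟨C1, hC1, h1⟩ := comb_unif μ (L := L) hd q ℓ κ
  obtain ⟨C2, hC2, h2⟩ := self_cov μ (L := L) hd q ℓ κ hκ2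
  obtain ⟨M0, hM0⟩ : ∃ M0 : ℝ, M0 = 2 * (2 * 2 ^ ℓ) ^ 2 := ⟨_, rfl⟩
  have hΛ1 : (1 : ℝ) ≤ 2 * 2 ^ ℓ := by
    have : (1 : ℝ) ≤ 2 ^ ℓ := one_le_pow₀ (by norm_num)
    linarith
  have hM01 : 1 ≤ M0 := by
    have : (1 : ℝ) ≤ (2 * 2 ^ ℓ) ^ 2 := one_le_pow₀ hΛ1
    rw [hM0]; linarith
  obtain ⟨w, hw⟩ : ∃ w : ℝ, w = wc κ * (M0 + C2) ^ κ := ⟨_, rfl⟩
  have hwcκ := wc_pos κ
  have hwcκ1 := wc_ge κ
  have hw1 : 1 ≤ w := by
    rw [hw]
    exact one_le_mul_of_one_le_of_one_le hwcκ1 (one_le_pow₀ (by linarith))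
  obtain ⟨Q, hQ⟩ : ∃ Q : ℝ, Q = κ * w * C2 * (w + C1) + w * C1 := ⟨_, rfl⟩
  have hQ0 : 0 ≤ Q := by rw [hQ]; positivity
  obtain ⟨PP, hPP⟩ : ∃ PP : ℝ, PP = ∑ γ : (s : Fin r) → Fin (k s) → Fin n, |∏ s, P s (γ s)| :=
    ⟨_, rfl⟩
  have hPP0 : 0 ≤ PP := by rw [hPP]; exact Finset.sum_nonneg fun _ _ => abs_nonneg _
  refine ⟨PP * (2 ^ κ * Q) + 1, by positivity, fun c hc m K _ hK hKm hℓK x hx e he => ?_⟩
  have hc0 : 0 < c := by linarith
  have hK1 : (1 : ℝ) ≤ K := by exact_mod_cast hK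
  have hK0 : (0 : ℝ) < K := by linarith
  have he0 : 0 ≤ e := by rw [he]; positivity
  have h1' := h1 c hc m K hK hKm (Lw k)
  have h2' := h2 c hc m K hK hKm
  rw [← he] at h1' h2'
  obtain ⟨b, hb⟩ : ∃ b, b = c ^ q := ⟨_, rfl⟩
  rw [← hb] at h1' h2' ⊢
  simp only [prod_Op b hP]
  obtain ⟨E, hE⟩ : ∃ E : ((s : Fin r) → Fin (k s) → Fin n) → Finset (Lw k) → ℝ, E = fun γ T =>
    EX μ L (b ^ 4) (fun U : Ed d (2 * m) → G => ∏ i ∈ T, Cg L b (γ (ofLex i).1 (ofLex i).2)
          (D (ofLex i).1 (ofLex i).2) (x (ofLex i).1) U) := ⟨_, rfl⟩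
  obtain ⟨σ, hσ⟩ : ∃ σ : Fin r → Slot d → Slot d → ℝ, σ = fun s => sg μ L b (x s) := ⟨_, rfl⟩
  have hσ' : (fun s => sg μ L b (x s)) = σ := hσ.symm
  rw [hσ']
  -- the expectation
  have cT : ∀ (γ : (s : Fin r) → Fin (k s) → Fin n) (T : Finset (Lw k)),
      Continuous fun U : Ed d (2 * m) → G => ∏ i ∈ T, Cg L b (γ (ofLex i).1 (ofLex i).2)
          (D (ofLex i).1 (ofLex i).2) (x (ofLex i).1) U := fun γ T =>
    continuous_finsetProd _ fun i _ => Cg_cont _ _ _ _
  have e1 : EX μ L (b ^ 4) (fun U : Ed d (2 * m) → G =>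
      ∑ γ : (s : Fin r) → Fin (k s) → Fin n, (∏ s, P s (γ s)) * ∑ T : Finset (Lw k),
        wick (Bs σ D γ) Tᶜ * ∏ i ∈ T, Cg L b (γ (ofLex i).1 (ofLex i).2)
          (D (ofLex i).1 (ofLex i).2) (x (ofLex i).1) U) =
      ∑ γ : (s : Fin r) → Fin (k s) → Fin n, (∏ s, P s (γ s)) * ∑ T : Finset (Lw k),
        wick (Bs σ D γ) Tᶜ * E γ T := by
    rw [EX_sum μ Finset.univ (F := fun (γ : (s : Fin r) → Fin (k s) → Fin n)
      (U : Ed d (2 * m) → G) => (∏ s, P s (γ s)) * ∑ T : Finset (Lw k),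
        wick (Bs σ D γ) Tᶜ * ∏ i ∈ T, Cg L b (γ (ofLex i).1 (ofLex i).2)
          (D (ofLex i).1 (ofLex i).2) (x (ofLex i).1) U) fun γ _ =>
      continuous_const.mul (continuous_finsetSum _ fun T _ => continuous_const.mul (cT γ T))]
    refine Finset.sum_congr rfl fun γ _ => ?_
    rw [EX_smul]
    congr 1
    rw [EX_sum μ Finset.univ (F := fun (T : Finset (Lw k)) (U : Ed d (2 * m) → G) =>
        wick (Bs σ D γ) Tᶜ * ∏ i ∈ T, Cg L b (γ (ofLex i).1 (ofLex i).2)
          (D (ofLex i).1 (ofLex i).2) (x (ofLex i).1) U) fun T _ => continuous_const.mul (cT γ T)]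
    refine Finset.sum_congr rfl fun T _ => ?_
    rw [EX_smul, hE]
  rw [e1, ← Finset.sum_sub_distrib]
  -- one colouring
  have hγ : ∀ γ : (s : Fin r) → Fin (k s) → Fin n,
      |∑ T : Finset (Lw k), wick (Bs σ D γ) Tᶜ * E γ T - wick (Ct K D x γ) Finset.univ| ≤
        2 ^ κ * (Q * (e * (1 + e) ^ (κ + 1))) := by
    intro γ
    obtain ⟨B, hB⟩ : ∃ B : Lw k → Lw k → ℝ, B = fun i j =>
      if (ofLex i).1 = (ofLex j).1 then -Cy K D x γ i j else 0 := ⟨_, rfl⟩
    have hCy : ∀ i j, |Cy K D x γ i j| ≤ M0 := by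
      intro i j
      rw [hM0]
      refine Cf_le (by omega) K (by positivity) (fun a => ew_asy _ _ _ _ a) ?_ ?_
      · exact (ew_Ok (hℓ _ _) (hx _) (by omega)).nrm
      · exact (ew_Ok (hℓ _ _) (hx _) (by omega)).nrm
    have hB' : ∀ i j, |B i j| ≤ M0 := by
      intro i j
      rw [hB]
      simp only
      split_ifs
      · rw [abs_neg]; exact hCy i j
      · rw [abs_zero]; linarith
    have hBB : ∀ i j, |Bs σ D γ i j - B i j| ≤ C2 * e := by
      intro i j
      rw [hB]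
      unfold Bs
      simp only
      by_cases hij : (ofLex i).1 = (ofLex j).1
      · rw [if_pos hij, if_pos hij]
        have hn : 0 < n := Fin.pos (γ (ofLex i).1 (ofLex i).2)
        have hcy : Cy K D x γ i j = if γ (ofLex i).1 (ofLex i).2 = γ (ofLex j).1 (ofLex j).2 then
            Kc K (D (ofLex i).1 (ofLex i).2).1 (D (ofLex i).1 (ofLex i).2).2
              (D (ofLex j).1 (ofLex j).2).1 (D (ofLex j).1 (ofLex j).2).2 0 else 0 := by
          unfold Cy
          have e3 := Cf_ew (n := n) (d := d) (l := 2 * m) (by omega) K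
            (γ (ofLex i).1 (ofLex i).2) (γ (ofLex j).1 (ofLex j).2)
            (D (ofLex i).1 (ofLex i).2).1 (D (ofLex j).1 (ofLex j).2).1
            (D (ofLex i).1 (ofLex i).2).2 (D (ofLex j).1 (ofLex j).2).2 (x (ofLex i).1) 0
            (fun s => by
              simp only [Pi.zero_apply, abs_zero]
              have e4 := hℓ (ofLex i).1 (ofLex i).2
              have e5 := hℓ (ofLex j).1 (ofLex j).2
              push_cast
              exact_mod_cast (by omega : 0 + (D (ofLex i).1 (ofLex i).2).2.length +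
                (D (ofLex j).1 (ofLex j).2).2.length + K + 1 < 2 * m))
          have e5 : x (ofLex i).1 + zt (2 * m) 0 = x (ofLex j).1 := by
            have : zt (2 * m) (0 : Fin d → ℤ) = 0 := by
              funext i; show (((0 : Fin d → ℤ) i : ℤ) : ZMod (2 * m)) = 0; simp
            rw [this, add_zero, hij]
          rw [e5] at e3
          exact e3
        rw [hcy]
        by_cases hc' : γ (ofLex i).1 (ofLex i).2 = γ (ofLex j).1 (ofLex j).2
        · rw [if_pos hc', if_pos hc']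
          have h3 := h2' hn (D (ofLex i).1 (ofLex i).2) (D (ofLex j).1 (ofLex j).2) (x (ofLex i).1)
            (hℓ _ _) (hℓ _ _) hℓK (hx _)
          rw [hσ]
          have e6 : -sg μ L b (x (ofLex i).1) (D (ofLex i).1 (ofLex i).2)
              (D (ofLex j).1 (ofLex j).2) - -Kc K (D (ofLex i).1 (ofLex i).2).1
              (D (ofLex i).1 (ofLex i).2).2 (D (ofLex j).1 (ofLex j).2).1
              (D (ofLex j).1 (ofLex j).2).2 0 = -(sg μ L b (x (ofLex i).1)
              (D (ofLex i).1 (ofLex i).2)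
              (D (ofLex j).1 (ofLex j).2) - Kc K (D (ofLex i).1 (ofLex i).2).1
              (D (ofLex i).1 (ofLex i).2).2 (D (ofLex j).1 (ofLex j).2).1
              (D (ofLex j).1 (ofLex j).2).2 0) := by ring
          show |-sg μ L b (x (ofLex i).1) (D (ofLex i).1 (ofLex i).2)
              (D (ofLex j).1 (ofLex j).2) - -Kc K (D (ofLex i).1 (ofLex i).2).1
              (D (ofLex i).1 (ofLex i).2).2 (D (ofLex j).1 (ofLex j).2).1
              (D (ofLex j).1 (ofLex j).2).2 0| ≤ _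
          rw [e6, abs_neg]
          exact h3
        · rw [if_neg hc', if_neg hc', neg_zero, sub_zero, abs_zero]; positivity
      · rw [if_neg hij, if_neg hij, sub_zero, abs_zero]; positivity
    have hBs : ∀ i j, |Bs σ D γ i j| ≤ (M0 + C2) * (1 + e) := by
      intro i j
      have h3 := abs_sub_abs_le_abs_sub (Bs σ D γ i j) (B i j)
      have h4 := hBB i j
      have h5 := hB' i j
      nlinarith [mul_nonneg (by linarith : 0 ≤ M0) he0]
    have hM1 : 1 ≤ (M0 + C2) * (1 + e) :=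
      one_le_mul_of_one_le_of_one_le (by linarith) (by linarith)
    have hB2 : ∀ i j, |B i j| ≤ (M0 + C2) * (1 + e) := fun i j =>
      (hB' i j).trans (by nlinarith [mul_nonneg (by linarith : 0 ≤ M0 + C2) he0])
    have hcardT : ∀ T : Finset (Lw k), T.card ≤ κ := fun T => (Finset.card_le_univ T).trans hκ
    have h1e : 1 ≤ 1 + e := by linarith
    have hpow : (1 + e) ^ κ * e ≤ e * (1 + e) ^ (κ + 1) := by
      rw [pow_succ]
      have : 0 ≤ (1 + e) ^ κ * e := by positivity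
      nlinarith
    have hT : ∀ T : Finset (Lw k), |wick (Bs σ D γ) Tᶜ * E γ T -
        wick B Tᶜ * wick (Cy K D x γ) T| ≤ Q * (e * (1 + e) ^ (κ + 1)) := by
      intro T
      have a1 : |wick (Bs σ D γ) Tᶜ - wick B Tᶜ| ≤ κ * w * (1 + e) ^ κ * (C2 * e) := by
        refine (wick_lip hM1 (by positivity) Tᶜ (fun i _ j _ => hBs i j) (fun i _ j _ => hB2 i j)
          fun i _ j _ => hBB i j).trans ?_
        have b1 : ((Tᶜ.card : ℕ) : ℝ) ≤ κ := by exact_mod_cast hcardT _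
        have b2 := wc_mono (hcardT Tᶜ)
        have b3 : ((M0 + C2) * (1 + e)) ^ Tᶜ.card ≤ (M0 + C2) ^ κ * (1 + e) ^ κ := by
          rw [← mul_pow]
          exact pow_le_pow_right₀ hM1 (hcardT _)
        have b4 := wc_pos Tᶜ.card
        calc ((Tᶜ.card : ℕ) : ℝ) * wc Tᶜ.card * ((M0 + C2) * (1 + e)) ^ Tᶜ.card * (C2 * e) ≤
            κ * wc κ * ((M0 + C2) ^ κ * (1 + e) ^ κ) * (C2 * e) := by gcongr
          _ = _ := by rw [hw]; ring
      have a2 : |wick (Cy K D x γ) T| ≤ w := by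
        refine (wick_abs hM01 T fun i _ j _ => hCy i j).trans ?_
        rw [hw]
        have b2 := wc_mono (hcardT T)
        have b3 : M0 ^ T.card ≤ (M0 + C2) ^ κ :=
          (pow_le_pow_right₀ hM01 (hcardT _)).trans
            (pow_le_pow_left₀ (by linarith) (by linarith) _)
        have b4 := wc_pos T.card
        gcongr
      have a3 : |wick B Tᶜ| ≤ w := by
        refine (wick_abs hM01 Tᶜ fun i _ j _ => hB' i j).trans ?_
        rw [hw]
        have b2 := wc_mono (hcardT Tᶜ)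
        have b3 : M0 ^ Tᶜ.card ≤ (M0 + C2) ^ κ :=
          (pow_le_pow_right₀ hM01 (hcardT _)).trans
            (pow_le_pow_left₀ (by linarith) (by linarith) _)
        have b4 := wc_pos Tᶜ.card
        gcongr
      have a4 : |E γ T - wick (Cy K D x γ) T| ≤ C1 * e := by
        rw [hE]
        exact h1' T (hcardT T) (fun i => γ (ofLex i).1 (ofLex i).2)
          (fun i => D (ofLex i).1 (ofLex i).2) (fun i => x (ofLex i).1)
          (fun i _ => hℓ _ _) fun i _ => hx _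
      have a5 : |E γ T| ≤ (w + C1) * (1 + e) := by
        have := abs_sub_abs_le_abs_sub (E γ T) (wick (Cy K D x γ) T)
        nlinarith [mul_nonneg (by linarith : 0 ≤ w) he0]
      have e3 : wick (Bs σ D γ) Tᶜ * E γ T - wick B Tᶜ * wick (Cy K D x γ) T =
          (wick (Bs σ D γ) Tᶜ - wick B Tᶜ) * E γ T +
          wick B Tᶜ * (E γ T - wick (Cy K D x γ) T) := by ring
      rw [e3]
      refine (abs_add_le _ _).trans ?_
      rw [abs_mul, abs_mul]
      have hw0 : 0 ≤ w := by linarith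
      have a6 : |wick (Bs σ D γ) Tᶜ - wick B Tᶜ| * |E γ T| ≤
          (κ * w * (1 + e) ^ κ * (C2 * e)) * ((w + C1) * (1 + e)) :=
        mul_le_mul a1 a5 (abs_nonneg _) (by positivity)
      have a7 : |wick B Tᶜ| * |E γ T - wick (Cy K D x γ) T| ≤ w * (C1 * e) :=
        mul_le_mul a3 a4 (abs_nonneg _) hw0
      have a8 : e ≤ e * (1 + e) ^ (κ + 1) := le_mul_of_one_le_right he0 (one_le_pow₀ h1e)
      refine (add_le_add a6 a7).trans ?_
      calc (κ * w * (1 + e) ^ κ * (C2 * e)) * ((w + C1) * (1 + e)) + w * (C1 * e) =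
          κ * w * C2 * (w + C1) * (e * (1 + e) ^ (κ + 1)) + w * C1 * e := by ring
        _ ≤ κ * w * C2 * (w + C1) * (e * (1 + e) ^ (κ + 1)) +
          w * C1 * (e * (1 + e) ^ (κ + 1)) := by gcongr
        _ = _ := by rw [hQ]; ring
    have e2 := cut_eq K D x γ B (fun i j => by rw [hB])
    rw [← e2, ← Finset.sum_sub_distrib]
    refine (Finset.abs_sum_le_sum_abs _ _).trans ((Finset.sum_le_sum fun T _ => hT T).trans ?_)
    rw [Finset.sum_const, nsmul_eq_mul]
    refine mul_le_mul_of_nonneg_right ?_ (by positivity)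
    rw [Finset.card_univ, Fintype.card_finset]
    push_cast
    exact pow_le_pow_right₀ (by norm_num) hκ
  refine (Finset.abs_sum_le_sum_abs _ _).trans ?_
  calc _ ≤ ∑ γ : (s : Fin r) → Fin (k s) → Fin n, |∏ s, P s (γ s)| *
        (2 ^ κ * (Q * (e * (1 + e) ^ (κ + 1)))) := by
        refine Finset.sum_le_sum fun γ _ => ?_
        rw [← mul_sub, abs_mul]
        exact mul_le_mul_of_nonneg_left (hγ γ) (abs_nonneg _)
    _ = PP * (2 ^ κ * Q) * (e * (1 + e) ^ (κ + 1)) := by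
        rw [← Finset.sum_mul, hPP]; ring
    _ ≤ _ := by
        have : 0 ≤ e * (1 + e) ^ (κ + 1) := by positivity
        linarith

end

end Pool.Agent.T2h94
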