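import Mathlib
import Pool.Agent.T2h94.W8

/-!
# The local fields at points of the lattice
-/

open MeasureTheory Matrix
open scoped Matrix.Norms.Frobenius ContDiff
open Pool.Agent.H906R3.YM Pool.Agent.W793.YM

namespace Pool.Agent.T2h94

set_option linter.unusedSectionVars false
set_option linter.unusedVariables false

noncomputable section

variable {G : Type*} [Group G] [TopologicalSpace G] [IsTopologicalGroup G] [CompactSpace G]
  [SecondCountableTopology G] [MeasurableSpace G] [BorelSpace G] (μ : Measure G)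
  [IsProbabilityMeasure μ] [μ.IsMulLeftInvariant] [μ.IsMulRightInvariant] [μ.IsInvInvariant]
  {N n : ℕ} {L : LD G N n}

section

variable {d l : ℕ} [NeZero l]

lemma cvT_tr (U : Ed d l → G) (w : St d l) (p : Fin d × Fin d) (m : List (Fin d)) (x : St d l) :
    cvT L (tr w U) p m x = cvT L U p m (x + w) := by
  induction m generalizing x with
  | nil =>
    show L.rho (plqT (tr w U) x p.1 p.2) = L.rho (plqT U (x + w) p.1 p.2)
    rw [plqT_tr]
  | cons k m ih =>
    show L.rho (tr w U (x, k)) * cvT L (tr w U) p m (x + eT k) * (L.rho (tr w U (x, k)))ᴴ -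
      cvT L (tr w U) p m x = L.rho (U (x + w, k)) * cvT L U p m (x + w + eT k) *
      (L.rho (U (x + w, k)))ᴴ - cvT L U p m (x + w)
    rw [ih, ih, add_right_comm x (eT k) w]
    rfl

lemma Cc_tr (b : ℝ) (a : Fin n) (D : Slot d) (x w : St d l) (U : Ed d l → G) :
    Cc L b a D (x + w) U = Cc L b a D x (tr w U) := by
  unfold Cc
  rw [cvT_tr]

lemma sg_tr (b : ℝ) (x w : St d l) (D D' : Slot d) :
    sg μ L b (x + w) D D' = sg μ L b x D D' := by
  unfold sg
  congr 1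
  refine Finset.sum_congr rfl fun a _ => ?_
  simp only [Cc_tr]
  exact EX_tr μ w fun U : Ed d l → G => Cc L b a D x U * Cc L b a D' x U

lemma Op_tr (b : ℝ) {k : ℕ} (P : (Fin k → Fin n) → ℝ) (σ : Slot d → Slot d → ℝ) (D : Fin k → Slot d)
    (x w : St d l) (U : Ed d l → G) : Op L b P σ D (x + w) U = Op L b P σ D x (tr w U) := by
  unfold Op
  simp only [Cc_tr]

end

/-- the covariance of the legs at points of the lattice -/
def Cq {n d : ℕ} (K : ℕ) {r : ℕ} {k : Fin r → ℕ} (D : (s : Fin r) → Fin (k s) → Slot d)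
    (y : Fin r → Fin d → ℤ) (γ : (s : Fin r) → Fin (k s) → Fin n) (i j : Lw k) : ℝ :=
  if (ofLex i).1 = (ofLex j).1 then 0 else
    if γ (ofLex i).1 (ofLex i).2 = γ (ofLex j).1 (ofLex j).2 then
      Kc K (D (ofLex i).1 (ofLex i).2).1 (D (ofLex i).1 (ofLex i).2).2
        (D (ofLex j).1 (ofLex j).2).1 (D (ofLex j).1 (ofLex j).2).2
        (y (ofLex j).1 - y (ofLex i).1) else 0

lemma Ct_eq {d l : ℕ} [NeZero l] (hd : 0 < d) (K : ℕ) {r : ℕ} {k : Fin r → ℕ}
    (D : (s : Fin r) → Fin (k s) → Slot d) (y : Fin r → Fin d → ℤ)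
    (γ : (s : Fin r) → Fin (k s) → Fin n) (w : St d l) {ℓ : ℕ} (hℓ : ∀ s i, (D s i).2.length ≤ ℓ)
    (hy : ∀ s t i, |y t i - y s i| + 2 * ℓ + K + 1 < l) (i j : Lw k) :
    Ct K D (fun s => zt l (y s) + w) γ i j = Cq K D y γ i j := by
  unfold Ct Cq
  by_cases h : (ofLex i).1 = (ofLex j).1
  · rw [if_pos h, if_pos h]
  · rw [if_neg h, if_neg h]
    unfold Cy
    beta_reduce
    have e : zt l (y (ofLex j).1) + w = (zt l (y (ofLex i).1) + w) +
        zt l (y (ofLex j).1 - y (ofLex i).1) := by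
      have e1 : zt l (y (ofLex j).1) = zt l (y (ofLex i).1 + (y (ofLex j).1 - y (ofLex i).1)) := by
        congr 1; abel
      rw [e1, zt_add']; abel
    rw [e]
    refine Cf_ew hd K _ _ _ _ _ _ _ _ fun s => ?_
    have h1 := hy (ofLex i).1 (ofLex j).1 s
    have h2 : ((D (ofLex i).1 (ofLex i).2).2.length : ℤ) ≤ ℓ := by exact_mod_cast hℓ _ _
    have h3 : ((D (ofLex j).1 (ofLex j).2).2.length : ℤ) ≤ ℓ := by exact_mod_cast hℓ _ _
    rw [Pi.sub_apply]
    linarith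

/-- the products of the local fields at points of the lattice -/
theorem lattice_w {d : ℕ} (hd : 3 ≤ d) (q r : ℕ) (k : Fin r → ℕ)
    (D : (s : Fin r) → Fin (k s) → Slot d) (P : (s : Fin r) → (Fin (k s) → Fin n) → ℝ)
    (hP : ∀ s (g : G) γ, P s γ = ∑ α : Fin (k s) → Fin n, (∏ i, L.adm g (α i) (γ i)) * P s α)
    (κ ℓ : ℕ) (hκ : Fintype.card (Lw k) ≤ κ) (hκ2 : 2 ≤ κ) (hℓ : ∀ s i, (D s i).2.length ≤ ℓ) :
    ∃ C : ℝ, 0 < C ∧ ∀ c : ℝ, 1 ≤ c →
    ∀ (m K : ℕ) [NeZero m], 1 ≤ K → 3 * K + 5 < 2 * m →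
    ∀ (y : Fin r → Fin d → ℤ), (∀ s i, 2 * |y s i| + 2 * ℓ + 2 ≤ K) →
    ∀ e : ℝ, e = c * (1 / Real.sqrt (Real.sqrt K) + (K : ℝ) ^ (d * (κ + 2) + 3) / (c ^ q) ^ 2) →
      |EX μ L ((c ^ q) ^ 4) (fun U : Ed d (2 * m) → G =>
          ∏ s, Op L (c ^ q) (P s) (sg μ L (c ^ q) (zt (2 * m) (y s))) (D s) (zt (2 * m) (y s)) U) -
        ∑ γ : (s : Fin r) → Fin (k s) → Fin n, (∏ s, P s (γ s)) *
          wick (Cq K D y γ) Finset.univ| ≤ C * (e * (1 + e) ^ (κ + 1)) := by
  rcases Nat.eq_zero_or_pos r with hr | hr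
  · subst hr
    refine ⟨1, one_pos, fun c hc m K _ hK hKm y hy e he => ?_⟩
    have he0 : 0 ≤ e := by rw [he]; positivity
    have h0 : IsEmpty (Lw k) := ⟨fun i => (ofLex i).1.elim0⟩
    have h1 : (Finset.univ : Finset (Lw k)) = ∅ := Finset.univ_eq_empty
    simp only [Finset.univ_eq_empty, Finset.prod_empty, wick_empty, mul_one, Finset.sum_const]
    rw [EX_const]
    simp
    positivity
  obtain ⟨C, hC, h⟩ := torus_w μ (L := L) hd q r k D P hP κ ℓ hκ hκ2 hℓ
  refine ⟨C, hC, fun c hc m K _ hK hKm y hy e he => ?_⟩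
  obtain ⟨wi, hwi⟩ : ∃ wi : ℤ, wi = K + 2 + (K / 2 : ℕ) := ⟨_, rfl⟩
  obtain ⟨w, hw⟩ : ∃ w : St d (2 * m), w = zt (2 * m) (fun _ => wi) := ⟨_, rfl⟩
  have hKd : ((K / 2 : ℕ) : ℤ) * 2 ≤ K ∧ (K : ℤ) < ((K / 2 : ℕ) : ℤ) * 2 + 2 := by
    constructor <;> omega
  have hwin : ∀ s i, (K : ℤ) + 2 ≤ y s i + wi ∧ y s i + wi + ℓ < 2 * K + 2 := by
    intro s i
    have h1 := hy s i
    have h2 := abs_le.1 (le_refl |y s i|)
    constructor <;> omega
  have hmz : (3 * K + 5 : ℤ) < 2 * m := by exact_mod_cast hKm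
  have hℓK : 2 * ℓ ≤ K := by
    have h1 := hy ⟨0, hr⟩ ⟨0, by omega⟩
    have h2 : 0 ≤ |y ⟨0, hr⟩ ⟨0, by omega⟩| := abs_nonneg _
    omega
  have h1 := h c hc m K hK hKm hℓK (fun s => zt (2 * m) (y s) + w) ?_ e he
  · have e3 : EX μ L ((c ^ q) ^ 4) (fun U : Ed d (2 * m) → G =>
        ∏ s, Op L (c ^ q) (P s) (sg μ L (c ^ q) (zt (2 * m) (y s) + w)) (D s)
          (zt (2 * m) (y s) + w) U) = EX μ L ((c ^ q) ^ 4) (fun U : Ed d (2 * m) → G =>
        ∏ s, Op L (c ^ q) (P s) (sg μ L (c ^ q) (zt (2 * m) (y s))) (D s)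
          (zt (2 * m) (y s)) U) := by
      have e5 : (fun U : Ed d (2 * m) → G =>
        ∏ s, Op L (c ^ q) (P s) (sg μ L (c ^ q) (zt (2 * m) (y s) + w)) (D s)
          (zt (2 * m) (y s) + w) U) = fun U : Ed d (2 * m) → G => (fun U' : Ed d (2 * m) → G =>
        ∏ s, Op L (c ^ q) (P s) (sg μ L (c ^ q) (zt (2 * m) (y s))) (D s)
          (zt (2 * m) (y s)) U') (tr w U) := by
        funext U
        refine Finset.prod_congr rfl fun s _ => ?_
        have e4 : sg μ L (c ^ q) (zt (2 * m) (y s) + w) = sg μ L (c ^ q) (zt (2 * m) (y s)) := by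
          funext D D'; exact sg_tr μ _ _ _ _ _
        rw [e4, Op_tr]
      rw [e5]
      exact EX_tr μ w (fun U' : Ed d (2 * m) → G =>
        ∏ s, Op L (c ^ q) (P s) (sg μ L (c ^ q) (zt (2 * m) (y s))) (D s)
          (zt (2 * m) (y s)) U')
    rw [e3] at h1
    have e4 : ∀ γ : (s : Fin r) → Fin (k s) → Fin n,
        wick (Ct K D (fun s => zt (2 * m) (y s) + w) γ) Finset.univ =
        wick (Cq K D y γ) Finset.univ := by
      intro γ
      have e5 : Ct K D (fun s => zt (2 * m) (y s) + w) γ = Cq K D y γ := by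
        funext i j
        refine Ct_eq (by omega) K D y γ w hℓ (fun s t k => ?_) i j
        have h1 := hy s k
        have h2 := hy t k
        have h3 := abs_sub (y t k) (y s k)
        push_cast
        omega
      rw [e5]
    simp only [e4] at h1
    exact h1
  · intro s i
    have h2 := hwin s i
    have h3 : wv (zt (2 * m) (y s) + w) i = (y s i + wi).toNat := by
      have e : (zt (2 * m) (y s) + w) i = (((y s i + wi).toNat : ℕ) : ZMod (2 * m)) := by
        rw [hw]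
        show ((y s i : ℤ) : ZMod (2 * m)) + ((wi : ℤ) : ZMod (2 * m)) = _
        have : (((y s i + wi).toNat : ℕ) : ZMod (2 * m)) = (((y s i + wi).toNat : ℤ) : ZMod (2 * m)) := by
          push_cast; rfl
        rw [this, Int.toNat_of_nonneg (by omega)]
        push_cast; rfl
      unfold wv
      rw [e, ZMod.val_natCast, Nat.mod_eq_of_lt]
      omega
    show K + 2 ≤ wv (zt (2 * m) (y s) + w) i ∧ wv (zt (2 * m) (y s) + w) i + ℓ < 2 * K + 2
    rw [h3]
    constructor <;> omega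

end

end Pool.Agent.T2h94
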