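import Mathlib
import Pool.Agent.T2h94.W9
import Pool.Agent.T2h94.Scal
import Pool.Agent.T2h85.KC4

/-!
# The scaling of the local fields
-/

open MeasureTheory Matrix Filter
open scoped Matrix.Norms.Frobenius ContDiff Topology

namespace Pool.Agent.T2h94

set_option linter.unusedSectionVars false
set_option linter.unusedVariables false

noncomputable section

/-- the weight of a leg -/
def lam {d : ℕ} (a : ℝ) (D : Slot d) : ℝ := (Real.sqrt a ^ (d + 2 * D.2.length))⁻¹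

lemma lam_mul {d : ℕ} {a : ℝ} (ha : 0 < a) (D D' : Slot d) :
    lam a D * lam a D' = (a ^ (d - 2 + (D.2.length + D'.2.length + 2)))⁻¹ ∨ d < 2 := by
  rcases Nat.lt_or_ge d 2 with h | h
  · exact Or.inr h
  · refine Or.inl ?_
    unfold lam
    rw [← mul_inv, ← pow_add]
    congr 1
    have e : d + 2 * D.2.length + (d + 2 * D'.2.length) =
        2 * (d - 2 + (D.2.length + D'.2.length + 2)) := by omega
    rw [e, pow_mul, Real.sq_sqrt ha.le]

/-- the covariance of the legs in the continuum -/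
def Cx {n d r : ℕ} {k : Fin r → ℕ} (D : (s : Fin r) → Fin (k s) → Slot d) (x : Fin r → Fin d → ℝ)
    (γ : (s : Fin r) → Fin (k s) → Fin n) (i j : Lw k) : ℝ :=
  if (ofLex i).1 = (ofLex j).1 then 0 else
    if γ (ofLex i).1 (ofLex i).2 = γ (ofLex j).1 (ofLex j).2 then
      Kk (fun p q => (-1) ^ ((D (ofLex i).1 (ofLex i).2).2.length + 1) * pd (Gr d)
          ((D (ofLex j).1 (ofLex j).2).2 ++ (D (ofLex i).1 (ofLex i).2).2 ++ [p, q])
          (x (ofLex j).1 - x (ofLex i).1))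
        (D (ofLex i).1 (ofLex i).2).1 (D (ofLex j).1 (ofLex j).2).1 else 0

lemma Cq_lim {n d r : ℕ} (hd : 3 ≤ d) {k : Fin r → ℕ} (D : (s : Fin r) → Fin (k s) → Slot d)
    {a : ℕ → ℝ} (ha : ∀ i, 0 < a i) (ha0 : Tendsto a atTop (𝓝 0))
    {K : ℕ → ℕ} (hK : Tendsto (fun i => (K i : ℝ) * a i ^ 2) atTop atTop)
    {y : ℕ → Fin r → Fin d → ℤ} {x : Fin r → Fin d → ℝ} (hx : Function.Injective x)
    (hy : ∀ s k, Tendsto (fun i => a i * (y i s k : ℝ)) atTop (𝓝 (x s k)))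
    (γ : (s : Fin r) → Fin (k s) → Fin n) (i j : Lw k) :
    Tendsto (fun t => lam (a t) (D (ofLex i).1 (ofLex i).2) * lam (a t) (D (ofLex j).1 (ofLex j).2) *
      Cq (K t) D (y t) γ i j) atTop (𝓝 (Cx D x γ i j)) := by
  unfold Cq Cx
  by_cases h1 : (ofLex i).1 = (ofLex j).1
  · simp only [if_pos h1, mul_zero]; exact tendsto_const_nhds
  by_cases h2 : γ (ofLex i).1 (ofLex i).2 = γ (ofLex j).1 (ofLex j).2
  · simp only [if_neg h1, if_pos h2]
    unfold Kc
    simp only [Kk_smul]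
    refine Kk_tendsto (fun p q => ?_) _ _
    obtain ⟨m, hm⟩ : ∃ m, m = (D (ofLex i).1 (ofLex i).2).2 := ⟨_, rfl⟩
    obtain ⟨m', hm'⟩ : ∃ m', m' = (D (ofLex j).1 (ofLex j).2).2 := ⟨_, rfl⟩
    have hX : x (ofLex j).1 - x (ofLex i).1 ≠ 0 := by
      intro h
      rw [sub_eq_zero] at h
      exact h1 (hx h).symm
    have h3 := T2h85.KC.kernel_limit_gen hd (wl m m' ++ [(p, true), (q, false)]) hX ha ha0 hK
      (z := fun t => y t (ofLex j).1 - y t (ofLex i).1) (fun s => by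
        have h3 := (hy (ofLex j).1 s).sub (hy (ofLex i).1 s)
        refine h3.congr fun i => ?_
        simp only [Pi.sub_apply]
        push_cast; ring)
    rw [sgw_wl, wl_map, wl_length] at h3
    rw [← hm, ← hm']
    refine h3.congr fun t => ?_
    rcases lam_mul (ha t) (D (ofLex i).1 (ofLex i).2) (D (ofLex j).1 (ofLex j).2) with h4 | h4
    · rw [h4, ← hm, ← hm', dw_hk]
    · omega
  · simp only [if_neg h1, if_neg h2, mul_zero]; exact tendsto_const_nhds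

/-- the limit of the sums over the pairings -/
lemma wick_w_lim {n d r : ℕ} (hd : 3 ≤ d) {k : Fin r → ℕ} (D : (s : Fin r) → Fin (k s) → Slot d)
    (P : (s : Fin r) → (Fin (k s) → Fin n) → ℝ)
    {a : ℕ → ℝ} (ha : ∀ i, 0 < a i) (ha0 : Tendsto a atTop (𝓝 0))
    {K : ℕ → ℕ} (hK : Tendsto (fun i => (K i : ℝ) * a i ^ 2) atTop atTop)
    {y : ℕ → Fin r → Fin d → ℤ} {x : Fin r → Fin d → ℝ} (hx : Function.Injective x)
    (hy : ∀ s k, Tendsto (fun i => a i * (y i s k : ℝ)) atTop (𝓝 (x s k))) :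
    Tendsto (fun t => (∏ i : Lw k, lam (a t) (D (ofLex i).1 (ofLex i).2)) *
      ∑ γ : (s : Fin r) → Fin (k s) → Fin n, (∏ s, P s (γ s)) *
        wick (Cq (K t) D (y t) γ) Finset.univ) atTop
      (𝓝 (∑ γ : (s : Fin r) → Fin (k s) → Fin n, (∏ s, P s (γ s)) *
        wick (Cx D x γ) Finset.univ)) := by
  have e : ∀ t, (∏ i : Lw k, lam (a t) (D (ofLex i).1 (ofLex i).2)) *
      ∑ γ : (s : Fin r) → Fin (k s) → Fin n, (∏ s, P s (γ s)) *
        wick (Cq (K t) D (y t) γ) Finset.univ =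
      ∑ γ : (s : Fin r) → Fin (k s) → Fin n, (∏ s, P s (γ s)) *
        wick (fun i j => lam (a t) (D (ofLex i).1 (ofLex i).2) *
          lam (a t) (D (ofLex j).1 (ofLex j).2) * Cq (K t) D (y t) γ i j) Finset.univ := by
    intro t
    rw [Finset.mul_sum]
    refine Finset.sum_congr rfl fun γ _ => ?_
    rw [wick_scale (fun i : Lw k => lam (a t) (D (ofLex i).1 (ofLex i).2))]
    ring
  simp only [e]
  refine tendsto_finsetSum _ fun γ _ => Tendsto.const_mul _ ?_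
  exact wick_tendsto _ fun i _ j _ _ => Cq_lim hd D ha ha0 hK hx hy γ i j

lemma sum_Lw {r : ℕ} {k : Fin r → ℕ} (f : (s : Fin r) → Fin (k s) → ℕ) :
    ∑ i : Lw k, f (ofLex i).1 (ofLex i).2 = ∑ s, ∑ i, f s i := by
  have h : ∑ i : Lw k, f (ofLex i).1 (ofLex i).2 = ∑ i : (s : Fin r) × Fin (k s), f i.1 i.2 :=
    Fintype.sum_equiv ofLex _ _ fun i => rfl
  rw [h, Fintype.sum_sigma]

lemma card_Lw {r : ℕ} (k : Fin r → ℕ) : Fintype.card (Lw k) = ∑ s, k s := by
  have h := sum_Lw (k := k) fun _ _ => 1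
  simp only [Finset.sum_const, Finset.card_univ, Fintype.card_fin, smul_eq_mul, mul_one] at h
  exact h

/-- the total weight -/
lemma prod_lam {d r : ℕ} {k : Fin r → ℕ} (D : (s : Fin r) → Fin (k s) → Slot d) (a : ℝ) :
    ∏ i : Lw k, lam a (D (ofLex i).1 (ofLex i).2) =
      (Real.sqrt a ^ (d * (∑ s, k s) + 2 * ∑ s, ∑ i, (D s i).2.length))⁻¹ := by
  unfold lam
  rw [Finset.prod_inv_distrib, Finset.prod_pow_eq_pow_sum]
  congr 2
  rw [sum_Lw fun s i => d + 2 * (D s i).2.length]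
  simp only [Finset.sum_add_distrib, Finset.sum_const, Finset.card_univ, Fintype.card_fin,
    smul_eq_mul, ← Finset.mul_sum, ← Finset.sum_mul]
  ring

/-- the error terms after the scaling -/
lemma err_w {A B P p q Bx j : ℕ} (hA : A = 4 * P + 1) (hp : p = A * B + 1) (hq : q = A * p)
    (hB : Bx ≤ B) {c a : ℝ} (hc : 1 ≤ c) (ha : 0 < a) (ha1 : a ≤ 1) (hac : 1 ≤ c ^ (4 * A) * a)
    {K : ℕ} (hK : K = ⌈c⌉₊ ^ (8 * p)) {e : ℝ}
    (he : e = c * (1 / Real.sqrt (Real.sqrt K) + (K : ℝ) ^ P / (c ^ q) ^ 2)) :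
    (Real.sqrt a ^ Bx)⁻¹ * (e * (1 + e) ^ j) ≤ (2 + 2 ^ (8 * p * P)) ^ (j + 1) / c := by
  have hc0 : 0 < c := by linarith
  have hceil : c ≤ (⌈c⌉₊ : ℝ) := Nat.le_ceil c
  have hceil2 : (⌈c⌉₊ : ℝ) ≤ 2 * c := by
    have := Nat.ceil_lt_add_one hc0.le
    linarith
  have hKlo : c ^ (8 * p) ≤ (K : ℝ) := by
    rw [hK]; push_cast
    exact pow_le_pow_left₀ hc0.le hceil _
  have hKhi : (K : ℝ) ≤ (2 * c) ^ (8 * p) := by
    rw [hK]; push_cast
    exact pow_le_pow_left₀ (Nat.cast_nonneg _) hceil2 _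
  have hsq : c ^ (2 * p) ≤ Real.sqrt (Real.sqrt K) := by
    refine Real.le_sqrt_of_sq_le ?_
    refine Real.le_sqrt_of_sq_le ?_
    refine le_trans (le_of_eq ?_) hKlo
    rw [← pow_mul, ← pow_mul]; congr 1; ring
  have e1 : 1 / Real.sqrt (Real.sqrt K) ≤ 1 / c ^ (2 * p) :=
    one_div_le_one_div_of_le (by positivity) hsq
  have e2 : (K : ℝ) ^ P / (c ^ q) ^ 2 ≤ 2 ^ (8 * p * P) / c ^ (2 * p) := by
    have h2 : (K : ℝ) ^ P ≤ 2 ^ (8 * p * P) * c ^ (8 * p * P) := by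
      calc (K : ℝ) ^ P ≤ ((2 * c) ^ (8 * p)) ^ P := pow_le_pow_left₀ (Nat.cast_nonneg _) hKhi _
        _ = _ := by rw [← pow_mul, mul_pow]
    have h3 : c ^ (8 * p * P) * c ^ (2 * p) = (c ^ q) ^ 2 := by
      rw [← pow_add, ← pow_mul]
      congr 1
      rw [hq, hA]; ring
    rw [div_le_div_iff₀ (by positivity) (by positivity)]
    calc (K : ℝ) ^ P * c ^ (2 * p) ≤ 2 ^ (8 * p * P) * c ^ (8 * p * P) * c ^ (2 * p) := by gcongr
      _ = 2 ^ (8 * p * P) * (c ^ (8 * p * P) * c ^ (2 * p)) := by ring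
      _ = _ := by rw [h3]
  obtain ⟨H, hH⟩ : ∃ H : ℝ, H = 2 + 2 ^ (8 * p * P) := ⟨_, rfl⟩
  rw [← hH]
  have hH2 : 2 ≤ H := by
    have : (0 : ℝ) ≤ 2 ^ (8 * p * P) := by positivity
    rw [hH]; linarith
  have e3 : e ≤ (H - 1) / c ^ (2 * A * B + 1) := by
    rw [he]
    have h4 : c * (1 / Real.sqrt (Real.sqrt K) + (K : ℝ) ^ P / (c ^ q) ^ 2) ≤
        c * (1 / c ^ (2 * p) + 2 ^ (8 * p * P) / c ^ (2 * p)) :=
      mul_le_mul_of_nonneg_left (add_le_add e1 e2) hc0.le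
    refine h4.trans (le_of_eq ?_)
    have h5 : c ^ (2 * p) = c * c ^ (2 * A * B + 1) := by
      rw [← pow_succ', hp]; congr 1; ring
    rw [h5, hH]
    field_simp
    ring
  have hcp : 1 ≤ c ^ (2 * A * B + 1) := one_le_pow₀ hc
  have e4 : e ≤ H - 1 := e3.trans (div_le_self (by linarith) hcp)
  have he0 : 0 ≤ e := by rw [he]; positivity
  have e5 : e * (1 + e) ^ j ≤ H ^ (j + 1) / c ^ (2 * A * B + 1) := by
    calc e * (1 + e) ^ j ≤ (H / c ^ (2 * A * B + 1)) * H ^ j := by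
          refine mul_le_mul (e3.trans ?_) (pow_le_pow_left₀ (by linarith) (by linarith) j)
            (by positivity) (by positivity)
          gcongr
          linarith
      _ = _ := by rw [pow_succ]; ring
  have hs0 : 0 < Real.sqrt a := Real.sqrt_pos.2 ha
  have hs1 : Real.sqrt a ≤ 1 := by rw [Real.sqrt_le_one]; exact ha1
  have e6 : 1 ≤ c ^ (2 * A) * Real.sqrt a := by
    by_contra h
    push Not at h
    have h7 : (c ^ (2 * A) * Real.sqrt a) ^ 2 < 1 := by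
      have := pow_lt_one₀ (by positivity) h two_ne_zero
      exact this
    rw [mul_pow, Real.sq_sqrt ha.le, ← pow_mul] at h7
    have h8 : 2 * A * 2 = 4 * A := by ring
    rw [h8] at h7
    linarith
  have e7 : (Real.sqrt a ^ Bx)⁻¹ ≤ c ^ (2 * A * B) := by
    have h8 : (Real.sqrt a ^ Bx)⁻¹ ≤ (Real.sqrt a ^ B)⁻¹ := by
      refine inv_anti₀ (by positivity) ?_
      exact pow_le_pow_of_le_one hs0.le hs1 hB
    refine h8.trans ?_
    rw [inv_le_iff_one_le_mul₀ (by positivity), pow_mul, ← mul_pow]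
    exact one_le_pow₀ e6
  calc (Real.sqrt a ^ Bx)⁻¹ * (e * (1 + e) ^ j) ≤
      c ^ (2 * A * B) * (H ^ (j + 1) / c ^ (2 * A * B + 1)) :=
        mul_le_mul e7 e5 (by positivity) (by positivity)
    _ = _ := by rw [pow_succ c (2 * A * B)]; field_simp

/-- the Wick product of multiples -/
lemma Wp_smul {k : ℕ} (w : Fin k → ℝ) (C : Fin k → Fin k → ℝ) (φ : Fin k → ℝ) :
    Wp (fun i j => w i * w j * C i j) (fun i => w i * φ i) = (∏ i, w i) * Wp C φ := by
  unfold Wp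
  rw [Finset.mul_sum]
  refine Finset.sum_congr rfl fun T _ => ?_
  have e : (fun i j => -(w i * w j * C i j)) = fun i j => w i * w j * -C i j := by
    funext i j; ring
  rw [e, wick_scale, Finset.prod_mul_distrib, ← Finset.prod_mul_prod_compl T w]
  ring

/-- the product of sums of Wick products -/
lemma prod_Wp {n d r : ℕ} {k : Fin r → ℕ} (P : (s : Fin r) → (Fin (k s) → Fin n) → ℝ)
    (σ : Fin r → Slot d → Slot d → ℝ) (D : (s : Fin r) → Fin (k s) → Slot d)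
    (φ : Fin r → Fin n → Slot d → ℝ) :
    ∏ s, (∑ γ : Fin (k s) → Fin n, P s γ *
      Wp (fun i j => if γ i = γ j then σ s (D s i) (D s j) else 0) fun i => φ s (γ i) (D s i)) =
      ∑ γ : (s : Fin r) → Fin (k s) → Fin n, (∏ s, P s (γ s)) * ∑ T : Finset (Lw k),
        wick (Bs σ D γ) Tᶜ * ∏ i ∈ T, φ (ofLex i).1 (γ (ofLex i).1 (ofLex i).2)
          (D (ofLex i).1 (ofLex i).2) := by
  rw [Finset.prod_univ_sum, Fintype.piFinset_univ]
  refine Finset.sum_congr rfl fun γ _ => ?_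
  rw [Finset.prod_mul_distrib]
  congr 1
  have h := T2h69.WA2.main (Bs σ D γ) (fun i j hij => by unfold Bs; rw [if_neg hij])
    fun i : Lw k => φ (ofLex i).1 (γ (ofLex i).1 (ofLex i).2) (D (ofLex i).1 (ofLex i).2)
  rw [← h]
  refine Finset.prod_congr rfl fun s _ => ?_
  unfold Wp
  refine Finset.sum_congr rfl fun T _ => ?_
  congr 1
  congr 1
  funext i j
  have hb : Bs σ D γ (toLex ⟨s, i⟩) (toLex ⟨s, j⟩) =
      if γ s i = γ s j then -σ s (D s i) (D s j) else 0 := by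
    unfold Bs
    exact if_pos (show (ofLex (toLex (⟨s, i⟩ : (s : Fin r) × Fin (k s)))).1 =
      (ofLex (toLex (⟨s, j⟩ : (s : Fin r) × Fin (k s)))).1 from rfl)
  rw [hb]
  show -(if γ s i = γ s j then σ s (D s i) (D s j) else 0) = _
  by_cases h : γ s i = γ s j
  · rw [if_pos h, if_pos h]
  · rw [if_neg h, if_neg h, neg_zero]

end

end Pool.Agent.T2h94
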