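import Mathlib
import Pool.Agent.T2h94.Wick
import Pool.Agent.T2h94.KDef3

/-!
# Statements of the tasks KC, WA1, WA2, WA3 (not to be imported by a hand-in)
-/

open Filter
open scoped Topology

namespace Pool.Agent.T2h94

/-- KC -/
def T_KC : Prop := ∀ {d : ℕ}, 3 ≤ d → ∀ (w : List (Fin d × Bool)) {X : Fin d → ℝ}, X ≠ 0 →
    ∀ {a : ℕ → ℝ}, (∀ i, 0 < a i) → Tendsto a atTop (𝓝 0) →
    ∀ {K : ℕ → ℕ}, Tendsto (fun i => (K i : ℝ) * a i ^ 2) atTop atTop →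
    ∀ {z : ℕ → Fin d → ℤ}, (∀ s, Tendsto (fun i => a i * (z i s : ℝ)) atTop (𝓝 (X s))) →
    Tendsto (fun i => (a i ^ (d - 2 + w.length))⁻¹ * dw (gk d (K i)) w (z i)) atTop
      (𝓝 (sgw w * pd (Gr d) (w.map Prod.fst) X))

/-- WA1 -/
def T_WA1 : Prop := ∀ {ι : Type} [LinearOrder ι] (A B : ι → ι → ℝ) (S : Finset ι),
    wick (fun i j => A i j + B i j) S = ∑ T ∈ S.powerset, wick A T * wick B (S \ T)

/-- WA2 -/
def T_WA2 : Prop := ∀ {r : ℕ} {k : Fin r → ℕ}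
    (B : (Σₗ s : Fin r, Fin (k s)) → (Σₗ s : Fin r, Fin (k s)) → ℝ),
    (∀ i j, (ofLex i).1 ≠ (ofLex j).1 → B i j = 0) → ∀ φ : (Σₗ s : Fin r, Fin (k s)) → ℝ,
    ∏ s, (∑ T : Finset (Fin (k s)), wick (fun i j => B (toLex ⟨s, i⟩) (toLex ⟨s, j⟩)) Tᶜ *
      ∏ i ∈ T, φ (toLex ⟨s, i⟩)) =
    ∑ T : Finset (Σₗ s : Fin r, Fin (k s)), wick B Tᶜ * ∏ i ∈ T, φ i

/-- WA3 -/
def T_WA3 : Prop := ∀ {n k : ℕ} (A : Fin n → Fin n → ℝ),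
    (∀ b b', ∑ a, A a b * A a b' = if b = b' then 1 else 0) →
    (∀ a a', ∑ b, A a b * A a' b = if a = a' then 1 else 0) →
    ∀ (c : Fin k → Fin k → ℝ) (P : (Fin k → Fin n) → ℝ),
    (∀ γ, P γ = ∑ α : Fin k → Fin n, (∏ i, A (α i) (γ i)) * P α) → ∀ φ : Fin k → Fin n → ℝ,
    ∑ α : Fin k → Fin n, P α * ∑ T : Finset (Fin k),
      wick (fun i j => if α i = α j then c i j else 0) Tᶜ * ∏ i ∈ T, ∑ b, A (α i) b * φ i b =
    ∑ α : Fin k → Fin n, P α * ∑ T : Finset (Fin k),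
      wick (fun i j => if α i = α j then c i j else 0) Tᶜ * ∏ i ∈ T, φ i (α i)

end Pool.Agent.T2h94
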